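import Mathlib
import Pool.Agent.Lib.MP_209724_lc.Linear

/-!
Asymptotic expansion of a polynomial `P` near a large multiple of a zero `ζ` of a factor `f` of its
leading form, and the resulting criterion for the existence of zeros.
-/

namespace Pool.Agent.Lib.MP_209724_lc

open Filter Topology Metric Complex MvPolynomial

variable {n : ℕ}

/-- The derivative of `f` at `ζ` in the direction `v`. -/
noncomputable def dir (f : MvPolynomial (Fin n) ℂ) (ζ v : Fin n → ℂ) : ℂ :=
  ∑ j, eval ζ (pderiv j f) * v j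

theorem continuous_dir (f : MvPolynomial (Fin n) ℂ) (ζ : Fin n → ℂ) :
    Continuous (fun v => dir f ζ v) := by
  unfold dir
  exact continuous_finsetSum _ fun j _ => continuous_const.mul (continuous_apply j)

theorem dir_smul (f : MvPolynomial (Fin n) ℂ) (ζ v : Fin n → ℂ) (c : ℂ) :
    dir f ζ (fun i => c * v i) = c * dir f ζ v := by
  unfold dir
  rw [Finset.mul_sum]
  exact Finset.sum_congr rfl fun j _ => by ring

theorem dir_add (f : MvPolynomial (Fin n) ℂ) (ζ v w : Fin n → ℂ) :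
    dir f ζ (fun i => v i + w i) = dir f ζ v + dir f ζ w := by
  unfold dir
  rw [← Finset.sum_add_distrib]
  exact Finset.sum_congr rfl fun j _ => by ring

/-- First-order expansion of a polynomial, uniform in the direction. -/
theorem exists_expansion (q : MvPolynomial (Fin n) ℂ) (ζ : Fin n → ℂ) :
    ∃ F : ℂ × (Fin n → ℂ) → ℂ, Continuous F ∧
      (∀ h v, eval (fun i => ζ i + h * v i) q = eval ζ q + h * F (h, v)) ∧
      ∀ v, F (0, v) = dir q ζ v := by
  induction q using MvPolynomial.induction_on with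
  | C c => exact ⟨fun _ => 0, continuous_const, by simp, by simp [dir]⟩
  | add p q hp hq =>
    obtain ⟨F, hF, h1, h2⟩ := hp
    obtain ⟨G, hG, h3, h4⟩ := hq
    refine ⟨fun x => F x + G x, hF.add hG, fun h v => ?_, fun v => ?_⟩
    · rw [map_add, map_add, h1, h3]; ring
    · change F (0, v) + G (0, v) = _
      rw [h2, h4]
      unfold dir
      rw [← Finset.sum_add_distrib]
      refine Finset.sum_congr rfl fun j _ => ?_
      rw [map_add, map_add]; ring
  | mul_X p i hp =>
    obtain ⟨F, hF, h1, h2⟩ := hp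
    refine ⟨fun x => F x * ζ i + eval ζ p * x.2 i + x.1 * F x * x.2 i, ?_, fun h v => ?_,
      fun v => ?_⟩
    · have h3 : Continuous fun x : ℂ × (Fin n → ℂ) => x.2 i := (continuous_apply i).comp
        continuous_snd
      exact ((hF.mul continuous_const).add (continuous_const.mul h3)).add
        ((continuous_fst.mul hF).mul h3)
    · rw [map_mul, map_mul, h1, eval_X, eval_X]; ring
    · simp only [h2, zero_mul, add_zero]
      unfold dir
      have h3 : ∀ j, eval ζ (pderiv j (p * X i)) * v j =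
          eval ζ (pderiv j p) * v j * ζ i + (if j = i then eval ζ p * v i else 0) := by
        intro j
        rw [Derivation.leibniz, pderiv_X, smul_eq_mul, smul_eq_mul, map_add, map_mul, map_mul,
          eval_X]
        by_cases hji : j = i
        · subst hji
          simp; ring
        · simp [hji, Ne.symm hji]; ring
      simp_rw [h3]
      rw [Finset.sum_add_distrib, ← Finset.sum_mul, Finset.sum_ite_eq' Finset.univ i]
      simp

/-- Convergence of a form of positive degree vanishing at `ζ`. -/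
theorem uconv_factor {s : Set ℂ} {f : MvPolynomial (Fin n) ℂ} {e : ℕ} (hf : f.IsHomogeneous e)
    (he : 0 < e) {ζ : Fin n → ℂ} (h0 : eval ζ f = 0) {R r : ℕ → ℂ}
    (hR : ∀ᶠ N in atTop, R N ≠ 0) (hr : ∀ᶠ N in atTop, r N ≠ 0)
    (hrR : Tendsto (fun N => r N / R N) atTop (𝓝 0))
    {V : ℕ → ℂ → Fin n → ℂ} {V₀ : ℂ → Fin n → ℂ} (hV : UConv s V V₀) :
    UConv s (fun N u => eval (fun i => R N * ζ i + r N * V N u i) f / (R N ^ (e - 1) * r N))
      (fun u => dir f ζ (V₀ u)) := by
  obtain ⟨F, hF, h1, h2⟩ := exists_expansion f ζ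
  have h3 := ((UConv.const (s := s) hrR).prodMk hV).comp hF
  simp only [h2] at h3
  refine h3.congr ?_
  filter_upwards [hR, hr] with N hRN hrN u _
  have h4 : (fun i => R N * ζ i + r N * V N u i) =
      fun i => R N * (ζ i + (r N / R N) * V N u i) := by
    funext i
    field_simp
  rw [h4, eval_mul_of_isHomogeneous hf, h1, h0, zero_add]
  have h5 : R N ^ e = R N ^ (e - 1) * R N := by rw [← pow_succ]; congr 1; omega
  rw [h5]
  field_simp

/-- Convergence of a form not vanishing at `ζ`. -/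
theorem uconv_cofactor {s : Set ℂ} {w : MvPolynomial (Fin n) ℂ} {k : ℕ} (hw : w.IsHomogeneous k)
    {ζ : Fin n → ℂ} {R r : ℕ → ℂ}
    (hR : ∀ᶠ N in atTop, R N ≠ 0)
    (hrR : Tendsto (fun N => r N / R N) atTop (𝓝 0))
    {V : ℕ → ℂ → Fin n → ℂ} {V₀ : ℂ → Fin n → ℂ} (hV : UConv s V V₀) :
    UConv s (fun N u => eval (fun i => R N * ζ i + r N * V N u i) w / R N ^ k)
      (fun _ => eval ζ w) := by
  have hcont : Continuous (fun x : ℂ × (Fin n → ℂ) => eval (fun i => ζ i + x.1 * x.2 i) w) := by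
    refine (MvPolynomial.continuous_eval w).comp (continuous_pi fun i => ?_)
    exact continuous_const.add (continuous_fst.mul ((continuous_apply i).comp continuous_snd))
  have h3 := ((UConv.const (s := s) hrR).prodMk hV).comp hcont
  simp only [zero_mul, add_zero] at h3
  refine h3.congr ?_
  filter_upwards [hR] with N hRN u _
  have h4 : (fun i => R N * ζ i + r N * V N u i) =
      fun i => R N * (ζ i + (r N / R N) * V N u i) := by
    funext i
    field_simp
  rw [h4, eval_mul_of_isHomogeneous hw]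
  rw [mul_div_cancel_left₀ _ (pow_ne_zero _ hRN)]

/-- The data of a factorisation of the homogeneous components of `P`. -/
structure Fact (P f : MvPolynomial (Fin n) ℂ) (d e : ℕ) (ρ k : ℕ → ℕ)
    (w : ℕ → MvPolynomial (Fin n) ℂ) : Prop where
  deg : P.totalDegree = d
  pos : 0 < e
  hom : f.IsHomogeneous e
  comp : ∀ j ≤ d, homogeneousComponent j P = f ^ ρ j * w j
  whom : ∀ j, (w j).IsHomogeneous (k j)
  kρ : ∀ j, w j ≠ 0 → k j + e * ρ j = j

theorem Fact.eval_eq {P f : MvPolynomial (Fin n) ℂ} {d e : ℕ} {ρ k : ℕ → ℕ}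
    {w : ℕ → MvPolynomial (Fin n) ℂ} (h : Fact P f d e ρ k w) (x : Fin n → ℂ) :
    eval x P = ∑ j ∈ Finset.range (d + 1), eval x f ^ ρ j * eval x (w j) := by
  have h1 : P = ∑ j ∈ Finset.range (d + 1), MvPolynomial.homogeneousComponent j P := by
    rw [← h.deg]; exact (MvPolynomial.sum_homogeneousComponent P).symm
  conv_lhs => rw [h1]
  rw [map_sum]
  refine Finset.sum_congr rfl fun j hj => ?_
  rw [h.comp j (by have := Finset.mem_range.mp hj; omega), map_mul, map_pow]

/-- The limit polynomial, evaluated at `T`. -/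
noncomputable def limPoly (w : ℕ → MvPolynomial (Fin n) ℂ) (ρ : ℕ → ℕ) (d : ℕ) (γ : ℕ → ℂ)
    (ζ : Fin n → ℂ) (T : ℂ) : ℂ :=
  ∑ j ∈ Finset.range (d + 1), γ j * T ^ ρ j * eval ζ (w j)

/-- Convergence of `P` after rescaling. -/
theorem Fact.uconv {P f : MvPolynomial (Fin n) ℂ} {d e : ℕ} {ρ k : ℕ → ℕ}
    {w : ℕ → MvPolynomial (Fin n) ℂ} (h : Fact P f d e ρ k w) {s : Set ℂ} {ζ : Fin n → ℂ}
    (h0 : eval ζ f = 0) {R r G : ℕ → ℂ}
    (hR : ∀ᶠ N in atTop, R N ≠ 0) (hr : ∀ᶠ N in atTop, r N ≠ 0)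
    (hrR : Tendsto (fun N => r N / R N) atTop (𝓝 0)) {γ : ℕ → ℂ}
    (hγ : ∀ j ≤ d, w j ≠ 0 →
      Tendsto (fun N => R N ^ (j - ρ j) * r N ^ ρ j / G N) atTop (𝓝 (γ j)))
    {V : ℕ → ℂ → Fin n → ℂ} {V₀ : ℂ → Fin n → ℂ} (hV : UConv s V V₀) :
    UConv s (fun N u => eval (fun i => R N * ζ i + r N * V N u i) P / G N)
      (fun u => limPoly w ρ d γ ζ (dir f ζ (V₀ u))) := by
  have key : ∀ j ∈ Finset.range (d + 1),
      UConv s (fun N u => eval (fun i => R N * ζ i + r N * V N u i) f ^ ρ j *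
        eval (fun i => R N * ζ i + r N * V N u i) (w j) / G N)
      (fun u => γ j * dir f ζ (V₀ u) ^ ρ j * eval ζ (w j)) := by
    intro j hj
    have hjd : j ≤ d := by have := Finset.mem_range.mp hj; omega
    by_cases hw : w j = 0
    · simp only [hw, map_zero, mul_zero, zero_div]
      exact ⟨⟨0, fun u _ => by simp⟩, fun ε hε => Eventually.of_forall fun N u _ => by simpa⟩
    · have h1 := (uconv_factor h.hom h.pos h0 hR hr hrR hV).pow (ρ j)
      have h2 := uconv_cofactor (h.whom j) (ζ := ζ) hR hrR hV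
      have h3 := ((UConv.const (s := s) (hγ j hjd hw)).mul h1).mul h2
      refine h3.congr ?_
      filter_upwards [hR, hr] with N hRN hrN u _
      have h4 := h.kρ j hw
      have h5 : R N ^ (j - ρ j) = (R N ^ (e - 1)) ^ ρ j * R N ^ k j := by
        rw [← pow_mul, ← pow_add]
        congr 1
        have he := h.pos
        obtain ⟨e', rfl⟩ : ∃ e', e = e' + 1 := ⟨e - 1, by omega⟩
        have : (e' + 1) * ρ j = e' * ρ j + ρ j := by ring
        have h6 : e' + 1 - 1 = e' := by omega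
        rw [h6]
        omega
      rw [h5, div_pow, mul_pow]
      have h7 : R N ^ k j ≠ 0 := pow_ne_zero _ hRN
      have h8 : (R N ^ (e - 1)) ^ ρ j ≠ 0 := pow_ne_zero _ (pow_ne_zero _ hRN)
      have h9 : r N ^ ρ j ≠ 0 := pow_ne_zero _ hrN
      by_cases hG : G N = 0
      · simp [hG]
      · field_simp
  have h1 := UConv.sum (Finset.range (d + 1)) key
  refine h1.congr (Eventually.of_forall fun N u _ => ?_)
  rw [h.eval_eq, Finset.sum_div]

/-- **Existence of zeros.** -/
theorem Fact.exists_zero {P f : MvPolynomial (Fin n) ℂ} {d e : ℕ} {ρ k : ℕ → ℕ}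
    {w : ℕ → MvPolynomial (Fin n) ℂ} (h : Fact P f d e ρ k w) {rad : ℝ} (hrad : 0 < rad)
    {ζ : Fin n → ℂ} (h0 : eval ζ f = 0) {R r G : ℕ → ℂ}
    (hR : ∀ᶠ N in atTop, R N ≠ 0) (hr : ∀ᶠ N in atTop, r N ≠ 0) (hG : ∀ᶠ N in atTop, G N ≠ 0)
    (hrR : Tendsto (fun N => r N / R N) atTop (𝓝 0)) {γ : ℕ → ℂ}
    (hγ : ∀ j ≤ d, w j ≠ 0 →
      Tendsto (fun N => R N ^ (j - ρ j) * r N ^ ρ j / G N) atTop (𝓝 (γ j)))
    {V : ℕ → ℂ → Fin n → ℂ} {V₀ : ℂ → Fin n → ℂ} (hV : UConv (ball 0 rad) V V₀)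
    (hVd : ∀ᶠ N in atTop, ∀ i, DifferentiableOn ℂ (fun u => V N u i) (ball 0 rad))
    (hB : AnalyticAt ℂ (fun u => limPoly w ρ d γ ζ (dir f ζ (V₀ u))) 0)
    (hB0 : limPoly w ρ d γ ζ (dir f ζ (V₀ 0)) = 0)
    (hBne : ∃ᶠ u in 𝓝 (0 : ℂ), limPoly w ρ d γ ζ (dir f ζ (V₀ u)) ≠ 0) :
    ∀ᶠ N in atTop, ∃ u ∈ ball (0 : ℂ) rad,
      eval (fun i => R N * ζ i + r N * V N u i) P = 0 := by
  have h1 := h.uconv h0 hR hr hrR hγ hV
  have h2 : ∀ᶠ N in atTop, DifferentiableOn ℂ
      (fun u => eval (fun i => R N * ζ i + r N * V N u i) P / G N) (ball 0 rad) := by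
    filter_upwards [hVd] with N hN
    refine DifferentiableOn.div_const (differentiableOn_eval (fun i => ?_) P) _
    exact (differentiableOn_const _).add ((differentiableOn_const _).mul (hN i))
  have h3 := UConv.exists_zero hrad hB hB0 hBne h2 h1
  filter_upwards [h3, hG] with N hN hGN
  obtain ⟨u, hu, hu0⟩ := hN
  exact ⟨u, hu, (div_eq_zero_iff.mp hu0).resolve_right hGN⟩

end Pool.Agent.Lib.MP_209724_lc
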