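import Mathlib

/-!
Omitted values of a monomial on an irreducible subvariety of the torus are countable.
-/

namespace Pool.Agent.Lib.MP_209724_lc

open MvPolynomial

/-- points with nonzero coordinates of the zero locus of J -/
def torusLocus {n : ℕ} (J : Ideal (MvPolynomial (Fin n) ℂ)) : Set (Fin n → ℂ) :=
  {y | (∀ i, y i ≠ 0) ∧ ∀ f ∈ J, MvPolynomial.eval y f = 0}

/-- A polynomial vanishing at all points of an ideal's zero locus lies in the radical. -/
theorem mem_radical_of_vanish {n : ℕ} (I : Ideal (MvPolynomial (Fin n) ℂ))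
    (g : MvPolynomial (Fin n) ℂ)
    (hg : ∀ y : Fin n → ℂ, (∀ f ∈ I, MvPolynomial.eval y f = 0) → MvPolynomial.eval y g = 0) :
    g ∈ I.radical := by
  rw [← MvPolynomial.vanishingIdeal_zeroLocus_eq_radical (K := ℂ) I,
    MvPolynomial.mem_vanishingIdeal_iff]
  intro y hy
  rw [MvPolynomial.mem_zeroLocus_iff] at hy
  have h1 := hg y (fun f hf => by
    have := hy f hf
    rwa [MvPolynomial.aeval_eq_eval] at this)
  rw [MvPolynomial.aeval_eq_eval]
  exact h1

theorem X_notMem {n : ℕ} (J : Ideal (MvPolynomial (Fin n) ℂ))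
    (hne : (torusLocus J).Nonempty) (i : Fin n) : (X i : MvPolynomial (Fin n) ℂ) ∉ J := by
  obtain ⟨y, hy1, hy2⟩ := hne
  intro h
  have := hy2 _ h
  rw [eval_X] at this
  exact hy1 i this

theorem mem_of_vanish {n : ℕ} (J : Ideal (MvPolynomial (Fin n) ℂ)) [hJ : J.IsPrime]
    (hne : (torusLocus J).Nonempty) (g : MvPolynomial (Fin n) ℂ)
    (hg : ∀ y ∈ torusLocus J, MvPolynomial.eval y g = 0) : g ∈ J := by
  have h1 : g * ∏ i, (X i : MvPolynomial (Fin n) ℂ) ∈ J.radical := by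
    apply mem_radical_of_vanish
    intro y hy
    by_cases h : ∀ i, y i ≠ 0
    · rw [map_mul, hg y ⟨h, hy⟩, zero_mul]
    · push Not at h
      obtain ⟨i, hi⟩ := h
      rw [map_mul, map_prod]
      have : ∏ j, eval y (X j : MvPolynomial (Fin n) ℂ) = 0 :=
        Finset.prod_eq_zero (Finset.mem_univ i) (by rw [eval_X, hi])
      rw [this, mul_zero]
  rw [hJ.radical] at h1
  rcases hJ.mem_or_mem h1 with h | h
  · exact h
  · exfalso
    obtain ⟨i, _, hi⟩ := (hJ.prod_mem_iff).1 h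
    exact X_notMem J hne i hi

theorem countable_omitted {n : ℕ} (J : Ideal (MvPolynomial (Fin n) ℂ)) [hJ : J.IsPrime]
    (ν : Fin n → ℤ) (hν : ∀ c : ℂ, ∃ y ∈ torusLocus J, ∏ i, y i ^ ν i ≠ c) :
    {lam : ℂ | ¬ ∃ y ∈ torusLocus J, ∏ i, y i ^ ν i = lam}.Countable := by
  classical
  have hne : (torusLocus J).Nonempty := by
    obtain ⟨y, hy, _⟩ := hν 0
    exact ⟨y, hy⟩
  let Q := MvPolynomial (Fin n) ℂ ⧸ J
  let K := FractionRing Q
  let ι : MvPolynomial (Fin n) ℂ →ₐ[ℂ] K :=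
    (IsScalarTower.toAlgHom ℂ Q K).comp (Ideal.Quotient.mkₐ ℂ J)
  have hι : ∀ g, ι g = 0 → g ∈ J := by
    intro g hg
    have h1 : algebraMap Q K (Ideal.Quotient.mk J g) = 0 := hg
    have h2 : Ideal.Quotient.mk J g = 0 :=
      (IsFractionRing.injective Q K) (by rw [h1, map_zero])
    exact Ideal.Quotient.eq_zero_iff_mem.1 h2
  have hι' : ∀ g ∈ J, ι g = 0 := by
    intro g hg
    show algebraMap Q K (Ideal.Quotient.mk J g) = 0
    rw [Ideal.Quotient.eq_zero_iff_mem.2 hg, map_zero]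
  have hX : ∀ i, ι (X i) ≠ 0 := fun i h => X_notMem J hne i (hι _ h)
  set Mp : MvPolynomial (Fin n) ℂ := ∏ i, X i ^ (ν i).toNat with hMp
  set Mm : MvPolynomial (Fin n) ℂ := ∏ i, X i ^ (-ν i).toNat with hMm
  have hzp : ∀ {F : Type} [Field F] (y : Fin n → F), (∀ i, y i ≠ 0) →
      ∏ i, y i ^ ν i = (∏ i, y i ^ (ν i).toNat) / ∏ i, y i ^ (-ν i).toNat := by
    intro F _ y hy
    rw [← Finset.prod_div_distrib]
    apply Finset.prod_congr rfl
    intro i _
    rw [← zpow_natCast, ← zpow_natCast, ← zpow_sub₀ (hy i)]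
    congr 1
    omega
  have hιMp : ι Mp = ∏ i, ι (X i) ^ (ν i).toNat := by
    rw [hMp, map_prod]; simp
  have hιMm : ι Mm = ∏ i, ι (X i) ^ (-ν i).toNat := by
    rw [hMm, map_prod]; simp
  have hMm0 : ι Mm ≠ 0 := by
    rw [hιMm]
    exact Finset.prod_ne_zero_iff.2 (fun i _ => pow_ne_zero _ (hX i))
  have heMp : ∀ y : Fin n → ℂ, eval y Mp = ∏ i, y i ^ (ν i).toNat := by
    intro y; rw [hMp, map_prod]; simp
  have heMm : ∀ y : Fin n → ℂ, eval y Mm = ∏ i, y i ^ (-ν i).toNat := by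
    intro y; rw [hMm, map_prod]; simp
  set φ : K := ι Mp / ι Mm with hφ
  -- transcendence
  have htr : Transcendental ℂ φ := by
    intro halg
    have hint : IsIntegral ℂ φ := halg.isIntegral
    obtain ⟨c, hc⟩ := minpoly.mem_range_of_degree_eq_one ℂ φ
      (IsAlgClosed.degree_eq_one_of_irreducible ℂ (minpoly.irreducible hint))
    have h1 : ι (Mp - C c * Mm) = 0 := by
      rw [map_sub, map_mul, sub_eq_zero]
      have h2 : ι (C c) = algebraMap ℂ K c := ι.commutes c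
      rw [h2, hc, hφ, div_mul_cancel₀ _ hMm0]
    have h3 := hι _ h1
    obtain ⟨y, hy, hyc⟩ := hν c
    apply hyc
    have h4 := hy.2 _ h3
    rw [map_sub, map_mul, eval_C, heMp, heMm, sub_eq_zero] at h4
    rw [hzp y hy.1, h4, mul_div_cancel_right₀]
    exact Finset.prod_ne_zero_iff.2 (fun i _ => pow_ne_zero _ (hy.1 i))
  -- the countable dimensional algebra
  let y' : Fin n ⊕ Fin n → K := Sum.elim (fun i => ι (X i)) (fun i => (ι (X i))⁻¹)
  let W : Submodule ℂ K := LinearMap.range (aeval (R := ℂ) y').toLinearMap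
  have hWmul : ∀ a ∈ W, ∀ b ∈ W, a * b ∈ W := by
    rintro _ ⟨a, rfl⟩ _ ⟨b, rfl⟩
    exact ⟨a * b, by simp⟩
  have hW1 : ∀ g, ι g ∈ W := by
    intro g
    refine ⟨rename Sum.inl g, ?_⟩
    show aeval y' (rename Sum.inl g) = ι g
    rw [aeval_rename]
    have : (aeval (R := ℂ) (y' ∘ Sum.inl)) = ι := by
      ext i
      simp [y']
    rw [this]
  have hW2 : ∀ N : ℕ, (ι (∏ i, X i) ^ N)⁻¹ ∈ W := by
    intro N
    refine ⟨(∏ i, X (Sum.inr i)) ^ N, ?_⟩
    show aeval y' ((∏ i, X (Sum.inr i)) ^ N) = _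
    rw [map_pow, map_prod, map_prod, ← inv_pow]
    simp [y']
  have hrank : Module.rank ℂ W ≤ Cardinal.aleph0 := by
    calc Module.rank ℂ W ≤ Module.rank ℂ (MvPolynomial (Fin n ⊕ Fin n) ℂ) := rank_range_le _
      _ = Cardinal.mk ((Fin n ⊕ Fin n) →₀ ℕ) := MvPolynomial.rank_eq_lift.trans (by simp)
      _ ≤ Cardinal.aleph0 := Cardinal.mk_le_aleph0
  -- omitted values give elements of W
  set Λ : Set ℂ := {lam : ℂ | ¬ ∃ y ∈ torusLocus J, ∏ i, y i ^ ν i = lam} with hΛ
  have hmem : ∀ lam ∈ Λ, (φ - algebraMap ℂ K lam)⁻¹ ∈ W := by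
    intro lam hlam
    have h1 : (∏ i, (X i : MvPolynomial (Fin n) ℂ)) ∈
        (J ⊔ Ideal.span {Mp - C lam * Mm}).radical := by
      apply mem_radical_of_vanish
      intro y hy
      rw [map_prod]
      by_contra hcon
      have hy0 : ∀ i, y i ≠ 0 := by
        intro i hi
        apply hcon
        exact Finset.prod_eq_zero (Finset.mem_univ i) (by rw [eval_X, hi])
      apply hlam
      refine ⟨y, ⟨hy0, fun f hf => hy f (Ideal.mem_sup_left hf)⟩, ?_⟩
      have h2 := hy (Mp - C lam * Mm) (Ideal.mem_sup_right (Ideal.subset_span rfl))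
      rw [map_sub, map_mul, eval_C, heMp, heMm, sub_eq_zero] at h2
      rw [hzp y hy0, h2, mul_div_cancel_right₀]
      exact Finset.prod_ne_zero_iff.2 (fun i _ => pow_ne_zero _ (hy0 i))
    obtain ⟨N, hN⟩ := h1
    rw [Submodule.mem_sup] at hN
    obtain ⟨j, hj, s, hs, hjs⟩ := hN
    obtain ⟨g, rfl⟩ := Ideal.mem_span_singleton'.1 hs
    have h2 : ι (∏ i, X i) ^ N = ι g * ι Mm * (φ - algebraMap ℂ K lam) := by
      rw [← map_pow, ← hjs, map_add, hι' j hj, zero_add, map_mul, map_sub, map_mul]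
      have h3 : ι (C lam) = algebraMap ℂ K lam := ι.commutes lam
      rw [h3]
      have h4 : ι Mp = φ * ι Mm := by rw [hφ, div_mul_cancel₀ _ hMm0]
      rw [h4]
      ring
    have h5 : ι (∏ i, X i) ^ N ≠ 0 := by
      apply pow_ne_zero
      rw [map_prod]
      exact Finset.prod_ne_zero_iff.2 (fun i _ => hX i)
    have h6 : (φ - algebraMap ℂ K lam) ≠ 0 := by
      intro h
      rw [h, mul_zero] at h2
      exact h5 h2
    have h7 : (φ - algebraMap ℂ K lam)⁻¹ = ι g * ι Mm * (ι (∏ i, X i) ^ N)⁻¹ := by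
      have h8 : ι g * ι Mm ≠ 0 := by
        intro h
        rw [h, zero_mul] at h2
        exact h5 h2
      rw [h2, mul_inv, mul_inv_cancel_left₀ h8]
    rw [h7]
    exact hWmul _ (hWmul _ (hW1 _) _ (hW1 _)) _ (hW2 N)
  have hli := htr.linearIndependent_sub_inv
  have hli2 : LinearIndependent ℂ (fun a : Λ => (φ - algebraMap ℂ K a.1)⁻¹) :=
    hli.comp (fun a : Λ => a.1) Subtype.val_injective
  have hli3 : LinearIndependent ℂ (fun a : Λ => (⟨(φ - algebraMap ℂ K a.1)⁻¹, hmem a.1 a.2⟩ : W)) := by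
    apply LinearIndependent.of_comp W.subtype
    exact hli2
  have hcard := hli3.cardinal_le_rank
  have : Cardinal.mk Λ ≤ Cardinal.aleph0 := hcard.trans hrank
  exact Cardinal.le_aleph0_iff_set_countable.1 this

end Pool.Agent.Lib.MP_209724_lc


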