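import Mathlib
import Pool.Agent.Lib.MP_209724_lc.Omitted

/-!
Free irreducible curves in the torus and their germs.
-/

namespace Pool.Agent.Lib.MP_209724_lc

open Filter Topology

variable {n : ℕ}

/-- The germ `t ↦ (t ^ a i * exp (ℓ i t))_i`. -/
noncomputable def germ (a : Fin n → ℤ) (ℓ : Fin n → ℂ → ℂ) (t : ℂ) : Fin n → ℂ :=
  fun i => t ^ a i * Complex.exp (ℓ i t)

/-- `t ↦ germ a ℓ t` is a nonconstant germ of curve contained in `W`, away from `t = 0`. -/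
structure IsGerm (W : Set (Fin n → ℂ)) (a : Fin n → ℤ) (ℓ : Fin n → ℂ → ℂ) : Prop where
  analytic : ∀ i, AnalyticAt ℂ (ℓ i) 0
  mem : ∀ᶠ t in 𝓝[≠] (0 : ℂ), germ a ℓ t ∈ W
  nonconst : ∀ y, ¬ ∀ᶠ t in 𝓝[≠] (0 : ℂ), germ a ℓ t = y

/-- The ideal `J` defines an irreducible curve in the torus `(ℂ*)ⁿ`, which is not contained in any
coset `{∏ y_i ^ m_i = c}` with `m ≠ 0`. -/
structure IsFreeCurve (J : Ideal (MvPolynomial (Fin n) ℂ)) : Prop where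
  prime : J.IsPrime
  dim : Algebra.trdeg ℂ (MvPolynomial (Fin n) ℂ ⧸ J) = 1
  free : ∀ m : Fin n → ℤ, m ≠ 0 → ∀ c : ℂ, ∃ y ∈ torusLocus J, ∏ i, y i ^ m i ≠ c

/-- There are arbitrarily large zeros `x` of `P` with `exp x ∈ W`. -/
def Solv (P : MvPolynomial (Fin n) ℂ) (W : Set (Fin n → ℂ)) : Prop :=
  ∀ M : ℝ, ∃ x : Fin n → ℂ, M < ‖x‖ ∧ MvPolynomial.eval x P = 0 ∧
    (fun i => Complex.exp (x i)) ∈ W

/-- There are arbitrarily large `x` with `P(x, exp x) = 0` and `exp x ∈ W`; here `P` is a polynomial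
in `x` with coefficients in `ℂ[y]`. -/
def Solv2 (P : MvPolynomial (Fin n) (MvPolynomial (Fin n) ℂ)) (W : Set (Fin n → ℂ)) : Prop :=
  ∀ M : ℝ, ∃ x : Fin n → ℂ, M < ‖x‖ ∧
    MvPolynomial.eval x (MvPolynomial.map (MvPolynomial.eval fun i => Complex.exp (x i)) P) = 0 ∧
    (fun i => Complex.exp (x i)) ∈ W

end Pool.Agent.Lib.MP_209724_lc
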