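import Mathlib

/-!
Roots with negative real part for a pair of complex polynomials.
-/

namespace Pool.Agent.Lib.MP_209724_lc

open Polynomial

theorem esymm_one_eq (s : Multiset ℂ) : s.esymm 1 = s.sum := by
  simp [Multiset.esymm, Multiset.powersetCard_one]

theorem esymm_two_cons (r : ℂ) (s : Multiset ℂ) :
    (r ::ₘ s).esymm 2 = s.esymm 2 + r * s.sum := by
  rw [← esymm_one_eq]
  unfold Multiset.esymm
  rw [Multiset.powersetCard_cons, Multiset.map_add, Multiset.sum_add, Multiset.map_map,
    ← Multiset.sum_map_mul_left]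
  congr 2
  refine Multiset.map_congr rfl fun t _ => ?_
  simp

theorem two_mul_esymm_two (s : Multiset ℂ) :
    2 * s.esymm 2 = s.sum ^ 2 - (s.map fun r => r ^ 2).sum := by
  induction s using Multiset.induction_on with
  | empty =>
    have h : Multiset.powersetCard 2 (0 : Multiset ℂ) = 0 := Multiset.powersetCard_zero_right 1
    simp [Multiset.esymm, h]
  | cons r s ih =>
    rw [esymm_two_cons, mul_add, ih, Multiset.sum_cons, Multiset.map_cons, Multiset.sum_cons]
    ring

theorem sum_re (s : Multiset ℂ) : (s.map Complex.re).sum = s.sum.re := by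
  induction s using Multiset.induction_on with
  | empty => simp
  | cons r s ih => simp [ih]

theorem all_zero_of_sum_zero (s : Multiset ℝ) (h0 : ∀ r ∈ s, 0 ≤ r) (hs : s.sum = 0) :
    ∀ r ∈ s, r = 0 := by
  induction s using Multiset.induction_on with
  | empty => simp
  | cons r s ih =>
    intro x hx
    have h1 : 0 ≤ s.sum := Multiset.sum_nonneg fun y hy => h0 y (Multiset.mem_cons_of_mem hy)
    have h2 : 0 ≤ r := h0 r (Multiset.mem_cons_self r s)
    rw [Multiset.sum_cons] at hs
    have h3 : r = 0 := by linarith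
    have h4 : s.sum = 0 := by linarith
    rcases Multiset.mem_cons.mp hx with rfl | hx
    · exact h3
    · exact ih (fun y hy => h0 y (Multiset.mem_cons_of_mem hy)) h4 x hx

/-- If all the roots of `B` have nonnegative real part and sum zero, they are imaginary, and the
quotient of the coefficients of degree `m - 2` and `m` is half the sum of the squares of their
imaginary parts. -/
theorem imaginary_roots {B : Polynomial ℂ} {m : ℕ} (hm : 2 ≤ m) (hB : B.natDegree = m)
    (h1 : B.coeff (m - 1) = 0) (hre : ∀ z ∈ B.roots, 0 ≤ z.re) :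
    ∃ E : ℝ, 0 ≤ E ∧ B.coeff (m - 2) / B.coeff m = E ∧
      (E = 0 → ∀ z ∈ B.roots, z = 0) := by
  have hB0 : B ≠ 0 := by
    rintro rfl
    simp at hB
    omega
  have hlc : B.coeff m = B.leadingCoeff := by rw [Polynomial.leadingCoeff, hB]
  have hlc0 : B.leadingCoeff ≠ 0 := leadingCoeff_ne_zero.mpr hB0
  have hcard : Multiset.card B.roots = B.natDegree :=
    (IsAlgClosed.splits B).natDegree_eq_card_roots.symm
  have e1 := Polynomial.coeff_eq_esymm_roots_of_card hcard (k := m - 1) (by omega)
  have e2 := Polynomial.coeff_eq_esymm_roots_of_card hcard (k := m - 2) (by omega)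
  have f1 : B.natDegree - (m - 1) = 1 := by omega
  have f2 : B.natDegree - (m - 2) = 2 := by omega
  rw [f1, esymm_one_eq, h1] at e1
  rw [f2] at e2
  have hsum : B.roots.sum = 0 := by
    have : B.leadingCoeff * (-1) ^ 1 * B.roots.sum = 0 := e1.symm
    rcases mul_eq_zero.mp this with h | h
    · rcases mul_eq_zero.mp h with h | h
      · exact absurd h hlc0
      · simp at h
    · exact h
  have hre0 : ∀ z ∈ B.roots, z.re = 0 := by
    intro z hz
    have := all_zero_of_sum_zero (B.roots.map Complex.re) (by
      intro r hr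
      obtain ⟨w, hw, rfl⟩ := Multiset.mem_map.mp hr
      exact hre w hw) (by rw [sum_re, hsum, Complex.zero_re])
    exact this _ (Multiset.mem_map_of_mem _ hz)
  refine ⟨(B.roots.map fun z => z.im ^ 2).sum / 2, ?_, ?_, ?_⟩
  · have : 0 ≤ (B.roots.map fun z => z.im ^ 2).sum := by
      apply Multiset.sum_nonneg
      intro r hr
      obtain ⟨w, _, rfl⟩ := Multiset.mem_map.mp hr
      positivity
    positivity
  · have h2 := two_mul_esymm_two B.roots
    rw [hsum] at h2
    have h3 : ∀ s : Multiset ℂ, (∀ z ∈ s, z.re = 0) →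
        (s.map fun r => r ^ 2).sum = -(((s.map fun z => z.im ^ 2).sum : ℝ) : ℂ) := by
      intro s
      induction s using Multiset.induction_on with
      | empty => simp
      | cons r s ih =>
        intro hs
        rw [Multiset.map_cons, Multiset.sum_cons, Multiset.map_cons, Multiset.sum_cons,
          ih fun z hz => hs z (Multiset.mem_cons_of_mem hz)]
        have h4 : r = r.im * Complex.I := by
          apply Complex.ext
          · simp [hs r (Multiset.mem_cons_self r s)]
          · simp
        have h5 : r ^ 2 = -(r.im ^ 2 : ℂ) := by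
          conv_lhs => rw [h4]
          rw [mul_pow, Complex.I_sq]; ring
        rw [h5]
        push_cast
        ring
    rw [h3 _ hre0] at h2
    rw [e2, hlc]
    have h6 : B.roots.esymm 2 = (((B.roots.map fun z => z.im ^ 2).sum / 2 : ℝ) : ℂ) := by
      push_cast
      linear_combination h2 / 2
    rw [h6]
    field_simp
  · intro hE z hz
    have h4 : (B.roots.map fun z => z.im ^ 2).sum = 0 := by linarith
    have h5 := all_zero_of_sum_zero (B.roots.map fun z => z.im ^ 2) (by
      intro r hr
      obtain ⟨w, _, rfl⟩ := Multiset.mem_map.mp hr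
      positivity) h4
    have h6 := h5 _ (Multiset.mem_map_of_mem _ hz)
    apply Complex.ext
    · exact hre0 z hz
    · simpa using h6

theorem coeff_eq_zero_of_roots_zero {B : Polynomial ℂ} {m : ℕ} (hB : B.natDegree = m)
    (h : ∀ z ∈ B.roots, z = 0) (k : ℕ) (hk : k < m) : B.coeff k = 0 := by
  have h1 := (IsAlgClosed.splits B).eq_prod_roots
  have h2 : B.roots = Multiset.replicate (Multiset.card B.roots) 0 :=
    Multiset.eq_replicate_card.mpr h
  have hcard : Multiset.card B.roots = B.natDegree :=
    (IsAlgClosed.splits B).natDegree_eq_card_roots.symm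
  rw [h2, hcard, hB] at h1
  simp only [Multiset.map_replicate, map_zero, sub_zero, Multiset.prod_replicate] at h1
  rw [h1, coeff_C_mul, coeff_X_pow, if_neg (by omega), mul_zero]

/-- **Roots with negative real part.** -/
theorem exists_root_neg_re {B B' : Polynomial ℂ} {m : ℕ} (hm : 2 ≤ m) (hB : B.natDegree = m)
    (hB' : B'.natDegree = m) (h1 : B.coeff (m - 1) = 0) (h1' : B'.coeff (m - 1) = 0)
    (h2 : B'.coeff (m - 2) / B'.coeff m = -(B.coeff (m - 2) / B.coeff m))
    (hne : ∃ k < m, B.coeff k ≠ 0) :
    ∃ z : ℂ, z.re < 0 ∧ (B.eval z = 0 ∨ B'.eval z = 0) := by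
  by_contra hcon
  push Not at hcon
  have hroot : ∀ {C : Polynomial ℂ} {z : ℂ}, z ∈ C.roots → C.eval z = 0 := fun hz =>
    (Polynomial.mem_roots'.mp hz).2
  obtain ⟨E, hE0, hE, hE1⟩ := imaginary_roots hm hB h1 (fun z hz => by
    by_contra hz'
    exact (hcon z (not_le.mp hz')).1 (hroot hz))
  obtain ⟨E', hE'0, hE', -⟩ := imaginary_roots hm hB' h1' (fun z hz => by
    by_contra hz'
    exact (hcon z (not_le.mp hz')).2 (hroot hz))
  rw [hE, hE'] at h2
  have h3 : E' = -E := by exact_mod_cast h2
  have h4 : E = 0 := by linarith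
  obtain ⟨k, hk, hkne⟩ := hne
  exact hkne (coeff_eq_zero_of_roots_zero hB (hE1 h4) k hk)

end Pool.Agent.Lib.MP_209724_lc
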