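import Mathlib
import Pool.Agent.Lib.MP_209724_lc.Expand
import Pool.Agent.Lib.MP_209724_lc.Roots
import Pool.Agent.Lib.MP_209724_lc.Germ

/-!
Zeros at a sublinear scale.
-/

namespace Pool.Agent.Lib.MP_209724_lc

open Filter Topology Metric Complex MvPolynomial

variable {n : ℕ}

/-- Existence of arbitrarily large zeros. -/
theorem Fact.solv {P f : MvPolynomial (Fin n) ℂ} {d e : ℕ} {ρ k : ℕ → ℕ}
    {w : ℕ → MvPolynomial (Fin n) ℂ} (h : Fact P f d e ρ k w) {W : Set (Fin n → ℂ)}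
    {rad : ℝ} (hrad : 0 < rad)
    {ζ : Fin n → ℂ} (h0 : eval ζ f = 0) {R r G : ℕ → ℂ}
    (hr : ∀ᶠ N in atTop, r N ≠ 0) (hG : ∀ᶠ N in atTop, G N ≠ 0)
    (hrR : Tendsto (fun N => r N / R N) atTop (𝓝 0)) {γ : ℕ → ℂ}
    (hγ : ∀ j ≤ d, w j ≠ 0 →
      Tendsto (fun N => R N ^ (j - ρ j) * r N ^ ρ j / G N) atTop (𝓝 (γ j)))
    {V : ℕ → ℂ → Fin n → ℂ} {V₀ : ℂ → Fin n → ℂ} (hV : UConv (ball 0 rad) V V₀)
    (hVd : ∀ᶠ N in atTop, ∀ i, DifferentiableOn ℂ (fun u => V N u i) (ball 0 rad))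
    (hB : AnalyticAt ℂ (fun u => limPoly w ρ d γ ζ (dir f ζ (V₀ u))) 0)
    (hB0 : limPoly w ρ d γ ζ (dir f ζ (V₀ 0)) = 0)
    (hBne : ∃ᶠ u in 𝓝 (0 : ℂ), limPoly w ρ d γ ζ (dir f ζ (V₀ u)) ≠ 0)
    (hζ : ζ ≠ 0) (hRinf : Tendsto (fun N => ‖R N‖) atTop atTop)
    (hmem : ∀ᶠ N in atTop, ∀ u ∈ ball (0 : ℂ) rad,
      (fun i => Complex.exp (R N * ζ i + r N * V N u i)) ∈ W) : Solv P W := by
  have hR : ∀ᶠ N in atTop, R N ≠ 0 := by
    filter_upwards [hRinf.eventually_gt_atTop 0] with N hN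
    exact norm_pos_iff.mp hN
  have h1 := h.exists_zero hrad h0 hR hr hG hrR hγ hV hVd hB hB0 hBne
  intro M
  obtain ⟨C, hC⟩ := hV.1
  have hζ' : 0 < ‖ζ‖ := norm_pos_iff.mpr hζ
  have hC1 : 0 < |C| + 1 := by positivity
  have h2 : ∀ᶠ N in atTop, ‖r N / R N‖ < ‖ζ‖ / (2 * (|C| + 1)) := by
    have := (Metric.tendsto_nhds.mp hrR) (‖ζ‖ / (2 * (|C| + 1))) (by positivity)
    simpa [dist_zero_right] using this
  have h3 := hV.2 1 one_pos
  have h4 := hRinf.eventually_gt_atTop (2 * |M| / ‖ζ‖)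
  obtain ⟨N, h1N, h2N, h3N, h4N, hRN, hmemN⟩ :=
    (h1.and (h2.and (h3.and (h4.and (hR.and hmem))))).exists
  obtain ⟨u, hu, hu0⟩ := h1N
  refine ⟨fun i => R N * ζ i + r N * V N u i, ?_, hu0, hmemN u hu⟩
  have hV1 : ‖V N u‖ ≤ |C| + 1 := by
    have e1 : ‖V N u‖ ≤ ‖V N u - V₀ u‖ + ‖V₀ u‖ := by
      have := norm_add_le (V N u - V₀ u) (V₀ u)
      rwa [sub_add_cancel] at this
    have e2 := hC u hu
    have e3 := h3N u hu
    have e4 := le_abs_self C
    linarith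
  have e1 : ‖R N • ζ‖ - ‖r N • V N u‖ ≤ ‖R N • ζ + r N • V N u‖ := by
    have := norm_sub_norm_le (R N • ζ) (-(r N • V N u))
    rwa [norm_neg, sub_neg_eq_add] at this
  have e2 : (fun i => R N * ζ i + r N * V N u i) = R N • ζ + r N • V N u := by
    funext i; simp
  rw [e2]
  refine lt_of_lt_of_le ?_ e1
  rw [norm_smul, norm_smul]
  have hRpos : 0 < ‖R N‖ := norm_pos_iff.mpr hRN
  have e3 : ‖r N‖ ≤ ‖R N‖ * (‖ζ‖ / (2 * (|C| + 1))) := by
    rw [norm_div] at h2N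
    rw [div_lt_iff₀ hRpos] at h2N
    rw [mul_comm]
    exact h2N.le
  have e4 : ‖r N‖ * ‖V N u‖ ≤ ‖R N‖ * ‖ζ‖ / 2 := by
    calc ‖r N‖ * ‖V N u‖ ≤ ‖R N‖ * (‖ζ‖ / (2 * (|C| + 1))) * (|C| + 1) := by gcongr
      _ = ‖R N‖ * ‖ζ‖ / 2 := by field_simp
  have e5 : |M| < ‖R N‖ * ‖ζ‖ / 2 := by
    rw [div_lt_iff₀ hζ'] at h4N
    linarith
  have e6 := le_abs_self M
  linarith

/-- The limit polynomials. -/
noncomputable def facePoly (d : ℕ) (ρ : ℕ → ℕ) (c : ℕ → ℂ) (η : ℂ) : Polynomial ℂ :=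
  ∑ j ∈ Finset.range (d + 1), Polynomial.C (η ^ (j - ρ j) * c j) * Polynomial.X ^ ρ j

theorem facePoly_coeff (d : ℕ) (ρ : ℕ → ℕ) (c : ℕ → ℂ) (η : ℂ) (l : ℕ) :
    (facePoly d ρ c η).coeff l =
      ∑ j ∈ Finset.range (d + 1), if l = ρ j then η ^ (j - ρ j) * c j else 0 := by
  unfold facePoly
  rw [Polynomial.finsetSum_coeff]
  refine Finset.sum_congr rfl fun j _ => ?_
  rw [Polynomial.coeff_C_mul_X_pow]

/-- If `j` is the only index with `c j ≠ 0` and `ρ j = l`, then the coefficient is this one. -/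
theorem facePoly_coeff_single {d : ℕ} {ρ : ℕ → ℕ} {c : ℕ → ℂ} {j : ℕ} (hj : j ≤ d)
    (h : ∀ j' ≤ d, j' ≠ j → c j' ≠ 0 → ρ j' ≠ ρ j) (η : ℂ) :
    (facePoly d ρ c η).coeff (ρ j) = η ^ (j - ρ j) * c j := by
  rw [facePoly_coeff, Finset.sum_eq_single j]
  · rw [if_pos rfl]
  · intro j' hj' hne
    by_cases hc : c j' = 0
    · rw [hc, mul_zero, ite_self]
    · rw [if_neg]
      intro h1
      exact h j' (by have := Finset.mem_range.mp hj'; omega) hne hc h1.symm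
  · intro h1
    exact absurd (Finset.mem_range.mpr (by omega)) h1

theorem facePoly_coeff_zero {d : ℕ} {ρ : ℕ → ℕ} {c : ℕ → ℂ} {l : ℕ}
    (h : ∀ j ≤ d, c j ≠ 0 → ρ j ≠ l) (η : ℂ) :
    (facePoly d ρ c η).coeff l = 0 := by
  rw [facePoly_coeff]
  refine Finset.sum_eq_zero fun j hj => ?_
  by_cases hc : c j = 0
  · rw [hc, mul_zero, ite_self]
  · rw [if_neg]
    intro h1
    exact h j (by have := Finset.mem_range.mp hj; omega) hc h1.symm

theorem facePoly_root {d m : ℕ} {ρ : ℕ → ℕ} {c : ℕ → ℂ} (hρd : ρ d = m) (hcd : c d ≠ 0)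
    (h0 : ∀ j ≤ d, c j ≠ 0 → ρ j ≤ j)
    (h1 : ∀ j < d, c j ≠ 0 → ρ j + 2 ≤ m) (h2 : ∀ j < d, c j ≠ 0 → ρ j + 2 = m → j + 1 = d)
    (h3 : ∃ j < d, c j ≠ 0) (h4 : ∀ j ≤ d, ∀ j' ≤ d, c j ≠ 0 → c j' ≠ 0 → ρ j = ρ j' → j = j') :
    ∃ (z η : ℂ), z.re < 0 ∧ (η = I ∨ η = -I) ∧ (facePoly d ρ c η).eval z = 0 ∧
      facePoly d ρ c η ≠ 0 := by
  have hm : 2 ≤ m := by
    obtain ⟨j, hj, hcj⟩ := h3
    have := h1 j hj hcj
    omega
  have htop : ∀ η : ℂ, (facePoly d ρ c η).coeff m = η ^ (d - m) * c d := by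
    intro η
    have := facePoly_coeff_single (c := c) (ρ := ρ) le_rfl
      (fun j' hj' hne hc heq => hne (h4 j' hj' d le_rfl hc hcd heq)) η
    rwa [hρd] at this
  have hI : (I : ℂ) ≠ 0 := I_ne_zero
  have hI' : (-I : ℂ) ≠ 0 := neg_ne_zero.mpr I_ne_zero
  have htop0 : ∀ η : ℂ, η ≠ 0 → (facePoly d ρ c η).coeff m ≠ 0 := by
    intro η hη
    rw [htop]
    exact mul_ne_zero (pow_ne_zero _ hη) hcd
  have hdeg : ∀ η : ℂ, η ≠ 0 → (facePoly d ρ c η).natDegree = m := by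
    intro η hη
    refine le_antisymm ?_ (Polynomial.le_natDegree_of_ne_zero (htop0 η hη))
    rw [Polynomial.natDegree_le_iff_coeff_eq_zero]
    intro l hl
    refine facePoly_coeff_zero (fun j hj hc heq => ?_) η
    rcases Nat.lt_or_ge j d with hjd | hjd
    · have := h1 j hjd hc
      omega
    · have : j = d := by omega
      subst this
      omega
  have hcm1 : ∀ η : ℂ, (facePoly d ρ c η).coeff (m - 1) = 0 := by
    intro η
    refine facePoly_coeff_zero (fun j hj hc heq => ?_) η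
    rcases Nat.lt_or_ge j d with hjd | hjd
    · have := h1 j hjd hc
      omega
    · have : j = d := by omega
      subst this
      omega
  have hratio : (facePoly d ρ c (-I)).coeff (m - 2) / (facePoly d ρ c (-I)).coeff m =
      -((facePoly d ρ c I).coeff (m - 2) / (facePoly d ρ c I).coeff m) := by
    by_cases hex : ∃ j < d, c j ≠ 0 ∧ ρ j = m - 2
    · obtain ⟨j, hj, hcj, hρj⟩ := hex
      have hjd := h2 j hj hcj (by omega)
      have hco : ∀ η : ℂ, (facePoly d ρ c η).coeff (m - 2) = η ^ (j - ρ j) * c j := by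
        intro η
        have := facePoly_coeff_single (c := c) (ρ := ρ) hj.le
          (fun j' hj' hne hc heq => hne (h4 j' hj' j hj.le hc hcj heq)) η
        rwa [hρj] at this ⊢
      have hle := h0 j hj.le hcj
      have hled := h0 d le_rfl hcd
      rw [hco, hco, htop, htop]
      have hexp : j - ρ j = (d - m) + 1 := by omega
      rw [hexp, pow_succ, pow_succ]
      have h5 : (I : ℂ) ^ (d - m) ≠ 0 := pow_ne_zero _ hI
      have h6 : (-I : ℂ) ^ (d - m) ≠ 0 := pow_ne_zero _ hI'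
      field_simp
    · push Not at hex
      have hco : ∀ η : ℂ, (facePoly d ρ c η).coeff (m - 2) = 0 := by
        intro η
        refine facePoly_coeff_zero (fun j hj hc heq => ?_) η
        rcases Nat.lt_or_ge j d with hjd | hjd
        · exact hex j hjd hc heq
        · have : j = d := by omega
          subst this
          omega
      rw [hco, hco]
      simp
  have hne : ∃ l < m, (facePoly d ρ c I).coeff l ≠ 0 := by
    obtain ⟨j, hj, hcj⟩ := h3
    refine ⟨ρ j, by have := h1 j hj hcj; omega, ?_⟩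
    rw [facePoly_coeff_single hj.le
      (fun j' hj' hne hc heq => hne (h4 j' hj' j hj.le hc hcj heq))]
    exact mul_ne_zero (pow_ne_zero _ hI) hcj
  obtain ⟨z, hz, hroot⟩ := exists_root_neg_re hm (hdeg I hI) (hdeg (-I) hI') (hcm1 _) (hcm1 _)
    hratio hne
  have hne0 : ∀ η : ℂ, η ≠ 0 → facePoly d ρ c η ≠ 0 := by
    intro η hη h5
    apply htop0 η hη
    rw [h5, Polynomial.coeff_zero]
  rcases hroot with h5 | h5
  · exact ⟨z, I, hz, Or.inl rfl, h5, hne0 I hI⟩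
  · exact ⟨z, -I, hz, Or.inr rfl, h5, hne0 (-I) hI'⟩

/-- Choice of the exponent. -/
theorem exists_beta (d : ℕ) (ρ : ℕ → ℕ) (p : ℕ → Prop)
    (hII : ∃ j < d, p j ∧ (d - j) + ρ j < ρ d) :
    ∃ β : ℝ, 0 < β ∧ β < 1 ∧
      (∀ j ≤ d, p j → (j : ℝ) - ρ j + β * ρ j ≤ d - ρ d + β * ρ d) ∧
      ∃ j < d, p j ∧ (j : ℝ) - ρ j + β * ρ j = d - ρ d + β * ρ d := by
  classical
  set S := (Finset.range d).filter fun j => p j ∧ (d - j) + ρ j < ρ d with hS
  have hSne : S.Nonempty := by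
    obtain ⟨j, hj, hp, hlt⟩ := hII
    exact ⟨j, Finset.mem_filter.mpr ⟨Finset.mem_range.mpr hj, hp, hlt⟩⟩
  obtain ⟨j₀, hj₀, hmax⟩ := S.exists_max_image
    (fun j => (((ρ d : ℝ) - (d - j) - ρ j) / ((ρ d : ℝ) - ρ j))) hSne
  have hmem : ∀ j ∈ S, j < d ∧ p j ∧ (d : ℝ) - j + ρ j < ρ d := by
    intro j hj
    rw [hS, Finset.mem_filter, Finset.mem_range] at hj
    refine ⟨hj.1, hj.2.1, ?_⟩
    have h1 : ((d - j : ℕ) : ℝ) + ρ j < ρ d := by exact_mod_cast hj.2.2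
    rwa [Nat.cast_sub hj.1.le] at h1
  obtain ⟨hj₀d, hpj₀, hlt₀⟩ := hmem j₀ hj₀
  have hj₀d' : (j₀ : ℝ) < d := by exact_mod_cast hj₀d
  set β : ℝ := ((ρ d : ℝ) - (d - j₀) - ρ j₀) / ((ρ d : ℝ) - ρ j₀) with hβ
  have hden : (0 : ℝ) < (ρ d : ℝ) - ρ j₀ := by linarith
  have hβ0 : 0 < β := div_pos (by linarith) hden
  have hβ1 : β < 1 := by rw [hβ, div_lt_one hden]; linarith
  have hβeq : β * ((ρ d : ℝ) - ρ j₀) = (ρ d : ℝ) - (d - j₀) - ρ j₀ := div_mul_cancel₀ _ hden.ne'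
  refine ⟨β, hβ0, hβ1, ?_, j₀, hj₀d, hpj₀, by linarith⟩
  intro j hj hpj
  by_cases hjS : j ∈ S
  · obtain ⟨hjd, -, hlt⟩ := hmem j hjS
    have hjd' : (j : ℝ) < d := by exact_mod_cast hjd
    have hdenj : (0 : ℝ) < (ρ d : ℝ) - ρ j := by linarith
    have h1 := hmax j hjS
    rw [div_le_iff₀ hdenj] at h1
    linarith
  · rcases Nat.lt_or_ge j d with hjd | hjd
    · have h1 : ¬ ((d - j) + ρ j < ρ d) := by
        intro h2
        exact hjS (Finset.mem_filter.mpr ⟨Finset.mem_range.mpr hjd, hpj, h2⟩)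
      push Not at h1
      have h2 : (ρ d : ℝ) ≤ ((d - j : ℕ) : ℝ) + ρ j := by exact_mod_cast h1
      rw [Nat.cast_sub hj] at h2
      have hjd' : (j : ℝ) < d := by exact_mod_cast hjd
      rcases le_total (ρ j : ℝ) (ρ d : ℝ) with h3 | h3
      · have h4 : 0 ≤ β * ((ρ d : ℝ) - ρ j) := mul_nonneg hβ0.le (by linarith)
        linarith
      · have h4 : β * ((ρ j : ℝ) - ρ d) ≤ 1 * ((ρ j : ℝ) - ρ d) := by
          gcongr
        linarith
    · have : j = d := by omega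
      subst this
      exact le_rfl

theorem dir_smul_left {f : MvPolynomial (Fin n) ℂ} {e : ℕ} (hf : f.IsHomogeneous e)
    (η : ℂ) (ξ v : Fin n → ℂ) :
    dir f (fun i => η * ξ i) v = η ^ (e - 1) * dir f ξ v := by
  unfold dir
  rw [Finset.mul_sum]
  refine Finset.sum_congr rfl fun j _ => ?_
  rw [eval_mul_of_isHomogeneous hf.pderiv, mul_assoc]

/-- The limit polynomial in the direction `a`. -/
theorem Fact.limPoly_eq {P f : MvPolynomial (Fin n) ℂ} {d e : ℕ} {ρ k : ℕ → ℕ}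
    {w : ℕ → MvPolynomial (Fin n) ℂ} (h : Fact P f d e ρ k w) (γ : ℕ → ℂ) (η : ℂ)
    (ξ a : Fin n → ℂ) (z : ℂ) :
    limPoly w ρ d γ (fun i => η * ξ i) (dir f (fun i => η * ξ i) (fun i => a i * z)) =
      (facePoly d ρ (fun j => γ j * dir f ξ a ^ ρ j * eval ξ (w j)) η).eval z := by
  unfold limPoly facePoly
  rw [Polynomial.eval_finsetSum]
  refine Finset.sum_congr rfl fun j _ => ?_
  by_cases hw : w j = 0
  · simp [hw]
  have h1 : (fun i => a i * z) = fun i => z * a i := by funext i; ring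
  rw [h1, dir_smul, dir_smul_left h.hom, eval_mul_of_isHomogeneous (h.whom j)]
  have h2 := h.kρ j hw
  have he := h.pos
  have h3 : j - ρ j = (e - 1) * ρ j + k j := by
    obtain ⟨e', rfl⟩ : ∃ e', e = e' + 1 := ⟨e - 1, by omega⟩
    have : (e' + 1) * ρ j = e' * ρ j + ρ j := by ring
    have h6 : e' + 1 - 1 = e' := by omega
    rw [h6]
    omega
  rw [Polynomial.eval_mul, Polynomial.eval_C, Polynomial.eval_pow, Polynomial.eval_X, h3, pow_add,
    pow_mul]
  ring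

theorem curve_mem {W : Set (Fin n → ℂ)} {a : Fin n → ℤ} {ℓ : Fin n → ℂ → ℂ} {s : ℂ}
    (h : germ a ℓ (exp s) ∈ W) (k : Fin n → ℤ) : (fun i => exp (curve a ℓ k s i)) ∈ W := by
  have h1 : (fun i => exp (curve a ℓ k s i)) = germ a ℓ (exp s) := by
    funext i
    unfold curve germ
    rw [Complex.exp_add, Complex.exp_add]
    have h2 : Complex.exp (2 * Real.pi * Complex.I * (k i : ℂ)) = 1 := by
      rw [mul_comm]
      exact Complex.exp_int_mul_two_pi_mul_I (k i)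
    rw [h2, mul_one, ← Complex.exp_int_mul]
  rw [h1]
  exact h

/-- A uniform neighbourhood. -/
theorem IsGerm.exists_bound {W : Set (Fin n → ℂ)} {a : Fin n → ℤ} {ℓ : Fin n → ℂ → ℂ}
    (hg : IsGerm W a ℓ) : ∃ δ > 0, ∃ C : ℝ, ∀ t ∈ ball (0 : ℂ) δ,
      (∀ i, AnalyticAt ℂ (ℓ i) t ∧ ‖ℓ i t‖ ≤ C) ∧ (t ≠ 0 → germ a ℓ t ∈ W) := by
  obtain ⟨δ, hδ, C, hC⟩ := Pool.Agent.Lib.MP_209724_lc.exists_bound ℓ hg.analytic
  have h1 := hg.mem
  rw [eventually_nhdsWithin_iff] at h1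
  obtain ⟨δ', hδ', h2⟩ := Metric.eventually_nhds_iff.mp h1
  refine ⟨min δ δ', lt_min hδ hδ', C, fun t ht => ⟨fun i => hC i t ?_, fun ht0 => ?_⟩⟩
  · exact ball_subset_ball (min_le_left _ _) ht
  · exact h2 (lt_of_lt_of_le (mem_ball.mp ht) (min_le_right _ _)) ht0

/-- **Zeros at a sublinear scale.** -/
theorem sublinear {P f : MvPolynomial (Fin n) ℂ} {d e : ℕ} {ρ k : ℕ → ℕ}
    {w : ℕ → MvPolynomial (Fin n) ℂ} (h : Fact P f d e ρ k w) {W : Set (Fin n → ℂ)}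
    {a : Fin n → ℤ} {ℓ : Fin n → ℂ → ℂ} (hg : IsGerm W a ℓ) (ξ : Fin n → ℝ) (hξ : ξ ≠ 0)
    (hfξ : eval (fun i => (ξ i : ℂ)) f = 0)
    (hdir : dir f (fun i => (ξ i : ℂ)) (fun i => (a i : ℂ)) ≠ 0)
    (hw : ∀ j ≤ d, w j ≠ 0 → eval (fun i => (ξ i : ℂ)) (w j) ≠ 0) (hwd : w d ≠ 0)
    (hII : ∃ j < d, w j ≠ 0 ∧ (d - j) + ρ j < ρ d) : Solv P W := by
  obtain ⟨β, hβ0, hβ1, hβle, j₀, hj₀, hwj₀, hβj₀⟩ := exists_beta d ρ (fun j => w j ≠ 0) hII
  have hρle : ∀ j, w j ≠ 0 → ρ j ≤ j := by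
    intro j hj
    have h1 := h.kρ j hj
    have h2 : ρ j ≤ e * ρ j := Nat.le_mul_of_pos_left _ h.pos
    omega
  -- coefficients of the limit polynomial
  set E : ℝ := (d : ℝ) - ρ d + β * ρ d with hE
  set γ : ℕ → ℂ := fun j => if (j : ℝ) - ρ j + β * ρ j = E then 1 else 0 with hγdef
  set c : ℕ → ℂ := fun j => γ j * dir f (fun i => (ξ i : ℂ)) (fun i => (a i : ℂ)) ^ ρ j *
    eval (fun i => (ξ i : ℂ)) (w j) with hcdef
  have hc : ∀ j ≤ d, w j ≠ 0 → (j : ℝ) - ρ j + β * ρ j = E → c j ≠ 0 := by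
    intro j hj hwj hjE
    simp only [hcdef, hγdef, if_pos hjE, one_mul]
    exact mul_ne_zero (pow_ne_zero _ hdir) (hw j hj hwj)
  have hc' : ∀ j, c j ≠ 0 → w j ≠ 0 ∧ (j : ℝ) - ρ j + β * ρ j = E := by
    intro j hj
    constructor
    · intro h1
      apply hj
      simp only [hcdef, h1, map_zero, mul_zero]
    · by_contra h1
      apply hj
      simp only [hcdef, hγdef, if_neg h1, zero_mul]
  have hface : ∀ j, c j ≠ 0 → (1 - β) * ((ρ d : ℝ) - ρ j) = d - j := by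
    intro j hj
    have := (hc' j hj).2
    rw [hE] at this
    linarith
  have h1β : 0 < 1 - β := by linarith
  have hface' : ∀ j < d, c j ≠ 0 → (1 : ℝ) < (ρ d : ℝ) - ρ j := by
    intro j hj hcj
    have h1 := hface j hcj
    have h2 : (1 : ℝ) ≤ (d : ℝ) - j := by
      have : (j : ℝ) + 1 ≤ d := by exact_mod_cast hj
      linarith
    by_contra h3
    push Not at h3
    have h4 : (1 - β) * ((ρ d : ℝ) - ρ j) ≤ (1 - β) * 1 := by gcongr
    linarith
  obtain ⟨z₀, η, hz₀, hη, hroot, hfp⟩ := facePoly_root (d := d) (m := ρ d) (ρ := ρ) (c := c) rfl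
    (hc d le_rfl hwd rfl) (fun j _ hj => hρle j (hc' j hj).1)
    (fun j hj hcj => by
      have h1 := hface' j hj hcj
      have h2 : (ρ j : ℝ) + 1 < ρ d := by linarith
      have h3 : ρ j + 1 < ρ d := by exact_mod_cast h2
      omega)
    (fun j hj hcj h2 => by
      have h1 := hface j hcj
      have h3 : (ρ d : ℝ) - ρ j = 2 := by
        have : (ρ j : ℝ) + 2 = ρ d := by exact_mod_cast h2
        linarith
      rw [h3] at h1
      have h4 : (d : ℝ) < j + 2 := by linarith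
      have h5 : d < j + 2 := by exact_mod_cast h4
      omega)
    ⟨j₀, hj₀, hc j₀ hj₀.le hwj₀ hβj₀⟩
    (fun j _ j' _ hcj hcj' hρ => by
      have h1 := hface j hcj
      have h2 := hface j' hcj'
      rw [← hρ, h1] at h2
      have h3 : (j : ℝ) = j' := by linarith
      exact_mod_cast h3)
  obtain ⟨ε, hηε⟩ : ∃ ε : ℝ, η = I * ε := by
    rcases hη with h1 | h1
    · exact ⟨1, by rw [h1]; simp⟩
    · exact ⟨-1, by rw [h1]; simp⟩
  have hη0 : η ≠ 0 := by
    rcases hη with h1 | h1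
    · rw [h1]; exact I_ne_zero
    · rw [h1]; exact neg_ne_zero.mpr I_ne_zero
  obtain ⟨δ, hδ, C, hδC⟩ := hg.exists_bound
  set r : ℝ := -z₀.re / 2 with hr
  have hrpos : 0 < r := by rw [hr]; linarith
  have hre : ∀ u ∈ ball (0 : ℂ) r, (z₀ + u).re < -r := by
    intro u hu
    have h1 : u.re ≤ ‖u‖ := Complex.re_le_norm u
    have h2 : ‖u‖ < r := mem_ball_zero_iff.mp hu
    rw [Complex.add_re]
    have h3 : z₀.re = -2 * r := by rw [hr]; ring
    linarith
  -- the integer vectors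
  let kN : ℕ → Fin n → ℤ := fun N i => round ((N : ℝ) * (ε * ξ i) / (2 * Real.pi))
  have hk : ∀ N i, ‖(2 * Real.pi * I * kN N i : ℂ) - N * (η * ξ i)‖ ≤ Real.pi := by
    intro N i
    have h1 := abs_sub_round ((N : ℝ) * (ε * ξ i) / (2 * Real.pi))
    have h2 : (2 * Real.pi * I * kN N i : ℂ) - N * (η * ξ i) =
        ((-(2 * Real.pi) * ((N : ℝ) * (ε * ξ i) / (2 * Real.pi) - kN N i) : ℝ) : ℂ) * I := by
      have := Real.pi_ne_zero
      rw [hηε]
      push_cast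
      field_simp
      ring
    rw [h2, norm_mul, Complex.norm_I, mul_one, Complex.norm_real, Real.norm_eq_abs, abs_mul,
      abs_neg, abs_of_pos Real.two_pi_pos]
    have := Real.pi_pos
    calc 2 * Real.pi * |(N : ℝ) * (ε * ξ i) / (2 * Real.pi) - kN N i| ≤
        2 * Real.pi * (1 / 2) := by gcongr
      _ = Real.pi := by ring
  -- the scales
  let R : ℕ → ℂ := fun N => (N : ℂ)
  let rr : ℕ → ℝ := fun N => (N : ℝ) ^ β
  let G : ℕ → ℂ := fun N => (((N : ℝ) ^ E : ℝ) : ℂ)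
  have hrrpos : ∀ᶠ N in atTop, 0 < rr N := by
    filter_upwards [eventually_gt_atTop 0] with N hN
    have : (0 : ℝ) < N := by exact_mod_cast hN
    exact Real.rpow_pos_of_pos this _
  have hrrinf : Tendsto rr atTop atTop :=
    (tendsto_rpow_atTop hβ0).comp tendsto_natCast_atTop_atTop
  have hrr0 : Tendsto (fun N => ((rr N : ℂ))⁻¹) atTop (𝓝 0) := by
    have h1 : Tendsto (fun N => (((rr N)⁻¹ : ℝ) : ℂ)) atTop (𝓝 ((0 : ℝ) : ℂ)) :=
      (Complex.continuous_ofReal.tendsto _).comp (tendsto_inv_atTop_zero.comp hrrinf)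
    simpa using h1
  -- smallness of the exponentials
  have hexp : ∀ᶠ N : ℕ in atTop, ∀ u ∈ ball (0 : ℂ) r,
      exp ((rr N : ℂ) * (z₀ + u)) ∈ ball (0 : ℂ) δ := by
    have h1 : Tendsto (fun N : ℕ => Real.exp (-(rr N * r))) atTop (𝓝 0) :=
      Real.tendsto_exp_atBot.comp
        (tendsto_neg_atTop_atBot.comp (hrrinf.atTop_mul_const hrpos))
    have h3 : ∀ᶠ N : ℕ in atTop, Real.exp (-(rr N * r)) < δ := h1.eventually_lt_const hδ
    filter_upwards [h3, hrrpos] with N h5 h10 u hu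
    have h8 : ((rr N : ℂ) * (z₀ + u)).re = rr N * (z₀ + u).re := Complex.re_ofReal_mul _ _
    have h9 := hre u hu
    have h11 : rr N * (z₀ + u).re < rr N * -r := by gcongr
    rw [mem_ball_zero_iff, Complex.norm_exp, h8]
    refine lt_of_le_of_lt (Real.exp_le_exp.mpr ?_) h5
    linarith
  let V : ℕ → ℂ → Fin n → ℂ := fun N u i => a i * (z₀ + u) + ((rr N : ℂ))⁻¹ *
    (ℓ i (exp ((rr N : ℂ) * (z₀ + u))) + ((2 * Real.pi * I * kN N i : ℂ) - N * (η * ξ i)))
  let V₀ : ℂ → Fin n → ℂ := fun u i => a i * (z₀ + u)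
  have hV : UConv (ball (0 : ℂ) r) V V₀ := by
    refine UConv.pi fun i => ?_
    have h1 : UConv (ball (0 : ℂ) r) (fun _ u => a i * (z₀ + u)) (fun u => a i * (z₀ + u)) := by
      refine UConv.of_bounded (C := ‖(a i : ℂ)‖ * (‖z₀‖ + r)) fun u hu => ?_
      rw [norm_mul]
      gcongr
      refine le_trans (norm_add_le _ _) ?_
      gcongr
      exact (mem_ball_zero_iff.mp hu).le
    have h2 : UConv (ball (0 : ℂ) r) (fun N u => ((rr N : ℂ))⁻¹ *
        (ℓ i (exp ((rr N : ℂ) * (z₀ + u))) +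
          ((2 * Real.pi * I * kN N i : ℂ) - N * (η * ξ i)))) (fun _ => 0) := by
      refine UConv.zero_of_mul_bounded hrr0 (C := C + Real.pi) ?_
      filter_upwards [hexp] with N hN u hu
      exact (norm_add_le _ _).trans (add_le_add ((hδC _ (hN u hu)).1 i).2 (hk N i))
    have h3 := h1.add h2
    simp only [add_zero] at h3
    exact h3
  have hcurve : ∀ᶠ N in atTop, ∀ u, (fun i => R N * (η * ξ i) + (rr N : ℂ) * V N u i) =
      curve a ℓ (kN N) ((rr N : ℂ) * (z₀ + u)) := by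
    filter_upwards [hrrpos] with N hN u
    funext i
    have h1 : (rr N : ℂ) ≠ 0 := by exact_mod_cast hN.ne'
    simp only [V, R, curve]
    rw [mul_add, mul_inv_cancel_left₀ h1]
    ring
  have hlim : ∀ u, limPoly w ρ d γ (fun i => η * ξ i) (dir f (fun i => η * ξ i) (V₀ u)) =
      (facePoly d ρ c η).eval (z₀ + u) := fun u => h.limPoly_eq γ η _ _ (z₀ + u)
  refine h.solv (W := W) hrpos (ζ := fun i => η * ξ i) ?_ (R := R) (r := fun N => (rr N : ℂ))
    (G := G) ?_ ?_ ?_ (γ := γ) ?_ hV ?_ ?_ ?_ ?_ ?_ ?_ ?_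
  · rw [eval_mul_of_isHomogeneous h.hom, hfξ, mul_zero]
  · filter_upwards [hrrpos] with N hN
    exact_mod_cast hN.ne'
  · filter_upwards [eventually_gt_atTop 0] with N hN
    have : (0 : ℝ) < N := by exact_mod_cast hN
    exact Complex.ofReal_ne_zero.mpr (Real.rpow_pos_of_pos this _).ne'
  · -- r / R → 0
    have h1 : Tendsto (fun N : ℕ => ((((N : ℝ) ^ (-(1 - β)) : ℝ)) : ℂ)) atTop
        (𝓝 ((0 : ℝ) : ℂ)) :=
      (Complex.continuous_ofReal.tendsto _).comp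
        ((tendsto_rpow_neg_atTop h1β).comp tendsto_natCast_atTop_atTop)
    rw [Complex.ofReal_zero] at h1
    refine h1.congr' ?_
    filter_upwards [eventually_gt_atTop 0] with N hN
    have hN' : (0 : ℝ) < N := by exact_mod_cast hN
    simp only [R, rr]
    rw [show -(1 - β) = β - 1 by ring, Real.rpow_sub_one hN'.ne']
    push_cast
    rfl
  · -- the exponents
    intro j hj hwj
    have hρj := hρle j hwj
    have h2 : ∀ᶠ N : ℕ in atTop, R N ^ (j - ρ j) * (rr N : ℂ) ^ ρ j / G N =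
        ((((N : ℝ) ^ ((j : ℝ) - ρ j + β * ρ j - E) : ℝ)) : ℂ) := by
      filter_upwards [eventually_gt_atTop 0] with N hN
      have hN' : (0 : ℝ) < N := by exact_mod_cast hN
      have e1 : (N : ℝ) ^ ((j : ℝ) - ρ j + β * ρ j - E) =
          (N : ℝ) ^ ((j : ℝ) - ρ j + β * ρ j) / (N : ℝ) ^ E := Real.rpow_sub hN' _ _
      have e2 : (N : ℝ) ^ ((j : ℝ) - ρ j + β * ρ j) =
          (N : ℝ) ^ ((j - ρ j : ℕ) : ℝ) * (N : ℝ) ^ (β * ρ j) := by
        rw [← Real.rpow_add hN', Nat.cast_sub hρj]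
      have e3 : (N : ℝ) ^ (β * ρ j) = (rr N) ^ ρ j := Real.rpow_mul_natCast hN'.le _ _
      rw [e1, e2, e3, Real.rpow_natCast]
      simp only [R, G]
      push_cast
      rfl
    refine Tendsto.congr' (h2.mono fun N hN => hN.symm) ?_
    by_cases hjE : (j : ℝ) - ρ j + β * ρ j = E
    · simp only [hγdef, if_pos hjE, hjE, sub_self, Real.rpow_zero]
      exact tendsto_const_nhds
    · simp only [hγdef, if_neg hjE]
      have h3 : (j : ℝ) - ρ j + β * ρ j < E := lt_of_le_of_ne (hβle j hj hwj) hjE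
      have h4 : 0 < E - ((j : ℝ) - ρ j + β * ρ j) := by linarith
      have h1 : Tendsto (fun N : ℕ =>
          ((((N : ℝ) ^ (-(E - ((j : ℝ) - ρ j + β * ρ j))) : ℝ)) : ℂ)) atTop
          (𝓝 ((0 : ℝ) : ℂ)) :=
        (Complex.continuous_ofReal.tendsto _).comp
          ((tendsto_rpow_neg_atTop h4).comp tendsto_natCast_atTop_atTop)
      rw [Complex.ofReal_zero, neg_sub] at h1
      exact h1
  · filter_upwards [hexp] with N hN i
    refine DifferentiableOn.add ?_ ?_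
    · exact (by fun_prop : Differentiable ℂ (fun u : ℂ => (a i : ℂ) * (z₀ + u))).differentiableOn
    · refine (DifferentiableOn.add ?_ (differentiableOn_const _)).const_mul _
      intro u hu
      have h1 := (((hδC _ (hN u hu)).1 i).1).differentiableAt
      have h2 : DifferentiableAt ℂ (fun u : ℂ => exp ((rr N : ℂ) * (z₀ + u))) u := by fun_prop
      exact (h1.comp u h2).differentiableWithinAt
  · have h1 : (fun u => limPoly w ρ d γ (fun i => η * ξ i) (dir f (fun i => η * ξ i) (V₀ u))) =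
        fun u => (facePoly d ρ c η).eval (z₀ + u) := funext hlim
    rw [h1]
    have h2 : Differentiable ℂ (fun u => (facePoly d ρ c η).eval (z₀ + u)) := by fun_prop
    exact h2.analyticAt 0
  · rw [hlim, add_zero]
    exact hroot
  · simp only [hlim]
    intro hcon
    have h1 : ∀ᶠ u in 𝓝 (0 : ℂ), (facePoly d ρ c η).eval (z₀ + u) = 0 :=
      hcon.mono fun u hu => not_not.mp hu
    have h2 : ∀ᶠ z in 𝓝 z₀, (facePoly d ρ c η).eval z = 0 := by
      have h3 : Tendsto (fun z => z - z₀) (𝓝 z₀) (𝓝 0) := by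
        have : Tendsto (fun z : ℂ => z - z₀) (𝓝 z₀) (𝓝 (z₀ - z₀)) :=
          (continuous_id.sub continuous_const).tendsto z₀
        rwa [sub_self] at this
      filter_upwards [h3.eventually h1] with z hz
      rwa [add_sub_cancel] at hz
    have h3 : {z | (facePoly d ρ c η).IsRoot z}.Infinite := by
      intro hfin
      obtain ⟨U, hU, hUo, hzU⟩ := _root_.eventually_nhds_iff.mp h2
      have : U.Infinite := by
        exact infinite_of_mem_nhds z₀ (hUo.mem_nhds hzU)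
      exact this (hfin.subset hU)
    exact hfp (Polynomial.eq_zero_of_infinite_isRoot _ h3)
  · intro hcon
    apply hξ
    funext i
    have h1 := congrFun hcon i
    simp only [Pi.zero_apply, mul_eq_zero, hη0, false_or] at h1
    exact_mod_cast h1
  · have h1 : (fun N : ℕ => ‖R N‖) = fun N : ℕ => (N : ℝ) := by
      funext N
      simp [R]
    rw [h1]
    exact tendsto_natCast_atTop_atTop
  · filter_upwards [hexp, hcurve] with N hN hcN u hu
    have h1 := hcN u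
    have h2 := curve_mem ((hδC _ (hN u hu)).2 (exp_ne_zero _)) (kN N)
    rw [← h1] at h2
    exact h2

end Pool.Agent.Lib.MP_209724_lc
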