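import Mathlib
import Pool.Agent.Lib.MP_209724_lc.Sublinear
import Pool.Agent.Lib.MP_209724_lc.Hyperbolic

/-!
Zeros at a bounded scale, and at a linear scale.
-/

namespace Pool.Agent.Lib.MP_209724_lc

open Filter Topology Metric Complex MvPolynomial

variable {n : ℕ}

/-- Large multiples of a real vector which are close to `2 π ℤⁿ`. -/
theorem exists_approx (ξ : Fin n → ℝ) : ∃ (R : ℕ → ℝ) (k : ℕ → Fin n → ℤ),
    Tendsto R atTop atTop ∧
      ∀ i, Tendsto (fun N => 2 * Real.pi * (k N i : ℝ) - R N * ξ i) atTop (𝓝 0) := by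
  let x : ℕ → Fin n → ℝ := fun N i => Int.fract ((N : ℝ) * (ξ i / (2 * Real.pi)))
  have hb : Bornology.IsBounded (Set.Icc (0 : Fin n → ℝ) 1) := Metric.isBounded_Icc _ _
  have hx : ∀ N, x N ∈ Set.Icc (0 : Fin n → ℝ) 1 := fun N =>
    ⟨fun i => Int.fract_nonneg _, fun i => (Int.fract_lt_one _).le⟩
  obtain ⟨y, -, φ, hφ, hlim⟩ := tendsto_subseq_of_bounded hb hx
  refine ⟨fun N => (φ (φ N + N) : ℝ) - φ N, fun N i =>
    ⌊(φ (φ N + N) : ℝ) * (ξ i / (2 * Real.pi))⌋ - ⌊(φ N : ℝ) * (ξ i / (2 * Real.pi))⌋, ?_, ?_⟩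
  · refine tendsto_atTop_mono (f := fun N : ℕ => (N : ℝ)) (fun N => ?_)
      tendsto_natCast_atTop_atTop
    have h1 : φ N + N ≤ φ (φ N + N) := hφ.id_le _
    have h2 : (φ N : ℝ) + N ≤ φ (φ N + N) := by exact_mod_cast h1
    linarith
  · intro i
    have h1 : Tendsto (fun N => x (φ N) i) atTop (𝓝 (y i)) := (tendsto_pi_nhds.mp hlim) i
    have h2 : Tendsto (fun N => φ N + N) atTop atTop :=
      tendsto_atTop_mono (fun N => Nat.le_add_left N (φ N)) tendsto_id
    have h3 := (h1.comp h2).sub h1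
    rw [sub_self] at h3
    have h4 := h3.const_mul (-(2 * Real.pi))
    rw [mul_zero] at h4
    refine h4.congr fun N => ?_
    simp only [x, Function.comp_apply, Int.fract]
    have := Real.pi_ne_zero
    push_cast
    field_simp
    ring

/-- **Zeros at a bounded scale.** -/
theorem bounded {P f : MvPolynomial (Fin n) ℂ} {d e : ℕ} {ρ k : ℕ → ℕ}
    {w : ℕ → MvPolynomial (Fin n) ℂ} (h : Fact P f d e ρ k w) {W : Set (Fin n → ℂ)}
    (ξ : Fin n → ℝ) (hξ : ξ ≠ 0) (hfξ : eval (fun i => (ξ i : ℂ)) f = 0) (hwd : w d ≠ 0)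
    (hI : ∀ j ≤ d, w j ≠ 0 → ρ d ≤ (d - j) + ρ j) {rad : ℝ} (hrad : 0 < rad)
    (V₀ : ℂ → Fin n → ℂ) (hVd : ∀ i, DifferentiableOn ℂ (fun u => V₀ u i) (ball 0 rad))
    (hVb : ∃ C : ℝ, ∀ u ∈ ball (0 : ℂ) rad, ‖V₀ u‖ ≤ C)
    (hmem : ∀ u ∈ ball (0 : ℂ) rad, (fun i => exp (V₀ u i)) ∈ W)
    (hB0 : limPoly w ρ d (fun j => if (d - j) + ρ j = ρ d then 1 else 0) (fun i => I * ξ i)
      (dir f (fun i => I * ξ i) (V₀ 0)) = 0)
    (hBne : ∃ᶠ u in 𝓝 (0 : ℂ), limPoly w ρ d (fun j => if (d - j) + ρ j = ρ d then 1 else 0)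
      (fun i => I * ξ i) (dir f (fun i => I * ξ i) (V₀ u)) ≠ 0) : Solv P W := by
  obtain ⟨R, kN, hR, hk⟩ := exists_approx ξ
  have hρle : ∀ j, w j ≠ 0 → ρ j ≤ j := by
    intro j hj
    have h1 := h.kρ j hj
    have h2 : ρ j ≤ e * ρ j := Nat.le_mul_of_pos_left _ h.pos
    omega
  have hRc : Tendsto (fun N => ((R N : ℂ))⁻¹) atTop (𝓝 0) := by
    have h1 : Tendsto (fun N => (((R N)⁻¹ : ℝ) : ℂ)) atTop (𝓝 ((0 : ℝ) : ℂ)) :=
      (Complex.continuous_ofReal.tendsto _).comp (tendsto_inv_atTop_zero.comp hR)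
    simpa using h1
  have hRpos : ∀ᶠ N in atTop, (R N : ℂ) ≠ 0 := by
    filter_upwards [hR.eventually_gt_atTop 0] with N hN
    exact_mod_cast hN.ne'
  let V : ℕ → ℂ → Fin n → ℂ := fun N u i =>
    V₀ u i + ((2 * Real.pi * I * kN N i : ℂ) - R N * (I * ξ i))
  have hV : UConv (ball (0 : ℂ) rad) V V₀ := by
    refine UConv.pi fun i => ?_
    obtain ⟨C, hC⟩ := hVb
    have h1 : UConv (ball (0 : ℂ) rad) (fun _ u => V₀ u i) (fun u => V₀ u i) :=
      UConv.of_bounded (C := C) fun u hu => (norm_le_pi_norm _ i).trans (hC u hu)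
    have h2 : Tendsto (fun N => (2 * Real.pi * I * kN N i : ℂ) - R N * (I * ξ i)) atTop
        (𝓝 0) := by
      have h3 : Tendsto (fun N => ((2 * Real.pi * (kN N i : ℝ) - R N * ξ i : ℝ) : ℂ) * I) atTop
          (𝓝 (((0 : ℝ) : ℂ) * I)) :=
        ((Complex.continuous_ofReal.tendsto _).comp (hk i)).mul_const _
      rw [Complex.ofReal_zero, zero_mul] at h3
      refine h3.congr fun N => ?_
      push_cast
      ring
    have h3 := h1.add (UConv.const (s := ball (0 : ℂ) rad) h2)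
    simp only [add_zero] at h3
    exact h3
  have hBd : DifferentiableOn ℂ (fun u => limPoly w ρ d
      (fun j => if (d - j) + ρ j = ρ d then 1 else 0)
      (fun i => I * ξ i) (dir f (fun i => I * ξ i) (V₀ u))) (ball 0 rad) := by
    have h1 : DifferentiableOn ℂ (fun u => dir f (fun i => I * ξ i) (V₀ u)) (ball 0 rad) := by
      unfold dir
      exact DifferentiableOn.fun_sum fun j _ => (hVd j).const_mul _
    unfold limPoly
    exact DifferentiableOn.fun_sum fun j _ => ((h1.pow _).const_mul _).mul_const _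
  refine h.solv (W := W) hrad (ζ := fun i => I * ξ i) ?_ (R := fun N => (R N : ℂ))
    (r := fun _ => 1) (G := fun N => (R N : ℂ) ^ (d - ρ d)) ?_ ?_ ?_
    (γ := fun j => if (d - j) + ρ j = ρ d then 1 else 0) ?_ hV ?_ ?_ hB0 hBne ?_ ?_ ?_
  · rw [eval_mul_of_isHomogeneous h.hom, hfξ, mul_zero]
  · exact Eventually.of_forall fun _ => one_ne_zero
  · filter_upwards [hRpos] with N hN
    exact pow_ne_zero _ hN
  · simpa only [one_div] using hRc
  · intro j hj hwj
    have h1 := hI j hj hwj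
    have h2 := hρle j hwj
    have h3 := hρle d hwd
    by_cases h4 : (d - j) + ρ j = ρ d
    · rw [if_pos h4]
      refine tendsto_const_nhds.congr' ?_
      filter_upwards [hRpos] with N hN
      have h5 : j - ρ j = d - ρ d := by omega
      rw [h5, one_pow, mul_one, div_self (pow_ne_zero _ hN)]
    · rw [if_neg h4]
      obtain ⟨m, hm⟩ : ∃ m, d - ρ d = (j - ρ j) + (m + 1) := ⟨d - ρ d - (j - ρ j) - 1, by omega⟩
      have h5 : Tendsto (fun N => ((R N : ℂ)⁻¹) ^ (m + 1)) atTop (𝓝 0) := by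
        have := hRc.pow (m + 1)
        rwa [zero_pow (Nat.succ_ne_zero m)] at this
      refine h5.congr' ?_
      filter_upwards [hRpos] with N hN
      have h6 : (R N : ℂ) ^ (j - ρ j) ≠ 0 := pow_ne_zero _ hN
      rw [hm, pow_add (R N : ℂ) (j - ρ j) (m + 1), one_pow, mul_one, inv_pow,
        div_mul_cancel_left₀ h6]
  · exact Eventually.of_forall fun N i => (hVd i).add (differentiableOn_const _)
  · exact hBd.analyticAt (ball_mem_nhds 0 hrad)
  · intro hcon
    apply hξ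
    funext i
    have h1 := congrFun hcon i
    simp only [Pi.zero_apply, mul_eq_zero, I_ne_zero, false_or] at h1
    exact_mod_cast h1
  · have h1 : Tendsto (fun N => |R N|) atTop atTop := tendsto_abs_atTop_atTop.comp hR
    refine h1.congr fun N => ?_
    rw [Complex.norm_real, Real.norm_eq_abs]
  · refine Eventually.of_forall fun N u hu => ?_
    have h1 : (fun i => exp ((R N : ℂ) * (I * ξ i) + 1 * V N u i)) = fun i => exp (V₀ u i) := by
      funext i
      have h2 : (R N : ℂ) * (I * ξ i) + 1 * V N u i = V₀ u i + (kN N i : ℂ) * (2 * Real.pi * I) := by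
        simp only [V]
        ring
      rw [h2, Complex.exp_add, Complex.exp_int_mul_two_pi_mul_I, mul_one]
    rw [h1]
    exact hmem u hu

/-- **Zeros at a linear scale.** -/
theorem linear_solv (P : MvPolynomial (Fin n) ℂ) {W : Set (Fin n → ℂ)}
    {a : Fin n → ℤ} {ℓ : Fin n → ℂ → ℂ} (hg : IsGerm W a ℓ)
    (hnh : NonHyperbolic (homogeneousComponent P.totalDegree P) a) : Solv P W := by
  intro M
  have ha : ∃ i, a i ≠ 0 := by
    by_contra hcon
    push Not at hcon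
    obtain ⟨κ, ⟨σ, -, h1⟩, s₀, h2⟩ := hnh
    apply h2
    rw [← h1]
    congr 2
    funext i
    simp [hcon i]
  obtain ⟨i₀, hi₀⟩ := ha
  obtain ⟨κ, σ, hσ, h0, hne⟩ :=
    hnh.exists_neg_re (homogeneousComponent_isHomogeneous P.totalDegree P)
  obtain ⟨δ, hδ, C, hδC⟩ := hg.exists_bound
  obtain ⟨s, k, hs, hsol⟩ := linear_scaling P a ℓ hg.analytic κ σ hσ h0 hne
    (min (Real.log δ) (-(|C| + |M| + 1)))
  have hnorm : exp s ∈ ball (0 : ℂ) δ := by
    rw [mem_ball_zero_iff, Complex.norm_exp]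
    exact (Real.lt_log_iff_exp_lt hδ).mp (lt_of_lt_of_le hs (min_le_left _ _))
  refine ⟨curve a ℓ k s, ?_, hsol, curve_mem ((hδC _ hnorm).2 (exp_ne_zero _)) k⟩
  have h1 : |(curve a ℓ k s i₀).re| ≤ ‖curve a ℓ k s‖ :=
    (Complex.abs_re_le_norm _).trans (norm_le_pi_norm _ i₀)
  refine lt_of_lt_of_le ?_ h1
  have h2 : (curve a ℓ k s i₀).re = a i₀ * s.re + (ℓ i₀ (exp s)).re := by
    unfold curve
    simp
  have h3 := (Complex.abs_re_le_norm (ℓ i₀ (exp s))).trans ((hδC _ hnorm).1 i₀).2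
  have h4 : (1 : ℝ) ≤ |(a i₀ : ℝ)| := by
    have : 1 ≤ |a i₀| := Int.one_le_abs hi₀
    exact_mod_cast this
  have h5 : |C| + |M| + 1 < |s.re| := by
    have h6 := lt_of_lt_of_le hs (min_le_right _ _)
    have h7 := neg_le_abs s.re
    linarith
  have h6 : |s.re| ≤ |(a i₀ : ℝ) * s.re| := by
    rw [abs_mul]
    exact le_mul_of_one_le_left (abs_nonneg _) h4
  rw [h2]
  have h7 : |(a i₀ : ℝ) * s.re| ≤ |(a i₀ : ℝ) * s.re + (ℓ i₀ (exp s)).re| +
      |(ℓ i₀ (exp s)).re| := by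
    have := abs_sub ((a i₀ : ℝ) * s.re + (ℓ i₀ (exp s)).re) (ℓ i₀ (exp s)).re
    rwa [add_sub_cancel_right] at this
  have h8 := le_abs_self C
  have h9 := le_abs_self M
  linarith

end Pool.Agent.Lib.MP_209724_lc
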