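import Mathlib
import Pool.Agent.Lib.MP_209724_lc.Bounded

/-!
Zeros at a bounded scale along a germ.
-/

namespace Pool.Agent.Lib.MP_209724_lc

open Filter Topology Metric Complex MvPolynomial

variable {n : ℕ}

/-- The limit polynomial. -/
noncomputable def limP (w : ℕ → MvPolynomial (Fin n) ℂ) (ρ : ℕ → ℕ) (d : ℕ)
    (ζ : Fin n → ℂ) : Polynomial ℂ :=
  ∑ j ∈ Finset.range (d + 1),
    Polynomial.C ((if (d - j) + ρ j = ρ d then 1 else 0) * eval ζ (w j)) * Polynomial.X ^ ρ j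

theorem eval_limP (w : ℕ → MvPolynomial (Fin n) ℂ) (ρ : ℕ → ℕ) (d : ℕ)
    (ζ : Fin n → ℂ) (T : ℂ) : (limP w ρ d ζ).eval T =
      limPoly w ρ d (fun j => if (d - j) + ρ j = ρ d then 1 else 0) ζ T := by
  unfold limP limPoly
  rw [Polynomial.eval_finsetSum]
  refine Finset.sum_congr rfl fun j _ => ?_
  rw [Polynomial.eval_mul, Polynomial.eval_C, Polynomial.eval_pow, Polynomial.eval_X]
  ring

theorem limP_coeff_top (w : ℕ → MvPolynomial (Fin n) ℂ) (ρ : ℕ → ℕ) (d : ℕ)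
    (ζ : Fin n → ℂ) : (limP w ρ d ζ).coeff (ρ d) = eval ζ (w d) := by
  unfold limP
  rw [Polynomial.finsetSum_coeff]
  simp_rw [Polynomial.coeff_C_mul_X_pow]
  rw [Finset.sum_eq_single d]
  · simp
  · intro j hj hne
    have hj' := Finset.mem_range.mp hj
    by_cases h1 : ρ d = ρ j
    · rw [if_pos h1, if_neg (by omega), zero_mul]
    · rw [if_neg h1]
  · intro h1
    exact absurd (Finset.mem_range.mpr (by omega)) h1

theorem limP_ne_zero {w : ℕ → MvPolynomial (Fin n) ℂ} {ρ : ℕ → ℕ} {d : ℕ}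
    {ζ : Fin n → ℂ} (h : eval ζ (w d) ≠ 0) : limP w ρ d ζ ≠ 0 := by
  intro h1
  apply h
  rw [← limP_coeff_top w ρ d ζ, h1, Polynomial.coeff_zero]

theorem exists_root_limP {w : ℕ → MvPolynomial (Fin n) ℂ} {ρ : ℕ → ℕ} {d : ℕ}
    {ζ : Fin n → ℂ} (h : eval ζ (w d) ≠ 0) (hρ : 0 < ρ d) : ∃ T : ℂ, (limP w ρ d ζ).eval T = 0 := by
  refine IsAlgClosed.exists_root _ ?_
  intro hdeg
  have h1 : ρ d ≤ (limP w ρ d ζ).natDegree :=
    Polynomial.le_natDegree_of_ne_zero (by rw [limP_coeff_top]; exact h)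
  have h2 : (limP w ρ d ζ).natDegree = 0 := Polynomial.natDegree_eq_of_degree_eq_some hdeg
  omega

theorem frequently_ne {Q : Polynomial ℂ} (hQ : Q ≠ 0) {T : ℂ → ℂ} (hT : ContinuousAt T 0)
    (hTn : ¬ ∀ᶠ u in 𝓝 (0 : ℂ), T u = T 0) : ∃ᶠ u in 𝓝 (0 : ℂ), Q.eval (T u) ≠ 0 := by
  intro hcon
  apply hTn
  have h1 : ∀ᶠ u in 𝓝 (0 : ℂ), Q.eval (T u) = 0 := hcon.mono fun u hu => not_not.mp hu
  have hfin : ((Q.roots.toFinset.erase (T 0) : Finset ℂ) : Set ℂ).Finite := Finset.finite_toSet _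
  have h2 : ((Q.roots.toFinset.erase (T 0) : Finset ℂ) : Set ℂ)ᶜ ∈ 𝓝 (T 0) :=
    hfin.isClosed.isOpen_compl.mem_nhds (by simp)
  filter_upwards [h1, hT.preimage_mem_nhds h2] with u hu hu2
  by_contra hne
  apply hu2
  rw [Finset.mem_coe, Finset.mem_erase, Multiset.mem_toFinset, Polynomial.mem_roots hQ]
  exact ⟨hne, hu⟩

theorem analyticAt_dir {f : MvPolynomial (Fin n) ℂ} {ζ : Fin n → ℂ} {ℓ : Fin n → ℂ → ℂ} {t : ℂ}
    (hℓ : ∀ i, AnalyticAt ℂ (ℓ i) t) : AnalyticAt ℂ (fun t => dir f ζ (fun i => ℓ i t)) t := by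
  unfold dir
  exact Finset.analyticAt_fun_sum _ fun i _ => analyticAt_const.mul (hℓ i)

/-- **Zeros at a bounded scale along a germ.** -/
theorem bounded_germ {P f : MvPolynomial (Fin n) ℂ} {d e : ℕ} {ρ k : ℕ → ℕ}
    {w : ℕ → MvPolynomial (Fin n) ℂ} (h : Fact P f d e ρ k w) {W : Set (Fin n → ℂ)}
    {a : Fin n → ℤ} {ℓ : Fin n → ℂ → ℂ} (hg : IsGerm W a ℓ)
    (ξ : Fin n → ℝ) (hξ : ξ ≠ 0) (hfξ : eval (fun i => (ξ i : ℂ)) f = 0)
    (hwd : eval (fun i => I * ξ i) (w d) ≠ 0)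
    (hI : ∀ j ≤ d, w j ≠ 0 → ρ d ≤ (d - j) + ρ j)
    (hda : dir f (fun i => I * ξ i) (fun i => (a i : ℂ)) = 0)
    (hnc : ∀ c : ℂ, ¬ ∀ᶠ t in 𝓝 (0 : ℂ), dir f (fun i => I * ξ i) (fun i => ℓ i t) = c) :
    ∃ δ > 0, ∀ t₀ ∈ ball (0 : ℂ) δ, t₀ ≠ 0 → ∀ κ : Fin n → ℤ,
      (limP w ρ d (fun i => I * ξ i)).eval
        (dir f (fun i => I * ξ i) (fun i => ℓ i t₀ + 2 * Real.pi * I * κ i)) = 0 →
      Solv P W := by
  obtain ⟨δ, hδ, C, hδC⟩ := hg.exists_bound
  refine ⟨δ, hδ, fun t₀ ht₀ ht₀0 κ hroot => ?_⟩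
  have hwd0 : w d ≠ 0 := by
    intro h1
    apply hwd
    rw [h1, map_zero]
  set ζ : Fin n → ℂ := fun i => I * ξ i with hζ
  obtain ⟨s₀, hs₀⟩ : ∃ s₀, exp s₀ = t₀ := ⟨Complex.log t₀, Complex.exp_log ht₀0⟩
  -- a small disc
  have hcont : Continuous (fun u : ℂ => exp (s₀ + u)) := by fun_prop
  have hnhds : ∀ᶠ u in 𝓝 (0 : ℂ), exp (s₀ + u) ∈ ball (0 : ℂ) δ := by
    refine hcont.continuousAt.eventually (isOpen_ball.mem_nhds ?_)
    change exp (s₀ + 0) ∈ _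
    rw [add_zero, hs₀]
    exact ht₀
  obtain ⟨rad, hrad, hball⟩ := Metric.eventually_nhds_iff.mp hnhds
  have hball' : ∀ u ∈ ball (0 : ℂ) (min rad 1), exp (s₀ + u) ∈ ball (0 : ℂ) δ := fun u hu =>
    hball (lt_of_lt_of_le (mem_ball.mp hu) (min_le_left _ _))
  let V₀ : ℂ → Fin n → ℂ := fun u => curve a ℓ κ (s₀ + u)
  have hT : ∀ u, dir f ζ (V₀ u) =
      dir f ζ (fun i => ℓ i (exp (s₀ + u)) + 2 * Real.pi * I * κ i) := by
    intro u
    have h1 : V₀ u = fun i => (s₀ + u) * (a i : ℂ) +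
        (ℓ i (exp (s₀ + u)) + 2 * Real.pi * I * κ i) := by
      funext i
      simp only [V₀, curve]
      ring
    rw [h1, dir_add, dir_smul, hda, mul_zero, zero_add]
  have hT' : ∀ u, dir f ζ (V₀ u) =
      dir f ζ (fun i => ℓ i (exp (s₀ + u))) + dir f ζ (fun i => 2 * Real.pi * I * κ i) := by
    intro u
    rw [hT, dir_add]
  have hLan : ∀ t ∈ ball (0 : ℂ) δ, AnalyticAt ℂ (fun t => dir f ζ (fun i => ℓ i t)) t :=
    fun t ht => analyticAt_dir fun i => ((hδC t ht).1 i).1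
  have hTcont : ContinuousAt (fun u => dir f ζ (V₀ u)) 0 := by
    simp only [hT']
    refine ContinuousAt.add ?_ continuousAt_const
    refine ContinuousAt.comp (f := fun u : ℂ => exp (s₀ + u))
      (g := fun t => dir f ζ (fun i => ℓ i t)) ?_ hcont.continuousAt
    have : exp (s₀ + 0) ∈ ball (0 : ℂ) δ := by rw [add_zero, hs₀]; exact ht₀
    exact (hLan _ this).continuousAt
  have hTn : ¬ ∀ᶠ u in 𝓝 (0 : ℂ), dir f ζ (V₀ u) = dir f ζ (V₀ 0) := by
    intro hcon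
    simp only [hT', add_zero, add_left_inj, hs₀] at hcon
    -- transfer to a neighbourhood of `t₀`
    have h1 : Tendsto (fun t : ℂ => Complex.log (t / t₀)) (𝓝 t₀) (𝓝 0) := by
      have h2 : ContinuousAt (fun t : ℂ => Complex.log (t / t₀)) t₀ := by
        refine ContinuousAt.clog (by fun_prop) ?_
        rw [div_self ht₀0]
        exact Complex.one_mem_slitPlane
      have h3 := h2.tendsto
      rwa [div_self ht₀0, Complex.log_one] at h3
    have h2 : ∀ᶠ t in 𝓝 t₀, dir f ζ (fun i => ℓ i t) = dir f ζ (fun i => ℓ i t₀) := by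
      filter_upwards [h1.eventually hcon, isOpen_ne.mem_nhds ht₀0] with t ht ht0
      rwa [Complex.exp_add, hs₀, Complex.exp_log (div_ne_zero ht0 ht₀0),
        mul_div_cancel₀ _ ht₀0] at ht
    have h3 : AnalyticOnNhd ℂ (fun t => dir f ζ (fun i => ℓ i t)) (ball 0 δ) := hLan
    have h4 : AnalyticOnNhd ℂ (fun _ : ℂ => dir f ζ (fun i => ℓ i t₀)) (ball 0 δ) :=
      fun t _ => analyticAt_const
    have h5 := h3.eqOn_of_preconnected_of_eventuallyEq h4 (convex_ball 0 δ).isPreconnected ht₀ h2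
    apply hnc (dir f ζ (fun i => ℓ i t₀))
    filter_upwards [ball_mem_nhds (0 : ℂ) hδ] with t ht
    exact h5 ht
  refine bounded h ξ hξ hfξ hwd0 hI (rad := min rad 1) (lt_min hrad one_pos) V₀ ?_ ?_ ?_ ?_ ?_
  · intro i u hu
    have h1 := (((hδC _ (hball' u hu)).1 i).1).differentiableAt
    have h2 : DifferentiableAt ℂ (fun u : ℂ => exp (s₀ + u)) u := by fun_prop
    have h3 := h1.comp u h2
    refine DifferentiableAt.differentiableWithinAt ?_
    simp only [V₀, curve]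
    refine (DifferentiableAt.add ?_ ?_).add (differentiableAt_const _)
    · fun_prop
    · exact h3
  · refine ⟨∑ i, (‖(a i : ℂ)‖ * (‖s₀‖ + 1) + |C| + ‖(2 * Real.pi * I * κ i : ℂ)‖),
      fun u hu => ?_⟩
    rw [pi_norm_le_iff_of_nonneg (Finset.sum_nonneg fun i _ => by positivity)]
    intro i
    refine le_trans ?_ (Finset.single_le_sum
      (f := fun i => ‖(a i : ℂ)‖ * (‖s₀‖ + 1) + |C| + ‖(2 * Real.pi * I * κ i : ℂ)‖)
      (fun i _ => by positivity) (Finset.mem_univ i))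
    simp only [V₀, curve]
    refine (norm_add_le _ _).trans (add_le_add ((norm_add_le _ _).trans (add_le_add ?_ ?_)) le_rfl)
    · rw [norm_mul]
      gcongr
      refine (norm_add_le _ _).trans ?_
      gcongr
      exact (lt_of_lt_of_le (mem_ball_zero_iff.mp hu) (min_le_right _ _)).le
    · exact ((hδC _ (hball' u hu)).1 i).2.trans (le_abs_self _)
  · intro u hu
    exact curve_mem ((hδC _ (hball' u hu)).2 (exp_ne_zero _)) κ
  · rw [← eval_limP, hT, add_zero, hs₀]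
    exact hroot
  · simp only [← eval_limP]
    exact frequently_ne (limP_ne_zero hwd) hTcont hTn

/-- **Zeros at a bounded scale along a germ at a point of the torus.** -/
theorem bounded_point {P f : MvPolynomial (Fin n) ℂ} {d e : ℕ} {ρ k : ℕ → ℕ}
    {w : ℕ → MvPolynomial (Fin n) ℂ} (h : Fact P f d e ρ k w) {W : Set (Fin n → ℂ)}
    {ℓ : Fin n → ℂ → ℂ} (hg : IsGerm W 0 ℓ) (hg0 : (fun i => exp (ℓ i 0)) ∈ W)
    (ξ : Fin n → ℝ) (hξ : ξ ≠ 0) (hfξ : eval (fun i => (ξ i : ℂ)) f = 0)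
    (hwd : eval (fun i => I * ξ i) (w d) ≠ 0)
    (hI : ∀ j ≤ d, w j ≠ 0 → ρ d ≤ (d - j) + ρ j)
    (hnc : ∀ c : ℂ, ¬ ∀ᶠ t in 𝓝 (0 : ℂ), dir f (fun i => I * ξ i) (fun i => ℓ i t) = c)
    (κ : Fin n → ℤ)
    (hroot : (limP w ρ d (fun i => I * ξ i)).eval
        (dir f (fun i => I * ξ i) (fun i => ℓ i 0 + 2 * Real.pi * I * κ i)) = 0) :
    Solv P W := by
  obtain ⟨δ, hδ, C, hδC⟩ := hg.exists_bound
  have hwd0 : w d ≠ 0 := by
    intro h1
    apply hwd
    rw [h1, map_zero]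
  set ζ : Fin n → ℂ := fun i => I * ξ i with hζ
  let V₀ : ℂ → Fin n → ℂ := fun u i => ℓ i u + 2 * Real.pi * I * κ i
  have hT' : ∀ u, dir f ζ (V₀ u) =
      dir f ζ (fun i => ℓ i u) + dir f ζ (fun i => 2 * Real.pi * I * κ i) := by
    intro u
    rw [← dir_add]
  have hTcont : ContinuousAt (fun u => dir f ζ (V₀ u)) 0 := by
    simp only [hT']
    exact (analyticAt_dir hg.analytic).continuousAt.add continuousAt_const
  have hTn : ¬ ∀ᶠ u in 𝓝 (0 : ℂ), dir f ζ (V₀ u) = dir f ζ (V₀ 0) := by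
    intro hcon
    simp only [hT', add_left_inj] at hcon
    exact hnc _ hcon
  refine bounded h ξ hξ hfξ hwd0 hI (rad := δ) hδ V₀ ?_ ?_ ?_ ?_ ?_
  · intro i u hu
    exact ((((hδC _ hu).1 i).1).differentiableAt.add
      (differentiableAt_const _)).differentiableWithinAt
  · refine ⟨∑ i, (|C| + ‖(2 * Real.pi * I * κ i : ℂ)‖), fun u hu => ?_⟩
    rw [pi_norm_le_iff_of_nonneg (Finset.sum_nonneg fun i _ => by positivity)]
    intro i
    refine le_trans ?_ (Finset.single_le_sum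
      (f := fun i => |C| + ‖(2 * Real.pi * I * κ i : ℂ)‖)
      (fun i _ => by positivity) (Finset.mem_univ i))
    exact (norm_add_le _ _).trans (add_le_add (((hδC _ hu).1 i).2.trans (le_abs_self _)) le_rfl)
  · intro u hu
    have h1 : (fun i => exp (V₀ u i)) = fun i => exp (ℓ i u) := by
      funext i
      have h2 : V₀ u i = ℓ i u + (κ i : ℂ) * (2 * Real.pi * I) := by
        simp only [V₀]
        ring
      rw [h2, Complex.exp_add, Complex.exp_int_mul_two_pi_mul_I, mul_one]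
    rw [h1]
    by_cases hu0 : u = 0
    · rw [hu0]; exact hg0
    · have h3 := (hδC _ hu).2 hu0
      have h4 : germ 0 ℓ u = fun i => exp (ℓ i u) := by
        funext i
        simp [germ]
      rwa [h4] at h3
  · rw [← eval_limP]
    exact hroot
  · simp only [← eval_limP]
    exact frequently_ne (limP_ne_zero hwd) hTcont hTn

end Pool.Agent.Lib.MP_209724_lc
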