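import Mathlib

/-!
Holomorphic lifting of simple roots on a half plane.
-/

namespace Pool.Agent.Lib.MP_209724_lc

open Filter Topology Set

/-- Local structure of the zero set near a simple root. -/
theorem lift_local {D : ℕ} (A : ℝ) (c : Fin (D + 1) → ℂ → ℂ)
    (hc : ∀ k, DifferentiableOn ℂ (c k) {z : ℂ | z.re < A})
    (z₁ y₁ : ℂ) (hz : z₁.re < A)
    (h0 : ∑ k, c k z₁ * y₁ ^ (k : ℕ) = 0)
    (h1 : ∑ k : Fin (D + 1), ((k : ℕ) : ℂ) * c k z₁ * y₁ ^ ((k : ℕ) - 1) ≠ 0) :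
    ∃ ψ : ℂ → ℂ, DifferentiableAt ℂ ψ z₁ ∧ Tendsto ψ (𝓝 z₁) (𝓝 y₁) ∧
      (∀ᶠ x in 𝓝 z₁, ∑ k, c k x * ψ x ^ (k : ℕ) = 0) ∧
      (∀ᶠ v in 𝓝 (z₁, y₁), ∑ k, c k v.1 * v.2 ^ (k : ℕ) = 0 ↔ ψ v.1 = v.2) := by
  have hopen : IsOpen {z : ℂ | z.re < A} := isOpen_lt Complex.continuous_re continuous_const
  set R : ℂ × ℂ → ℂ := fun p => ∑ k, c k p.1 * p.2 ^ (k : ℕ) with hR
  have hcd : ContDiffAt ℂ 1 R (z₁, y₁) := by
    apply ContDiffAt.sum
    intro k _
    have ha : AnalyticAt ℂ (c k) z₁ := (hc k).analyticAt (hopen.mem_nhds hz)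
    have h2 : ContDiffAt ℂ 1 (fun p : ℂ × ℂ => c k p.1) (z₁, y₁) :=
      ContDiffAt.comp (g := c k) (f := Prod.fst) (z₁, y₁) ha.contDiffAt contDiffAt_fst
    exact h2.mul (contDiffAt_snd.pow _)
  have hs : HasStrictFDerivAt R (fderiv ℂ R (z₁, y₁)) (z₁, y₁) :=
    hcd.hasStrictFDerivAt (by norm_num)
  set f' := fderiv ℂ R (z₁, y₁) with hf'
  have hd : HasDerivAt (fun y => R (z₁, y)) ((f'.comp (ContinuousLinearMap.inr ℂ ℂ ℂ)) 1) y₁ := by
    have h3 : HasFDerivAt (fun y : ℂ => (z₁, y)) (ContinuousLinearMap.inr ℂ ℂ ℂ) y₁ :=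
      hasFDerivAt_prodMk_right z₁ y₁
    have h4 := (hs.hasFDerivAt.comp y₁ h3)
    exact h4.hasDerivAt
  have hd2 : HasDerivAt (fun y => R (z₁, y))
      (∑ k : Fin (D + 1), c k z₁ * (((k : ℕ) : ℂ) * y₁ ^ ((k : ℕ) - 1))) y₁ := by
    simp only [hR]
    apply HasDerivAt.fun_sum
    intro k _
    exact (hasDerivAt_pow _ _).const_mul _
  have heq := hd.unique hd2
  have hne : (f'.comp (ContinuousLinearMap.inr ℂ ℂ ℂ)) 1 ≠ 0 := by
    rw [heq]
    have h5 : ∑ k : Fin (D + 1), c k z₁ * (((k : ℕ) : ℂ) * y₁ ^ ((k : ℕ) - 1)) =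
        ∑ k : Fin (D + 1), ((k : ℕ) : ℂ) * c k z₁ * y₁ ^ ((k : ℕ) - 1) :=
      Finset.sum_congr rfl (fun k _ => by ring)
    rw [h5]
    exact h1
  have hinv : (f'.comp (ContinuousLinearMap.inr ℂ ℂ ℂ)).IsInvertible := by
    refine ⟨ContinuousLinearEquiv.unitsEquivAut ℂ (Units.mk0 _ hne), ?_⟩
    ext
    simp
  have hz0 : R (z₁, y₁) = 0 := h0
  refine ⟨hs.implicitFunctionOfProdDomain hinv,
    (hs.hasStrictFDerivAt_implicitFunctionOfProdDomain hinv).hasFDerivAt.differentiableAt,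
    hs.tendsto_implicitFunctionOfProdDomain hinv, ?_, ?_⟩
  · have := hs.eventually_apply_implicitFunctionOfProdDomain hinv
    rw [hz0] at this
    exact this
  · have := hs.eventually_apply_eq_iff_implicitFunctionOfProdDomain hinv
    rw [hz0] at this
    exact this

/-- Roots are bounded when the coefficients are bounded and the leading one is bounded below. -/
theorem root_bound {D : ℕ} (a : Fin (D + 1) → ℂ) (M δ : ℝ) (hδ : 0 < δ)
    (hM : ∀ k, ‖a k‖ ≤ M) (hl : δ ≤ ‖a (Fin.last D)‖) (y : ℂ)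
    (h : ∑ k, a k * y ^ (k : ℕ) = 0) : ‖y‖ ≤ 1 + D * M / δ := by
  have hM0 : 0 ≤ M := (norm_nonneg _).trans (hM 0)
  rcases le_or_gt ‖y‖ 1 with hy | hy
  · have : 0 ≤ D * M / δ := by positivity
    linarith
  rw [Fin.sum_univ_castSucc] at h
  have h1 : a (Fin.last D) * y ^ D = - ∑ i : Fin D, a i.castSucc * y ^ (i : ℕ) := by
    have := eq_neg_of_add_eq_zero_right h
    simpa using this
  have h2 : ‖a (Fin.last D)‖ * ‖y‖ ^ D ≤ ∑ i : Fin D, ‖a i.castSucc‖ * ‖y‖ ^ (i : ℕ) := by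
    calc ‖a (Fin.last D)‖ * ‖y‖ ^ D = ‖a (Fin.last D) * y ^ D‖ := by rw [norm_mul, norm_pow]
      _ = ‖∑ i : Fin D, a i.castSucc * y ^ (i : ℕ)‖ := by rw [h1, norm_neg]
      _ ≤ _ := by
        refine (norm_sum_le _ _).trans (le_of_eq ?_)
        simp [norm_pow]
  rcases Nat.eq_zero_or_pos D with hD | hD
  · subst hD
    simp at h2
    have : 0 < ‖a (Fin.last 0)‖ := lt_of_lt_of_le hδ hl
    simp at this
    exact absurd h2 this
  have h3 : ∑ i : Fin D, ‖a i.castSucc‖ * ‖y‖ ^ (i : ℕ) ≤ ∑ _i : Fin D, M * ‖y‖ ^ (D - 1) := by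
    apply Finset.sum_le_sum
    intro i _
    apply mul_le_mul (hM _) _ (by positivity) hM0
    exact pow_le_pow_right₀ hy.le (by omega)
  have h4 : δ * ‖y‖ ^ D ≤ D * M * ‖y‖ ^ (D - 1) := by
    calc δ * ‖y‖ ^ D ≤ ‖a (Fin.last D)‖ * ‖y‖ ^ D := by gcongr
      _ ≤ _ := h2
      _ ≤ _ := h3
      _ = D * M * ‖y‖ ^ (D - 1) := by simp; ring
  have h5 : ‖y‖ ^ D = ‖y‖ ^ (D - 1) * ‖y‖ := by
    rw [← pow_succ]; congr 1; omega
  rw [h5] at h4
  have h6 : 0 < ‖y‖ ^ (D - 1) := by positivity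
  have h7 : δ * ‖y‖ ≤ D * M := by
    have : (δ * ‖y‖) * ‖y‖ ^ (D - 1) ≤ (D * M) * ‖y‖ ^ (D - 1) := by linarith
    exact le_of_mul_le_mul_right this h6
  have h8 : ‖y‖ ≤ D * M / δ := by
    rw [le_div_iff₀ hδ]; linarith
  linarith

theorem exists_lift {D : ℕ} (A : ℝ) (c : Fin (D + 1) → ℂ → ℂ)
    (hc : ∀ k, DifferentiableOn ℂ (c k) {z : ℂ | z.re < A})
    (hlead : ∀ z : ℂ, z.re < A → c (Fin.last D) z ≠ 0)
    (hsimple : ∀ z : ℂ, z.re < A → ∀ y : ℂ, ∑ k, c k z * y ^ (k : ℕ) = 0 →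
      ∑ k : Fin (D + 1), ((k : ℕ) : ℂ) * c k z * y ^ ((k : ℕ) - 1) ≠ 0)
    (z₀ : ℂ) (hz₀ : z₀.re < A) (y₀ : ℂ) (h0 : ∑ k, c k z₀ * y₀ ^ (k : ℕ) = 0) :
    ∃ Y : ℂ → ℂ, DifferentiableOn ℂ Y {z : ℂ | z.re < A} ∧ Y z₀ = y₀ ∧
      ∀ z : ℂ, z.re < A → ∑ k, c k z * Y z ^ (k : ℕ) = 0 := by
  classical
  have hopen : IsOpen {z : ℂ | z.re < A} := isOpen_lt Complex.continuous_re continuous_const
  set H : Set ℂ := {z : ℂ | z.re < A} with hH
  set R : ℂ × ℂ → ℂ := fun p => ∑ k, c k p.1 * p.2 ^ (k : ℕ) with hR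
  have hRc : ContinuousOn R (H ×ˢ univ) := by
    apply continuousOn_finsetSum
    intro k _
    apply ContinuousOn.mul
    · exact (hc k).continuousOn.comp continuousOn_fst (fun p hp => hp.1)
    · exact (continuous_snd.pow _).continuousOn
  let E := {p : ℂ × ℂ // p.1 ∈ H ∧ R p = 0}
  let f : E → H := fun p => ⟨p.1.1, p.2.1⟩
  have hfc : Continuous f := by
    apply Continuous.subtype_mk
    exact continuous_fst.comp continuous_subtype_val
  -- local sections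
  have hloc : ∀ e : E, ∃ ψ : ℂ → ℂ, DifferentiableAt ℂ ψ e.1.1 ∧ Tendsto ψ (𝓝 e.1.1) (𝓝 e.1.2) ∧
      (∀ᶠ x in 𝓝 e.1.1, R (x, ψ x) = 0) ∧
      (∀ᶠ v in 𝓝 e.1, R v = 0 ↔ ψ v.1 = v.2) := by
    intro e
    exact lift_local A c hc e.1.1 e.1.2 e.2.1 e.2.2 (hsimple _ e.2.1 _ e.2.2)
  have : LocallyCompactSpace H := hopen.locallyCompactSpace
  -- properness
  have hproper : IsProperMap f := by
    rw [isProperMap_iff_isCompact_preimage]
    refine ⟨hfc, fun K hK => ?_⟩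
    rw [Subtype.isCompact_iff]
    have hK' : IsCompact (Subtype.val '' K : Set ℂ) := hK.image continuous_subtype_val
    have hK'H : (Subtype.val '' K : Set ℂ) ⊆ H := by
      rintro _ ⟨x, _, rfl⟩
      exact x.2
    obtain ⟨M, hM⟩ : ∃ M : ℝ, ∀ z ∈ (Subtype.val '' K : Set ℂ), ∀ k, ‖c k z‖ ≤ M := by
      have h1 : ∀ k, ∃ M : ℝ, ∀ z ∈ (Subtype.val '' K : Set ℂ), ‖c k z‖ ≤ M := fun k =>
        hK'.exists_bound_of_continuousOn ((hc k).continuousOn.mono hK'H)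
      choose Mk hMk using h1
      refine ⟨∑ k, |Mk k|, fun z hz k => ?_⟩
      calc ‖c k z‖ ≤ Mk k := hMk k z hz
        _ ≤ |Mk k| := le_abs_self _
        _ ≤ _ := Finset.single_le_sum (f := fun k => |Mk k|) (fun i _ => abs_nonneg _)
          (Finset.mem_univ k)
    obtain ⟨δ, hδ, hδ2⟩ : ∃ δ : ℝ, 0 < δ ∧ ∀ z ∈ (Subtype.val '' K : Set ℂ),
        δ ≤ ‖c (Fin.last D) z‖ := by
      rcases (Subtype.val '' K : Set ℂ).eq_empty_or_nonempty with hKe | hKne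
      · exact ⟨1, one_pos, by simp [hKe]⟩
      · obtain ⟨z, hz, hzmin⟩ := hK'.exists_isMinOn hKne
          ((hc (Fin.last D)).continuousOn.mono hK'H).norm
        exact ⟨‖c (Fin.last D) z‖, norm_pos_iff.2 (hlead z (hK'H hz)), fun w hw => hzmin hw⟩
    have himg : Subtype.val '' (f ⁻¹' K) =
        ((Subtype.val '' K : Set ℂ) ×ˢ Metric.closedBall (0 : ℂ) (1 + D * M / δ)) ∩ R ⁻¹' {0} := by
      ext p
      constructor
      · rintro ⟨e, he, rfl⟩
        have he' : e.1.1 ∈ (Subtype.val '' K : Set ℂ) := ⟨f e, he, rfl⟩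
        refine ⟨⟨he', ?_⟩, e.2.2⟩
        rw [mem_closedBall_zero_iff]
        exact root_bound (fun k => c k e.1.1) M δ hδ (fun k => hM _ he' k) (hδ2 _ he') _ e.2.2
      · rintro ⟨⟨hp1, _⟩, hp3⟩
        refine ⟨⟨p, hK'H hp1, hp3⟩, ?_, rfl⟩
        obtain ⟨x, hx, hx2⟩ := hp1
        have : f ⟨p, hK'H ⟨x, hx, hx2⟩, hp3⟩ = x := by
          apply Subtype.ext
          exact hx2.symm
        show f _ ∈ K
        rw [this]
        exact hx
    rw [himg]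
    have hcomp : IsCompact ((Subtype.val '' K : Set ℂ) ×ˢ
        Metric.closedBall (0 : ℂ) (1 + D * M / δ)) :=
      hK'.prod (isCompact_closedBall _ _)
    have hclosed : IsClosed (((Subtype.val '' K : Set ℂ) ×ˢ
        Metric.closedBall (0 : ℂ) (1 + D * M / δ)) ∩ R ⁻¹' {0}) := by
      apply ContinuousOn.preimage_isClosed_of_isClosed (hRc.mono _) hcomp.isClosed
        isClosed_singleton
      intro p hp
      exact ⟨hK'H hp.1, trivial⟩
    exact hcomp.of_isClosed_subset hclosed inter_subset_left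
  -- open map
  have hopenmap : IsOpenMap f := by
    rw [isOpenMap_iff_nhds_le]
    intro e
    obtain ⟨ψ, -, hψ2, hψ3, hψ4⟩ := hloc e
    have hψe : ψ e.1.1 = e.1.2 := (hψ4.self_of_nhds).1 e.2.2
    intro S hS
    rw [mem_map, nhds_subtype_eq_comap, mem_comap] at hS
    obtain ⟨T, hT, hTS⟩ := hS
    rw [nhds_subtype_eq_comap, mem_comap]
    have h1 : Tendsto (fun x => (x, ψ x)) (𝓝 e.1.1) (𝓝 e.1) := by
      have := (tendsto_id (x := 𝓝 e.1.1)).prodMk_nhds hψ2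
      simpa using this
    refine ⟨{x | x ∈ H ∧ R (x, ψ x) = 0 ∧ (x, ψ x) ∈ T}, ?_, ?_⟩
    · filter_upwards [hopen.mem_nhds e.2.1, hψ3, h1 hT] with x hx1 hx2 hx3
      exact ⟨hx1, hx2, hx3⟩
    · rintro x ⟨hx1, hx2, hx3⟩
      have := hTS (a := (⟨(x.1, ψ x.1), hx1, hx2⟩ : E)) hx3
      exact this
  have hlochomeo : IsLocalHomeomorph f := by
    rw [isLocalHomeomorph_iff_isOpenEmbedding_restrict]
    intro e
    obtain ⟨ψ, -, hψ2, hψ3, hψ4⟩ := hloc e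
    obtain ⟨T, hT1, hT2, hT3⟩ := eventually_nhds_iff.1 hψ4
    refine ⟨Subtype.val ⁻¹' T, continuous_subtype_val.continuousAt (hT2.mem_nhds hT3), ?_⟩
    apply IsOpenEmbedding.of_continuous_injective_isOpenMap
    · exact hfc.comp continuous_subtype_val
    · rintro ⟨⟨p, hp1, hp2⟩, hpT⟩ ⟨⟨q, hq1, hq2⟩, hqT⟩ hpq
      have h1 : p.1 = q.1 := congrArg Subtype.val hpq
      have h2 : ψ p.1 = p.2 := (hT1 p hpT).1 hp2
      have h3 : ψ q.1 = q.2 := (hT1 q hqT).1 hq2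
      have h4 : p = q := by
        apply Prod.ext h1
        rw [← h2, ← h3, h1]
      subst h4
      rfl
    · exact hopenmap.comp (IsOpen.isOpenMap_subtype_val (hT2.preimage continuous_subtype_val))
  have hfin : ∀ x ∈ (univ : Set H), (f ⁻¹' {x}).Finite := by
    intro x _
    have hcpt : IsCompact (f ⁻¹' {x}) := hproper.isCompact_preimage isCompact_singleton
    apply hcpt.finite
    refine IsDiscrete.of_openPartialHomeomorph f subset_rfl (x := x) (fun e _ => ?_)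
    obtain ⟨φ, h1, h2⟩ := hlochomeo e
    exact ⟨φ, h1, h2.symm⟩
  have hcov : IsCoveringMap f := by
    rw [isCoveringMap_iff_isCoveringMapOn_univ]
    apply hproper.isClosedMap.isCoveringMapOn_of_isLocalHomeomorphOn hfin
    exact hlochomeo.isLocalHomeomorphOn
  have hconv : Convex ℝ H := convex_halfSpace_re_lt A
  have : ContractibleSpace H := hconv.contractibleSpace ⟨z₀, hz₀⟩
  have : LocallyPathConnectedSpace H := hopen.locallyPathConnectedSpace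
  obtain ⟨F, ⟨hF1, hF2⟩, -⟩ := hcov.existsUnique_continuousMap_lifts (ContinuousMap.id H)
    ⟨z₀, hz₀⟩ ⟨(z₀, y₀), hz₀, h0⟩ rfl
  have hF3 : ∀ x : H, (F x).1.1 = x.1 := by
    intro x
    have := congrFun hF2 x
    exact congrArg Subtype.val this
  refine ⟨fun z => if hz : z ∈ H then (F ⟨z, hz⟩).1.2 else 0, ?_, ?_, ?_⟩
  · intro z hz
    apply DifferentiableAt.differentiableWithinAt
    obtain ⟨ψ, hψ1, hψ2, hψ3, hψ4⟩ := hloc (F ⟨z, hz⟩)
    rw [hF3] at hψ1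
    apply hψ1.congr_of_eventuallyEq
    have hcontF : Tendsto (fun x : H => (F x).1) (𝓝 ⟨z, hz⟩) (𝓝 (F ⟨z, hz⟩).1) :=
      (continuous_subtype_val.comp F.continuous).continuousAt
    have h1 := hcontF.eventually hψ4
    rw [nhds_subtype_eq_comap, eventually_comap] at h1
    filter_upwards [h1, hopen.mem_nhds hz] with x hx hxH
    have hxH' : x ∈ H := hxH
    have h2 := hx ⟨x, hxH⟩ rfl
    have h3 := h2.1 (F ⟨x, hxH⟩).2.2
    rw [hF3] at h3
    simp only [hxH', dif_pos]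
    exact h3.symm
  · simp only [show z₀ ∈ H from hz₀, dif_pos, hF1]
  · intro z hz
    have hz' : z ∈ H := hz
    simp only [hz', dif_pos]
    have h1 := (F ⟨z, hz⟩).2.2
    simp only [hR] at h1
    rw [hF3] at h1
    exact h1

end Pool.Agent.Lib.MP_209724_lc


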