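import Mathlib
import Pool.Agent.Lib.MP_209724_lc.Lift

/-!
Puiseux form of an algebraic function on a half plane.
-/

namespace Pool.Agent.Lib.MP_209724_lc

open Filter Topology

theorem poly_lower (p : Polynomial ℂ) (hp : p ≠ 0) :
    ∃ (s : ℕ) (c₀ r : ℝ), 0 < c₀ ∧ 0 < r ∧ r ≤ 1 ∧
      ∀ t : ℂ, ‖t‖ < r → c₀ * ‖t‖ ^ s ≤ ‖p.eval t‖ := by
  obtain ⟨q, hq, hq0⟩ := Polynomial.exists_eq_pow_rootMultiplicity_mul_and_not_dvd p hp 0
  rw [Polynomial.dvd_iff_isRoot, Polynomial.IsRoot.def] at hq0
  have hpos : 0 < ‖q.eval 0‖ := norm_pos_iff.mpr hq0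
  have hcont : ContinuousAt (fun t : ℂ => ‖q.eval t‖) 0 := by
    exact (q.continuous.norm).continuousAt
  have hev : ∀ᶠ t in 𝓝 (0 : ℂ), ‖q.eval 0‖ / 2 < ‖q.eval t‖ :=
    hcont.eventually_const_lt (by linarith)
  obtain ⟨r, hr, hr'⟩ := Metric.eventually_nhds_iff.mp hev
  refine ⟨p.rootMultiplicity 0, ‖q.eval 0‖ / 2, min r 1, by positivity, by positivity,
    min_le_right _ _, ?_⟩
  intro t ht
  have h1 : ‖q.eval 0‖ / 2 < ‖q.eval t‖ := by
    apply hr'
    rw [dist_zero_right]
    exact lt_of_lt_of_le ht (min_le_left _ _)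
  have h2 : p.eval t = t ^ (p.rootMultiplicity 0) * q.eval t := by
    conv_lhs => rw [hq]
    simp
  rw [h2, norm_mul, norm_pow, mul_comm]
  exact mul_le_mul_of_nonneg_left h1.le (by positivity)

theorem growth {D : ℕ} (A : ℝ) (Y : ℂ → ℂ) (c : Fin (D + 1) → Polynomial ℂ)
    (hc : ∃ k, c k ≠ 0)
    (hrel : ∀ z : ℂ, z.re < A → ∑ k, (c k).eval (Complex.exp z) * Y z ^ (k : ℕ) = 0) :
    ∃ (K : ℕ) (C B : ℝ), ∀ z : ℂ, z.re < B → ‖Complex.exp z‖ ^ K * ‖Y z‖ ≤ C := by
  induction D with
  | zero =>
    obtain ⟨k, hk⟩ := hc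
    obtain ⟨s, c₀, r, hc0, hr, hr1, hlow⟩ := poly_lower (c k) hk
    refine ⟨0, 0, min A (Real.log r), ?_⟩
    intro z hz
    exfalso
    have hzA : z.re < A := lt_of_lt_of_le hz (min_le_left _ _)
    have hzr : ‖Complex.exp z‖ < r := by
      rw [Complex.norm_exp, ← Real.exp_log hr]
      exact Real.exp_lt_exp.mpr (lt_of_lt_of_le hz (min_le_right _ _))
    have h1 := hlow _ hzr
    have h2 := hrel z hzA
    have hk0 : k = 0 := Fin.ext (by omega)
    subst hk0
    simp at h2
    rw [h2, norm_zero] at h1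
    have : 0 < c₀ * ‖Complex.exp z‖ ^ s := by
      have := norm_pos_iff.mpr (Complex.exp_ne_zero z)
      positivity
    linarith
  | succ D ih =>
    by_cases hl : c (Fin.last (D + 1)) = 0
    · apply ih (fun k => c k.castSucc)
      · obtain ⟨k, hk⟩ := hc
        induction k using Fin.lastCases with
        | last => exact absurd hl hk
        | cast k => exact ⟨k, hk⟩
      · intro z hz
        have := hrel z hz
        rw [Fin.sum_univ_castSucc, hl] at this
        simpa using this
    · obtain ⟨s, c₀, r, hc0, hr, hr1, hlow⟩ := poly_lower _ hl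
      have hbd : ∃ M : ℝ, ∀ k, ∀ t : ℂ, ‖t‖ ≤ 1 → ‖(c k).eval t‖ ≤ M := by
        have hb : ∀ k, ∃ M : ℝ, ∀ t : ℂ, ‖t‖ ≤ 1 → ‖(c k).eval t‖ ≤ M := by
          intro k
          obtain ⟨M, hM⟩ := (isCompact_closedBall (0 : ℂ) 1).exists_bound_of_continuousOn
            (f := fun t => (c k).eval t) (c k).continuous.continuousOn
          refine ⟨M, fun t ht => hM t ?_⟩
          simpa using ht
        choose M hM using hb
        refine ⟨∑ k, |M k|, fun k t ht => ?_⟩
        exact ((hM k t ht).trans (le_abs_self _)).trans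
          (Finset.single_le_sum (f := fun k => |M k|) (fun i _ => abs_nonneg _)
            (Finset.mem_univ k))
      obtain ⟨M, hM⟩ := hbd
      refine ⟨s, 1 + (D + 1 : ℕ) * M / c₀, min A (Real.log r), ?_⟩
      intro z hz
      have hzA : z.re < A := lt_of_lt_of_le hz (min_le_left _ _)
      have hzr : ‖Complex.exp z‖ < r := by
        rw [Complex.norm_exp, ← Real.exp_log hr]
        exact Real.exp_lt_exp.mpr (lt_of_lt_of_le hz (min_le_right _ _))
      have hpos : 0 < ‖Complex.exp z‖ := norm_pos_iff.mpr (Complex.exp_ne_zero z)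
      have hle1 : ‖Complex.exp z‖ ≤ 1 := (hzr.le).trans hr1
      have h1 := root_bound (fun k => (c k).eval (Complex.exp z)) M
        (c₀ * ‖Complex.exp z‖ ^ s) (by positivity) (fun k => hM k _ hle1) (hlow _ hzr) (Y z)
        (hrel z hzA)
      calc ‖Complex.exp z‖ ^ s * ‖Y z‖
          ≤ ‖Complex.exp z‖ ^ s * (1 + (D + 1 : ℕ) * M / (c₀ * ‖Complex.exp z‖ ^ s)) :=
            mul_le_mul_of_nonneg_left h1 (by positivity)
        _ = ‖Complex.exp z‖ ^ s + (D + 1 : ℕ) * M / c₀ := by
            field_simp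
        _ ≤ 1 + (D + 1 : ℕ) * M / c₀ := by
            have : ‖Complex.exp z‖ ^ s ≤ 1 := pow_le_one₀ hpos.le hle1
            linarith

theorem period {D : ℕ} (A : ℝ) (Y : ℂ → ℂ) (hY : DifferentiableOn ℂ Y {z : ℂ | z.re < A})
    (c : Fin (D + 1) → Polynomial ℂ) (hc : ∃ k, c k ≠ 0)
    (hrel : ∀ z : ℂ, z.re < A → ∑ k, (c k).eval (Complex.exp z) * Y z ^ (k : ℕ) = 0) :
    ∃ m : ℕ, 0 < m ∧ ∀ z : ℂ, z.re < A → Y (z + 2 * Real.pi * Complex.I * m) = Y z := by
  have hopen : IsOpen {z : ℂ | z.re < A} := isOpen_lt Complex.continuous_re continuous_const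
  obtain ⟨k₀, hk₀⟩ := hc
  obtain ⟨s, c₀, r, hc0, hr, hr1, hlow⟩ := poly_lower _ hk₀
  set x₀ : ℝ := min A (Real.log r) - 1 with hx₀
  have hre : ∀ (z : ℂ) (j : ℕ), (z + 2 * Real.pi * Complex.I * j).re = z.re := by
    intro z j; simp
  have hU : ∀ᶠ z in 𝓝[≠] (x₀ : ℂ), z.re < min A (Real.log r) := by
    apply Filter.Eventually.filter_mono nhdsWithin_le_nhds
    apply (isOpen_lt Complex.continuous_re continuous_const).mem_nhds
    show (x₀ : ℂ).re < min A (Real.log r)
    rw [Complex.ofReal_re, hx₀]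
    linarith
  have hpair : ∀ z : ℂ, z.re < min A (Real.log r) → ∃ p : Fin (D + 1) × Fin (D + 1), p.1 < p.2 ∧
      Y (z + 2 * Real.pi * Complex.I * (p.1 : ℕ)) = Y (z + 2 * Real.pi * Complex.I * (p.2 : ℕ)) := by
    intro z hz
    have hzA : z.re < A := lt_of_lt_of_le hz (min_le_left _ _)
    have hzr : ‖Complex.exp z‖ < r := by
      rw [Complex.norm_exp, ← Real.exp_log hr]
      exact Real.exp_lt_exp.mpr (lt_of_lt_of_le hz (min_le_right _ _))
    have hpos : 0 < ‖Complex.exp z‖ := norm_pos_iff.mpr (Complex.exp_ne_zero z)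
    have hk : (c k₀).eval (Complex.exp z) ≠ 0 := by
      rw [← norm_pos_iff]
      exact lt_of_lt_of_le (by positivity) (hlow _ hzr)
    by_contra hcon
    push Not at hcon
    have hinj : Function.Injective
        (fun j : Fin (D + 1) => Y (z + 2 * Real.pi * Complex.I * (j : ℕ))) := by
      intro i j hij
      rcases lt_trichotomy i j with h | h | h
      · exact absurd hij (hcon (i, j) h)
      · exact h
      · exact absurd hij.symm (hcon (j, i) h)
    set P : Polynomial ℂ := ∑ k : Fin (D + 1),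
      Polynomial.C ((c k).eval (Complex.exp z)) * Polynomial.X ^ (k : ℕ) with hP
    have hP0 : P = 0 := by
      apply Polynomial.eq_zero_of_natDegree_lt_card_of_eval_eq_zero P hinj
      · intro j
        rw [hP, Polynomial.eval_finsetSum]
        simp only [Polynomial.eval_mul, Polynomial.eval_C, Polynomial.eval_pow, Polynomial.eval_X]
        have := hrel (z + 2 * Real.pi * Complex.I * (j : ℕ)) (by rw [hre]; exact hzA)
        have hexp : Complex.exp (z + 2 * Real.pi * Complex.I * (j : ℕ)) = Complex.exp z := by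
          rw [Complex.exp_add]
          have : Complex.exp (2 * Real.pi * Complex.I * (j : ℕ)) = 1 := by
            rw [Complex.exp_eq_one_iff]
            exact ⟨j, by push_cast; ring⟩
          rw [this, mul_one]
        rw [hexp] at this
        exact this
      · rw [Fintype.card_fin]
        apply Nat.lt_succ_of_le
        rw [hP]
        apply Polynomial.natDegree_sum_le_of_forall_le
        intro i _
        exact (Polynomial.natDegree_C_mul_X_pow_le _ _).trans (Nat.le_of_lt_succ i.2)
    have hco : P.coeff (k₀ : ℕ) = (c k₀).eval (Complex.exp z) := by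
      rw [hP, Polynomial.finsetSum_coeff]
      rw [Finset.sum_eq_single k₀]
      · simp
      · intro b _ hb
        rw [Polynomial.coeff_C_mul, Polynomial.coeff_X_pow, if_neg, mul_zero]
        intro h
        exact hb (Fin.ext h.symm)
      · simp
    rw [hP0, Polynomial.coeff_zero] at hco
    exact hk hco.symm
  have hfreq : ∃ p : Fin (D + 1) × Fin (D + 1), ∃ᶠ z in 𝓝[≠] (x₀ : ℂ), p.1 < p.2 ∧
      Y (z + 2 * Real.pi * Complex.I * (p.1 : ℕ)) =
        Y (z + 2 * Real.pi * Complex.I * (p.2 : ℕ)) := by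
    by_contra hcon
    rw [not_exists] at hcon
    simp only [Filter.not_frequently] at hcon
    have h1 := (Filter.eventually_all.mpr hcon).and hU
    obtain ⟨z, hz1, hz2⟩ := h1.exists
    obtain ⟨p, hp⟩ := hpair z hz2
    exact hz1 p hp
  obtain ⟨⟨i, j⟩, hij⟩ := hfreq
  have hlt : i < j := by
    obtain ⟨z, hz⟩ := hij.exists
    exact hz.1
  have hEq : Set.EqOn (fun z => Y (z + 2 * Real.pi * Complex.I * (i : ℕ)))
      (fun z => Y (z + 2 * Real.pi * Complex.I * (j : ℕ))) {z : ℂ | z.re < A} := by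
    have han : ∀ j : ℕ, AnalyticOnNhd ℂ (fun z => Y (z + 2 * Real.pi * Complex.I * (j : ℕ)))
        {z : ℂ | z.re < A} := by
      intro j
      apply DifferentiableOn.analyticOnNhd _ hopen
      apply hY.comp
      · fun_prop
      · intro z hz
        simp only [Set.mem_ofPred_eq] at hz ⊢
        rw [hre]; exact hz
    apply AnalyticOnNhd.eqOn_of_preconnected_of_frequently_eq (han i) (han j) _ (z₀ := (x₀ : ℂ))
    · simp only [Set.mem_ofPred_eq, Complex.ofReal_re, hx₀]
      have := min_le_left A (Real.log r)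
      linarith
    · exact hij.mono fun z hz => hz.2
    · exact (convex_halfSpace_re_lt A).isPreconnected
  refine ⟨(j : ℕ) - i, by omega, ?_⟩
  intro z hz
  have h1 := hEq (x := z - 2 * Real.pi * Complex.I * (i : ℕ)) (by simpa using hz)
  simp only [sub_add_cancel] at h1
  rw [h1]
  congr 1
  have : (((j : ℕ) - (i : ℕ) : ℕ) : ℂ) = (j : ℕ) - (i : ℕ) := by
    rw [Nat.cast_sub (le_of_lt hlt)]
  rw [this]
  ring

theorem puiseux {D : ℕ} (A : ℝ) (Y : ℂ → ℂ) (hY : DifferentiableOn ℂ Y {z : ℂ | z.re < A})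
    (hY0 : ∀ z : ℂ, z.re < A → Y z ≠ 0) (c : Fin (D + 1) → Polynomial ℂ) (hc : ∃ k, c k ≠ 0)
    (hrel : ∀ z : ℂ, z.re < A → ∑ k, (c k).eval (Complex.exp z) * Y z ^ (k : ℕ) = 0) :
    ∃ m : ℕ, 0 < m ∧ ∀ M : ℕ, 0 < M → m ∣ M → ∃ (a : ℤ) (ℓ : ℂ → ℂ) (B : ℝ), AnalyticAt ℂ ℓ 0 ∧
      ∀ z : ℂ, z.re < B →
        Y z = Complex.exp (a * z / M) * Complex.exp (ℓ (Complex.exp (z / M))) := by
  classical
  obtain ⟨m, hm, hper⟩ := period A Y hY c hc hrel
  obtain ⟨K, C, B₀, hgrow⟩ := growth A Y c hc hrel
  refine ⟨m, hm, ?_⟩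
  intro M hM hmM
  have hopen : IsOpen {z : ℂ | z.re < A} := isOpen_lt Complex.continuous_re continuous_const
  have hMR : (0 : ℝ) < (M : ℝ) := by exact_mod_cast hM
  have hMC : (M : ℂ) ≠ 0 := by exact_mod_cast hM.ne'
  -- iterate the period
  have hperk : ∀ k : ℕ, ∀ z : ℂ, z.re < A → Y (z + 2 * Real.pi * Complex.I * (m * k : ℕ)) = Y z := by
    intro k
    induction k with
    | zero => intro z _; simp
    | succ k ih =>
      intro z hz
      have h1 := hper (z + 2 * Real.pi * Complex.I * (m * k : ℕ)) (by simpa using hz)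
      rw [ih z hz] at h1
      rw [← h1]
      congr 1
      push_cast
      ring
  have hperM : ∀ z : ℂ, z.re < A → Y (z + 2 * Real.pi * Complex.I * M) = Y z := by
    intro z hz
    obtain ⟨k, hk⟩ := hmM
    rw [hk]
    exact hperk k z hz
  -- the periodic function
  set f : ℂ → ℂ := fun u => if (2 * Real.pi * Complex.I * u).re < A then
    Complex.exp (K * (2 * Real.pi * Complex.I * u)) * Y (2 * Real.pi * Complex.I * u) else 0
    with hf
  have hfper : Function.Periodic f ((M : ℝ) : ℂ) := by
    intro u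
    have hre : (2 * Real.pi * Complex.I * (u + ((M : ℝ) : ℂ))).re
        = (2 * Real.pi * Complex.I * u).re := by
      simp
    simp only [hf]
    rw [hre]
    by_cases hu : (2 * Real.pi * Complex.I * u).re < A
    · rw [if_pos hu, if_pos hu]
      have e1 : 2 * Real.pi * Complex.I * (u + ((M : ℝ) : ℂ))
          = 2 * Real.pi * Complex.I * u + 2 * Real.pi * Complex.I * M := by
        push_cast
        ring
      rw [e1, hperM _ hu]
      congr 1
      rw [mul_add, Complex.exp_add]
      have : Complex.exp (K * (2 * Real.pi * Complex.I * M)) = 1 := by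
        rw [Complex.exp_eq_one_iff]
        exact ⟨K * M, by push_cast; ring⟩
      rw [this, mul_one]
    · rw [if_neg hu, if_neg hu]
  have hreu : ∀ u : ℂ, (2 * Real.pi * Complex.I * u).re = - (2 * Real.pi * u.im) := by
    intro u
    simp
  have hImA : ∀ A' : ℝ, ∀ᶠ u in comap Complex.im atTop, (2 * Real.pi * Complex.I * u).re < A' := by
    intro A'
    rw [Filter.eventually_comap]
    filter_upwards [Filter.eventually_gt_atTop (-A' / (2 * Real.pi))] with b hb a ha
    rw [hreu, ha]
    rw [div_lt_iff₀ (by positivity)] at hb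
    linarith
  have hfdiff : ∀ᶠ u in comap Complex.im atTop, DifferentiableAt ℂ f u := by
    filter_upwards [hImA A] with u hu
    have hev : f =ᶠ[𝓝 u] fun u => Complex.exp (K * (2 * Real.pi * Complex.I * u)) *
        Y (2 * Real.pi * Complex.I * u) := by
      have : ∀ᶠ v in 𝓝 u, (2 * Real.pi * Complex.I * v).re < A := by
        apply (isOpen_lt (by fun_prop) continuous_const).mem_nhds
        exact hu
      filter_upwards [this] with v hv
      simp only [hf]
      rw [if_pos hv]
    rw [hev.differentiableAt_iff]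
    have hYd : DifferentiableAt ℂ Y (2 * Real.pi * Complex.I * u) :=
      hY.differentiableAt (hopen.mem_nhds hu)
    apply DifferentiableAt.mul
    · fun_prop
    · exact hYd.comp u (by fun_prop)
  have hfbd : Filter.BoundedAtFilter (comap Complex.im atTop) f := by
    rw [Filter.BoundedAtFilter, Asymptotics.isBigO_iff]
    refine ⟨C, ?_⟩
    filter_upwards [hImA A, hImA B₀] with u hu hu'
    simp only [hf]
    rw [if_pos hu, norm_mul]
    have h1 := hgrow _ hu'
    have e : Complex.exp (K * (2 * Real.pi * Complex.I * u)) =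
        Complex.exp (2 * Real.pi * Complex.I * u) ^ K := by
      rw [← Complex.exp_nat_mul]
    rw [e, norm_pow]
    simpa using h1
  set F := Function.Periodic.cuspFunction (M : ℝ) f with hF
  have hFan : AnalyticAt ℂ F 0 := by
    rw [Complex.analyticAt_iff_eventually_differentiableAt]
    have h1 := Function.Periodic.eventually_differentiableAt_cuspFunction_nhds_ne_zero hMR hfper
      hfdiff
    have h2 := Function.Periodic.differentiableAt_cuspFunction_zero hMR hfper hfdiff hfbd
    rw [eventually_nhdsWithin_iff] at h1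
    filter_upwards [h1] with t ht
    by_cases h0 : t = 0
    · rw [h0]; exact h2
    · exact ht h0
  have hFne : ¬ ∀ᶠ t in 𝓝 (0 : ℂ), F t = 0 := by
    intro hcon
    have h1 : ∀ᶠ t in 𝓝[≠] (0 : ℂ), F t = 0 := hcon.filter_mono nhdsWithin_le_nhds
    have h2 := (Function.Periodic.qParam_tendsto hMR).eventually h1
    have : (comap Complex.im atTop).NeBot := by
      rw [Filter.comap_neBot_iff_frequently]
      apply Filter.Eventually.frequently
      filter_upwards with x
      exact ⟨x * Complex.I, by simp⟩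
    obtain ⟨u, hu1, hu2⟩ := (h2.and (hImA A)).exists
    rw [hF, Function.Periodic.eq_cuspFunction hMR.ne' hfper] at hu1
    simp only [hf] at hu1
    rw [if_pos hu2] at hu1
    exact mul_ne_zero (Complex.exp_ne_zero _) (hY0 _ hu2) hu1
  obtain ⟨N, g, hg, hg0, hFg⟩ := hFan.exists_eventuallyEq_pow_smul_nonzero_iff.mpr hFne
  have hev : ∀ᶠ t in 𝓝 (0 : ℂ), F t = t ^ N * g t ∧ g t ≠ 0 := by
    filter_upwards [hFg, hg.continuousAt.eventually_ne hg0] with t h1 h2
    refine ⟨?_, h2⟩
    simpa using h1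
  obtain ⟨δ, hδ, hball⟩ := Metric.eventually_nhds_iff.mp hev
  refine ⟨(N : ℤ) - K * M, fun t => Complex.log (g t / g 0) + Complex.log (g 0),
    min A (M * Real.log δ), ?_, ?_⟩
  · apply AnalyticAt.add
    · apply AnalyticAt.clog
      · exact hg.div analyticAt_const hg0
      · rw [div_self hg0]
        exact Complex.one_mem_slitPlane
    · exact analyticAt_const
  · intro z hz
    have hzA : z.re < A := lt_of_lt_of_le hz (min_le_left _ _)
    have hzδ : z.re < M * Real.log δ := lt_of_lt_of_le hz (min_le_right _ _)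
    have hnorm : ‖Complex.exp (z / M)‖ < δ := by
      rw [Complex.norm_exp]
      have : (z / M).re = z.re / M := by
        rw [← Complex.ofReal_natCast, Complex.div_ofReal_re]
      rw [this, ← Real.exp_log hδ]
      apply Real.exp_lt_exp.mpr
      rw [div_lt_iff₀ hMR]
      linarith
    obtain ⟨h1, h2⟩ := hball (y := Complex.exp (z / M)) (by rw [dist_zero_right]; exact hnorm)
    set u : ℂ := z / (2 * Real.pi * Complex.I) with hu
    have hzu : 2 * Real.pi * Complex.I * u = z := by
      rw [hu, mul_div_cancel₀ _ Complex.two_pi_I_ne_zero]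
    have h3 : Function.Periodic.qParam (M : ℝ) u = Complex.exp (z / M) := by
      rw [Function.Periodic.qParam, hzu]
      simp
    have h4 : F (Complex.exp (z / M)) = f u := by
      rw [← h3, hF, Function.Periodic.eq_cuspFunction hMR.ne' hfper]
    have h5 : f u = Complex.exp (K * z) * Y z := by
      simp only [hf]
      rw [hzu, if_pos hzA]
    rw [h4, h5] at h1
    have h6 : Complex.exp (Complex.log (g (Complex.exp (z / M)) / g 0) + Complex.log (g 0))
        = g (Complex.exp (z / M)) := by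
      rw [Complex.exp_add, Complex.exp_log (div_ne_zero h2 hg0), Complex.exp_log hg0,
        div_mul_cancel₀ _ hg0]
    rw [h6]
    have h7 : Complex.exp ((((N : ℤ) - K * M : ℤ) : ℂ) * z / M) * Complex.exp (K * z)
        = Complex.exp (z / M) ^ N := by
      rw [← Complex.exp_add, ← Complex.exp_nat_mul]
      congr 1
      push_cast
      field_simp
      ring
    have h8 : Complex.exp (K * z) ≠ 0 := Complex.exp_ne_zero _
    apply mul_left_cancel₀ h8
    rw [h1, ← h7]
    ring

end Pool.Agent.Lib.MP_209724_lc
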