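import Mathlib
import Pool.Agent.Lib.MP_209724_lc.Germ

/-!
Algebraic relations between functions on an irreducible curve.
-/

namespace Pool.Agent.Lib.MP_209724_lc

open Polynomial

/-- An element algebraic over `ℂ[T]` satisfies a primitive separable relation. -/
theorem exists_relation_aux {Q : Type*} [CommRing Q] [IsDomain Q] [Algebra ℂ[X] Q]
    [FaithfulSMul ℂ[X] Q] (g : Q) (hg0 : g ≠ 0) (halg : IsAlgebraic ℂ[X] g) :
    ∃ R : ℂ[X][X], aeval g R = 0 ∧ (∀ c, R.map (evalRingHom c) ≠ 0) ∧ R.coeff 0 ≠ 0 ∧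
      ∃ D : ℂ[X], D ≠ 0 ∧ ∃ A B : ℂ[X][X], A * R + B * derivative R = C D := by
  classical
  let K := FractionRing Q
  let F := FractionRing ℂ[X]
  have hinjQK : Function.Injective (algebraMap Q K) := IsFractionRing.injective Q K
  have : IsScalarTower ℂ[X] Q K := inferInstance
  have : FaithfulSMul ℂ[X] K := by
    rw [faithfulSMul_iff_algebraMap_injective, IsScalarTower.algebraMap_eq ℂ[X] Q K]
    exact hinjQK.comp (FaithfulSMul.algebraMap_injective ℂ[X] Q)
  let _ : Algebra F K := FractionRing.liftAlgebra ℂ[X] K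
  have : IsScalarTower ℂ[X] F K := FractionRing.isScalarTower_liftAlgebra ℂ[X] K
  set g' : K := algebraMap Q K g with hg'
  have hg'0 : g' ≠ 0 := by
    rw [hg']
    intro h
    exact hg0 (hinjQK (by rw [h, map_zero]))
  have halg' : IsAlgebraic F g' := by
    rw [← IsFractionRing.isAlgebraic_iff ℂ[X] F K]
    exact halg.algebraMap
  have hint : IsIntegral F g' := halg'.isIntegral
  set P : F[X] := minpoly F g' with hP
  have hP0 : P ≠ 0 := minpoly.ne_zero hint
  have hcoeff : P.coeff 0 ≠ 0 := minpoly.coeff_zero_ne_zero hint hg'0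
  have : CharZero F := by
    exact charZero_of_injective_algebraMap (IsFractionRing.injective ℂ[X] F)
  have hsep : P.Separable := (minpoly.irreducible hint).separable
  obtain ⟨a, b, hab⟩ := hsep
  set φ := algebraMap ℂ[X] F with hφ
  have hφinj : Function.Injective φ := IsFractionRing.injective ℂ[X] F
  obtain ⟨d₀, hd₀, hR₀⟩ := IsLocalization.integerNormalization_spec (nonZeroDivisors ℂ[X]) P
  set R₀ := IsLocalization.integerNormalization (nonZeroDivisors ℂ[X]) P with hR₀def
  have hR₀ne : R₀ ≠ 0 := by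
    rw [hR₀def, Ne, IsFractionRing.integerNormalization_eq_zero_iff]
    exact hP0
  obtain ⟨inst⟩ : Nonempty (NormalizedGCDMonoid ℂ[X]) := inferInstance
  have hcont := R₀.eq_C_content_mul_primPart
  set R := R₀.primPart with hRdef
  set k := R₀.content with hk
  have hk0 : k ≠ 0 := by
    rw [hk, Ne, content_eq_zero_iff]
    exact hR₀ne
  have hprim : R.IsPrimitive := R₀.isPrimitive_primPart
  have hmap : C (φ k) * R.map φ = C (φ d₀) * P := by
    have h1 : R₀.map φ = C (φ k) * R.map φ := by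
      conv_lhs => rw [hcont]
      rw [Polynomial.map_mul, map_C]
    rw [← h1, hR₀, Algebra.smul_def]
    rfl
  have hd₀' : d₀ ≠ 0 := nonZeroDivisors.ne_zero hd₀
  have hφk : φ k ≠ 0 := fun h => hk0 (hφinj (by rw [h, map_zero]))
  have hφd : φ d₀ ≠ 0 := fun h => hd₀' (hφinj (by rw [h, map_zero]))
  have haeval : aeval g' R = 0 := by
    have h1 : aeval g' R₀ = 0 := by
      rw [hR₀def]
      exact IsLocalization.integerNormalization_aeval_eq_zero _ P (minpoly.aeval F g')
    rw [hcont, map_mul, aeval_C] at h1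
    rcases mul_eq_zero.1 h1 with h | h
    · exfalso
      exact hk0 (FaithfulSMul.algebraMap_injective ℂ[X] K (by rw [h, map_zero]))
    · exact h
  refine ⟨R, ?_, ?_, ?_, ?_⟩
  · rw [hg', aeval_algebraMap_apply] at haeval
    exact hinjQK (by rw [haeval, map_zero])
  · intro c hc
    have h1 : C (X - C c) ∣ R := by
      rw [C_dvd_iff_dvd_coeff]
      intro i
      rw [dvd_iff_isRoot]
      have h2 := congrArg (fun p => coeff p i) hc
      simpa using h2
    have h2 := hprim _ h1
    exact not_isUnit_X_sub_C c h2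
  · intro h
    have h1 := congrArg (fun p => coeff p 0) hmap
    simp only [coeff_C_mul, coeff_map, h, map_zero, mul_zero] at h1
    exact mul_ne_zero hφd hcoeff h1.symm
  · obtain ⟨b₁, hb₁, hA⟩ := IsLocalization.integerNormalization_spec (nonZeroDivisors ℂ[X])
      (C (φ k / φ d₀) * a)
    obtain ⟨b₂, hb₂, hB⟩ := IsLocalization.integerNormalization_spec (nonZeroDivisors ℂ[X])
      (C (φ k / φ d₀) * b)
    set A₁ := IsLocalization.integerNormalization (nonZeroDivisors ℂ[X]) (C (φ k / φ d₀) * a)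
    set B₁ := IsLocalization.integerNormalization (nonZeroDivisors ℂ[X]) (C (φ k / φ d₀) * b)
    refine ⟨b₁ * b₂, mul_ne_zero (nonZeroDivisors.ne_zero hb₁) (nonZeroDivisors.ne_zero hb₂),
      C b₂ * A₁, C b₁ * B₁, ?_⟩
    have hinj : Function.Injective (Polynomial.map φ) := Polynomial.map_injective φ hφinj
    apply hinj
    have hA' : A₁.map φ = C (φ b₁) * (C (φ k / φ d₀) * a) := by
      rw [hφ, hA, Algebra.smul_def]
      rfl
    have hB' : B₁.map φ = C (φ b₂) * (C (φ k / φ d₀) * b) := by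
      rw [hφ, hB, Algebra.smul_def]
      rfl
    have hRP : P = C (φ k / φ d₀) * R.map φ := by
      have h1 : C (φ d₀)⁻¹ * (C (φ d₀) * P) = P := by
        rw [← mul_assoc, ← C_mul, inv_mul_cancel₀ hφd, C_1, one_mul]
      rw [← h1, ← hmap, ← mul_assoc, ← C_mul]
      rw [div_eq_mul_inv, mul_comm (φ k)]
    have hder : derivative P = C (φ k / φ d₀) * (derivative R).map φ := by
      rw [hRP, derivative_C_mul, derivative_map]
    simp only [Polynomial.map_add, Polynomial.map_mul, map_C, hA', hB']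
    rw [hder] at hab
    have hab' : a * (C (φ k / φ d₀) * R.map φ) +
        b * (C (φ k / φ d₀) * (derivative R).map φ) = 1 := by
      rw [← hRP]
      exact hab
    calc _ = C (φ b₁) * C (φ b₂) * (a * (C (φ k / φ d₀) * R.map φ) +
        b * (C (φ k / φ d₀) * (derivative R).map φ)) := by ring
      _ = _ := by rw [hab', mul_one, ← C_mul, ← map_mul φ]

variable {n : ℕ} {J : Ideal (MvPolynomial (Fin n) ℂ)}

theorem IsFreeCurve.X_sub_C_notMem (hJ : IsFreeCurve J) (i : Fin n) (r : ℂ) :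
    (MvPolynomial.X i - MvPolynomial.C r : MvPolynomial (Fin n) ℂ) ∉ J := by
  classical
  intro h
  obtain ⟨y, hy, hne⟩ := hJ.free (Pi.single i 1) (by
    intro h0
    have := congrFun h0 i
    simp at this) r
  apply hne
  have h1 := hy.2 _ h
  rw [map_sub, MvPolynomial.eval_X, MvPolynomial.eval_C, sub_eq_zero] at h1
  rw [Finset.prod_eq_single i]
  · simp [h1]
  · intro j _ hj
    rw [Pi.single_eq_of_ne hj]
    simp
  · intro hi
    exact absurd (Finset.mem_univ i) hi

theorem IsFreeCurve.aeval_X_notMem (hJ : IsFreeCurve J) (i : Fin n) {p : ℂ[X]} (hp : p ≠ 0) :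
    aeval (MvPolynomial.X i : MvPolynomial (Fin n) ℂ) p ∉ J := by
  have hprime := hJ.prime
  induction hd : p.natDegree generalizing p with
  | zero =>
    intro h
    rw [natDegree_eq_zero] at hd
    obtain ⟨c, rfl⟩ := hd
    have hc : c ≠ 0 := fun h0 => hp (by rw [h0, C_0])
    rw [aeval_C] at h
    apply hprime.ne_top
    apply Ideal.eq_top_of_isUnit_mem _ h
    exact (IsUnit.mk0 c hc).map _
  | succ m ih =>
    intro h
    obtain ⟨r, hr⟩ := IsAlgClosed.exists_root p (by
      intro h0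
      have h1 : p.natDegree = 0 := natDegree_eq_zero_iff_degree_le_zero.2 h0.le
      omega)
    obtain ⟨q, hq⟩ := dvd_iff_isRoot.2 hr
    have hq0 : q ≠ 0 := fun h0 => hp (by rw [hq, h0, mul_zero])
    have hdq : q.natDegree = m := by
      have h1 := natDegree_mul (X_sub_C_ne_zero r) hq0
      rw [← hq, hd, natDegree_X_sub_C] at h1
      omega
    rw [hq, map_mul] at h
    rcases hprime.mem_or_mem h with h | h
    · apply hJ.X_sub_C_notMem i r
      simpa using h
    · exact ih hq0 hdq h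

theorem IsFreeCurve.exists_relation (hJ : IsFreeCurve J) (i₀ : Fin n)
    (g : MvPolynomial (Fin n) ℂ) (hg : g ∉ J) :
    ∃ R : ℂ[X][X],
      R.eval₂ (aeval (MvPolynomial.X i₀ : MvPolynomial (Fin n) ℂ)).toRingHom g ∈ J ∧
      (∀ c, R.map (evalRingHom c) ≠ 0) ∧ R.coeff 0 ≠ 0 ∧
      ∃ D : ℂ[X], D ≠ 0 ∧ ∃ A B : ℂ[X][X], A * R + B * derivative R = C D := by
  have hprime := hJ.prime
  let Q := MvPolynomial (Fin n) ℂ ⧸ J
  let ψ : ℂ[X] →ₐ[ℂ] Q :=
    (Ideal.Quotient.mkₐ ℂ J).comp (aeval (MvPolynomial.X i₀ : MvPolynomial (Fin n) ℂ))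
  have hψ : Function.Injective ψ := by
    rw [injective_iff_map_eq_zero]
    intro p hp
    by_contra hne
    exact hJ.aeval_X_notMem i₀ hne (Ideal.Quotient.eq_zero_iff_mem.1 hp)
  let _ : Algebra ℂ[X] Q := ψ.toRingHom.toAlgebra
  have : IsScalarTower ℂ ℂ[X] Q := IsScalarTower.of_algebraMap_eq (fun x => by
    show _ = ψ (algebraMap ℂ ℂ[X] x)
    rw [AlgHom.commutes])
  have : FaithfulSMul ℂ[X] Q := by
    rw [faithfulSMul_iff_algebraMap_injective]
    exact hψ
  have h1 := trdeg_add_eq ℂ ℂ[X] (A := Q)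
  rw [hJ.dim, Polynomial.trdeg_of_isDomain] at h1
  have h2 : Algebra.trdeg ℂ[X] Q = 0 := by
    have h3 : (1 : Cardinal) + Algebra.trdeg ℂ[X] Q = 1 + 0 := by rw [h1, add_zero]
    exact Cardinal.eq_of_add_eq_add_left h3 Cardinal.one_lt_aleph0
  have h4 : Algebra.IsAlgebraic ℂ[X] Q := by
    rwa [trdeg_eq_zero_iff] at h2
  obtain ⟨R, hR1, hR2⟩ := exists_relation_aux (Q := Q) (Ideal.Quotient.mk J g)
    (fun h => hg (Ideal.Quotient.eq_zero_iff_mem.1 h)) (h4.isAlgebraic _)
  refine ⟨R, ?_, hR2⟩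
  rw [← Ideal.Quotient.eq_zero_iff_mem, hom_eval₂]
  exact hR1

end Pool.Agent.Lib.MP_209724_lc
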