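import Mathlib
import Pool.Agent.Lib.MP_209724_lc.Germ
import Pool.Agent.Lib.MP_209724_lc.Lift
import Pool.Agent.Lib.MP_209724_lc.Puiseux
import Pool.Agent.Lib.MP_209724_lc.Relation

/-!
From sequences of points of a curve to germs.
-/

namespace Pool.Agent.Lib.MP_209724_lc

open Filter Topology Set Polynomial

/-- Two lifts which agree at a point are equal. -/
theorem lift_unique {D : ℕ} (A : ℝ) (c : Fin (D + 1) → ℂ → ℂ)
    (hc : ∀ k, DifferentiableOn ℂ (c k) {z : ℂ | z.re < A})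
    (hsimple : ∀ z : ℂ, z.re < A → ∀ y : ℂ, ∑ k, c k z * y ^ (k : ℕ) = 0 →
      ∑ k : Fin (D + 1), ((k : ℕ) : ℂ) * c k z * y ^ ((k : ℕ) - 1) ≠ 0)
    (Y Y' : ℂ → ℂ) (hY : DifferentiableOn ℂ Y {z : ℂ | z.re < A})
    (hY' : DifferentiableOn ℂ Y' {z : ℂ | z.re < A})
    (hrel : ∀ z : ℂ, z.re < A → ∑ k, c k z * Y z ^ (k : ℕ) = 0)
    (hrel' : ∀ z : ℂ, z.re < A → ∑ k, c k z * Y' z ^ (k : ℕ) = 0)
    (z₀ : ℂ) (hz₀ : z₀.re < A) (h0 : Y z₀ = Y' z₀) : ∀ z : ℂ, z.re < A → Y z = Y' z := by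
  have hopen : IsOpen {z : ℂ | z.re < A} := isOpen_lt Complex.continuous_re continuous_const
  obtain ⟨ψ, -, -, -, hψ⟩ := lift_local A c hc z₀ (Y z₀) hz₀ (hrel z₀ hz₀)
    (hsimple z₀ hz₀ _ (hrel z₀ hz₀))
  have h1 : ∀ᶠ z in 𝓝 z₀, ψ z = Y z := by
    have hcont : Tendsto (fun z => (z, Y z)) (𝓝 z₀) (𝓝 (z₀, Y z₀)) :=
      (continuousAt_id.prodMk (hY.differentiableAt (hopen.mem_nhds hz₀)).continuousAt)
    filter_upwards [hcont.eventually hψ, hopen.mem_nhds hz₀] with z hz hzA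
    exact hz.1 (hrel z hzA)
  have h2 : ∀ᶠ z in 𝓝 z₀, ψ z = Y' z := by
    have hcont : Tendsto (fun z => (z, Y' z)) (𝓝 z₀) (𝓝 (z₀, Y z₀)) := by
      rw [h0]
      exact (continuousAt_id.prodMk (hY'.differentiableAt (hopen.mem_nhds hz₀)).continuousAt)
    filter_upwards [hcont.eventually hψ, hopen.mem_nhds hz₀] with z hz hzA
    exact hz.1 (hrel' z hzA)
  have h3 : Y =ᶠ[𝓝 z₀] Y' := by
    filter_upwards [h1, h2] with z h h'
    rw [← h, ← h']
  have hconv : Convex ℝ {z : ℂ | z.re < A} := convex_halfSpace_re_lt A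
  exact (hY.analyticOnNhd hopen).eqOn_of_preconnected_of_eventuallyEq (hY'.analyticOnNhd hopen)
    hconv.isPreconnected hz₀ h3

theorem core {n : ℕ} (D : Fin n → ℕ) (r : (i : Fin n) → Fin (D i + 1) → ℂ[X])
    (δ : ℝ) (hδ : 0 < δ)
    (hlead : ∀ i, ∀ s : ℂ, s ≠ 0 → ‖s‖ < δ → (r i (Fin.last _)).eval s ≠ 0)
    (hzero : ∀ i, ∀ s : ℂ, s ≠ 0 → ‖s‖ < δ → (r i 0).eval s ≠ 0)
    (hsimple : ∀ i, ∀ s : ℂ, s ≠ 0 → ‖s‖ < δ → ∀ y : ℂ,
      ∑ k, (r i k).eval s * y ^ (k : ℕ) = 0 →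
      ∑ k : Fin (D i + 1), ((k : ℕ) : ℂ) * (r i k).eval s * y ^ ((k : ℕ) - 1) ≠ 0)
    (s : ℕ → ℂ) (hs0 : ∀ j, s j ≠ 0) (hs : Tendsto s atTop (𝓝 0))
    (u : ℕ → Fin n → ℂ) (hu : ∀ j i, ∑ k, (r i k).eval (s j) * (u j i) ^ (k : ℕ) = 0) :
    ∃ (a : Fin n → ℤ) (ℓ : Fin n → ℂ → ℂ), (∀ i, AnalyticAt ℂ (ℓ i) 0) ∧
      ∃ (φ : ℕ → ℕ) (t : ℕ → ℂ), StrictMono φ ∧ Tendsto t atTop (𝓝[≠] 0) ∧
        ∀ j, u (φ j) = germ a ℓ (t j) := by
  classical
  set A := Real.log δ with hA
  have hexp : ∀ z : ℂ, z.re < A → ‖Complex.exp z‖ < δ := by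
    intro z hz
    rw [Complex.norm_exp, ← Real.exp_log hδ]
    exact Real.exp_lt_exp.2 hz
  -- shift so that all `s j` are small
  obtain ⟨N, hN⟩ : ∃ N, ∀ j, ‖s (j + N)‖ < δ := by
    have h1 : ∀ᶠ j in atTop, ‖s j‖ < δ := by
      have h2 := hs.norm
      rw [norm_zero] at h2
      exact h2.eventually_lt_const hδ
    obtain ⟨N, hN⟩ := eventually_atTop.1 h1
    exact ⟨N, fun j => hN _ (Nat.le_add_left _ _)⟩
  set z : ℕ → ℂ := fun j => Complex.log (s (j + N)) with hz
  have hzexp : ∀ j, Complex.exp (z j) = s (j + N) := fun j => Complex.exp_log (hs0 _)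
  have hzre : ∀ j, (z j).re < A := by
    intro j
    simp only [hz, Complex.log_re, hA]
    exact Real.log_lt_log (norm_pos_iff.2 (hs0 _)) (hN j)
  have hzlim : Tendsto (fun j => (z j).re) atTop atBot := by
    have h1 : Tendsto (fun j => ‖s (j + N)‖) atTop (𝓝[>] 0) := by
      rw [tendsto_nhdsWithin_iff]
      refine ⟨?_, Eventually.of_forall (fun j => norm_pos_iff.2 (hs0 _))⟩
      have h2 := (hs.comp (tendsto_add_atTop_nat N)).norm
      rwa [norm_zero] at h2
    have h2 := Real.tendsto_log_nhdsGT_zero.comp h1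
    refine h2.congr (fun j => ?_)
    simp only [hz, Complex.log_re, Function.comp]
  have hdiff : ∀ i k, DifferentiableOn ℂ (fun z => (r i k).eval (Complex.exp z))
      {z : ℂ | z.re < A} := by
    intro i k
    exact ((r i k).differentiable.comp Complex.differentiable_exp).differentiableOn
  have hlift := fun j i => exists_lift A (fun k z => (r i k).eval (Complex.exp z)) (hdiff i)
    (fun z hz => hlead i _ (Complex.exp_ne_zero z) (hexp z hz))
    (fun z hz y hy => hsimple i _ (Complex.exp_ne_zero z) (hexp z hz) y hy)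
    (z j) (hzre j) (u (j + N) i) (by
      simp only [hzexp]
      exact hu _ _)
  choose L hL1 hL2 hL3 using hlift
  -- base point
  set zs : ℂ := ((A - 1 : ℝ) : ℂ) with hzs
  have hzsA : zs.re < A := by
    rw [hzs, Complex.ofReal_re]
    linarith
  have hfinroots : ∀ i, {y : ℂ | ∑ k, (r i k).eval (Complex.exp zs) * y ^ (k : ℕ) = 0}.Finite := by
    intro i
    set P : ℂ[X] := ∑ k, C ((r i k).eval (Complex.exp zs)) * X ^ (k : ℕ) with hP
    have hcoeff : P.coeff (D i) = (r i (Fin.last _)).eval (Complex.exp zs) := by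
      rw [hP, finsetSum_coeff, Finset.sum_eq_single (Fin.last (D i))]
      · rw [coeff_C_mul, coeff_X_pow]
        simp
      · intro k _ hk
        rw [coeff_C_mul, coeff_X_pow, if_neg, mul_zero]
        intro h
        exact hk (Fin.ext (by rw [← h]; rfl))
      · intro h
        exact absurd (Finset.mem_univ _) h
    have hP0 : P ≠ 0 := by
      intro h
      rw [h, coeff_zero] at hcoeff
      exact hlead i _ (Complex.exp_ne_zero zs) (hexp zs hzsA) hcoeff.symm
    refine (Polynomial.finite_setOfPred_isRoot hP0).subset ?_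
    intro y hy
    simp only [mem_ofPred_eq] at hy ⊢
    rw [IsRoot.def, hP, eval_finsetSum]
    simpa using hy
  set S : Set (Fin n → ℂ) := Set.pi univ
    (fun i => {y : ℂ | ∑ k, (r i k).eval (Complex.exp zs) * y ^ (k : ℕ) = 0}) with hS
  have hSfin : S.Finite := Set.Finite.pi' hfinroots |>.subset (by
    intro v hv i
    exact hv i (mem_univ i))
  have : Finite S := hSfin
  let f : ℕ → S := fun j => ⟨fun i => L j i zs, fun i _ => hL3 j i zs hzsA⟩
  obtain ⟨v, hv⟩ := Finite.exists_infinite_fiber f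
  have hv' : (f ⁻¹' {v}).Infinite := Set.infinite_coe_iff.1 hv
  obtain ⟨j₀, hj₀⟩ := hv'.nonempty
  have huniq : ∀ j ∈ f ⁻¹' {v}, ∀ i, ∀ x : ℂ, x.re < A → L j i x = L j₀ i x := by
    intro j hj i
    apply lift_unique A (fun k z => (r i k).eval (Complex.exp z)) (hdiff i)
      (fun z hz y hy => hsimple i _ (Complex.exp_ne_zero z) (hexp z hz) y hy)
      (L j i) (L j₀ i) (hL1 j i) (hL1 j₀ i) (hL3 j i) (hL3 j₀ i) zs hzsA
    have h1 : f j = v := hj
    have h2 : f j₀ = v := hj₀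
    have h3 := congrArg (fun x : S => x.1 i) (h1.trans h2.symm)
    exact h3
  have hY0 : ∀ i, ∀ x : ℂ, x.re < A → L j₀ i x ≠ 0 := by
    intro i x hx h0
    have h1 := hL3 j₀ i x hx
    simp only [h0] at h1
    rw [Finset.sum_eq_single 0] at h1
    · apply hzero i _ (Complex.exp_ne_zero x) (hexp x hx)
      simpa using h1
    · intro k _ hk
      rw [zero_pow, mul_zero]
      intro h
      exact hk (Fin.ext h)
    · intro h
      exact absurd (Finset.mem_univ _) h
  have hpui := fun i => puiseux A (L j₀ i) (hL1 j₀ i) (hY0 i) (r i)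
    ⟨Fin.last _, fun h => hlead i _ (Complex.exp_ne_zero zs) (hexp zs hzsA) (by rw [h, eval_zero])⟩
    (hL3 j₀ i)
  choose m hm hpui using hpui
  set M := ∏ i, m i with hM
  have hMpos : 0 < M := Finset.prod_pos (fun i _ => hm i)
  have hmM : ∀ i, m i ∣ M := fun i => Finset.dvd_prod_of_mem _ (Finset.mem_univ i)
  choose a ℓ B hℓ hB using fun i => hpui i M hMpos (hmM i)
  obtain ⟨B₀, hB₀⟩ : ∃ B₀, ∀ i, B₀ ≤ B i := by
    obtain ⟨b, hb⟩ := (Set.finite_range B).bddBelow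
    exact ⟨b, fun i => hb (mem_range_self i)⟩
  obtain ⟨ψ, hψ1, hψ2⟩ := extraction_of_frequently_atTop
    (Nat.frequently_atTop_iff_infinite.2 hv')
  obtain ⟨N₂, hN₂⟩ : ∃ N₂, ∀ j, (z (ψ (j + N₂))).re < B₀ := by
    have h1 : ∀ᶠ j in atTop, (z (ψ j)).re < B₀ :=
      (hzlim.comp hψ1.tendsto_atTop).eventually_lt_atBot B₀
    obtain ⟨N₂, hN₂⟩ := eventually_atTop.1 h1
    exact ⟨N₂, fun j => hN₂ _ (Nat.le_add_left _ _)⟩
  refine ⟨a, ℓ, hℓ, fun j => ψ (j + N₂) + N, fun j => Complex.exp (z (ψ (j + N₂)) / M),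
    ?_, ?_, ?_⟩
  · intro j j' hjj
    have := hψ1 (show j + N₂ < j' + N₂ by omega)
    show ψ (j + N₂) + N < ψ (j' + N₂) + N
    omega
  · rw [tendsto_nhdsWithin_iff]
    refine ⟨?_, Eventually.of_forall (fun j => Complex.exp_ne_zero _)⟩
    rw [tendsto_zero_iff_norm_tendsto_zero]
    have h1 : Tendsto (fun j => Real.exp ((z (ψ (j + N₂))).re / M)) atTop (𝓝 0) := by
      apply Real.tendsto_exp_atBot.comp
      apply Tendsto.atBot_div_const (by exact_mod_cast hMpos)
      exact hzlim.comp (hψ1.tendsto_atTop.comp (tendsto_add_atTop_nat N₂))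
    refine h1.congr (fun j => ?_)
    rw [Complex.norm_exp]
    congr 1
    rw [Complex.div_natCast_re]
  · intro j
    funext i
    have h1 : u (ψ (j + N₂) + N) i = L j₀ i (z (ψ (j + N₂))) := by
      rw [← huniq _ (hψ2 (j + N₂)) i _ (hzre _), hL2]
    rw [h1, hB i _ (lt_of_lt_of_le (hN₂ j) (hB₀ i))]
    unfold germ
    congr 1
    rw [← Complex.exp_int_mul]
    congr 1
    ring

theorem eval_map_evalRingHom_eq (R : ℂ[X][X]) (T y : ℂ) :
    (R.map (evalRingHom T)).eval y =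
      ∑ k : Fin (R.natDegree + 1), (R.coeff k).eval T * y ^ (k : ℕ) := by
  rw [eval_eq_sum_range' (Nat.lt_succ_of_le (natDegree_map_le (f := evalRingHom T) (p := R))),
    ← Fin.sum_univ_eq_sum_range (fun k => (R.map (evalRingHom T)).coeff k * y ^ k)]
  simp [coeff_map]

theorem eval_map_derivative_eq (R : ℂ[X][X]) (T y : ℂ) :
    ((derivative R).map (evalRingHom T)).eval y =
      ∑ k : Fin (R.natDegree + 1), ((k : ℕ) : ℂ) * (R.coeff k).eval T * y ^ ((k : ℕ) - 1) := by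
  rw [← derivative_map]
  set P := R.map (evalRingHom T) with hP
  have h1 : P = ∑ k : Fin (R.natDegree + 1), C ((R.coeff k).eval T) * X ^ (k : ℕ) := by
    conv_lhs => rw [P.as_sum_range' (R.natDegree + 1)
      (Nat.lt_succ_of_le (natDegree_map_le (f := evalRingHom T) (p := R))),
      ← Fin.sum_univ_eq_sum_range (fun k => monomial k (P.coeff k))]
    refine Finset.sum_congr rfl (fun k _ => ?_)
    rw [hP, coeff_map, C_mul_X_pow_eq_monomial]
    rfl
  rw [h1, derivative_sum, eval_finsetSum]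
  refine Finset.sum_congr rfl (fun k _ => ?_)
  rw [derivative_C_mul_X_pow, eval_mul, eval_C, eval_pow, eval_X]
  ring

theorem core' {n : ℕ} (R : Fin n → ℂ[X][X]) (hR0 : ∀ i, (R i).coeff 0 ≠ 0)
    (hsep : ∀ i, ∃ D : ℂ[X], D ≠ 0 ∧ ∃ A B : ℂ[X][X], A * R i + B * derivative (R i) = C D)
    (e ρ : ℂ → ℂ) (hρ : ∀ s, s ≠ 0 → ρ s ≠ 0)
    (he : ∀ p : ℂ[X], p ≠ 0 → ∀ᶠ s in 𝓝[≠] (0 : ℂ), p.eval (e s) ≠ 0)
    (r : (i : Fin n) → Fin ((R i).natDegree + 1) → ℂ[X])
    (hr : ∀ i k s, s ≠ 0 → (r i k).eval s = ρ s * ((R i).coeff k).eval (e s))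
    (s : ℕ → ℂ) (hs0 : ∀ j, s j ≠ 0) (hs : Tendsto s atTop (𝓝 0))
    (u : ℕ → Fin n → ℂ)
    (hu : ∀ j i, ((R i).map (evalRingHom (e (s j)))).eval (u j i) = 0) :
    ∃ (a : Fin n → ℤ) (ℓ : Fin n → ℂ → ℂ), (∀ i, AnalyticAt ℂ (ℓ i) 0) ∧
      ∃ (φ : ℕ → ℕ) (t : ℕ → ℂ), StrictMono φ ∧ Tendsto t atTop (𝓝[≠] 0) ∧
        ∀ j, u (φ j) = germ a ℓ (t j) := by
  choose D hD A B hAB using hsep
  have hRne : ∀ i, R i ≠ 0 := fun i h => hR0 i (by rw [h, coeff_zero])
  have hev : ∀ᶠ s in 𝓝[≠] (0 : ℂ), ∀ i, (D i).eval (e s) ≠ 0 ∧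
      ((R i).leadingCoeff).eval (e s) ≠ 0 ∧ ((R i).coeff 0).eval (e s) ≠ 0 := by
    rw [eventually_all]
    intro i
    filter_upwards [he _ (hD i), he _ (leadingCoeff_ne_zero.2 (hRne i)), he _ (hR0 i)]
      with s h1 h2 h3
    exact ⟨h1, h2, h3⟩
  rw [eventually_nhdsWithin_iff, Metric.eventually_nhds_iff] at hev
  obtain ⟨δ, hδ, hev⟩ := hev
  have hev' : ∀ s : ℂ, s ≠ 0 → ‖s‖ < δ → ∀ i, (D i).eval (e s) ≠ 0 ∧
      ((R i).leadingCoeff).eval (e s) ≠ 0 ∧ ((R i).coeff 0).eval (e s) ≠ 0 := by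
    intro s hs hsδ
    exact hev (by rwa [dist_zero_right]) hs
  have hsum : ∀ i (s y : ℂ), s ≠ 0 → ∑ k, (r i k).eval s * y ^ (k : ℕ) =
      ρ s * ((R i).map (evalRingHom (e s))).eval y := by
    intro i s y hs
    rw [eval_map_evalRingHom_eq, Finset.mul_sum]
    refine Finset.sum_congr rfl (fun k _ => ?_)
    rw [hr i k s hs, mul_assoc]
  apply core (fun i => (R i).natDegree) r δ hδ _ _ _ s hs0 hs u
  · intro j i
    rw [hsum i _ _ (hs0 j), hu, mul_zero]
  · intro i s hs hsδ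
    rw [hr i _ s hs]
    exact mul_ne_zero (hρ s hs) (hev' s hs hsδ i).2.1
  · intro i s hs hsδ
    rw [hr i _ s hs]
    exact mul_ne_zero (hρ s hs) (hev' s hs hsδ i).2.2
  · intro i s hs hsδ y hy hy'
    rw [hsum i s y hs] at hy
    have h1 : ((R i).map (evalRingHom (e s))).eval y = 0 :=
      (mul_eq_zero.1 hy).resolve_left (hρ s hs)
    have h2 : ∑ k : Fin ((R i).natDegree + 1),
        ((k : ℕ) : ℂ) * (r i k).eval s * y ^ ((k : ℕ) - 1) =
        ρ s * ((derivative (R i)).map (evalRingHom (e s))).eval y := by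
      rw [eval_map_derivative_eq, Finset.mul_sum]
      refine Finset.sum_congr rfl (fun k _ => ?_)
      rw [hr i k s hs]
      ring
    rw [h2] at hy'
    have h3 : ((derivative (R i)).map (evalRingHom (e s))).eval y = 0 :=
      (mul_eq_zero.1 hy').resolve_left (hρ s hs)
    have h4 := congrArg (fun P : ℂ[X][X] => (P.map (evalRingHom (e s))).eval y) (hAB i)
    simp only [Polynomial.map_add, Polynomial.map_mul, map_C, eval_add, eval_mul, eval_C,
      h1, h3, mul_zero, add_zero] at h4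
    exact (hev' s hs hsδ i).1 h4.symm

theorem IsFreeCurve.eval_relation {n : ℕ} {J : Ideal (MvPolynomial (Fin n) ℂ)} {i₀ : Fin n}
    {g : MvPolynomial (Fin n) ℂ} {R : ℂ[X][X]}
    (hR : R.eval₂ (aeval (MvPolynomial.X i₀ : MvPolynomial (Fin n) ℂ)).toRingHom g ∈ J)
    {y : Fin n → ℂ} (hy : ∀ f ∈ J, MvPolynomial.eval y f = 0) :
    (R.map (evalRingHom (y i₀))).eval (MvPolynomial.eval y g) = 0 := by
  have h1 := hy _ hR
  rw [hom_eval₂] at h1
  rw [eval_map, ← h1]
  congr 1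
  ext
  · simp
  · simp

theorem exists_germ {n : ℕ} {J : Ideal (MvPolynomial (Fin n) ℂ)} (hJ : IsFreeCurve J)
    (w : ℕ → Fin n → ℂ) (hw : ∀ j, w j ∈ torusLocus J) (hinj : Function.Injective w) :
    ∃ (a : Fin n → ℤ) (ℓ : Fin n → ℂ → ℂ), IsGerm (torusLocus J) a ℓ ∧
      ∃ (φ : ℕ → ℕ) (t : ℕ → ℂ), StrictMono φ ∧ Tendsto t atTop (𝓝[≠] 0) ∧
        ∀ j, w (φ j) = germ a ℓ (t j) := by
  classical
  -- it is enough to find the germ as analytic functions
  suffices hmain : ∃ (a : Fin n → ℤ) (ℓ : Fin n → ℂ → ℂ), (∀ i, AnalyticAt ℂ (ℓ i) 0) ∧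
      ∃ (φ : ℕ → ℕ) (t : ℕ → ℂ), StrictMono φ ∧ Tendsto t atTop (𝓝[≠] 0) ∧
        ∀ j, w (φ j) = germ a ℓ (t j) by
    obtain ⟨a, ℓ, hℓ, φ, t, hφ, ht, hwt⟩ := hmain
    refine ⟨a, ℓ, ⟨hℓ, ?_, ?_⟩, φ, t, hφ, ht, hwt⟩
    · have hmer : ∀ i, MeromorphicAt (fun t => germ a ℓ t i) 0 := by
        intro i
        unfold germ
        exact ((MeromorphicAt.id 0).zpow (a i)).mul (hℓ i).cexp.meromorphicAt
      have hmerf : ∀ f : MvPolynomial (Fin n) ℂ,
          MeromorphicAt (fun t => MvPolynomial.eval (germ a ℓ t) f) 0 := by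
        intro f
        induction f using MvPolynomial.induction_on with
        | C c => simp
        | add p q hp hq =>
          simp only [map_add]
          exact hp.add hq
        | mul_X p i hp =>
          simp only [map_mul, MvPolynomial.eval_X]
          exact hp.mul (hmer i)
      have hev : ∀ f ∈ J, ∀ᶠ t in 𝓝[≠] (0 : ℂ), MvPolynomial.eval (germ a ℓ t) f = 0 := by
        intro f hf
        rcases (hmerf f).eventually_eq_zero_or_eventually_ne_zero with h | h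
        · exact h
        · exfalso
          obtain ⟨j, hj⟩ := (ht.eventually h).exists
          apply hj
          rw [← hwt j]
          exact (hw _).2 f hf
      obtain ⟨S, hS⟩ : J.FG := (isNoetherianRing_iff_ideal_fg _).1 inferInstance J
      have hall : ∀ᶠ t in 𝓝[≠] (0 : ℂ), ∀ f ∈ S, MvPolynomial.eval (germ a ℓ t) f = 0 := by
        rw [Filter.eventually_all_finset]
        intro f hf
        exact hev f (by rw [← hS]; exact Ideal.subset_span hf)
      filter_upwards [hall, self_mem_nhdsWithin] with t ht1 ht2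
      refine ⟨fun i => mul_ne_zero (zpow_ne_zero _ ht2) (Complex.exp_ne_zero _), ?_⟩
      intro f hf
      have hle : J ≤ RingHom.ker (MvPolynomial.eval (germ a ℓ t)) := by
        rw [← hS, Ideal.span_le]
        intro f hf
        exact ht1 f hf
      exact hle hf
    · intro y hy
      have h1 := ht.eventually hy
      obtain ⟨N, hN⟩ := eventually_atTop.1 h1
      have h2 : w (φ N) = w (φ (N + 1)) := by
        rw [hwt, hwt, hN N le_rfl, hN (N + 1) (Nat.le_succ N)]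
      have h3 := hφ.injective (hinj h2)
      omega
  -- n > 0
  rcases Nat.eq_zero_or_pos n with hn | hn
  · subst hn
    exfalso
    have h1 : w 0 = w 1 := Subsingleton.elim _ _
    exact absurd (hinj h1) (by norm_num)
  set i₀ : Fin n := ⟨0, hn⟩ with hi₀
  have hne : (torusLocus J).Nonempty := ⟨w 0, hw 0⟩
  choose R hRJ hRc hR0 hRsep using fun i => hJ.exists_relation i₀ (MvPolynomial.X i)
    (X_notMem J hne i)
  have hRne : ∀ i, R i ≠ 0 := fun i h => hR0 i (by rw [h, coeff_zero])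
  have hrel : ∀ y ∈ torusLocus J, ∀ i, ((R i).map (evalRingHom (y i₀))).eval (y i) = 0 := by
    intro y hy i
    have h1 := IsFreeCurve.eval_relation (hRJ i) hy.2
    rwa [MvPolynomial.eval_X] at h1
  -- finite fibres
  have hfib : ∀ c : ℂ, {y ∈ torusLocus J | y i₀ = c}.Finite := by
    intro c
    have h1 : (Set.pi univ (fun i => {y : ℂ | ((R i).map (evalRingHom c)).IsRoot y})).Finite :=
      Set.Finite.pi' (fun i => Polynomial.finite_setOfPred_isRoot (hRc i c)) |>.subset (by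
        intro v hv i
        exact hv i (mem_univ i))
    refine h1.subset ?_
    rintro y ⟨hy, hyc⟩ i -
    have h2 := hrel y hy i
    rw [hyc] at h2
    exact h2
  have hfib' : ∀ c : ℂ, {j : ℕ | w j i₀ = c}.Finite := by
    intro c
    refine Set.Finite.of_finite_image ((hfib c).subset ?_) (hinj.injOn (s := {j | w j i₀ = c}))
    rintro _ ⟨j, hj, rfl⟩
    exact ⟨hw j, hj⟩
  by_cases hinf : Tendsto (fun j => w j i₀) atTop (Bornology.cobounded ℂ)
  · -- the place is at infinity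
    set Nd : ℕ → ℕ := fun _ => Finset.univ.sup
      (fun i => (Finset.range ((R i).natDegree + 1)).sup (fun k => ((R i).coeff k).natDegree))
      with hNd
    have hNle : ∀ i k, k ≤ (R i).natDegree → ((R i).coeff k).natDegree ≤ Nd 0 := by
      intro i k hk
      refine le_trans ?_ (Finset.le_sup (f := fun i => (Finset.range ((R i).natDegree + 1)).sup
        (fun k => ((R i).coeff k).natDegree)) (Finset.mem_univ i))
      exact Finset.le_sup (f := fun k => ((R i).coeff k).natDegree)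
        (Finset.mem_range.2 (Nat.lt_succ_of_le hk))
    have hs0 : ∀ j, (w j i₀)⁻¹ ≠ 0 := fun j => inv_ne_zero ((hw j).1 i₀)
    refine core' R hR0 hRsep (fun s => s⁻¹) (fun s => s ^ (Nd 0))
      (fun s hs => pow_ne_zero _ hs) ?_ (fun i k => reflect (Nd 0) ((R i).coeff k)) ?_
      (fun j => (w j i₀)⁻¹) hs0 ?_ w ?_
    · intro p hp
      have h1 : Tendsto (fun s : ℂ => s⁻¹) (𝓝[≠] 0) (Bornology.cobounded ℂ) :=
        Filter.tendsto_inv₀_nhdsNE_zero
      have h2 : ∀ᶠ T in Bornology.cobounded ℂ, p.eval T ≠ 0 := by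
        have h3 : {x | p.IsRoot x}.Finite := Polynomial.finite_setOfPred_isRoot hp
        filter_upwards [Bornology.isBounded_def.1 h3.isBounded] with T hT
        exact hT
      exact h1.eventually h2
    · intro i k s hs
      have hk : ((R i).coeff k).natDegree ≤ Nd 0 := hNle i k (Nat.lt_succ_iff.1 k.2)
      let _ := invertibleOfNonzero (inv_ne_zero hs)
      have h1 := eval₂_reflect_mul_pow (RingHom.id ℂ) s⁻¹ (Nd 0) ((R i).coeff k) hk
      rw [invOf_eq_inv, inv_inv] at h1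
      show eval₂ (RingHom.id ℂ) s _ = s ^ (Nd 0) * eval₂ (RingHom.id ℂ) s⁻¹ _
      rw [← h1]
      rw [mul_comm, mul_assoc, ← mul_pow, inv_mul_cancel₀ hs, one_pow, mul_one]
    · exact (tendsto_inv₀_cobounded.comp hinf)
    · intro j i
      rw [inv_inv]
      exact hrel _ (hw j) i
  · -- finite place
    have hbdd : ∃ B : ℝ, ∃ᶠ j in atTop, w j i₀ ∈ Metric.closedBall (0 : ℂ) B := by
      by_contra hcon
      push Not at hcon
      apply hinf
      rw [← tendsto_norm_atTop_iff_cobounded, tendsto_atTop]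
      intro B
      filter_upwards [hcon B] with j hj
      rw [Metric.mem_closedBall, dist_zero_right, not_le] at hj
      exact hj.le
    obtain ⟨B, hB⟩ := hbdd
    obtain ⟨τ₀, -, φ, hφ, hφlim⟩ := tendsto_subseq_of_frequently_bounded
      Metric.isBounded_closedBall hB
    have hne' : ∀ᶠ j in atTop, w (φ j) i₀ ≠ τ₀ := by
      rw [← Nat.cofinite_eq_atTop]
      exact ((hfib' τ₀).preimage hφ.injective.injOn).eventually_cofinite_notMem
    obtain ⟨N, hN⟩ := eventually_atTop.1 hne'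
    have hcore : ∃ (a : Fin n → ℤ) (ℓ : Fin n → ℂ → ℂ), (∀ i, AnalyticAt ℂ (ℓ i) 0) ∧
        ∃ (φ' : ℕ → ℕ) (t : ℕ → ℂ), StrictMono φ' ∧ Tendsto t atTop (𝓝[≠] 0) ∧
        ∀ j, w (φ (φ' j + N)) = germ a ℓ (t j) := by
      refine core' R hR0 hRsep (fun s => s + τ₀) (fun s => 1)
        (fun s hs => one_ne_zero) ?_ (fun i k => ((R i).coeff k).comp (X + C τ₀)) ?_
        (fun j => w (φ (j + N)) i₀ - τ₀) (fun j => sub_ne_zero.2 (hN _ (Nat.le_add_left _ _))) ?_
        (fun j => w (φ (j + N))) ?_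
      · intro p hp
        have h1 : {s : ℂ | p.IsRoot (s + τ₀)}.Finite :=
          (Polynomial.finite_setOfPred_isRoot hp).preimage (add_left_injective τ₀).injOn
        have h2 : ({s : ℂ | p.IsRoot (s + τ₀)} \ {0})ᶜ ∈ 𝓝 (0 : ℂ) :=
          (h1.sdiff).isClosed.compl_mem_nhds (by simp)
        rw [eventually_nhdsWithin_iff]
        filter_upwards [h2] with s hs hs0 h
        exact hs ⟨h, hs0⟩
      · intro i k s hs
        simp
      · have h1 := (hφlim.comp (tendsto_add_atTop_nat N)).sub_const τ₀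
        rwa [sub_self] at h1
      · intro j i
        rw [sub_add_cancel]
        exact hrel _ (hw _) i
    obtain ⟨a, ℓ, hℓ, φ', t, hφ', ht, hwt⟩ := hcore
    refine ⟨a, ℓ, hℓ, fun j => φ (φ' j + N), t, ?_, ht, hwt⟩
    intro j j' hjj
    apply hφ
    have := hφ' hjj
    omega

end Pool.Agent.Lib.MP_209724_lc
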