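import Mathlib
import Pool.Agent.Lib.MP_209724_lc.Germ
import Pool.Agent.Lib.MP_209724_lc.SeqGerm
import Pool.Agent.Lib.MP_209724_lc.Omitted

/-!
Germs of a free curve with prescribed behaviour.
-/

namespace Pool.Agent.Lib.MP_209724_lc

open Filter Topology Set

variable {n : ℕ} {J : Ideal (MvPolynomial (Fin n) ℂ)}

/-- Injective choice from infinite sets. -/
theorem exists_injective_choice {α : Type*} (Y : ℕ → Set α) (hY : ∀ q, (Y q).Infinite) :
    ∃ y : ℕ → α, Function.Injective y ∧ ∀ q, y q ∈ Y q := by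
  classical
  have hch : ∀ (q : ℕ) (s : Finset α), ∃ x ∈ Y q, x ∉ s := by
    intro q s
    obtain ⟨x, hx, hxs⟩ := (hY q).exists_notMem_finset s
    exact ⟨x, hx, hxs⟩
  choose ch hch1 hch2 using hch
  let s : ℕ → Finset α := fun q => Nat.rec ∅ (fun q s => insert (ch q s) s) q
  have hs : ∀ q, s (q + 1) = insert (ch q (s q)) (s q) := fun q => rfl
  have hmono : Monotone s := by
    apply monotone_nat_of_le_succ
    intro q
    rw [hs]
    exact Finset.subset_insert _ _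
  refine ⟨fun q => ch q (s q), ?_, fun q => hch1 _ _⟩
  have hlt : ∀ p q, p < q → ch p (s p) ≠ ch q (s q) := by
    intro p q hpq h
    apply hch2 q (s q)
    rw [← h]
    apply hmono (Nat.succ_le_of_lt hpq)
    rw [hs]
    exact Finset.mem_insert_self _ _
  intro p q h
  rcases lt_trichotomy p q with h1 | h1 | h1
  · exact absurd h (hlt p q h1)
  · exact h1
  · exact absurd h.symm (hlt q p h1)

theorem infinite_monomial_mem (hJ : IsFreeCurve J) (m : Fin n → ℤ) (hm : m ≠ 0) (O : Set ℂ)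
    (hO : IsOpen O) (hOne : O.Nonempty) :
    {y ∈ torusLocus J | ∏ i, y i ^ m i ∈ O}.Infinite := by
  have hp := hJ.prime
  have hcount := countable_omitted J m (fun c => hJ.free m hm c)
  have hOunc : ¬ O.Countable := by
    intro h
    have h1 := h.dense_compl ℝ
    obtain ⟨x, hx1, hx2⟩ := h1.inter_open_nonempty O hO hOne
    exact hx2 hx1
  intro hfin
  apply hOunc
  have hsub : O ⊆ {lam : ℂ | ¬ ∃ y ∈ torusLocus J, ∏ i, y i ^ m i = lam} ∪
      (fun y : Fin n → ℂ => ∏ i, y i ^ m i) '' {y ∈ torusLocus J | ∏ i, y i ^ m i ∈ O} := by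
    intro lam hlam
    by_cases h : ∃ y ∈ torusLocus J, ∏ i, y i ^ m i = lam
    · right
      obtain ⟨y, hy, hyl⟩ := h
      exact ⟨y, ⟨hy, by rw [hyl]; exact hlam⟩, hyl⟩
    · left
      exact h
  exact (hcount.union (hfin.image _).countable).mono hsub

theorem log_norm_germ (a : Fin n → ℤ) (ℓ : Fin n → ℂ → ℂ) (t : ℂ) (ht : t ≠ 0) (i : Fin n) :
    Real.log ‖germ a ℓ t i‖ = a i * Real.log ‖t‖ + (ℓ i t).re := by
  unfold germ
  rw [norm_mul, norm_zpow, Complex.norm_exp, Real.log_mul (zpow_ne_zero _ (norm_ne_zero_iff.2 ht))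
    (Real.exp_ne_zero _), Real.log_exp, Real.log_zpow]

theorem tendsto_log_norm_atBot {t : ℕ → ℂ} (ht : Tendsto t atTop (𝓝[≠] 0)) :
    Tendsto (fun j => Real.log ‖t j‖) atTop atBot := by
  have h1 : Tendsto (fun j => ‖t j‖) atTop (𝓝[>] 0) := by
    rw [tendsto_nhdsWithin_iff] at ht ⊢
    refine ⟨?_, ?_⟩
    · have := ht.1.norm
      rwa [norm_zero] at this
    · filter_upwards [ht.2] with j hj
      exact norm_pos_iff.2 hj
  exact Real.tendsto_log_nhdsGT_zero.comp h1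

/-- If `x_j L_j + b_j = c_j` with `L_j → -∞`, `b_j`, `c_j` convergent, then `x_j → 0`. -/
theorem tendsto_zero_of_mul_atBot {x L b c : ℕ → ℝ} {b₀ c₀ : ℝ} (hL : Tendsto L atTop atBot)
    (hb : Tendsto b atTop (𝓝 b₀)) (hc : Tendsto c atTop (𝓝 c₀))
    (h : ∀ j, x j * L j + b j = c j) : Tendsto x atTop (𝓝 0) := by
  have h1 : Tendsto (fun j => (c j - b j) / L j) atTop (𝓝 0) :=
    (hc.sub hb).div_atBot hL
  refine h1.congr' ?_
  filter_upwards [hL.eventually_lt_atBot 0] with j hj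
  rw [← h j, add_sub_cancel_right, mul_div_assoc, div_self hj.ne, mul_one]

theorem log_norm_monomial {y : Fin n → ℂ} (hy : ∀ i, y i ≠ 0) (m : Fin n → ℤ) :
    Real.log ‖∏ i, y i ^ m i‖ = ∑ i, (m i : ℝ) * Real.log ‖y i‖ := by
  rw [norm_prod, Real.log_prod (fun i _ => norm_ne_zero_iff.2 (zpow_ne_zero _ (hy i)))]
  refine Finset.sum_congr rfl (fun i _ => ?_)
  rw [norm_zpow, Real.log_zpow]

theorem zpow_sum_eq_prod (t : ℂ) (ht : t ≠ 0) (s : Finset (Fin n)) (b : Fin n → ℤ) :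
    t ^ (∑ i ∈ s, b i) = ∏ i ∈ s, t ^ b i := by
  classical
  induction s using Finset.induction_on with
  | empty => simp
  | insert x s hx ih => rw [Finset.sum_insert hx, Finset.prod_insert hx, zpow_add₀ ht, ih]

theorem exists_germ' (hJ : IsFreeCurve J) (w : ℕ → Fin n → ℂ) (hw : ∀ j, w j ∈ torusLocus J)
    (hinj : Function.Injective w) :
    ∃ (a : Fin n → ℤ) (ℓ : Fin n → ℂ → ℂ), IsGerm (torusLocus J) a ℓ ∧
      ∃ (φ : ℕ → ℕ) (t : ℕ → ℂ), StrictMono φ ∧ Tendsto t atTop (𝓝[≠] 0) ∧ (∀ j, t j ≠ 0) ∧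
        ∀ j, w (φ j) = germ a ℓ (t j) := by
  obtain ⟨a, ℓ, hg, φ, t, hφ, ht, hyt⟩ := exists_germ hJ w hw hinj
  obtain ⟨N, hN⟩ := eventually_atTop.1 (ht.eventually self_mem_nhdsWithin)
  exact ⟨a, ℓ, hg, fun j => φ (j + N), fun j => t (j + N),
    hφ.comp (fun _ _ h => Nat.add_lt_add_right h N), ht.comp (tendsto_add_atTop_nat N),
    fun j => hN _ (Nat.le_add_left _ _), fun j => hyt _⟩

theorem monomial_germ (a : Fin n → ℤ) (ℓ : Fin n → ℂ → ℂ) (t : ℂ) (ht : t ≠ 0)
    (ν : Fin n → ℤ) :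
    ∏ i, germ a ℓ t i ^ ν i = t ^ (∑ i, ν i * a i) * Complex.exp (∑ i, (ν i : ℂ) * ℓ i t) := by
  unfold germ
  rw [Complex.exp_sum, zpow_sum_eq_prod t ht, ← Finset.prod_mul_distrib]
  refine Finset.prod_congr rfl (fun i _ => ?_)
  rw [mul_zpow, ← zpow_mul, mul_comm (a i), ← Complex.exp_int_mul]

/-- basic comparison along a germ -/
theorem germ_sum_tendsto {ℓ : Fin n → ℂ → ℂ} (hℓ : ∀ i, AnalyticAt ℂ (ℓ i) 0)
    {t : ℕ → ℂ} (ht : Tendsto t atTop (𝓝[≠] 0)) {νq : ℕ → Fin n → ℝ} {ν : Fin n → ℝ}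
    (hν : ∀ i, Tendsto (fun q => νq q i) atTop (𝓝 (ν i))) :
    Tendsto (fun q => ∑ i, νq q i * (ℓ i (t q)).re) atTop (𝓝 (∑ i, ν i * (ℓ i 0).re)) := by
  apply tendsto_finsetSum
  intro i _
  apply (hν i).mul
  have h1 : Tendsto t atTop (𝓝 0) := ht.mono_right nhdsWithin_le_nhds
  have h2 : Tendsto (fun z => (ℓ i z).re) (𝓝 0) (𝓝 (ℓ i 0).re) :=
    Complex.continuous_re.continuousAt.comp (hℓ i).continuousAt
  exact h2.comp h1

/-- Approximation of a real vector by rational vectors satisfying the same integer relations. -/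
theorem exists_rational_approx (ν : Fin n → ℝ) (hν : ν ≠ 0) :
    ∃ νq : ℕ → Fin n → ℚ, (∀ i, Tendsto (fun q => (νq q i : ℝ)) atTop (𝓝 (ν i))) ∧
      (∀ q, νq q ≠ 0) ∧
      ∀ b : Fin n → ℤ, ∑ i, ν i * (b i : ℝ) = 0 → ∀ q, ∑ i, (νq q i) * (b i : ℚ) = 0 := by
  classical
  let V : Submodule ℚ ℝ := Submodule.span ℚ (Set.range ν)
  have : FiniteDimensional ℚ V := FiniteDimensional.span_of_finite ℚ (Set.finite_range ν)
  let B := Module.finBasis ℚ V
  let r := Module.finrank ℚ V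
  let v : Fin n → V := fun i => ⟨ν i, Submodule.subset_span (Set.mem_range_self i)⟩
  let c : Fin n → Fin r → ℚ := fun i k => B.repr (v i) k
  have hexp : ∀ i, ν i = ∑ k, (c i k : ℝ) * (B k : ℝ) := by
    intro i
    have h1 := B.sum_repr (v i)
    have h2 := congrArg (Subtype.val) h1
    have h3 : ((∑ k, (B.repr (v i)) k • B k : V) : ℝ) = ∑ k, (c i k : ℝ) * (B k : ℝ) := by
      rw [Submodule.coe_sum]
      refine Finset.sum_congr rfl (fun k _ => ?_)
      rw [Submodule.coe_smul, Rat.smul_def]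
    rw [h3] at h2
    exact h2.symm
  -- rational approximations of the basis
  have happ : ∀ k : Fin r, ∃ θ : ℕ → ℚ, Tendsto (fun q => (θ q : ℝ)) atTop (𝓝 (B k : ℝ)) := by
    intro k
    have h1 : ∀ q : ℕ, ∃ x : ℚ, |(x : ℝ) - (B k : ℝ)| < 1 / ((q : ℝ) + 1) := by
      intro q
      obtain ⟨x, hx⟩ := exists_rat_btwn (show (B k : ℝ) < (B k : ℝ) + 1 / ((q : ℝ) + 1) by
        have : (0 : ℝ) < 1 / ((q : ℝ) + 1) := by positivity
        linarith)
      refine ⟨x, ?_⟩
      rw [abs_lt]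
      have : (0 : ℝ) < 1 / ((q : ℝ) + 1) := by positivity
      constructor <;> linarith [hx.1, hx.2]
    choose θ hθ using h1
    refine ⟨θ, ?_⟩
    rw [tendsto_iff_dist_tendsto_zero]
    refine squeeze_zero (fun q => dist_nonneg) (fun q => ?_) tendsto_one_div_add_atTop_nhds_zero_nat
    rw [Real.dist_eq]
    exact (hθ q).le
  choose θ hθ using happ
  have hlim : ∀ i, Tendsto (fun q => ((∑ k, c i k * θ k q : ℚ) : ℝ)) atTop (𝓝 (ν i)) := by
    intro i
    rw [hexp i]
    have h1 : Tendsto (fun q => ∑ k, (c i k : ℝ) * (θ k q : ℝ)) atTop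
        (𝓝 (∑ k, (c i k : ℝ) * (B k : ℝ))) :=
      tendsto_finsetSum _ (fun k _ => (hθ k).const_mul _)
    refine h1.congr (fun q => ?_)
    push_cast
    rfl
  -- eventually nonzero
  obtain ⟨i₁, hi₁⟩ := Function.ne_iff.1 hν
  have hev : ∀ᶠ q in atTop, ((∑ k, c i₁ k * θ k q : ℚ) : ℝ) ≠ 0 :=
    (hlim i₁).eventually_ne hi₁
  obtain ⟨N, hN⟩ := eventually_atTop.1 hev
  refine ⟨fun q i => ∑ k, c i k * θ k (q + N), fun i => (hlim i).comp (tendsto_add_atTop_nat N),
    ?_, ?_⟩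
  · intro q h
    apply hN (q + N) (Nat.le_add_left _ _)
    have := congrFun h i₁
    simp only [Pi.zero_apply] at this
    rw [this, Rat.cast_zero]
  · intro b hb q
    have h1 : ∑ i, (b i : ℚ) • v i = 0 := by
      apply Subtype.ext
      rw [Submodule.coe_sum, Submodule.coe_zero]
      rw [← hb]
      refine Finset.sum_congr rfl (fun i _ => ?_)
      rw [Submodule.coe_smul, Rat.smul_def]
      push_cast
      ring
    have h2 : ∀ k, ∑ i, (b i : ℚ) * c i k = 0 := by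
      intro k
      have h3 := congrArg (fun x => B.repr x k) h1
      simpa [c] using h3
    calc ∑ i, (∑ k, c i k * θ k (q + N)) * (b i : ℚ)
        = ∑ k, θ k (q + N) * ∑ i, (b i : ℚ) * c i k := by
          simp only [Finset.sum_mul, Finset.mul_sum]
          rw [Finset.sum_comm]
          refine Finset.sum_congr rfl (fun k _ => Finset.sum_congr rfl (fun i _ => ?_))
          ring
      _ = 0 := by simp [h2]

/-- An integer vector proportional to a rational vector. -/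
theorem exists_int_multiple (ν : Fin n → ℚ) (hν : ν ≠ 0) :
    ∃ (D : ℕ) (m : Fin n → ℤ), 0 < D ∧ m ≠ 0 ∧ ∀ i, (m i : ℚ) = D * ν i := by
  classical
  refine ⟨∏ i, (ν i).den, fun i => (ν i).num * ∏ j ∈ Finset.univ.erase i, ((ν j).den : ℤ),
    Finset.prod_pos (fun i _ => (ν i).den_pos), ?_, ?_⟩
  · intro h
    apply hν
    funext i
    have h1 := congrFun h i
    simp only [Pi.zero_apply] at h1
    rcases mul_eq_zero.1 h1 with h2 | h2
    · exact Rat.num_eq_zero.1 h2
    · exfalso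
      rw [Finset.prod_eq_zero_iff] at h2
      obtain ⟨j, _, hj⟩ := h2
      exact (ν j).den_ne_zero (by exact_mod_cast hj)
  · intro i
    push_cast
    rw [← Finset.mul_prod_erase Finset.univ (fun j => ((ν j).den : ℚ)) (Finset.mem_univ i)]
    have h1 : (ν i) * ((ν i).den : ℚ) = (ν i).num := Rat.mul_den_eq_num (ν i)
    rw [← h1]
    ring

theorem IsFreeCurve.exists_germ_re (hJ : IsFreeCurve J) (ν : Fin n → ℝ) (hν : ν ≠ 0) (c₀ : ℝ) :
    ∃ (a : Fin n → ℤ) (ℓ : Fin n → ℂ → ℂ), IsGerm (torusLocus J) a ℓ ∧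
      ∑ i, ν i * (a i : ℝ) = 0 ∧ ∑ i, ν i * (ℓ i 0).re = c₀ := by
  classical
  obtain ⟨νq, hνlim, hνne, hνrel⟩ := exists_rational_approx ν hν
  choose D m hD hm hmν using fun q => exists_int_multiple (νq q) (hνne q)
  have hDpos : ∀ q, (0 : ℝ) < D q := fun q => by exact_mod_cast hD q
  have hmν' : ∀ q i, (m q i : ℝ) = D q * (νq q i : ℝ) := by
    intro q i
    have := hmν q i
    exact_mod_cast congrArg (fun x : ℚ => (x : ℝ)) this
  let Y : ℕ → Set (Fin n → ℂ) := fun q =>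
    {y ∈ torusLocus J | |∑ i, (νq q i : ℝ) * Real.log ‖y i‖ - c₀| < 1 / ((q : ℝ) + 1)}
  have hY : ∀ q, (Y q).Infinite := by
    intro q
    have hcont : ContinuousAt (fun lam : ℂ => Real.log ‖lam‖ / D q) (Complex.exp (D q * c₀)) := by
      apply ContinuousAt.div_const
      apply ContinuousAt.log continuous_norm.continuousAt
      exact norm_ne_zero_iff.2 (Complex.exp_ne_zero _)
    have hval : Real.log ‖Complex.exp (D q * c₀)‖ / D q = c₀ := by
      rw [Complex.norm_exp, Real.log_exp]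
      have : ((D q : ℂ) * (c₀ : ℂ)).re = D q * c₀ := by
        rw [← Complex.ofReal_natCast, ← Complex.ofReal_mul, Complex.ofReal_re]
      rw [this, mul_comm, mul_div_assoc, div_self (hDpos q).ne', mul_one]
    have hnear : ∀ᶠ lam in 𝓝 (Complex.exp (D q * c₀)),
        |Real.log ‖lam‖ / D q - c₀| < 1 / ((q : ℝ) + 1) := by
      have h1 := Metric.tendsto_nhds.1 hcont (1 / ((q : ℝ) + 1)) (by positivity)
      filter_upwards [h1] with lam hlam
      rw [hval, Real.dist_eq] at hlam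
      exact hlam
    obtain ⟨O, hO1, hO2, hO3⟩ := eventually_nhds_iff.1 hnear
    refine (infinite_monomial_mem hJ (m q) (hm q) O hO2 ⟨_, hO3⟩).mono ?_
    rintro y ⟨hy, hyO⟩
    refine ⟨hy, ?_⟩
    have h1 := hO1 _ hyO
    rw [log_norm_monomial hy.1] at h1
    have h2 : (∑ i, (m q i : ℝ) * Real.log ‖y i‖) / D q =
        ∑ i, (νq q i : ℝ) * Real.log ‖y i‖ := by
      rw [Finset.sum_div]
      refine Finset.sum_congr rfl (fun i _ => ?_)
      rw [hmν', mul_assoc, mul_comm, mul_div_assoc, div_self (hDpos q).ne', mul_one]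
    rw [h2] at h1
    exact h1
  obtain ⟨y, hyinj, hyY⟩ := exists_injective_choice Y hY
  obtain ⟨a, ℓ, hg, φ, t, hφ, ht, htne, hyt⟩ := exists_germ' hJ y (fun q => (hyY q).1) hyinj
  -- the sequence of values
  have hφlim : Tendsto φ atTop atTop := hφ.tendsto_atTop
  have hc : Tendsto (fun j => ∑ i, (νq (φ j) i : ℝ) * Real.log ‖y (φ j) i‖) atTop (𝓝 c₀) := by
    have h0 : Tendsto (fun q => ∑ i, (νq q i : ℝ) * Real.log ‖y q i‖) atTop (𝓝 c₀) := by
      rw [tendsto_iff_dist_tendsto_zero]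
      refine squeeze_zero (fun q => dist_nonneg) (fun q => ?_)
        tendsto_one_div_add_atTop_nhds_zero_nat
      rw [Real.dist_eq]
      exact (hyY q).2.le
    exact h0.comp hφlim
  have hνlim' : ∀ i, Tendsto (fun j => (νq (φ j) i : ℝ)) atTop (𝓝 (ν i)) :=
    fun i => (hνlim i).comp hφlim
  have hb := germ_sum_tendsto (fun i => hg.analytic i) ht hνlim'
  have hid : ∀ j, (∑ i, (νq (φ j) i : ℝ) * (a i : ℝ)) * Real.log ‖t j‖ +
      ∑ i, (νq (φ j) i : ℝ) * (ℓ i (t j)).re =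
      ∑ i, (νq (φ j) i : ℝ) * Real.log ‖y (φ j) i‖ := by
    intro j
    rw [Finset.sum_mul, ← Finset.sum_add_distrib]
    refine Finset.sum_congr rfl (fun i _ => ?_)
    rw [hyt j, log_norm_germ a ℓ (t j) (htne j) i]
    ring
  have hx0 := tendsto_zero_of_mul_atBot (tendsto_log_norm_atBot ht) hb hc hid
  have hνa : ∑ i, ν i * (a i : ℝ) = 0 := by
    have h1 : Tendsto (fun j => ∑ i, (νq (φ j) i : ℝ) * (a i : ℝ)) atTop
        (𝓝 (∑ i, ν i * (a i : ℝ))) :=
      tendsto_finsetSum _ (fun i _ => (hνlim' i).mul_const _)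
    exact tendsto_nhds_unique h1 hx0
  refine ⟨a, ℓ, hg, hνa, ?_⟩
  have hzero : ∀ q, ∑ i, (νq q i : ℝ) * (a i : ℝ) = 0 := by
    intro q
    have h1 := hνrel a hνa q
    exact_mod_cast congrArg (fun x : ℚ => (x : ℝ)) h1
  refine tendsto_nhds_unique (hb.congr (fun j => ?_)) hc
  rw [← hid j, hzero, zero_mul, zero_add]

/-- Limits of an integral monomial along a sequence on a germ. -/
theorem germ_monomial_limit {a : Fin n → ℤ} {ℓ : Fin n → ℂ → ℂ}
    (hℓ : ∀ i, AnalyticAt ℂ (ℓ i) 0) {t : ℕ → ℂ} (ht : Tendsto t atTop (𝓝[≠] 0))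
    (htne : ∀ j, t j ≠ 0) (ν : Fin n → ℤ) {lam : ℂ} (hlam : lam ≠ 0)
    (h : Tendsto (fun j => ∏ i, germ a ℓ (t j) i ^ ν i) atTop (𝓝 lam)) :
    ∑ i, ν i * a i = 0 ∧ Complex.exp (∑ i, (ν i : ℂ) * ℓ i 0) = lam := by
  have hgne : ∀ j i, germ a ℓ (t j) i ≠ 0 :=
    fun j i => mul_ne_zero (zpow_ne_zero _ (htne j)) (Complex.exp_ne_zero _)
  have hc : Tendsto (fun j => Real.log ‖∏ i, germ a ℓ (t j) i ^ ν i‖) atTop
      (𝓝 (Real.log ‖lam‖)) :=
    h.norm.log (norm_ne_zero_iff.2 hlam)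
  have hb := germ_sum_tendsto (ν := fun i => (ν i : ℝ)) (νq := fun _ i => (ν i : ℝ)) hℓ ht
    (fun i => tendsto_const_nhds)
  have hid : ∀ j, (∑ i, (ν i : ℝ) * (a i : ℝ)) * Real.log ‖t j‖ +
      ∑ i, (ν i : ℝ) * (ℓ i (t j)).re = Real.log ‖∏ i, germ a ℓ (t j) i ^ ν i‖ := by
    intro j
    rw [log_norm_monomial (hgne j), Finset.sum_mul, ← Finset.sum_add_distrib]
    refine Finset.sum_congr rfl (fun i _ => ?_)
    rw [log_norm_germ a ℓ (t j) (htne j) i]
    ring
  have hx0 := tendsto_zero_of_mul_atBot (x := fun _ => ∑ i, (ν i : ℝ) * (a i : ℝ))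
    (tendsto_log_norm_atBot ht) hb hc hid
  have hνa' : ∑ i, (ν i : ℝ) * (a i : ℝ) = 0 := tendsto_nhds_unique tendsto_const_nhds hx0
  have hνa : ∑ i, ν i * a i = 0 := by exact_mod_cast hνa'
  refine ⟨hνa, ?_⟩
  have h1 : Tendsto (fun j => Complex.exp (∑ i, (ν i : ℂ) * ℓ i (t j))) atTop
      (𝓝 (Complex.exp (∑ i, (ν i : ℂ) * ℓ i 0))) := by
    apply (Complex.continuous_exp.tendsto _).comp
    apply tendsto_finsetSum
    intro i _
    exact ((hℓ i).continuousAt.tendsto.comp (ht.mono_right nhdsWithin_le_nhds)).const_mul _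
  refine tendsto_nhds_unique h1 (h.congr (fun j => ?_))
  rw [monomial_germ a ℓ (t j) (htne j) ν, hνa, zpow_zero, one_mul]

theorem IsFreeCurve.exists_germ_eq (hJ : IsFreeCurve J) (ν : Fin n → ℤ) (hν : ν ≠ 0) (lam : ℂ)
    (hlam : lam ≠ 0) :
    ∃ a ℓ, IsGerm (torusLocus J) a ℓ ∧ ∑ i, ν i * a i = 0 ∧
      Complex.exp (∑ i, (ν i : ℂ) * ℓ i 0) = lam := by
  obtain ⟨y, hyinj, hyY⟩ := exists_injective_choice
    (fun q : ℕ => {y ∈ torusLocus J | ∏ i, y i ^ ν i ∈ Metric.ball lam (1 / ((q : ℝ) + 1))})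
    (fun q => infinite_monomial_mem hJ ν hν _ Metric.isOpen_ball
      ⟨lam, Metric.mem_ball_self (by positivity)⟩)
  obtain ⟨a, ℓ, hg, φ, t, hφ, ht, htne, hyt⟩ := exists_germ' hJ y (fun q => (hyY q).1) hyinj
  have h0 : Tendsto (fun q => ∏ i, y q i ^ ν i) atTop (𝓝 lam) := by
    rw [tendsto_iff_dist_tendsto_zero]
    refine squeeze_zero (fun q => dist_nonneg) (fun q => ?_)
      tendsto_one_div_add_atTop_nhds_zero_nat
    exact (Metric.mem_ball.1 (hyY q).2).le
  have h1 : Tendsto (fun j => ∏ i, germ a ℓ (t j) i ^ ν i) atTop (𝓝 lam) := by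
    refine (h0.comp hφ.tendsto_atTop).congr (fun j => ?_)
    simp only [Function.comp, hyt j]
  obtain ⟨h2, h3⟩ := germ_monomial_limit (fun i => hg.analytic i) ht htne ν hlam h1
  exact ⟨a, ℓ, hg, h2, h3⟩

theorem IsFreeCurve.exists_germ_ne (hJ : IsFreeCurve J) (ν : Fin n → ℤ) (hν : ν ≠ 0) :
    ∃ a ℓ, IsGerm (torusLocus J) a ℓ ∧ ∑ i, ν i * a i ≠ 0 := by
  obtain ⟨y, hyinj, hyY⟩ := exists_injective_choice
    (fun q : ℕ => {y ∈ torusLocus J | ∏ i, y i ^ ν i ∈ Metric.ball (0 : ℂ) (1 / ((q : ℝ) + 1))})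
    (fun q => infinite_monomial_mem hJ ν hν _ Metric.isOpen_ball
      ⟨0, Metric.mem_ball_self (by positivity)⟩)
  obtain ⟨a, ℓ, hg, φ, t, hφ, ht, htne, hyt⟩ := exists_germ' hJ y (fun q => (hyY q).1) hyinj
  have h0 : Tendsto (fun q => ∏ i, y q i ^ ν i) atTop (𝓝 0) := by
    rw [tendsto_iff_dist_tendsto_zero]
    refine squeeze_zero (fun q => dist_nonneg) (fun q => ?_)
      tendsto_one_div_add_atTop_nhds_zero_nat
    exact (Metric.mem_ball.1 (hyY q).2).le
  have h1 : Tendsto (fun j => ∏ i, germ a ℓ (t j) i ^ ν i) atTop (𝓝 0) := by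
    refine (h0.comp hφ.tendsto_atTop).congr (fun j => ?_)
    simp only [Function.comp, hyt j]
  refine ⟨a, ℓ, hg, fun hzero => ?_⟩
  have h2 : Tendsto (fun j => Complex.exp (∑ i, (ν i : ℂ) * ℓ i (t j))) atTop
      (𝓝 (Complex.exp (∑ i, (ν i : ℂ) * ℓ i 0))) := by
    apply (Complex.continuous_exp.tendsto _).comp
    apply tendsto_finsetSum
    intro i _
    exact ((hg.analytic i).continuousAt.tendsto.comp
      (ht.mono_right nhdsWithin_le_nhds)).const_mul _
  apply Complex.exp_ne_zero (∑ i, (ν i : ℂ) * ℓ i 0)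
  refine tendsto_nhds_unique h2 (h1.congr (fun j => ?_))
  rw [monomial_germ a ℓ (t j) (htne j) ν, hzero, zpow_zero, one_mul]

theorem IsFreeCurve.exists_germ_pderiv (hJ : IsFreeCurve J) (f : MvPolynomial (Fin n) ℂ)
    (hf : f.totalDegree ≠ 0) :
    ∃ a ℓ, IsGerm (torusLocus J) a ℓ ∧
      ∑ j, MvPolynomial.C ((a j : ℤ) : ℂ) * MvPolynomial.pderiv j f ≠ 0 := by
  classical
  by_contra hcon
  push Not at hcon
  let N : Submodule ℚ (Fin n → ℚ) :=
    { carrier := {b | ∑ j, MvPolynomial.C ((b j : ℚ) : ℂ) * MvPolynomial.pderiv j f = 0}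
      add_mem' := by
        intro b b' hb hb'
        simp only [mem_ofPred_eq] at hb hb' ⊢
        have : ∑ j, MvPolynomial.C (((b + b') j : ℚ) : ℂ) * MvPolynomial.pderiv j f =
            ∑ j, MvPolynomial.C ((b j : ℚ) : ℂ) * MvPolynomial.pderiv j f +
            ∑ j, MvPolynomial.C ((b' j : ℚ) : ℂ) * MvPolynomial.pderiv j f := by
          rw [← Finset.sum_add_distrib]
          refine Finset.sum_congr rfl (fun j _ => ?_)
          rw [Pi.add_apply, Rat.cast_add, map_add, add_mul]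
        rw [this, hb, hb', add_zero]
      zero_mem' := by
        simp
      smul_mem' := by
        intro c b hb
        simp only [mem_ofPred_eq] at hb ⊢
        have : ∑ j, MvPolynomial.C (((c • b) j : ℚ) : ℂ) * MvPolynomial.pderiv j f =
            MvPolynomial.C (c : ℂ) *
              ∑ j, MvPolynomial.C ((b j : ℚ) : ℂ) * MvPolynomial.pderiv j f := by
          rw [Finset.mul_sum]
          refine Finset.sum_congr rfl (fun j _ => ?_)
          rw [Pi.smul_apply, smul_eq_mul, Rat.cast_mul, map_mul, mul_assoc]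
        rw [this, hb, mul_zero] }
  have hmemN : ∀ b : Fin n → ℚ, b ∈ N ↔
      ∑ j, MvPolynomial.C ((b j : ℚ) : ℂ) * MvPolynomial.pderiv j f = 0 := fun b => Iff.rfl
  have htop : N = ⊤ := by
    by_contra hne
    obtain ⟨g, hg0, hNg⟩ := Submodule.exists_le_ker_of_lt_top N (lt_top_iff_ne_top.2 hne)
    let νr : Fin n → ℚ := fun i => g (Pi.single i 1)
    have hgval : ∀ b, g b = ∑ i, b i * νr i := by
      intro b
      conv_lhs => rw [← Finset.univ_sum_single b]
      rw [map_sum]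
      refine Finset.sum_congr rfl (fun i _ => ?_)
      have : (Pi.single i (b i) : Fin n → ℚ) = b i • Pi.single i 1 := by
        rw [← Pi.single_smul, smul_eq_mul, mul_one]
      rw [this, map_smul, smul_eq_mul]
    have hν0 : νr ≠ 0 := by
      intro h
      apply hg0
      apply LinearMap.ext
      intro b
      rw [hgval, h]
      simp
    obtain ⟨D, ν, hD, hν, hνr⟩ := exists_int_multiple νr hν0
    obtain ⟨a, ℓ, hgerm, hne'⟩ := hJ.exists_germ_ne ν hν
    apply hne'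
    have h1 : (fun i => (a i : ℚ)) ∈ N := by
      rw [hmemN]
      have h2 := hcon a ℓ hgerm
      simpa using h2
    have h3 : g (fun i => (a i : ℚ)) = 0 := hNg h1
    rw [hgval] at h3
    have h4 : (∑ i, (ν i : ℚ) * (a i : ℚ)) = 0 := by
      have : (∑ i, (ν i : ℚ) * (a i : ℚ)) = D * ∑ i, (a i : ℚ) * νr i := by
        rw [Finset.mul_sum]
        refine Finset.sum_congr rfl (fun i _ => ?_)
        rw [hνr]
        ring
      rw [this, h3, mul_zero]
    exact_mod_cast h4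
  have hpd : ∀ j, MvPolynomial.pderiv j f = 0 := by
    intro j
    have h1 : (Pi.single j 1 : Fin n → ℚ) ∈ N := by rw [htop]; exact Submodule.mem_top
    rw [hmemN, Finset.sum_eq_single j] at h1
    · simpa using h1
    · intro i _ hij
      rw [Pi.single_eq_of_ne hij]
      simp
    · intro h
      exact absurd (Finset.mem_univ j) h
  apply hf
  rw [MvPolynomial.totalDegree_eq_zero_iff]
  intro s hs i
  by_contra hsi
  rw [MvPolynomial.mem_support_iff] at hs
  apply hs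
  have h1 := congrArg (MvPolynomial.coeff (s - Finsupp.single i 1)) (hpd i)
  rw [MvPolynomial.coeff_pderiv, MvPolynomial.coeff_zero] at h1
  have h2 : s - Finsupp.single i 1 + Finsupp.single i 1 = s := by
    apply tsub_add_cancel_of_le
    rw [Finsupp.single_le_iff]
    omega
  rw [h2] at h1
  rcases mul_eq_zero.1 h1 with h3 | h3
  · exact h3
  · exfalso
    have : (((s - Finsupp.single i 1 : Fin n →₀ ℕ) i : ℂ) + 1) ≠ 0 := Nat.cast_add_one_ne_zero _
    exact this h3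

/-- A point of the locus which is a limit of other points of the locus lies on a germ. -/
theorem exists_germ_through (hJ : IsFreeCurve J) {T : Set (Fin n → ℂ)} (hT : T ⊆ torusLocus J)
    {x : Fin n → ℂ} (hx : ∀ i, x i ≠ 0) (hacc : AccPt x (𝓟 T)) :
    ∃ ℓ : Fin n → ℂ → ℂ, IsGerm (torusLocus J) 0 ℓ ∧ ∀ i, Complex.exp (ℓ i 0) = x i := by
  classical
  obtain ⟨y, hyinj, hyY⟩ := exists_injective_choice
    (fun q : ℕ => Metric.ball x (1 / ((q : ℝ) + 1)) ∩ T)
    (fun q => Set.Infinite.of_accPt (hacc.nhds_inter (Metric.ball_mem_nhds x (by positivity))))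
  obtain ⟨a, ℓ, hg, φ, t, hφ, ht, htne, hyt⟩ :=
    exists_germ' hJ y (fun q => hT (hyY q).2) hyinj
  have h0 : Tendsto y atTop (𝓝 x) := by
    rw [tendsto_iff_dist_tendsto_zero]
    refine squeeze_zero (fun q => dist_nonneg) (fun q => ?_)
      tendsto_one_div_add_atTop_nhds_zero_nat
    exact (Metric.mem_ball.1 (hyY q).1).le
  have hcoord : ∀ i, a i = 0 ∧ Complex.exp (ℓ i 0) = x i := by
    intro i
    have hprod : ∀ z : Fin n → ℂ, ∏ j, z j ^ (Pi.single i (1 : ℤ) : Fin n → ℤ) j = z i := by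
      intro z
      rw [Finset.prod_eq_single i]
      · simp
      · intro j _ hj
        rw [Pi.single_eq_of_ne hj, zpow_zero]
      · intro h
        exact absurd (Finset.mem_univ i) h
    have h1 : Tendsto (fun j => ∏ k, germ a ℓ (t j) k ^ (Pi.single i (1 : ℤ) : Fin n → ℤ) k) atTop
        (𝓝 (x i)) := by
      have h2 : Tendsto (fun j => y (φ j) i) atTop (𝓝 (x i)) :=
        (tendsto_pi_nhds.1 h0 i).comp hφ.tendsto_atTop
      refine h2.congr (fun j => ?_)
      rw [hprod, hyt j]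
    obtain ⟨h2, h3⟩ := germ_monomial_limit (fun i => hg.analytic i) ht htne _ (hx i) h1
    rw [Finset.sum_eq_single i] at h2 h3
    · simp only [Pi.single_eq_same, one_mul, Int.cast_one] at h2 h3
      exact ⟨h2, h3⟩
    · intro j _ hj
      rw [Pi.single_eq_of_ne hj]
      simp
    · intro h
      exact absurd (Finset.mem_univ i) h
    · intro j _ hj
      rw [Pi.single_eq_of_ne hj]
      simp
    · intro h
      exact absurd (Finset.mem_univ i) h
  have ha : a = 0 := funext (fun i => (hcoord i).1)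
  subst ha
  exact ⟨ℓ, hg, fun i => (hcoord i).2⟩

theorem countable_preimage_exp {S : Set ℂ} (hS : S.Countable) :
    {τ : ℂ | Complex.exp τ ∈ S}.Countable := by
  have h1 : {τ : ℂ | Complex.exp τ ∈ S} ⊆
      ⋃ s ∈ S, Set.range (fun k : ℤ => Complex.log s + k * (2 * Real.pi * Complex.I)) := by
    intro τ hτ
    simp only [mem_iUnion]
    refine ⟨Complex.exp τ, hτ, ?_⟩
    have h2 : Complex.exp τ = Complex.exp (Complex.log (Complex.exp τ)) :=
      (Complex.exp_log (Complex.exp_ne_zero τ)).symm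
    obtain ⟨k, hk⟩ := Complex.exp_eq_exp_iff_exists_int.1 h2
    exact ⟨k, hk.symm⟩
  exact (hS.biUnion (fun s _ => Set.countable_range _)).mono h1

theorem IsFreeCurve.countable_not_interior (hJ : IsFreeCurve J) (ν : Fin n → ℤ) (hν : ν ≠ 0) :
    {τ : ℂ | ¬ ∃ ℓ : Fin n → ℂ → ℂ, IsGerm (torusLocus J) 0 ℓ ∧
      Complex.exp (∑ i, (ν i : ℂ) * ℓ i 0) = Complex.exp τ}.Countable := by
  classical
  have hp := hJ.prime
  let Good : Set ℂ := {lam : ℂ | ∃ ℓ : Fin n → ℂ → ℂ, IsGerm (torusLocus J) 0 ℓ ∧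
      Complex.exp (∑ i, (ν i : ℂ) * ℓ i 0) = lam}
  have hcount : {lam : ℂ | ¬ ∃ y ∈ torusLocus J, ∏ i, y i ^ ν i = lam}.Countable :=
    countable_omitted J ν (fun c => hJ.free ν hν c)
  let Bad : Set ℂ := {lam : ℂ | lam ∉ Good ∧ ∃ y ∈ torusLocus J, ∏ i, y i ^ ν i = lam}
  have hBad : Bad.Countable := by
    choose! y hy1 hy2 using fun (lam : ℂ) (h : ∃ y ∈ torusLocus J, ∏ i, y i ^ ν i = lam) => h
    let T : Set (Fin n → ℂ) := y '' Bad
    have hTJ : T ⊆ torusLocus J := by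
      rintro _ ⟨lam, hlam, rfl⟩
      exact hy1 lam hlam.2
    have hdisc : DiscreteTopology T := by
      rw [discreteTopology_subtype_iff]
      rintro _ ⟨lam, hlam, rfl⟩
      by_contra hne
      have hacc : AccPt (y lam) (𝓟 T) := ⟨hne⟩
      obtain ⟨ℓ, hℓ, hℓ0⟩ := exists_germ_through hJ hTJ (hy1 lam hlam.2).1 hacc
      apply hlam.1
      refine ⟨ℓ, hℓ, ?_⟩
      rw [Complex.exp_sum, ← hy2 lam hlam.2]
      refine Finset.prod_congr rfl (fun i _ => ?_)
      rw [Complex.exp_int_mul, hℓ0]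
    have hTc : T.Countable := by
      have h1 : Countable T := countable_of_Lindelof_of_discrete
      exact h1
    have hsub : Bad ⊆ (fun z : Fin n → ℂ => ∏ i, z i ^ ν i) '' T := by
      intro lam hlam
      exact ⟨y lam, ⟨lam, hlam, rfl⟩, hy2 lam hlam.2⟩
    exact (hTc.image _).mono hsub
  refine (countable_preimage_exp (hcount.union hBad)).mono ?_
  intro τ hτ
  by_cases h : ∃ y ∈ torusLocus J, ∏ i, y i ^ ν i = Complex.exp τ
  · exact Or.inr ⟨hτ, h⟩
  · exact Or.inl h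

end Pool.Agent.Lib.MP_209724_lc
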