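import Mathlib
import Pool.Agent.Lib.MP_209724_lc.Germ

/-!
Facts on germs of curves: ideal membership and non-constancy of logarithmic combinations.
-/

namespace Pool.Agent.Lib.MP_209724_lc

open Filter Topology MvPolynomial

/-- In a domain of transcendence degree one over `ℂ`, every element is algebraic over
`ℂ[x]`, for `x` transcendental. -/
theorem exists_poly_rel {Q : Type} [CommRing Q] [IsDomain Q] [Algebra ℂ Q]
    (hdim : Algebra.trdeg ℂ Q = 1) (x : Q) (hx : Transcendental ℂ x) (s : Q) :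
    ∃ P : Polynomial (Polynomial ℂ), P ≠ 0 ∧
      P.eval₂ (Polynomial.aeval x : Polynomial ℂ →ₐ[ℂ] Q).toRingHom s = 0 := by
  have hind : AlgebraicIndependent ℂ (fun _ : Unit => x) := by
    rw [algebraicIndependent_unique_type_iff]
    exact hx
  have hbas : IsTranscendenceBasis ℂ (fun _ : Unit => x) := by
    apply hind.isTranscendenceBasis_of_trdeg_le_of_finite
    rw [hdim]
    simp
  have halg := hbas.isAlgebraic
  set B := Algebra.adjoin ℂ (Set.range fun _ : Unit => x) with hB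
  obtain ⟨p, hp0, hp⟩ := halg.isAlgebraic s
  have hmem : ∀ q : Polynomial ℂ, Polynomial.aeval x q ∈ B := by
    intro q
    have h1 := Polynomial.aeval_mem_adjoin_singleton ℂ x (p := q)
    rw [hB, Set.range_const]
    exact h1
  let f : Polynomial ℂ →+* B := (Polynomial.aeval x : Polynomial ℂ →ₐ[ℂ] Q).toRingHom.codRestrict
    B.toSubring hmem
  have hf : Function.Surjective f := by
    rintro ⟨b, hb⟩
    have hb' := hb
    rw [hB, Set.range_const, Algebra.adjoin_singleton_eq_range_aeval] at hb'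
    obtain ⟨q, hq⟩ := hb'
    refine ⟨q, ?_⟩
    apply Subtype.ext
    exact hq
  obtain ⟨P, hP⟩ := Polynomial.map_surjective f hf p
  refine ⟨P, ?_, ?_⟩
  · rintro rfl
    rw [Polynomial.map_zero] at hP
    exact hp0 hP.symm
  · rw [Polynomial.aeval_def, ← hP, Polynomial.eval₂_map] at hp
    exact hp

variable {n : ℕ}

theorem transcendental_X {J : Ideal (MvPolynomial (Fin n) ℂ)} (hJ : IsFreeCurve J) (i : Fin n) :
    Transcendental ℂ (Ideal.Quotient.mk J (X i)) := by
  have := hJ.prime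
  intro halg
  have hint : IsIntegral ℂ (Ideal.Quotient.mk J (X i)) := halg.isIntegral
  have hdeg := IsAlgClosed.degree_eq_one_of_irreducible ℂ (minpoly.irreducible hint)
  obtain ⟨r, hr⟩ := minpoly.mem_range_of_degree_eq_one ℂ _ hdeg
  have hmem : (X i - C r : MvPolynomial (Fin n) ℂ) ∈ J := by
    rw [← Ideal.Quotient.eq_zero_iff_mem, map_sub, ← hr]
    rw [sub_eq_zero]
    rfl
  obtain ⟨y, hy, hy'⟩ := hJ.free (Pi.single i 1) (by
    intro h
    have := congrFun h i
    simp at this) r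
  apply hy'
  have h1 := hy.2 _ hmem
  rw [Finset.prod_eq_single i]
  · simp only [Pi.single_eq_same, zpow_one]
    simpa [sub_eq_zero] using h1
  · intro j _ hj
    rw [Pi.single_eq_of_ne hj, zpow_zero]
  · simp

theorem X_sub_C_notMem {J : Ideal (MvPolynomial (Fin n) ℂ)} (hJ : IsFreeCurve J) (i : Fin n)
    (r : ℂ) : (X i - C r : MvPolynomial (Fin n) ℂ) ∉ J := by
  intro h
  have := hJ.prime
  apply transcendental_X hJ i
  rw [← Ideal.Quotient.eq_zero_iff_mem, map_sub, sub_eq_zero] at h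
  rw [h]
  exact isAlgebraic_algebraMap r

theorem meromorphic_eval (a : Fin n → ℤ) (ℓ : Fin n → ℂ → ℂ)
    (hℓ : ∀ i, AnalyticAt ℂ (ℓ i) 0) (f : MvPolynomial (Fin n) ℂ) :
    MeromorphicAt (fun t => eval (germ a ℓ t) f) 0 := by
  induction f using MvPolynomial.induction_on with
  | C c =>
    simp only [eval_C]
    exact MeromorphicAt.const c 0
  | add p q hp hq =>
    simp only [map_add]
    exact hp.add hq
  | mul_X p i hp =>
    simp only [map_mul, eval_X, germ]
    exact hp.mul (((MeromorphicAt.id 0).zpow _).mul (hℓ i).cexp.meromorphicAt)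

theorem eventually_of_frequently (a : Fin n → ℤ) (ℓ : Fin n → ℂ → ℂ)
    (hℓ : ∀ i, AnalyticAt ℂ (ℓ i) 0) (f : MvPolynomial (Fin n) ℂ)
    (hf : ∃ᶠ t in 𝓝[≠] (0 : ℂ), eval (germ a ℓ t) f = 0) :
    ∀ᶠ t in 𝓝[≠] (0 : ℂ), eval (germ a ℓ t) f = 0 := by
  rcases (meromorphic_eval a ℓ hℓ f).eventually_eq_zero_or_eventually_ne_zero with h | h
  · exact h
  · exact absurd h hf

theorem eval_aeval_X (y : Fin n → ℂ) (i : Fin n) (r : Polynomial ℂ) :
    eval y (Polynomial.aeval (X i : MvPolynomial (Fin n) ℂ) r) = r.eval (y i) := by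
  rw [Polynomial.aeval_def, Polynomial.hom_eval₂, eval_X]
  have : (eval y).comp (algebraMap ℂ (MvPolynomial (Fin n) ℂ)) = RingHom.id ℂ := by
    ext; simp
  rw [this]
  rfl

theorem mem_of_germ {J : Ideal (MvPolynomial (Fin n) ℂ)} (hJ : IsFreeCurve J)
    {a : Fin n → ℤ} {ℓ : Fin n → ℂ → ℂ} (hg : IsGerm (torusLocus J) a ℓ)
    (f : MvPolynomial (Fin n) ℂ)
    (hf : ∃ᶠ t in 𝓝[≠] (0 : ℂ), MvPolynomial.eval (germ a ℓ t) f = 0) : f ∈ J := by
  classical
  have := hJ.prime
  by_contra hfJ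
  have hev := eventually_of_frequently a ℓ hg.analytic f hf
  have hconst : ∀ i, ∃ r : ℂ, ∀ᶠ t in 𝓝[≠] (0 : ℂ), germ a ℓ t i = r := by
    intro i
    have hx := transcendental_X hJ i
    obtain ⟨P, hP0, hP⟩ := exists_poly_rel hJ.dim _ hx (Ideal.Quotient.mk J f)
    let _ : Algebra (Polynomial ℂ) (MvPolynomial (Fin n) ℂ ⧸ J) :=
      (Polynomial.aeval (Ideal.Quotient.mk J (X i)) :
        Polynomial ℂ →ₐ[ℂ] MvPolynomial (Fin n) ℂ ⧸ J).toRingHom.toAlgebra
    have halg : IsAlgebraic (Polynomial ℂ) (Ideal.Quotient.mk J f) := ⟨P, hP0, hP⟩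
    have hne : Ideal.Quotient.mk J f ≠ 0 := by
      rwa [Ne, Ideal.Quotient.eq_zero_iff_mem]
    obtain ⟨r, hr0, q, hq⟩ := halg.exists_nonzero_dvd (mem_nonZeroDivisors_of_ne_zero hne)
    obtain ⟨h, rfl⟩ := Ideal.Quotient.mk_surjective q
    have hq' : Polynomial.aeval (Ideal.Quotient.mk J (X i)) r
        = Ideal.Quotient.mk J f * Ideal.Quotient.mk J h := hq
    have hmem : Polynomial.aeval (X i : MvPolynomial (Fin n) ℂ) r - f * h ∈ J := by
      rw [← Ideal.Quotient.eq_zero_iff_mem, map_sub, map_mul, ← hq', sub_eq_zero]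
      exact (Polynomial.aeval_algHom_apply (Ideal.Quotient.mkₐ ℂ J) (X i) r).symm
    have hroot : ∀ᶠ t in 𝓝[≠] (0 : ℂ), r.eval (germ a ℓ t i) = 0 := by
      filter_upwards [hev, hg.mem] with t h1 h2
      have h3 := h2.2 _ hmem
      rw [map_sub, map_mul, h1, zero_mul, sub_zero] at h3
      rwa [eval_aeval_X] at h3
    have hfr : ∃ ρ : r.roots.toFinset, ∃ᶠ t in 𝓝[≠] (0 : ℂ), germ a ℓ t i = ρ := by
      by_contra hcon
      rw [not_exists] at hcon
      simp only [Filter.not_frequently] at hcon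
      have h1 := (Filter.eventually_all.mpr hcon).and hroot
      obtain ⟨t, ht1, ht2⟩ := h1.exists
      exact ht1 ⟨germ a ℓ t i, by
        rw [Multiset.mem_toFinset, Polynomial.mem_roots hr0]
        exact ht2⟩ rfl
    obtain ⟨ρ, hρ⟩ := hfr
    refine ⟨ρ, ?_⟩
    have h1 := eventually_of_frequently a ℓ hg.analytic (X i - C (ρ : ℂ)) (by
      refine hρ.mono fun t ht => ?_
      simp [ht])
    filter_upwards [h1] with t ht
    simpa [sub_eq_zero] using ht
  choose ρ hρ using hconst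
  apply hg.nonconst ρ
  filter_upwards [Filter.eventually_all.mpr hρ] with t ht
  funext i
  exact ht i

theorem eventually_ne_of_notMem {J : Ideal (MvPolynomial (Fin n) ℂ)} (hJ : IsFreeCurve J)
    {a : Fin n → ℤ} {ℓ : Fin n → ℂ → ℂ} (hg : IsGerm (torusLocus J) a ℓ)
    (f : MvPolynomial (Fin n) ℂ) (hf : f ∉ J) :
    ∀ᶠ t in 𝓝[≠] (0 : ℂ), MvPolynomial.eval (germ a ℓ t) f ≠ 0 := by
  by_contra hcon
  rw [Filter.not_eventually] at hcon
  apply hf
  apply mem_of_germ hJ hg f
  exact hcon.mono fun t ht => not_not.mp ht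

theorem IsGerm.mem_zero {J : Ideal (MvPolynomial (Fin n) ℂ)} {ℓ : Fin n → ℂ → ℂ}
    (hg : IsGerm (torusLocus J) 0 ℓ) : (fun i => Complex.exp (ℓ i 0)) ∈ torusLocus J := by
  refine ⟨fun i => Complex.exp_ne_zero _, ?_⟩
  intro f hf
  have hcont : ContinuousAt (fun t => eval (fun i => Complex.exp (ℓ i t)) f) 0 := by
    have h1 : ContinuousAt (fun (t : ℂ) (i : Fin n) => Complex.exp (ℓ i t)) 0 := by
      rw [continuousAt_pi]
      intro i
      exact (hg.analytic i).continuousAt.cexp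
    exact (MvPolynomial.continuous_eval f).continuousAt.comp h1
  have h1 : Tendsto (fun t => eval (fun i => Complex.exp (ℓ i t)) f) (𝓝[≠] 0)
      (𝓝 (eval (fun i => Complex.exp (ℓ i 0)) f)) := hcont.tendsto.mono_left nhdsWithin_le_nhds
  have h2 : Tendsto (fun t => eval (fun i => Complex.exp (ℓ i t)) f) (𝓝[≠] 0) (𝓝 0) := by
    apply tendsto_const_nhds.congr'
    filter_upwards [hg.mem] with t ht
    have := ht.2 f hf
    rw [← this]
    congr 1
    have : germ 0 ℓ t = fun i => Complex.exp (ℓ i t) := by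
      funext i
      simp [germ]
    rw [this]
  exact tendsto_nhds_unique h1 h2

theorem exists_chain (P : Polynomial (Polynomial ℂ)) : ∃ Pd : Polynomial (Polynomial ℂ),
    ∀ (x y : ℂ → ℂ) (x' y' t : ℂ), HasDerivAt x x' t → HasDerivAt y y' t →
      HasDerivAt (fun t => P.eval₂ (Polynomial.evalRingHom (x t)) (y t))
        (P.derivative.eval₂ (Polynomial.evalRingHom (x t)) (y t) * y' +
          Pd.eval₂ (Polynomial.evalRingHom (x t)) (y t) * x') t := by
  induction P using Polynomial.induction_on' with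
  | add p q hp hq =>
    obtain ⟨pd, hpd⟩ := hp
    obtain ⟨qd, hqd⟩ := hq
    refine ⟨pd + qd, ?_⟩
    intro x y x' y' t hx hy
    have := (hpd x y x' y' t hx hy).add (hqd x y x' y' t hx hy)
    simp only [Polynomial.eval₂_add, Polynomial.derivative_add]
    refine this.congr_deriv ?_
    ring
  | monomial k c =>
    refine ⟨Polynomial.monomial k c.derivative, ?_⟩
    intro x y x' y' t hx hy
    simp only [Polynomial.eval₂_monomial, Polynomial.derivative_monomial,
      Polynomial.coe_evalRingHom]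
    have h1 : HasDerivAt (fun t => c.eval (x t)) (c.derivative.eval (x t) * x') t :=
      (c.hasDerivAt (x t)).comp t hx
    have h2 : HasDerivAt (fun t => (y t) ^ k) (k * (y t) ^ (k - 1) * y') t := hy.pow k
    refine (h1.mul h2).congr_deriv ?_
    simp only [Polynomial.eval_mul, Polynomial.eval_natCast]
    ring

/-- The logarithmic derivative of the `i`-th coordinate of a germ. -/
noncomputable def logDer (a : Fin n → ℤ) (ℓ : Fin n → ℂ → ℂ) (i : Fin n) (t : ℂ) : ℂ :=
  a i / t + deriv (ℓ i) t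

theorem hasDerivAt_germ (a : Fin n → ℤ) (ℓ : Fin n → ℂ → ℂ) (i : Fin n) (t : ℂ) (ht : t ≠ 0)
    (hℓ : DifferentiableAt ℂ (ℓ i) t) :
    HasDerivAt (fun t => germ a ℓ t i) (germ a ℓ t i * logDer a ℓ i t) t := by
  have h1 : HasDerivAt (fun t : ℂ => t ^ a i) (a i * t ^ (a i - 1)) t :=
    hasDerivAt_zpow _ _ (Or.inl ht)
  have h2 : HasDerivAt (fun t => Complex.exp (ℓ i t)) (Complex.exp (ℓ i t) * deriv (ℓ i) t) t :=
    hℓ.hasDerivAt.cexp
  refine (h1.mul h2).congr_deriv ?_
  simp only [germ, logDer]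
  rw [zpow_sub_one₀ ht]
  field_simp

theorem exists_DN {J : Ideal (MvPolynomial (Fin n) ℂ)} (hJ : IsFreeCurve J) (i₀ i : Fin n) :
    ∃ D N : MvPolynomial (Fin n) ℂ, D ∉ J ∧ ∀ (a : Fin n → ℤ) (ℓ : Fin n → ℂ → ℂ),
      IsGerm (torusLocus J) a ℓ → ∀ᶠ t in 𝓝[≠] (0 : ℂ),
        eval (germ a ℓ t) D * (germ a ℓ t i * logDer a ℓ i t) =
          eval (germ a ℓ t) N * (germ a ℓ t i₀ * logDer a ℓ i₀ t) := by
  classical
  have := hJ.prime
  set Q := MvPolynomial (Fin n) ℂ ⧸ J
  set φ : Polynomial ℂ →+* Q :=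
    (Polynomial.aeval (Ideal.Quotient.mk J (X i₀)) : Polynomial ℂ →ₐ[ℂ] Q).toRingHom with hφ
  set φ' : Polynomial ℂ →+* MvPolynomial (Fin n) ℂ :=
    (Polynomial.aeval (X i₀) : Polynomial ℂ →ₐ[ℂ] MvPolynomial (Fin n) ℂ).toRingHom with hφ'
  have hcomp : (Ideal.Quotient.mk J).comp φ' = φ := by
    ext r
    · simp [hφ, hφ', Q]
      rfl
    · simp [hφ, hφ']
  have hcomp2 : ∀ y : Fin n → ℂ, (eval y).comp φ' = Polynomial.evalRingHom (y i₀) := by
    intro y
    apply RingHom.ext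
    intro r
    exact eval_aeval_X y i₀ r
  have hx := transcendental_X hJ i₀
  have hex : ∃ d : ℕ, ∃ P : Polynomial (Polynomial ℂ), P ≠ 0 ∧
      P.eval₂ φ (Ideal.Quotient.mk J (X i)) = 0 ∧ P.natDegree = d := by
    obtain ⟨P, hP0, hP⟩ := exists_poly_rel hJ.dim _ hx (Ideal.Quotient.mk J (X i))
    exact ⟨_, P, hP0, hP, rfl⟩
  obtain ⟨P, hP0, hP, hPd⟩ := Nat.find_spec hex
  have hmin : ∀ P' : Polynomial (Polynomial ℂ), P' ≠ 0 →
      P'.eval₂ φ (Ideal.Quotient.mk J (X i)) = 0 → P.natDegree ≤ P'.natDegree := by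
    intro P' h1 h2
    rw [hPd]
    exact Nat.find_min' hex ⟨P', h1, h2, rfl⟩
  have hdeg : P.natDegree ≠ 0 := by
    intro h0
    rw [Polynomial.natDegree_eq_zero] at h0
    obtain ⟨p, rfl⟩ := h0
    rw [Polynomial.eval₂_C] at hP
    apply hx
    exact ⟨p, by rintro rfl; simp at hP0, hP⟩
  have hder0 : P.derivative ≠ 0 := by
    intro h
    exact hdeg (Polynomial.derivative_eq_zero.mp h)
  obtain ⟨Pd, hPd'⟩ := exists_chain P
  refine ⟨P.derivative.eval₂ φ' (X i), - Pd.eval₂ φ' (X i), ?_, ?_⟩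
  · intro hmem
    rw [← Ideal.Quotient.eq_zero_iff_mem, Polynomial.hom_eval₂, hcomp] at hmem
    have h1 := hmin _ hder0 hmem
    have h2 := Polynomial.natDegree_derivative_lt hdeg
    omega
  · intro a ℓ hg
    have hPmem : P.eval₂ φ' (X i) ∈ J := by
      rw [← Ideal.Quotient.eq_zero_iff_mem, Polynomial.hom_eval₂, hcomp]
      exact hP
    have h1 : ∀ᶠ t in 𝓝[≠] (0 : ℂ),
        P.eval₂ (Polynomial.evalRingHom (germ a ℓ t i₀)) (germ a ℓ t i) = 0 := by
      filter_upwards [hg.mem] with t ht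
      have := ht.2 _ hPmem
      rw [Polynomial.hom_eval₂, hcomp2, eval_X] at this
      exact this
    have h2 := eventually_eventually_nhdsWithin.mpr h1
    have hd : ∀ j, ∀ᶠ t in 𝓝[≠] (0 : ℂ), DifferentiableAt ℂ (ℓ j) t := by
      intro j
      apply Filter.Eventually.filter_mono nhdsWithin_le_nhds
      have := (hg.analytic j).eventually_analyticAt
      exact this.mono fun t ht => ht.differentiableAt
    filter_upwards [h2, hd i, hd i₀, self_mem_nhdsWithin] with t ht2 hti hti0 ht0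
    have ht0' : t ≠ 0 := ht0
    have hopen : IsOpen ({0}ᶜ : Set ℂ) := isOpen_compl_singleton
    rw [hopen.nhdsWithin_eq ht0] at ht2
    have h3 := hPd' (fun t => germ a ℓ t i₀) (fun t => germ a ℓ t i) _ _ t
      (hasDerivAt_germ a ℓ i₀ t ht0' hti0) (hasDerivAt_germ a ℓ i t ht0' hti)
    have h4 : HasDerivAt (fun t => P.eval₂ (Polynomial.evalRingHom (germ a ℓ t i₀))
        (germ a ℓ t i)) 0 t :=
      (hasDerivAt_const t (0 : ℂ)).congr_of_eventuallyEq ht2
    have h5 := h3.unique h4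
    rw [map_neg, Polynomial.hom_eval₂, Polynomial.hom_eval₂, hcomp2, eval_X]
    linear_combination h5


/-- If `m / t + f t = 0` for small `t ≠ 0`, with `f` continuous at `0`, then `m = 0`. -/
theorem eq_zero_of_div_add (m : ℂ) (f : ℂ → ℂ) (hf : ContinuousAt f 0)
    (h : ∀ᶠ t in 𝓝[≠] (0 : ℂ), m / t + f t = 0) : m = 0 := by
  have h1 : Tendsto (fun t : ℂ => m + t * f t) (𝓝[≠] 0) (𝓝 (m + 0 * f 0)) := by
    apply Tendsto.mono_left _ nhdsWithin_le_nhds
    exact tendsto_const_nhds.add (tendsto_id.mul hf.tendsto)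
  have h2 : Tendsto (fun t : ℂ => m + t * f t) (𝓝[≠] 0) (𝓝 0) := by
    apply tendsto_const_nhds.congr'
    filter_upwards [h, self_mem_nhdsWithin] with t ht ht0
    have ht0' : t ≠ 0 := ht0
    have : m + t * f t = t * (m / t + f t) := by field_simp
    rw [this, ht, mul_zero]
  have := tendsto_nhds_unique h1 h2
  simpa using this

theorem logDer_ne_zero {J : Ideal (MvPolynomial (Fin n) ℂ)} (hJ : IsFreeCurve J)
    {a : Fin n → ℤ} {ℓ : Fin n → ℂ → ℂ} (hg : IsGerm (torusLocus J) a ℓ) (i : Fin n) :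
    ¬ ∀ᶠ t in 𝓝[≠] (0 : ℂ), logDer a ℓ i t = 0 := by
  intro h
  have han := (hg.analytic i).deriv
  have ha : (a i : ℂ) = 0 := eq_zero_of_div_add _ _ han.continuousAt h
  have h1 : ∀ᶠ t in 𝓝[≠] (0 : ℂ), deriv (ℓ i) t = 0 := by
    filter_upwards [h] with t ht
    simpa [logDer, ha] using ht
  have h2 : ∀ᶠ t in 𝓝 (0 : ℂ), deriv (ℓ i) t = 0 := by
    rcases han.eventually_eq_zero_or_eventually_ne_zero with h3 | h3
    · exact h3
    · exfalso
      obtain ⟨t, ht1, ht2⟩ := (h1.and h3).exists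
      exact ht2 ht1
  have h3 : ∀ᶠ t in 𝓝 (0 : ℂ), DifferentiableAt ℂ (ℓ i) t :=
    (hg.analytic i).eventually_analyticAt.mono fun t ht => ht.differentiableAt
  obtain ⟨r, hr, hball⟩ := Metric.eventually_nhds_iff_ball.mp (h2.and h3)
  have hconst : ∀ t ∈ Metric.ball (0 : ℂ) r, ℓ i t = ℓ i 0 := by
    intro t ht
    apply Metric.isOpen_ball.is_const_of_deriv_eq_zero
      (convex_ball (0 : ℂ) r).isPreconnected (f := ℓ i)
    · intro s hs
      exact (hball s hs).2.differentiableWithinAt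
    · intro s hs
      exact (hball s hs).1
    · exact ht
    · exact Metric.mem_ball_self hr
  apply X_sub_C_notMem hJ i (Complex.exp (ℓ i 0))
  apply mem_of_germ hJ hg
  apply Filter.Eventually.frequently
  apply Filter.Eventually.filter_mono nhdsWithin_le_nhds
  filter_upwards [Metric.ball_mem_nhds (0 : ℂ) hr] with t ht
  have ha' : a i = 0 := by exact_mod_cast ha
  simp [germ, hconst t ht, ha']

/-- A linear relation between the logarithmic derivatives of a germ holds for all germs. -/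
theorem logDer_rel {J : Ideal (MvPolynomial (Fin n) ℂ)} (hJ : IsFreeCurve J)
    {a : Fin n → ℤ} {ℓ : Fin n → ℂ → ℂ} (hg : IsGerm (torusLocus J) a ℓ) (ν : Fin n → ℂ)
    (hrel : ∀ᶠ t in 𝓝[≠] (0 : ℂ), ∑ i, ν i * logDer a ℓ i t = 0)
    {a' : Fin n → ℤ} {ℓ' : Fin n → ℂ → ℂ} (hg' : IsGerm (torusLocus J) a' ℓ') :
    ∀ᶠ t in 𝓝[≠] (0 : ℂ), ∑ i, ν i * logDer a' ℓ' i t = 0 := by
  classical
  have hprime := hJ.prime
  rcases Nat.eq_zero_or_pos n with hn | hn
  · subst hn
    simp
  set i₀ : Fin n := ⟨0, hn⟩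
  have hex := fun i => exists_DN hJ i₀ i
  choose D N hD hDN using hex
  set Z : MvPolynomial (Fin n) ℂ :=
    ∑ i, C (ν i) * N i * X i₀ * ∏ j ∈ Finset.univ.erase i, (D j * X j) with hZ
  -- the key identity on germs
  have hkey : ∀ (b : Fin n → ℤ) (m : Fin n → ℂ → ℂ), IsGerm (torusLocus J) b m →
      ∀ᶠ t in 𝓝[≠] (0 : ℂ), (∑ i, ν i * logDer b m i t) *
        ∏ j, (eval (germ b m t) (D j) * germ b m t j) =
        logDer b m i₀ t * eval (germ b m t) Z := by
    intro b m hb
    have h1 := Filter.eventually_all.mpr fun i => hDN i b m hb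
    filter_upwards [h1] with t ht
    rw [hZ, map_sum, Finset.sum_mul, Finset.mul_sum]
    apply Finset.sum_congr rfl
    intro i _
    rw [map_mul, map_mul, map_mul, eval_C, eval_X, map_prod]
    simp only [map_mul, eval_X]
    rw [← Finset.mul_prod_erase Finset.univ _ (Finset.mem_univ i)]
    linear_combination (ν i * ∏ j ∈ Finset.univ.erase i,
      (eval (germ b m t) (D j) * germ b m t j)) * ht i
  have hZJ : Z ∈ J := by
    apply mem_of_germ hJ hg
    by_contra hcon
    rw [Filter.not_frequently] at hcon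
    apply logDer_ne_zero hJ hg i₀
    filter_upwards [hcon, hkey a ℓ hg, hrel] with t h1 h2 h3
    rw [h3, zero_mul] at h2
    rcases mul_eq_zero.mp h2.symm with h4 | h4
    · exact h4
    · exact absurd h4 h1
  have hDne := Filter.eventually_all.mpr fun i => eventually_ne_of_notMem hJ hg' (D i) (hD i)
  filter_upwards [hkey a' ℓ' hg', hg'.mem, hDne] with t h1 h2 h3
  rw [h2.2 Z hZJ, mul_zero] at h1
  rcases mul_eq_zero.mp h1 with h4 | h4
  · exact h4
  · exfalso
    rw [Finset.prod_eq_zero_iff] at h4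
    obtain ⟨j, _, hj⟩ := h4
    rcases mul_eq_zero.mp hj with h5 | h5
    · exact h3 j h5
    · exact h2.1 j h5

/-- A real vector orthogonal to a set of integer vectors with no nonzero integer vector
orthogonal to it, is zero. -/
theorem eq_zero_of_orthogonal (S : Set (Fin n → ℤ))
    (hspan : ∀ μ : Fin n → ℤ, μ ≠ 0 → ∃ a ∈ S, ∑ i, μ i * a i ≠ 0)
    (ν : Fin n → ℝ) (hν : ∀ a ∈ S, ∑ i, ν i * (a i : ℝ) = 0) : ν = 0 := by
  classical
  set V : Submodule ℚ (Fin n → ℚ) :=
    Submodule.span ℚ ((fun a : Fin n → ℤ => fun i => (a i : ℚ)) '' S) with hV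
  have hVtop : V = ⊤ := by
    by_contra hne
    obtain ⟨f, hf0, hf⟩ := V.exists_le_ker_of_lt_top (lt_top_iff_ne_top.mpr hne)
    set g : Fin n → ℚ := fun i => f (Pi.single i 1) with hg
    have hfg : ∀ x : Fin n → ℚ, f x = ∑ i, g i * x i := by
      intro x
      conv_lhs => rw [LinearMap.pi_apply_eq_sum_univ f x]
      apply Finset.sum_congr rfl
      intro i _
      rw [smul_eq_mul, mul_comm, hg]
      congr 2
      funext j
      simp [Pi.single_apply, eq_comm]
    have hg0 : g ≠ 0 := by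
      intro h
      apply hf0
      apply LinearMap.ext
      intro x
      rw [hfg, h]
      simp
    set d : ℤ := ∏ i, ((g i).den : ℤ) with hd
    have hd0 : d ≠ 0 := by
      rw [hd, Finset.prod_ne_zero_iff]
      intro i _
      exact_mod_cast (g i).den_ne_zero
    set μ : Fin n → ℤ := fun i => (g i).num * ∏ j ∈ Finset.univ.erase i, ((g j).den : ℤ) with hμ
    have hμg : ∀ i, (μ i : ℚ) = d * g i := by
      intro i
      rw [hμ, hd, ← Finset.mul_prod_erase Finset.univ _ (Finset.mem_univ i)]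
      push_cast
      have h1 : ((g i).num : ℚ) = g i * (g i).den := (Rat.mul_den_eq_num (g i)).symm
      rw [h1]
      ring
    have hμ0 : μ ≠ 0 := by
      intro h
      apply hg0
      funext i
      have h1 := hμg i
      rw [h] at h1
      have : (d : ℚ) ≠ 0 := by exact_mod_cast hd0
      simpa [this] using h1.symm
    obtain ⟨a, haS, ha⟩ := hspan μ hμ0
    apply ha
    have h1 : f (fun i => (a i : ℚ)) = 0 := by
      have : (fun i => (a i : ℚ)) ∈ V := Submodule.subset_span ⟨a, haS, rfl⟩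
      exact hf this
    rw [hfg] at h1
    have h2 : ((∑ i, μ i * a i : ℤ) : ℚ) = 0 := by
      push_cast
      simp only [hμg]
      rw [show (∑ i, (d : ℚ) * g i * a i) = d * ∑ i, g i * (a i : ℚ) by
        rw [Finset.mul_sum]; apply Finset.sum_congr rfl; intro i _; ring, h1, mul_zero]
    exact_mod_cast h2
  set Φ : (Fin n → ℚ) →ₗ[ℚ] ℝ :=
    { toFun := fun x => ∑ i, ν i * (x i : ℝ)
      map_add' := by
        intro x y
        rw [← Finset.sum_add_distrib]
        apply Finset.sum_congr rfl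
        intro i _
        simp only [Pi.add_apply]
        push_cast
        ring
      map_smul' := by
        intro c x
        rw [RingHom.id_apply, Rat.smul_def, Finset.mul_sum]
        apply Finset.sum_congr rfl
        intro i _
        simp only [Pi.smul_apply, smul_eq_mul]
        push_cast
        ring } with hΦ
  have hΦ0 : V ≤ LinearMap.ker Φ := by
    rw [hV, Submodule.span_le]
    rintro _ ⟨a, haS, rfl⟩
    have := hν a haS
    simp only [SetLike.mem_coe, LinearMap.mem_ker]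
    show ∑ i, ν i * (((a i : ℤ) : ℚ) : ℝ) = 0
    rw [← this]
    apply Finset.sum_congr rfl
    intro i _
    push_cast
    rfl
  funext i
  have h1 : Φ (Pi.single i 1) = 0 := by
    have : (Pi.single i 1 : Fin n → ℚ) ∈ V := by rw [hVtop]; trivial
    exact hΦ0 this
  have h2 : Φ (Pi.single i 1) = ν i := by
    show ∑ j, ν j * (((Pi.single i 1 : Fin n → ℚ) j : ℚ) : ℝ) = ν i
    rw [Finset.sum_eq_single i]
    · simp
    · intro j _ hj
      simp [Pi.single_eq_of_ne hj]
    · simp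
  rw [← h2, h1]
  rfl

theorem germ_log_nonconst {J : Ideal (MvPolynomial (Fin n) ℂ)} (hJ : IsFreeCurve J)
    {a : Fin n → ℤ} {ℓ : Fin n → ℂ → ℂ} (hg : IsGerm (torusLocus J) a ℓ)
    (hspan : ∀ μ : Fin n → ℤ, μ ≠ 0 → ∃ (a' : Fin n → ℤ) (ℓ' : Fin n → ℂ → ℂ),
      IsGerm (torusLocus J) a' ℓ' ∧ ∑ i, μ i * a' i ≠ 0)
    (ν : Fin n → ℝ) (hν : ν ≠ 0) (hνa : ∑ i, ν i * (a i : ℝ) = 0) (c : ℂ) :
    ¬ ∀ᶠ t in 𝓝 (0 : ℂ), ∑ i, (ν i : ℂ) * ℓ i t = c := by
  intro hconst
  apply hν
  have hrel : ∀ᶠ t in 𝓝[≠] (0 : ℂ), ∑ i, (ν i : ℂ) * logDer a ℓ i t = 0 := by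
    have hd : ∀ j, ∀ᶠ t in 𝓝 (0 : ℂ), DifferentiableAt ℂ (ℓ j) t := fun j =>
      (hg.analytic j).eventually_analyticAt.mono fun t ht => ht.differentiableAt
    apply Filter.Eventually.filter_mono nhdsWithin_le_nhds
    filter_upwards [hconst.eventually_nhds, Filter.eventually_all.mpr hd] with t h1 h2
    have h3 : HasDerivAt (fun t => ∑ i, (ν i : ℂ) * ℓ i t) (∑ i, (ν i : ℂ) * deriv (ℓ i) t) t := by
      apply HasDerivAt.fun_sum
      intro i _
      exact (h2 i).hasDerivAt.const_mul _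
    have h4 : HasDerivAt (fun t => ∑ i, (ν i : ℂ) * ℓ i t) 0 t :=
      (hasDerivAt_const t c).congr_of_eventuallyEq h1
    have h5 := h3.unique h4
    have h6 : ∑ i, (ν i : ℂ) * (a i : ℂ) = 0 := by exact_mod_cast hνa
    simp only [logDer]
    rw [show ∑ i, (ν i : ℂ) * (a i / t + deriv (ℓ i) t) =
      (∑ i, (ν i : ℂ) * (a i : ℂ)) / t + ∑ i, (ν i : ℂ) * deriv (ℓ i) t by
        rw [Finset.sum_div, ← Finset.sum_add_distrib]
        apply Finset.sum_congr rfl
        intro i _
        ring, h5, h6, zero_div, zero_add]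
  apply eq_zero_of_orthogonal {a' | ∃ ℓ', IsGerm (torusLocus J) a' ℓ'}
  · intro μ hμ
    obtain ⟨a', ℓ', h1, h2⟩ := hspan μ hμ
    exact ⟨a', ⟨ℓ', h1⟩, h2⟩
  · rintro a' ⟨ℓ', hg'⟩
    have h1 := logDer_rel hJ hg (fun i => (ν i : ℂ)) hrel hg'
    have h2 : (∑ i, (ν i : ℂ) * (a' i : ℂ)) = 0 := by
      apply eq_zero_of_div_add _ (fun t => ∑ i, (ν i : ℂ) * deriv (ℓ' i) t)
      · apply tendsto_finsetSum
        intro i _
        exact tendsto_const_nhds.mul (hg'.analytic i).deriv.continuousAt.tendsto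
      · filter_upwards [h1] with t ht
        rw [← ht, Finset.sum_div, ← Finset.sum_add_distrib]
        apply Finset.sum_congr rfl
        intro i _
        simp only [logDer]
        ring
    exact_mod_cast h2

end Pool.Agent.Lib.MP_209724_lc
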