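import Mathlib
import Pool.Agent.Lib.MP_209724_lc.GermExist
import Pool.Agent.Lib.MP_209724_lc.GermFacts

/-!
The points of a free curve at which a given polynomial does not vanish.
-/

namespace Pool.Agent.Lib.MP_209724_lc

open Filter Topology MvPolynomial

variable {n : ℕ} {J : Ideal (MvPolynomial (Fin n) ℂ)}

/-- The points of `torusLocus J` at which `D` does not vanish. -/
def openLocus (J : Ideal (MvPolynomial (Fin n) ℂ)) (D : MvPolynomial (Fin n) ℂ) :
    Set (Fin n → ℂ) :=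
  {y | y ∈ torusLocus J ∧ eval y D ≠ 0}

theorem openLocus_one (J : Ideal (MvPolynomial (Fin n) ℂ)) : openLocus J 1 = torusLocus J := by
  ext y
  simp [openLocus]

theorem openLocus_subset (J : Ideal (MvPolynomial (Fin n) ℂ)) (D : MvPolynomial (Fin n) ℂ) :
    openLocus J D ⊆ torusLocus J := fun _ hy => hy.1

theorem IsGerm.restrict (hJ : IsFreeCurve J) {D : MvPolynomial (Fin n) ℂ} (hD : D ∉ J)
    {a : Fin n → ℤ} {ℓ : Fin n → ℂ → ℂ} (hg : IsGerm (torusLocus J) a ℓ) :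
    IsGerm (openLocus J D) a ℓ :=
  ⟨hg.analytic, hg.mem.and (eventually_ne_of_notMem hJ hg D hD), hg.nonconst⟩

/-- A polynomial which does not vanish on the curve has finitely many zeros on it. -/
theorem IsFreeCurve.finite_zeros (hJ : IsFreeCurve J) (D : MvPolynomial (Fin n) ℂ) (hD : D ∉ J) :
    {y | y ∈ torusLocus J ∧ eval y D = 0}.Finite := by
  classical
  choose R hR1 _ hR3 _ using fun i => hJ.exists_relation i D hD
  have hfin : (Set.pi Set.univ fun i => {z : ℂ | ((R i).coeff 0).IsRoot z}).Finite :=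
    Set.Finite.pi fun i => Polynomial.finite_setOfPred_isRoot (hR3 i)
  refine hfin.subset ?_
  rintro y ⟨hy, hy0⟩
  rw [Set.mem_univ_pi]
  intro i
  have h1 := hy.2 _ (hR1 i)
  rw [Polynomial.hom_eval₂, hy0, Polynomial.eval₂_at_zero] at h1
  change ((R i).coeff 0).eval (y i) = 0
  rw [← h1, RingHom.comp_apply]
  exact (eval_aeval_X y i _).symm

theorem IsFreeCurve.countable_not_interior' (hJ : IsFreeCurve J) {D : MvPolynomial (Fin n) ℂ}
    (hD : D ∉ J) (ν : Fin n → ℤ) (hν : ν ≠ 0) :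
    {τ : ℂ | ¬ ∃ ℓ : Fin n → ℂ → ℂ, IsGerm (torusLocus J) 0 ℓ ∧
      eval (fun i => Complex.exp (ℓ i 0)) D ≠ 0 ∧
      Complex.exp (∑ i, (ν i : ℂ) * ℓ i 0) = Complex.exp τ}.Countable := by
  have h1 := hJ.countable_not_interior ν hν
  have h2 := ((hJ.finite_zeros D hD).image fun y : Fin n → ℂ => ∏ i, y i ^ ν i).countable
  refine (h1.union (countable_preimage_exp h2)).mono ?_
  intro τ hτ
  by_cases h3 : ∃ ℓ : Fin n → ℂ → ℂ, IsGerm (torusLocus J) 0 ℓ ∧
      Complex.exp (∑ i, (ν i : ℂ) * ℓ i 0) = Complex.exp τ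
  · right
    obtain ⟨ℓ, hg, hℓ⟩ := h3
    refine ⟨fun i => Complex.exp (ℓ i 0), ⟨hg.mem_zero, ?_⟩, ?_⟩
    · by_contra h4
      exact hτ ⟨ℓ, hg, h4, hℓ⟩
    · rw [← hℓ, Complex.exp_sum]
      refine Finset.prod_congr rfl fun i _ => ?_
      rw [Complex.exp_int_mul]
  · exact Or.inl h3

theorem Solv.mono {P : MvPolynomial (Fin n) ℂ} {W W' : Set (Fin n → ℂ)} (h : W ⊆ W')
    (hP : Solv P W) : Solv P W' := by
  intro M
  obtain ⟨x, h1, h2, h3⟩ := hP M
  exact ⟨x, h1, h2, h h3⟩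

end Pool.Agent.Lib.MP_209724_lc
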