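import Mathlib
import Pool.Agent.Lib.MP_209724_lc.BoundedGerm
import Pool.Agent.Lib.MP_209724_lc.GermExist
import Pool.Agent.Lib.MP_209724_lc.GermFacts
import Pool.Agent.Lib.MP_209724_lc.OpenLocus

/-!
Zeros at a bounded scale, irrational normal direction.
-/

namespace Pool.Agent.Lib.MP_209724_lc

open Filter Topology Metric Complex MvPolynomial

variable {n : ℕ}

/-- Density of the values of an irrational form on integer vectors. -/
theorem exists_int_between (ν : Fin n → ℝ) (a : Fin n → ℤ) (h1 : ∑ i, ν i * (a i : ℝ) = 1)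
    (hirr : ∃ j, Irrational (ν j)) {x y : ℝ} (hxy : x < y) :
    ∃ κ : Fin n → ℤ, x < ∑ i, ν i * (κ i : ℝ) ∧ ∑ i, ν i * (κ i : ℝ) < y := by
  classical
  obtain ⟨j, hj⟩ := hirr
  have hd : Dense (AddSubgroup.closure {ν j, 1} : Set ℝ) := by
    rw [dense_addSubgroupClosure_pair_iff, div_one]
    exact hj
  obtain ⟨z, hz, hzmem⟩ := hd.exists_mem_open isOpen_Ioo (Set.nonempty_Ioo.mpr hxy)
  obtain ⟨m, l, rfl⟩ := AddSubgroup.mem_closure_pair.mp hz
  have h2 : ∑ i, ν i * (((m • (Pi.single j 1 : Fin n → ℤ) + l • a : Fin n → ℤ) i : ℤ) : ℝ) =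
      m • ν j + l • (1 : ℝ) := by
    have h3 : ∀ i, ν i * (((m • (Pi.single j 1 : Fin n → ℤ) + l • a : Fin n → ℤ) i : ℤ) : ℝ) =
        m * (if i = j then ν j else 0) + l * (ν i * (a i : ℝ)) := by
      intro i
      by_cases hij : i = j
      · subst hij; simp; ring
      · simp [hij]; ring
    simp_rw [h3]
    rw [Finset.sum_add_distrib, ← Finset.mul_sum, ← Finset.mul_sum, h1,
      Finset.sum_ite_eq' Finset.univ j]
    simp
  refine ⟨m • Pi.single j 1 + l • a, ?_, ?_⟩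
  · rw [h2]; exact hzmem.1
  · rw [h2]; exact hzmem.2

/-- **Bounded scale, irrational normal direction.** -/
theorem irrational_case {P f : MvPolynomial (Fin n) ℂ} {d e : ℕ} {ρ k : ℕ → ℕ}
    {w : ℕ → MvPolynomial (Fin n) ℂ} (h : Fact P f d e ρ k w)
    {J : Ideal (MvPolynomial (Fin n) ℂ)} (hJ : IsFreeCurve J)
    {D : MvPolynomial (Fin n) ℂ} (hD : D ∉ J)
    (a : Fin n → ℤ) (ξ : Fin n → ℝ) (hξ : ξ ≠ 0) (hfξ : eval (fun i => (ξ i : ℂ)) f = 0)
    (hdir : dir f (fun i => (ξ i : ℂ)) (fun i => (a i : ℂ)) ≠ 0)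
    (hwd : eval (fun i => (ξ i : ℂ)) (w d) ≠ 0) (hρ : 0 < ρ d)
    (hI : ∀ j ≤ d, w j ≠ 0 → ρ d ≤ (d - j) + ρ j) (ν : Fin n → ℝ)
    (hν : ∀ j, eval (fun i => (ξ i : ℂ)) (pderiv j f) =
      ν j * dir f (fun i => (ξ i : ℂ)) (fun i => (a i : ℂ)))
    (hirr : ∃ j, Irrational (ν j)) : Solv P (openLocus J D) := by
  set A := dir f (fun i => (ξ i : ℂ)) (fun i => (a i : ℂ)) with hA
  set A' : ℂ := I ^ (e - 1) * A with hA'
  have hA'0 : A' ≠ 0 := mul_ne_zero (pow_ne_zero _ I_ne_zero) hdir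
  have hdirν : ∀ v : Fin n → ℂ, dir f (fun i => I * ξ i) v = A' * ∑ i, (ν i : ℂ) * v i := by
    intro v
    rw [dir_smul_left h.hom, hA', mul_assoc]
    congr 1
    unfold dir
    rw [Finset.mul_sum]
    refine Finset.sum_congr rfl fun j _ => ?_
    rw [hν j]
    ring
  have hνa1 : ∑ i, ν i * (a i : ℝ) = 1 := by
    have h1 : A = (∑ i, (ν i : ℂ) * a i) * A := by
      conv_lhs => rw [hA]
      unfold dir
      rw [Finset.sum_mul]
      refine Finset.sum_congr rfl fun j _ => ?_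
      rw [hν j]
      ring
    have h2 : (∑ i, (ν i : ℂ) * a i) = 1 := by
      have h3 : ((∑ i, (ν i : ℂ) * a i) - 1) * A = 0 := by linear_combination -h1
      rcases mul_eq_zero.mp h3 with h4 | h4
      · exact sub_eq_zero.mp h4
      · exact absurd h4 hdir
    exact_mod_cast h2
  have hν0 : ν ≠ 0 := by
    rintro rfl
    simp at hνa1
  have hwd' : eval (fun i => I * ξ i) (w d) ≠ 0 := by
    rw [eval_mul_of_isHomogeneous (h.whom d)]
    exact mul_ne_zero (pow_ne_zero _ I_ne_zero) hwd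
  obtain ⟨T₀, hT₀⟩ := exists_root_limP (ρ := ρ) hwd' hρ
  set c₀ : ℂ := T₀ / A' with hc₀
  obtain ⟨a', ℓ', hg', hνa', hre⟩ := hJ.exists_germ_re ν hν0 c₀.re
  have hνa'c : ∑ i, (ν i : ℂ) * (a' i : ℂ) = 0 := by exact_mod_cast hνa'
  have hL : ∀ t, dir f (fun i => I * ξ i) (fun i => ℓ' i t) =
      A' * ∑ i, (ν i : ℂ) * ℓ' i t := fun t => hdirν _
  have hncL : ∀ c : ℂ, ¬ ∀ᶠ t in 𝓝 (0 : ℂ), ∑ i, (ν i : ℂ) * ℓ' i t = c := fun c =>
    germ_log_nonconst hJ hg' (fun μ hμ => hJ.exists_germ_ne μ hμ) ν hν0 hνa' c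
  obtain ⟨δ, hδ, hmain⟩ := bounded_germ h (hg'.restrict hJ hD) ξ hξ hfξ hwd' hI
    (by rw [hdirν, hνa'c, mul_zero])
    (fun c hcon => hncL (c / A') (hcon.mono fun t ht => by
      rw [hL] at ht
      rw [← ht, mul_div_cancel_left₀ _ hA'0]))
  -- open mapping
  let L : ℂ → ℂ := fun t => ∑ i, (ν i : ℂ) * ℓ' i t
  have hLan : AnalyticAt ℂ L 0 :=
    Finset.analyticAt_fun_sum _ fun i _ => analyticAt_const.mul (hg'.analytic i)
  have hopen : 𝓝 (L 0) ≤ map L (𝓝 0) :=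
    hLan.eventually_constant_or_nhds_le_map_nhds.resolve_left (hncL _)
  have himg : L '' ball 0 δ ∈ 𝓝 (L 0) := hopen (image_mem_map (ball_mem_nhds _ hδ))
  obtain ⟨ε, hε, hεsub⟩ := Metric.mem_nhds_iff.mp himg
  -- the target
  have hLre : (L 0).re = c₀.re := by
    rw [← hre]
    simp only [L, Complex.re_sum, Complex.re_ofReal_mul]
  set y : ℝ := c₀.im - (L 0).im with hy
  obtain ⟨κ, hκ1, hκ2⟩ := exists_int_between ν a hνa1 hirr
    (show (y - ε) / (2 * Real.pi) < y / (2 * Real.pi) by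
      have := Real.pi_pos
      gcongr
      linarith)
  rw [div_lt_iff₀ Real.two_pi_pos] at hκ1
  rw [lt_div_iff₀ Real.two_pi_pos] at hκ2
  set S : ℝ := ∑ i, ν i * (κ i : ℝ) with hS
  set τ : ℂ := c₀ - 2 * Real.pi * I * S with hτ
  have hτL : τ - L 0 = ((y - S * (2 * Real.pi) : ℝ) : ℂ) * I := by
    apply Complex.ext
    · rw [hτ]
      simp [hLre]
    · rw [hτ, hy]
      simp
      ring
  have hτmem : τ ∈ ball (L 0) ε := by
    rw [mem_ball, dist_eq_norm, hτL, norm_mul, Complex.norm_I, mul_one, Complex.norm_real,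
      Real.norm_eq_abs, abs_lt]
    constructor <;> linarith
  have hτne : τ ≠ L 0 := by
    intro h1
    rw [h1, sub_self] at hτL
    have h2 : ((y - S * (2 * Real.pi) : ℝ) : ℂ) = 0 :=
      (mul_eq_zero.mp hτL.symm).resolve_right I_ne_zero
    have h3 : y - S * (2 * Real.pi) = 0 := by exact_mod_cast h2
    linarith
  obtain ⟨t₀, ht₀, hLt₀⟩ := hεsub hτmem
  refine hmain t₀ ht₀ ?_ κ ?_
  · rintro rfl
    exact hτne hLt₀.symm
  · have h1 : dir f (fun i => I * ξ i) (fun i => ℓ' i t₀ + 2 * Real.pi * I * κ i) = T₀ := by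
      rw [hdirν]
      have h2 : ∑ i, (ν i : ℂ) * (ℓ' i t₀ + 2 * Real.pi * I * κ i) =
          L t₀ + 2 * Real.pi * I * S := by
        simp only [L, hS]
        push_cast
        rw [Finset.mul_sum, ← Finset.sum_add_distrib]
        exact Finset.sum_congr rfl fun i _ => by ring
      rw [h2, hLt₀, hτ, sub_add_cancel, hc₀, mul_div_cancel₀ _ hA'0]
    rw [h1]
    exact hT₀

end Pool.Agent.Lib.MP_209724_lc
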