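import Mathlib
import Pool.Agent.Lib.MP_209724_lc.Germ
import Pool.Agent.Lib.MP_209724_lc.Expand
import Pool.Agent.Lib.MP_209724_lc.UConv
import Pool.Agent.Lib.MP_209724_lc.Linear

/-!
Zeros at logarithmic scale.
-/

namespace Pool.Agent.Lib.MP_209724_lc

open Filter Topology Metric MvPolynomial

variable {n : ℕ}

theorem uconv_total {s : Set ℂ} (P : MvPolynomial (Fin n) ℂ) {ζ : Fin n → ℂ} {R r : ℕ → ℂ}
    (hR : ∀ᶠ N in atTop, R N ≠ 0) (hRinf : Tendsto (fun N => (R N)⁻¹) atTop (𝓝 0))
    (hrR : Tendsto (fun N => r N / R N) atTop (𝓝 0))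
    {V : ℕ → ℂ → Fin n → ℂ} {V₀ : ℂ → Fin n → ℂ} (hV : UConv s V V₀) :
    UConv s (fun N u => eval (fun i => R N * ζ i + r N * V N u i) P / R N ^ P.totalDegree)
      (fun _ => eval ζ (homogeneousComponent P.totalDegree P)) := by
  have hcont : Continuous (fun x : ℂ × (ℂ × (Fin n → ℂ)) =>
      rescaled P P.totalDegree x.1 (fun i => ζ i + x.2.1 * x.2.2 i)) := by
    refine (continuous_rescaled P P.totalDegree).comp
      (continuous_fst.prodMk (continuous_pi fun i => ?_))
    exact continuous_const.add (continuous_snd.fst.mul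
      ((continuous_apply i).comp continuous_snd.snd))
  have h3 := ((UConv.const (s := s) hRinf).prodMk
    ((UConv.const (s := s) hrR).prodMk hV)).comp hcont
  simp only [zero_mul, add_zero, rescaled_zero] at h3
  refine h3.congr ?_
  filter_upwards [hR] with N hRN u _
  have h4 : (fun i => R N * ζ i + r N * V N u i) =
      fun i => R N * (ζ i + (r N / R N) * V N u i) := by
    funext i
    field_simp
  rw [h4, eval_eq_rescaled P rfl hRN, mul_div_cancel_left₀ _ (pow_ne_zero _ hRN)]

theorem UConv.comp_zero {s : Set ℂ} {E : ℕ → ℂ → ℂ} (hE : UConv s E (fun _ => 0)) {g : ℂ → ℂ}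
    (hg : ContinuousAt g 0) : UConv s (fun N u => g (E N u)) (fun _ => g 0) := by
  refine ⟨⟨‖g 0‖, fun _ _ => le_refl _⟩, fun ε hε => ?_⟩
  obtain ⟨δ, hδ, h⟩ := Metric.continuousAt_iff.mp hg ε hε
  filter_upwards [hE.2 δ hδ] with N hN u hu
  have h1 := hN u hu
  rw [← dist_eq_norm] at h1 ⊢
  exact h h1

theorem logscale {W : Set (Fin n → ℂ)} {a : Fin n → ℤ} {ℓ : Fin n → ℂ → ℂ} (hg : IsGerm W a ℓ)
    (ν v : Fin n → ℤ) (hνa : ∑ i, ν i * a i = 0) (hv : ∑ i, ν i * v i = 1) (T₀ : ℂ)
    (hT₀ : Complex.exp (∑ i, (ν i : ℂ) * ℓ i 0) = Complex.exp T₀)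
    (hnc : ∀ c : ℂ, ¬ ∀ᶠ t in 𝓝 (0 : ℂ), ∑ i, (ν i : ℂ) * ℓ i t = c)
    (P : MvPolynomial (Fin n) ℂ) (L : ℕ) (q : ℕ → MvPolynomial (Fin n) ℂ)
    (hP : ∀ x : Fin n → ℂ, MvPolynomial.eval x P =
      ∑ l ∈ Finset.range (L + 1), (∑ i, (ν i : ℂ) * x i - T₀) ^ l * MvPolynomial.eval x (q l))
    (ξ : Fin n → ℤ) (hξ : ξ ≠ 0) (hνξ : ∑ i, ν i * ξ i = 0) (hq0 : q 0 ≠ 0)
    (htop : ∀ l ≤ L, q l ≠ 0 → MvPolynomial.eval (fun i => 2 * Real.pi * Complex.I * (ξ i : ℂ))
      (MvPolynomial.homogeneousComponent (q l).totalDegree (q l)) ≠ 0)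
    (hdeg : ∃ l, 1 ≤ l ∧ l ≤ L ∧ q l ≠ 0 ∧ (q 0).totalDegree < (q l).totalDegree) :
    Solv P W := by
  classical
  -- the integer `j₀`
  obtain ⟨j₀, hj₀⟩ := Complex.exp_eq_exp_iff_exists_int.mp hT₀.symm
  have hψan : AnalyticAt ℂ (fun t => ∑ i, (ν i : ℂ) * ℓ i t - ∑ i, (ν i : ℂ) * ℓ i 0) 0 := by
    apply AnalyticAt.sub _ analyticAt_const
    apply Finset.analyticAt_fun_sum
    intro i _
    exact analyticAt_const.mul (hg.analytic i)
  have hψne : ¬ ∀ᶠ t in 𝓝 (0 : ℂ), (∑ i, (ν i : ℂ) * ℓ i t - ∑ i, (ν i : ℂ) * ℓ i 0) = 0 := by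
    intro h
    apply hnc (∑ i, (ν i : ℂ) * ℓ i 0)
    filter_upwards [h] with t ht
    exact sub_eq_zero.mp ht
  obtain ⟨m, ψ₁, hψ₁, hψ₁0, hψ⟩ := hψan.exists_eventuallyEq_pow_smul_nonzero_iff.mpr hψne
  have hm : 1 ≤ m := by
    rcases Nat.eq_zero_or_pos m with h0 | h0
    · exfalso
      subst h0
      have := hψ.self_of_nhds
      simp at this
      exact hψ₁0 this.symm
    · exact h0
  have hmC : (m : ℂ) ≠ 0 := by exact_mod_cast (by omega : m ≠ 0)
  have hmR : (0 : ℝ) < m := by exact_mod_cast hm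
  -- the exponent `θ`
  set S : Finset ℕ := (Finset.Icc 1 L).filter (fun l => q l ≠ 0) with hS
  have hSne : S.Nonempty := by
    obtain ⟨l, h1, h2, h3, _⟩ := hdeg
    exact ⟨l, by simp [hS, h1, h2, h3]⟩
  set θ : ℝ := S.sup' hSne (fun l => (((q l).totalDegree : ℝ) - (q 0).totalDegree) / l) with hθ
  have hθle : ∀ l ∈ S, (((q l).totalDegree : ℝ) - (q 0).totalDegree) ≤ θ * l := by
    intro l hl
    have h1 : (((q l).totalDegree : ℝ) - (q 0).totalDegree) / l ≤ θ :=
      Finset.le_sup' (fun l => (((q l).totalDegree : ℝ) - (q 0).totalDegree) / l) hl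
    have h2 : 1 ≤ l := by
      simp only [hS, Finset.mem_filter, Finset.mem_Icc] at hl
      exact hl.1.1
    have h3 : (0 : ℝ) < l := by exact_mod_cast h2
    rwa [div_le_iff₀ h3] at h1
  have hθpos : 0 < θ := by
    obtain ⟨l, h1, h2, h3, h4⟩ := hdeg
    have hlS : l ∈ S := by simp [hS, h1, h2, h3]
    have h5 := hθle l hlS
    have h6 : (0 : ℝ) < ((q l).totalDegree : ℝ) - (q 0).totalDegree := by
      have : ((q 0).totalDegree : ℝ) < (q l).totalDegree := by exact_mod_cast h4
      linarith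
    have h7 : (0 : ℝ) < l := by exact_mod_cast h1
    by_contra hcon
    push Not at hcon
    have : θ * l ≤ 0 := mul_nonpos_of_nonpos_of_nonneg hcon h7.le
    linarith
  obtain ⟨l₁, hl₁S, hl₁⟩ := Finset.exists_mem_eq_sup' hSne
    (fun l => (((q l).totalDegree : ℝ) - (q 0).totalDegree) / l)
  have hl₁' : q l₁ ≠ 0 ∧ 1 ≤ l₁ ∧ l₁ ≤ L := by
    simp only [hS, Finset.mem_filter, Finset.mem_Icc] at hl₁S
    exact ⟨hl₁S.2, hl₁S.1.1, hl₁S.1.2⟩
  have hl₁eq : (((q l₁).totalDegree : ℝ) - (q 0).totalDegree) = θ * l₁ := by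
    have h3 : (0 : ℝ) < l₁ := by exact_mod_cast hl₁'.2.1
    rw [hθ, hl₁]
    field_simp
  set ζ : Fin n → ℂ := fun i => 2 * Real.pi * Complex.I * (ξ i : ℂ) with hζ
  -- the limit polynomial
  set β : ℕ → ℂ := fun l =>
    if q l ≠ 0 ∧ (((q l).totalDegree : ℝ) - (q 0).totalDegree) = θ * l then
      eval ζ (homogeneousComponent (q l).totalDegree (q l)) * ψ₁ 0 ^ l else 0 with hβ
  set Q : Polynomial ℂ := ∑ l ∈ Finset.range (L + 1), Polynomial.monomial l (β l) with hQ
  have hQeval : ∀ w : ℂ, Q.eval w = ∑ l ∈ Finset.range (L + 1), β l * w ^ l := by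
    intro w
    rw [hQ, Polynomial.eval_finsetSum]
    simp only [Polynomial.eval_monomial]
  have hQcoeff : ∀ l ≤ L, Q.coeff l = β l := by
    intro l hl
    rw [hQ, Polynomial.finsetSum_coeff, Finset.sum_eq_single l]
    · simp
    · intro b _ hb
      rw [Polynomial.coeff_monomial, if_neg hb]
    · intro h
      exact absurd (Finset.mem_range.mpr (by omega)) h
  have hβ0 : β 0 ≠ 0 := by
    simp only [hβ]
    rw [if_pos ⟨hq0, by simp⟩]
    simpa using htop 0 (Nat.zero_le _) hq0
  have hβ1 : β l₁ ≠ 0 := by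
    simp only [hβ]
    rw [if_pos ⟨hl₁'.1, hl₁eq⟩]
    exact mul_ne_zero (htop l₁ hl₁'.2.2 hl₁'.1) (pow_ne_zero _ hψ₁0)
  have hQ0 : Q ≠ 0 := by
    intro h
    have := hQcoeff 0 (Nat.zero_le _)
    rw [h, Polynomial.coeff_zero] at this
    exact hβ0 this.symm
  have hQdeg : Q.degree ≠ 0 := by
    intro h
    have h1 : Q.coeff l₁ = 0 := by
      apply Polynomial.coeff_eq_zero_of_degree_lt
      rw [h]
      exact_mod_cast (by omega : 0 < l₁)
    rw [hQcoeff l₁ hl₁'.2.2] at h1
    exact hβ1 h1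
  obtain ⟨τ₀, hτ₀⟩ := IsAlgClosed.exists_root Q hQdeg
  have hτ₀0 : τ₀ ≠ 0 := by
    rintro rfl
    rw [Polynomial.IsRoot.def, ← Polynomial.coeff_zero_eq_eval_zero,
      hQcoeff 0 (Nat.zero_le _)] at hτ₀
    exact hβ0 hτ₀
  set z₀ : ℂ := Complex.log τ₀ / m with hz₀
  have hz₀' : Complex.exp (m * z₀) = τ₀ := by
    rw [hz₀, mul_div_cancel₀ _ hmC, Complex.exp_log hτ₀0]
  -- the scales
  set lg : ℕ → ℂ := fun N => ((Real.log N : ℝ) : ℂ) with hlg
  set R : ℕ → ℂ := fun N => (N : ℂ) with hR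
  set E : ℕ → ℂ → ℂ := fun N u => Complex.exp (-((θ / m : ℝ) : ℂ) * lg N + z₀ + u) with hE
  have hlogtop : Tendsto (fun N : ℕ => Real.log N) atTop atTop :=
    Real.tendsto_log_atTop.comp tendsto_natCast_atTop_atTop
  have hexp0 : ∀ c : ℝ, 0 < c → Tendsto (fun N : ℕ => Complex.exp (-(c : ℂ) * lg N)) atTop
      (𝓝 0) := by
    intro c hc
    have h1 : Tendsto (fun N : ℕ => Real.exp (-(c * Real.log N))) atTop (𝓝 0) := by
      apply Real.tendsto_exp_neg_atTop_nhds_zero.comp
      exact hlogtop.const_mul_atTop hc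
    have h2 : (fun N : ℕ => Complex.exp (-(c : ℂ) * lg N)) =
        fun N : ℕ => ((Real.exp (-(c * Real.log N)) : ℝ) : ℂ) := by
      funext N
      rw [Complex.ofReal_exp]
      congr 1
      simp only [hlg]
      push_cast
      ring
    rw [h2]
    exact_mod_cast (Complex.continuous_ofReal.tendsto 0).comp h1
  have hlgne : ∀ᶠ N in atTop, lg N ≠ 0 := by
    filter_upwards [hlogtop.eventually_gt_atTop 0] with N hN
    simp only [hlg]
    exact_mod_cast hN.ne'
  have hRne : ∀ᶠ N in atTop, R N ≠ 0 := by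
    filter_upwards [eventually_gt_atTop 0] with N hN
    simp only [hR]
    exact_mod_cast hN.ne'
  have hRinf : Tendsto (fun N => (R N)⁻¹) atTop (𝓝 0) := tendsto_inv_atTop_nhds_zero_nat
  have hrR : Tendsto (fun N => lg N / R N) atTop (𝓝 0) := by
    have h1 : Tendsto (fun N : ℕ => Real.log N / N) atTop (𝓝 0) :=
      (Real.isLittleO_log_id_atTop.tendsto_div_nhds_zero).comp tendsto_natCast_atTop_atTop
    have h2 : (fun N => lg N / R N) = fun N : ℕ => ((Real.log N / N : ℝ) : ℂ) := by
      funext N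
      simp only [hlg, hR]
      push_cast
      rfl
    rw [h2]
    exact_mod_cast (Complex.continuous_ofReal.tendsto 0).comp h1
  have hbd : ∀ c : ℂ, ∀ u ∈ ball (0 : ℂ) 1, ‖Complex.exp (c * (z₀ + u))‖ ≤
      Real.exp (‖c‖ * (‖z₀‖ + 1)) := by
    intro c u hu
    rw [Complex.norm_exp]
    apply Real.exp_le_exp.mpr
    refine (Complex.re_le_norm _).trans ?_
    rw [norm_mul]
    apply mul_le_mul_of_nonneg_left _ (norm_nonneg _)
    refine (norm_add_le _ _).trans ?_
    rw [mem_ball_zero_iff] at hu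
    linarith
  have hE0 : UConv (ball 0 1) E (fun _ => 0) := by
    have h1 := UConv.zero_of_mul_bounded (s := ball (0 : ℂ) 1) (hexp0 (θ / m) (by positivity))
      (W := fun _ u => Complex.exp (1 * (z₀ + u))) (Eventually.of_forall fun N => hbd 1)
    refine h1.congr (Eventually.of_forall fun N u _ => ?_)
    simp only [hE]
    rw [← Complex.exp_add]
    congr 1
    ring
  have hEne : ∀ N u, E N u ≠ 0 := fun N u => Complex.exp_ne_zero _
  -- the rescaled points
  set V : ℕ → ℂ → Fin n → ℂ := fun N u i =>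
    (a i * (-((θ / m : ℝ) : ℂ) * lg N + z₀ + u) + ℓ i (E N u) +
      2 * Real.pi * Complex.I * (j₀ * v i)) / lg N with hVdef
  have hV : UConv (ball 0 1) V (fun _ i => -((θ / m : ℝ) : ℂ) * a i) := by
    apply UConv.pi
    intro i
    have h1 : UConv (ball 0 1) (fun N u => ℓ i (E N u)) (fun _ => ℓ i 0) :=
      hE0.comp_zero (hg.analytic i).continuousAt
    have h2 : Tendsto (fun N => (lg N)⁻¹) atTop (𝓝 0) := by
      have h3 : Tendsto (fun N : ℕ => (Real.log N)⁻¹) atTop (𝓝 0) := hlogtop.inv_tendsto_atTop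
      have h4 : (fun N => (lg N)⁻¹) = fun N : ℕ => (((Real.log N)⁻¹ : ℝ) : ℂ) := by
        funext N
        simp only [hlg]
        push_cast
        rfl
      rw [h4]
      exact_mod_cast (Complex.continuous_ofReal.tendsto 0).comp h3
    have h5 := UConv.zero_of_mul_bounded (s := ball (0 : ℂ) 1) h2
      (W := fun N u => a i * (z₀ + u) + ℓ i (E N u) + 2 * Real.pi * Complex.I * (j₀ * v i))
      (C := ‖(a i : ℂ)‖ * (‖z₀‖ + 1) + (‖ℓ i 0‖ + 1) +
        ‖(2 * Real.pi * Complex.I * (j₀ * v i) : ℂ)‖) (by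
        filter_upwards [h1.2 1 one_pos] with N hN u hu
        have h6 := hN u hu
        have h7 : ‖ℓ i (E N u)‖ ≤ ‖ℓ i 0‖ + 1 := by
          have := norm_sub_norm_le (ℓ i (E N u)) (ℓ i 0)
          linarith
        have h8 : ‖(a i : ℂ) * (z₀ + u)‖ ≤ ‖(a i : ℂ)‖ * (‖z₀‖ + 1) := by
          rw [norm_mul]
          apply mul_le_mul_of_nonneg_left _ (norm_nonneg _)
          refine (norm_add_le _ _).trans ?_
          rw [mem_ball_zero_iff] at hu
          linarith
        exact (norm_add₃_le).trans (add_le_add (add_le_add h8 h7) le_rfl))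
    have h9 := (UConv.const (s := ball (0 : ℂ) 1)
      (tendsto_const_nhds (x := -((θ / m : ℝ) : ℂ) * a i) (f := atTop))).add h5
    simp only [add_zero] at h9
    refine h9.congr ?_
    filter_upwards [hlgne] with N hN u _
    simp only [hVdef]
    field_simp
    ring
  have hx : ∀ᶠ N in atTop, ∀ u, (fun i => R N * ζ i + lg N * V N u i) =
      fun i => a i * (-((θ / m : ℝ) : ℂ) * lg N + z₀ + u) + ℓ i (E N u) +
        2 * Real.pi * Complex.I * (j₀ * v i + N * ξ i) := by
    filter_upwards [hlgne] with N hN u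
    funext i
    simp only [hVdef, hR, hζ]
    rw [mul_div_cancel₀ _ hN]
    ring
  have hνx : ∀ᶠ N in atTop, ∀ u, ∑ i, (ν i : ℂ) * (R N * ζ i + lg N * V N u i) - T₀ =
      ∑ i, (ν i : ℂ) * ℓ i (E N u) - ∑ i, (ν i : ℂ) * ℓ i 0 := by
    filter_upwards [hx] with N hN u
    have h1 : ∀ i, R N * ζ i + lg N * V N u i = a i * (-((θ / m : ℝ) : ℂ) * lg N + z₀ + u) +
        ℓ i (E N u) + 2 * Real.pi * Complex.I * (j₀ * v i + N * ξ i) :=
      fun i => congrFun (hN u) i
    simp only [h1]
    have h2 : ∑ i, (ν i : ℂ) * (a i * (-((θ / m : ℝ) : ℂ) * lg N + z₀ + u) +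
        ℓ i (E N u) + 2 * Real.pi * Complex.I * (j₀ * v i + N * ξ i)) =
        (∑ i, (ν i : ℂ) * a i) * (-((θ / m : ℝ) : ℂ) * lg N + z₀ + u) +
        ∑ i, (ν i : ℂ) * ℓ i (E N u) + 2 * Real.pi * Complex.I *
          (j₀ * ∑ i, (ν i : ℂ) * v i + N * ∑ i, (ν i : ℂ) * ξ i) := by
      rw [Finset.sum_mul, Finset.mul_sum, Finset.mul_sum, ← Finset.sum_add_distrib,
        ← Finset.sum_add_distrib, Finset.mul_sum, ← Finset.sum_add_distrib]
      apply Finset.sum_congr rfl
      intro i _
      ring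
    have h3 : ∑ i, (ν i : ℂ) * (a i : ℂ) = 0 := by exact_mod_cast hνa
    have h4 : ∑ i, (ν i : ℂ) * (v i : ℂ) = 1 := by exact_mod_cast hv
    have h5 : ∑ i, (ν i : ℂ) * (ξ i : ℂ) = 0 := by exact_mod_cast hνξ
    rw [h2, h3, h4, h5, hj₀]
    ring
  have hψE : ∀ᶠ N in atTop, ∀ u ∈ ball (0 : ℂ) 1,
      ∑ i, (ν i : ℂ) * ℓ i (E N u) - ∑ i, (ν i : ℂ) * ℓ i 0 =
        Complex.exp (-((θ : ℝ) : ℂ) * lg N) * (Complex.exp (m * (z₀ + u)) * ψ₁ (E N u)) := by
    obtain ⟨δ, hδ, hball⟩ := Metric.eventually_nhds_iff.mp hψ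
    filter_upwards [hE0.2 δ hδ] with N hN u hu
    have h1 := hball (y := E N u) (by rw [dist_eq_norm]; exact hN u hu)
    rw [h1, sub_zero, smul_eq_mul, ← mul_assoc, ← Complex.exp_add]
    congr 1
    simp only [hE]
    rw [← Complex.exp_nat_mul]
    congr 1
    push_cast
    field_simp
    ring
  have hψ₁E : UConv (ball 0 1) (fun N u => ψ₁ (E N u)) (fun _ => ψ₁ 0) :=
    hE0.comp_zero hψ₁.continuousAt
  have hexpu : UConv (ball 0 1) (fun (_ : ℕ) u => Complex.exp (m * (z₀ + u)))
      (fun u => Complex.exp (m * (z₀ + u))) := UConv.of_bounded (hbd m)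
  -- the terms
  have hterm : ∀ l ∈ Finset.range (L + 1), UConv (ball 0 1)
      (fun N u => (∑ i, (ν i : ℂ) * (R N * ζ i + lg N * V N u i) - T₀) ^ l *
        eval (fun i => R N * ζ i + lg N * V N u i) (q l) / R N ^ (q 0).totalDegree)
      (fun u => β l * Complex.exp (m * (z₀ + u)) ^ l) := by
    intro l hl
    by_cases hql : q l = 0
    · have hβl : β l = 0 := by
        simp only [hβ]
        rw [if_neg]
        rintro ⟨h, _⟩
        exact h hql
      simp only [hql, map_zero, mul_zero, zero_div, hβl, zero_mul]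
      exact UConv.const tendsto_const_nhds
    · have hle : (((q l).totalDegree : ℝ) - (q 0).totalDegree) ≤ θ * l := by
        rcases Nat.eq_zero_or_pos l with h0 | h0
        · subst h0; simp
        · apply hθle
          simp only [hS, Finset.mem_filter, Finset.mem_Icc]
          refine ⟨⟨h0, ?_⟩, hql⟩
          have := Finset.mem_range.mp hl
          omega
      set κ : ℕ → ℂ := fun N => Complex.exp (-((θ * l -
        (((q l).totalDegree : ℝ) - (q 0).totalDegree) : ℝ) : ℂ) * lg N) with hκ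
      have hκlim : Tendsto κ atTop (𝓝 (if (((q l).totalDegree : ℝ) - (q 0).totalDegree) = θ * l
          then 1 else 0)) := by
        by_cases heq : (((q l).totalDegree : ℝ) - (q 0).totalDegree) = θ * l
        · rw [if_pos heq]
          have : κ = fun _ => 1 := by
            funext N
            simp only [hκ, heq, sub_self, Complex.ofReal_zero, neg_zero, zero_mul,
              Complex.exp_zero]
          rw [this]
          exact tendsto_const_nhds
        · rw [if_neg heq]
          apply hexp0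
          have := lt_of_le_of_ne hle heq
          linarith
      have h1 := ((UConv.const (s := ball (0 : ℂ) 1) hκlim).mul
        ((hexpu.mul hψ₁E).pow l)).mul (uconv_total (q l) (ζ := ζ) hRne hRinf hrR hV)
      have h2 : (fun u => β l * Complex.exp (m * (z₀ + u)) ^ l) = fun u =>
          (if (((q l).totalDegree : ℝ) - (q 0).totalDegree) = θ * l then (1 : ℂ) else 0) *
          (Complex.exp (m * (z₀ + u)) * ψ₁ 0) ^ l *
          eval ζ (homogeneousComponent (q l).totalDegree (q l)) := by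
        funext u
        simp only [hβ]
        by_cases heq : (((q l).totalDegree : ℝ) - (q 0).totalDegree) = θ * l
        · rw [if_pos ⟨hql, heq⟩, if_pos heq, mul_pow]
          ring
        · rw [if_neg (fun h => heq h.2), if_neg heq]
          ring
      rw [h2]
      refine h1.congr ?_
      filter_upwards [hνx, hψE, hRne, eventually_gt_atTop 0] with N h3 h4 h5 h6 u hu
      rw [h3 u, h4 u hu, mul_pow]
      have h7 : Complex.exp (-((θ : ℝ) : ℂ) * lg N) ^ l =
          κ N * (R N ^ (q 0).totalDegree / R N ^ (q l).totalDegree) := by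
        have h8 : ∀ d : ℕ, R N ^ d = Complex.exp (d * lg N) := by
          intro d
          have h9 : R N = Complex.exp (lg N) := by
            simp only [hR, hlg]
            rw [← Complex.ofReal_exp, Real.exp_log (by exact_mod_cast h6)]
            simp
          rw [h9, ← Complex.exp_nat_mul]
        rw [h8, h8, ← Complex.exp_sub, ← Complex.exp_nat_mul]
        simp only [hκ]
        rw [← Complex.exp_add]
        congr 1
        push_cast
        ring
      rw [h7]
      have h8 : R N ^ (q 0).totalDegree ≠ 0 := pow_ne_zero _ h5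
      have h9 : R N ^ (q l).totalDegree ≠ 0 := pow_ne_zero _ h5
      field_simp
  have hsum : UConv (ball 0 1)
      (fun N u => eval (fun i => R N * ζ i + lg N * V N u i) P / R N ^ (q 0).totalDegree)
      (fun u => Q.eval (Complex.exp (m * (z₀ + u)))) := by
    have h1 := UConv.sum (Finset.range (L + 1)) hterm
    have h2 : (fun u => Q.eval (Complex.exp (m * (z₀ + u)))) = fun u =>
        ∑ l ∈ Finset.range (L + 1), β l * Complex.exp (m * (z₀ + u)) ^ l := by
      funext u
      exact hQeval _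
    rw [h2]
    refine h1.congr (Eventually.of_forall fun N u _ => ?_)
    rw [hP, Finset.sum_div]
  -- analyticity of the limit
  have hBan : ∀ u, AnalyticAt ℂ (fun u => Q.eval (Complex.exp (m * (z₀ + u)))) u := by
    intro u
    have h1 : Differentiable ℂ (fun u => Q.eval (Complex.exp (m * (z₀ + u)))) := by
      apply Q.differentiable.comp
      fun_prop
    exact h1.analyticAt u
  have hB0 : Q.eval (Complex.exp (m * (z₀ + 0))) = 0 := by
    rw [add_zero, hz₀']
    exact hτ₀
  have hBne : ∃ᶠ u in 𝓝 (0 : ℂ), Q.eval (Complex.exp (m * (z₀ + u))) ≠ 0 := by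
    intro hcon
    simp only [not_not] at hcon
    apply hQ0
    have h1 : (fun u => Q.eval (Complex.exp (m * (z₀ + u)))) = fun _ => (0 : ℂ) := by
      apply AnalyticOnNhd.eq_of_eventuallyEq (z₀ := (0 : ℂ)) (fun u _ => hBan u)
        (fun u _ => analyticAt_const)
      exact hcon
    apply Polynomial.eq_zero_of_infinite_isRoot
    apply Set.Infinite.mono _ (Set.infinite_univ (α := ℂ) |>.sdiff (Set.finite_singleton (0 : ℂ)))
    rintro w ⟨_, hw⟩
    have hw0 : w ≠ 0 := hw
    have h2 := congrFun h1 (Complex.log w / m - z₀)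
    beta_reduce at h2
    rw [add_sub_cancel, mul_div_cancel₀ _ hmC, Complex.exp_log hw0] at h2
    exact h2
  obtain ⟨δ, hδ, C, hδC⟩ := exists_bound ℓ hg.analytic
  have hdiff : ∀ᶠ N in atTop, DifferentiableOn ℂ (fun u =>
      eval (fun i => R N * ζ i + lg N * V N u i) P / R N ^ (q 0).totalDegree) (ball 0 1) := by
    filter_upwards [hE0.2 δ hδ] with N hN
    apply DifferentiableOn.div_const
    apply differentiableOn_eval
    intro i
    apply DifferentiableOn.const_add
    apply DifferentiableOn.const_mul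
    simp only [hVdef]
    apply DifferentiableOn.div_const
    apply DifferentiableOn.add_const
    apply DifferentiableOn.add
    · fun_prop
    · intro u hu
      apply DifferentiableAt.differentiableWithinAt
      have h1 : DifferentiableAt ℂ (ℓ i) (E N u) := by
        apply (hδC i (E N u) _).1.differentiableAt
        rw [mem_ball_zero_iff]
        simpa using hN u hu
      have h2 : DifferentiableAt ℂ (fun u => E N u) u := by
        simp only [hE]
        fun_prop
      exact h1.comp u h2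
  have hzero := UConv.exists_zero one_pos (hBan 0) hB0 hBne hdiff hsum
  -- conclusion
  have hζ0 : ζ ≠ 0 := by
    intro h
    apply hξ
    funext i
    have h1 : 2 * Real.pi * Complex.I * (ξ i : ℂ) = 0 := congrFun h i
    rcases mul_eq_zero.mp h1 with h2 | h2
    · exact absurd h2 Complex.two_pi_I_ne_zero
    · exact_mod_cast h2
  have hdir : UConv (ball 0 1) (fun N u i => ζ i + lg N / R N * V N u i) (fun _ => ζ) := by
    have hcont : Continuous (fun x : ℂ × (Fin n → ℂ) => (fun i => ζ i + x.1 * x.2 i)) := by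
      refine continuous_pi fun i => ?_
      exact continuous_const.add (continuous_fst.mul ((continuous_apply i).comp continuous_snd))
    have h3 := ((UConv.const (s := ball (0 : ℂ) 1) hrR).prodMk hV).comp hcont
    simpa only [zero_mul, add_zero] using h3
  intro M
  obtain ⟨δ', hδ', hmem⟩ := Metric.eventually_nhds_iff.mp (eventually_nhdsWithin_iff.mp hg.mem)
  have hζpos : 0 < ‖ζ‖ := norm_pos_iff.mpr hζ0
  have hlarge : ∀ᶠ N : ℕ in atTop, M < N * (‖ζ‖ / 2) := by
    have : Tendsto (fun N : ℕ => (N : ℝ) * (‖ζ‖ / 2)) atTop atTop :=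
      tendsto_natCast_atTop_atTop.atTop_mul_const (by positivity)
    exact this.eventually_gt_atTop M
  obtain ⟨N, ⟨u, hu, hzu⟩, h2, h3, h4, h5, h6⟩ := (hzero.and ((hdir.2 (‖ζ‖ / 2)
    (by positivity)).and (hlarge.and ((hE0.2 δ' hδ').and (hRne.and hx))))).exists
  refine ⟨fun i => R N * ζ i + lg N * V N u i, ?_, ?_, ?_⟩
  · have h7 : (fun i => R N * ζ i + lg N * V N u i) =
        (R N) • (fun i => ζ i + lg N / R N * V N u i) := by
      funext i
      simp only [Pi.smul_apply, smul_eq_mul]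
      field_simp
    rw [h7, norm_smul]
    have h8 : ‖R N‖ = N := by simp [hR]
    rw [h8]
    refine h3.trans_le ?_
    apply mul_le_mul_of_nonneg_left _ (Nat.cast_nonneg _)
    have h9 := h2 u hu
    have h10 := norm_sub_norm_le ζ (fun i => ζ i + lg N / R N * V N u i)
    rw [norm_sub_rev] at h10
    linarith
  · rcases div_eq_zero_iff.mp hzu with h7 | h7
    · exact h7
    · exact absurd h7 (pow_ne_zero _ h5)
  · rw [h6 u]
    have h7 : (fun i => Complex.exp (a i * (-((θ / m : ℝ) : ℂ) * lg N + z₀ + u) +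
        ℓ i (E N u) + 2 * Real.pi * Complex.I * (j₀ * v i + N * ξ i))) = germ a ℓ (E N u) := by
      funext i
      simp only [germ]
      rw [Complex.exp_add, Complex.exp_add]
      have h8 : Complex.exp (2 * Real.pi * Complex.I * (j₀ * v i + N * ξ i)) = 1 := by
        rw [Complex.exp_eq_one_iff]
        exact ⟨j₀ * v i + N * ξ i, by push_cast; ring⟩
      have h9 : Complex.exp (a i * (-((θ / m : ℝ) : ℂ) * lg N + z₀ + u)) = E N u ^ a i := by
        simp only [hE]
        rw [← Complex.exp_int_mul]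
      rw [h8, h9, mul_one]
    rw [h7]
    have h8 := h4 u hu
    rw [sub_zero] at h8
    exact hmem (by rw [dist_zero_right]; exact h8) (hEne N u)

end Pool.Agent.Lib.MP_209724_lc
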