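import Mathlib
import Pool.Agent.Lib.MP_209724_lc.BoundedGerm
import Pool.Agent.Lib.MP_209724_lc.GermExist
import Pool.Agent.Lib.MP_209724_lc.GermFacts
import Pool.Agent.Lib.MP_209724_lc.Generic
import Pool.Agent.Lib.MP_209724_lc.LogScale
import Pool.Agent.Lib.MP_209724_lc.OpenLocus

/-!
Zeros at a bounded scale, rational normal direction.
-/

namespace Pool.Agent.Lib.MP_209724_lc

open Filter Topology Metric Complex MvPolynomial

variable {n : ℕ}

/-- The linear form with coefficients `ν`. -/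
noncomputable def lin (ν : Fin n → ℤ) : MvPolynomial (Fin n) ℂ := ∑ j, C ((ν j : ℤ) : ℂ) * X j

theorem eval_lin (ν : Fin n → ℤ) (x : Fin n → ℂ) : eval x (lin ν) = ∑ j, (ν j : ℂ) * x j := by
  simp [lin]

theorem dir_lin (ν : Fin n → ℤ) (ζ v : Fin n → ℂ) : dir (lin ν) ζ v = ∑ j, (ν j : ℂ) * v j := by
  unfold dir
  refine Finset.sum_congr rfl fun j _ => ?_
  have h1 : pderiv j (lin ν) = C ((ν j : ℤ) : ℂ) := by
    unfold lin
    rw [map_sum]
    have h2 : ∀ i, pderiv j (C ((ν i : ℤ) : ℂ) * X i : MvPolynomial (Fin n) ℂ) =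
        if i = j then C ((ν i : ℤ) : ℂ) else 0 := by
      intro i
      rw [pderiv_C_mul, pderiv_X]
      by_cases hij : i = j
      · subst hij; simp
      · rw [if_neg hij, Pi.single_eq_of_ne hij, mul_zero]
    simp_rw [h2]
    rw [Finset.sum_ite_eq' Finset.univ j]
    simp
  rw [h1, eval_C]

/-- The projection along `v` onto the zeros of `lin ν`. -/
noncomputable def proj (ν v : Fin n → ℤ) (p : MvPolynomial (Fin n) ℂ) : MvPolynomial (Fin n) ℂ :=
  aeval (fun i => X i - C ((v i : ℤ) : ℂ) * lin ν) p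

/-- The projected point. -/
noncomputable def pr (ν v : Fin n → ℤ) (x : Fin n → ℂ) : Fin n → ℂ :=
  fun i => x i - (∑ j, (ν j : ℂ) * x j) * v i

theorem eval_proj (ν v : Fin n → ℤ) (p : MvPolynomial (Fin n) ℂ) (x : Fin n → ℂ) :
    eval x (proj ν v p) = eval (pr ν v x) p := by
  unfold proj pr
  induction p using MvPolynomial.induction_on with
  | C c => simp
  | add p q hp hq => simp only [map_add, hp, hq]
  | mul_X p i hp =>
    rw [map_mul, map_mul, hp, map_mul, aeval_X, map_sub, eval_X, map_mul, eval_C, eval_lin, eval_X]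
    ring

theorem pr_add {ν v : Fin n → ℤ} (hv : ∑ i, ν i * v i = 1) (x : Fin n → ℂ) (c : ℂ) :
    pr ν v (fun i => x i + c * v i) = pr ν v x := by
  have hv' : ∑ i, (ν i : ℂ) * (v i : ℂ) = 1 := by exact_mod_cast hv
  funext i
  unfold pr
  have h1 : ∑ j, (ν j : ℂ) * (x j + c * v j) = ∑ j, (ν j : ℂ) * x j + c := by
    have h2 : ∀ j, (ν j : ℂ) * (x j + c * v j) = (ν j : ℂ) * x j + c * ((ν j : ℂ) * v j) := by
      intro j; ring
    simp_rw [h2]
    rw [Finset.sum_add_distrib, ← Finset.mul_sum, hv', mul_one]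
  rw [h1]
  ring

theorem dot_pr {ν v : Fin n → ℤ} (hv : ∑ i, ν i * v i = 1) (x : Fin n → ℂ) :
    ∑ i, (ν i : ℂ) * pr ν v x i = 0 := by
  have hv' : ∑ i, (ν i : ℂ) * (v i : ℂ) = 1 := by exact_mod_cast hv
  unfold pr
  simp_rw [mul_sub]
  rw [Finset.sum_sub_distrib]
  have h2 : ∀ i, (ν i : ℂ) * ((∑ j, (ν j : ℂ) * x j) * v i) =
      (∑ j, (ν j : ℂ) * x j) * ((ν i : ℂ) * v i) := by
    intro i; ring
  simp_rw [h2]
  rw [← Finset.mul_sum, hv', mul_one, sub_self]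

theorem pr_of_dot {ν v : Fin n → ℤ} {x : Fin n → ℂ} (h : ∑ i, (ν i : ℂ) * x i = 0) :
    pr ν v x = x := by
  funext i
  unfold pr
  rw [h, zero_mul, sub_zero]

theorem lin_dvd_of_proj_eq_zero {ν v : Fin n → ℤ} {p : MvPolynomial (Fin n) ℂ}
    (h : proj ν v p = 0) : lin ν ∣ p := by
  rw [← Ideal.mem_span_singleton, ← Ideal.Quotient.eq_zero_iff_mem]
  let π := Ideal.Quotient.mkₐ ℂ (Ideal.span {lin ν})
  have h1 : π (proj ν v p) = aeval (fun i => π (X i - C ((v i : ℤ) : ℂ) * lin ν)) p := by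
    unfold proj
    rw [← AlgHom.comp_apply, comp_aeval]
  have h2 : ∀ i, π (X i - C ((v i : ℤ) : ℂ) * lin ν) = π (X i) := by
    intro i
    rw [map_sub, map_mul]
    have h3 : π (lin ν) = 0 := by
      change Ideal.Quotient.mk _ (lin ν) = 0
      rw [Ideal.Quotient.eq_zero_iff_mem]
      exact Ideal.mem_span_singleton_self _
    rw [h3, mul_zero, sub_zero]
  simp_rw [h2] at h1
  have h3 : π = aeval (fun i => π (X i)) := aeval_unique π
  rw [h, map_zero] at h1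
  change π p = 0
  rw [h3]
  exact h1.symm

/-- The polynomials `limP` as polynomials in the base point. -/
noncomputable def limQ (ν v : Fin n → ℤ) (w : ℕ → MvPolynomial (Fin n) ℂ) (ρ : ℕ → ℕ) (d : ℕ)
    (T : ℂ) : MvPolynomial (Fin n) ℂ :=
  ∑ j ∈ Finset.range (d + 1),
    C ((if (d - j) + ρ j = ρ d then 1 else 0) * T ^ ρ j) * proj ν v (w j)

theorem eval_limQ (ν v : Fin n → ℤ) (w : ℕ → MvPolynomial (Fin n) ℂ) (ρ : ℕ → ℕ) (d : ℕ)
    (T : ℂ) (x : Fin n → ℂ) :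
    eval x (limQ ν v w ρ d T) = (limP w ρ d (pr ν v x)).eval T := by
  unfold limQ limP
  rw [map_sum, Polynomial.eval_finsetSum]
  refine Finset.sum_congr rfl fun j _ => ?_
  rw [map_mul, eval_C, eval_proj, Polynomial.eval_mul, Polynomial.eval_C, Polynomial.eval_pow,
    Polynomial.eval_X]
  ring

/-- **Rational normal direction, generic value.** -/
theorem rational_alpha {P : MvPolynomial (Fin n) ℂ} {d : ℕ} {ρ k : ℕ → ℕ}
    {w : ℕ → MvPolynomial (Fin n) ℂ} {ν v : Fin n → ℤ} (hv : ∑ i, ν i * v i = 1)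
    (h : Fact P (lin ν) d 1 ρ k w) {J : Ideal (MvPolynomial (Fin n) ℂ)} (hJ : IsFreeCurve J)
    {D : MvPolynomial (Fin n) ℂ} (hD : D ∉ J)
    (hn : 2 ≤ n) (hwd : ¬ lin ν ∣ w d) (hρ : 0 < ρ d)
    (hI : ∀ j ≤ d, w j ≠ 0 → ρ d ≤ (d - j) + ρ j)
    (hα : ∀ T : ℂ, ∃ ζ : Fin n → ℂ, ∑ i, (ν i : ℂ) * ζ i = 0 ∧ (limP w ρ d ζ).eval T ≠ 0) :
    Solv P (openLocus J D) := by
  have hν0 : ν ≠ 0 := by
    rintro rfl
    simp at hv
  set Ω := {τ : ℂ | ¬ ∃ ℓ : Fin n → ℂ → ℂ, IsGerm (torusLocus J) 0 ℓ ∧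
      eval (fun i => Complex.exp (ℓ i 0)) D ≠ 0 ∧
      Complex.exp (∑ i, (ν i : ℂ) * ℓ i 0) = Complex.exp τ} with hΩ
  have hΩc : Ω.Countable := hJ.countable_not_interior' hD ν hν0
  obtain ⟨ξ, hξ, hνξ, hgen⟩ := exists_real_generic' v ν hv hn
    (limQ ν v w ρ d '' Ω ∪ {proj ν v (w d)})
    ((hΩc.image _).union (Set.countable_singleton _)) (by
      rintro p (⟨τ, -, rfl⟩ | hp)
      · obtain ⟨ζ, hζ, hne⟩ := hα τ
        intro h0
        apply hne
        rw [← pr_of_dot (v := v) hζ, ← eval_limQ, h0, map_zero]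
      · rw [Set.mem_singleton_iff.mp hp]
        exact fun h0 => hwd (lin_dvd_of_proj_eq_zero h0)) (by
      rintro p (⟨τ, -, rfl⟩ | hp) x c
      · rw [eval_limQ, eval_limQ, pr_add hv]
      · rw [Set.mem_singleton_iff.mp hp, eval_proj, eval_proj, pr_add hv])
  have hνξ' : ∑ i, (ν i : ℂ) * (I * ξ i) = 0 := by
    have h1 : ∀ i, (ν i : ℂ) * (I * ξ i) = I * ((ν i : ℂ) * ξ i) := fun i => by ring
    simp_rw [h1]
    rw [← Finset.mul_sum]
    have h2 : ∑ i, (ν i : ℂ) * (ξ i : ℂ) = 0 := by exact_mod_cast hνξ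
    rw [h2, mul_zero]
  have hwd' : eval (fun i => I * ξ i) (w d) ≠ 0 := by
    have h1 := hgen _ (Or.inr rfl)
    rwa [eval_proj, pr_of_dot hνξ'] at h1
  obtain ⟨T₀, hT₀⟩ := exists_root_limP (ρ := ρ) hwd' hρ
  have hT₀Ω : T₀ ∉ Ω := by
    intro hmem
    apply hgen _ (Or.inl ⟨T₀, hmem, rfl⟩)
    rw [eval_limQ, pr_of_dot hνξ', hT₀]
  rw [hΩ, Set.mem_ofPred_eq, not_not] at hT₀Ω
  obtain ⟨ℓ, hg, hD0, hexp⟩ := hT₀Ω
  obtain ⟨m, hm⟩ := Complex.exp_eq_exp_iff_exists_int.mp hexp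
  have hν' : (fun i => (ν i : ℝ)) ≠ 0 := by
    intro h1
    apply hν0
    funext i
    have := congrFun h1 i
    simpa using this
  refine bounded_point h (hg.restrict hJ hD) ⟨hg.mem_zero, hD0⟩ ξ hξ ?_ hwd' hI ?_ (fun i => -m * v i) ?_
  · rw [eval_lin]
    exact_mod_cast hνξ
  · intro c hcon
    refine germ_log_nonconst hJ hg (fun μ hμ => hJ.exists_germ_ne μ hμ) (fun i => (ν i : ℝ)) hν'
      (by simp) c (hcon.mono fun t ht => ?_)
    rw [dir_lin] at ht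
    rw [← ht]
    exact Finset.sum_congr rfl fun i _ => by push_cast; rfl
  · rw [dir_lin]
    have h1 : ∑ j, (ν j : ℂ) * (ℓ j 0 + 2 * Real.pi * I * ((-m * v j : ℤ) : ℂ)) = T₀ := by
      have h2 : ∀ j, (ν j : ℂ) * (ℓ j 0 + 2 * Real.pi * I * ((-m * v j : ℤ) : ℂ)) =
          (ν j : ℂ) * ℓ j 0 - m * (2 * Real.pi * I) * ((ν j : ℂ) * v j) := by
        intro j
        push_cast
        ring
      simp_rw [h2]
      rw [Finset.sum_sub_distrib, ← Finset.mul_sum, hm]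
      have h3 : ∑ i, (ν i : ℂ) * (v i : ℂ) = 1 := by exact_mod_cast hv
      rw [h3]
      ring
    rw [h1]
    exact hT₀

end Pool.Agent.Lib.MP_209724_lc
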