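import Mathlib
import Pool.Agent.Lib.MP_209724_lc.Rational

/-!
Zeros at a logarithmic scale, rational normal direction.
-/

namespace Pool.Agent.Lib.MP_209724_lc

open Filter Topology Metric Complex MvPolynomial

variable {n : ℕ}

/-- `T ↦ P(pr x + T v)` as a polynomial. -/
noncomputable def slice (ν v : Fin n → ℤ) (P : MvPolynomial (Fin n) ℂ) :
    Polynomial (MvPolynomial (Fin n) ℂ) :=
  aeval (fun i => Polynomial.C (X i - C ((v i : ℤ) : ℂ) * lin ν) +
    Polynomial.X * Polynomial.C (C ((v i : ℤ) : ℂ))) P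

theorem eval_slice (ν v : Fin n → ℤ) (P : MvPolynomial (Fin n) ℂ) (x : Fin n → ℂ) (T : ℂ) :
    ((slice ν v P).map (eval x)).eval T = eval (fun i => pr ν v x i + T * v i) P := by
  unfold slice
  induction P using MvPolynomial.induction_on with
  | C c =>
    rw [eval_C, aeval_C, Polynomial.algebraMap_apply, Polynomial.map_C, Polynomial.eval_C]
    simp
  | add p q hp hq => simp only [map_add, Polynomial.map_add, Polynomial.eval_add, hp, hq]
  | mul_X p i hp =>
    rw [map_mul, Polynomial.map_mul, Polynomial.eval_mul, hp, map_mul, aeval_X, eval_X,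
      Polynomial.map_add, Polynomial.map_mul, Polynomial.map_C, Polynomial.map_X,
      Polynomial.map_C, Polynomial.eval_add, Polynomial.eval_mul, Polynomial.eval_C,
      Polynomial.eval_X, Polynomial.eval_C, eval_C]
    congr 2
    rw [map_sub, eval_X, map_mul, eval_C, eval_lin]
    unfold pr
    ring

/-- The coefficients of the expansion of `P` in powers of `lin ν - T₀`. -/
noncomputable def coef (ν v : Fin n → ℤ) (P : MvPolynomial (Fin n) ℂ) (T₀ : ℂ) (l : ℕ) :
    MvPolynomial (Fin n) ℂ :=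
  (Polynomial.taylor (C T₀) (slice ν v P)).coeff l

theorem eval_coef (ν v : Fin n → ℤ) (P : MvPolynomial (Fin n) ℂ) (T₀ : ℂ) (l : ℕ)
    (x : Fin n → ℂ) : eval x (coef ν v P T₀ l) =
      (Polynomial.taylor T₀ ((slice ν v P).map (eval x))).coeff l := by
  unfold coef
  rw [← Polynomial.coeff_map]
  congr 1
  rw [Polynomial.taylor_apply, Polynomial.taylor_apply, Polynomial.map_comp]
  simp

theorem slice_expansion (ν v : Fin n → ℤ) (P : MvPolynomial (Fin n) ℂ) (T₀ : ℂ) (x : Fin n → ℂ)
    (T : ℂ) : eval (fun i => pr ν v x i + T * v i) P =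
      ∑ l ∈ Finset.range ((slice ν v P).natDegree + 1), (T - T₀) ^ l *
        eval x (coef ν v P T₀ l) := by
  rw [← eval_slice]
  simp only [eval_coef]
  rw [← Polynomial.taylor_eval_sub T₀ _ T]
  rw [Polynomial.eval_eq_sum_range' (n := (slice ν v P).natDegree + 1)]
  · exact Finset.sum_congr rfl fun l _ => by ring
  · rw [Polynomial.natDegree_taylor]
    exact Nat.lt_succ_of_le (Polynomial.natDegree_map_le)

theorem expansion {ν v : Fin n → ℤ} (P : MvPolynomial (Fin n) ℂ) (T₀ : ℂ) (x : Fin n → ℂ) :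
    eval x P = ∑ l ∈ Finset.range ((slice ν v P).natDegree + 1),
      (∑ i, (ν i : ℂ) * x i - T₀) ^ l * eval x (coef ν v P T₀ l) := by
  rw [← slice_expansion]
  congr 2
  funext i
  unfold pr
  ring

theorem coef_inv {ν v : Fin n → ℤ} (hv : ∑ i, ν i * v i = 1) (P : MvPolynomial (Fin n) ℂ)
    (T₀ : ℂ) (l : ℕ) (x : Fin n → ℂ) (c : ℂ) :
    eval (fun i => x i + c * v i) (coef ν v P T₀ l) = eval x (coef ν v P T₀ l) := by
  rw [eval_coef, eval_coef]
  congr 2
  refine Polynomial.funext fun T => ?_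
  rw [eval_slice, eval_slice, pr_add hv]

theorem coef_zero {ν v : Fin n → ℤ} (P : MvPolynomial (Fin n) ℂ)
    (T₀ : ℂ) (x : Fin n → ℂ) :
    eval x (coef ν v P T₀ 0) = eval (fun i => pr ν v x i + T₀ * v i) P := by
  rw [eval_coef, Polynomial.taylor_coeff_zero, eval_slice]

theorem eval_smul_eq_sum (q : MvPolynomial (Fin n) ℂ) (c : ℂ) (x : Fin n → ℂ) :
    eval (fun i => c * x i) q =
      ∑ j ∈ Finset.range (q.totalDegree + 1), c ^ j * eval x (homogeneousComponent j q) := by
  conv_lhs => rw [← MvPolynomial.sum_homogeneousComponent q]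
  rw [map_sum]
  refine Finset.sum_congr rfl fun j _ => ?_
  rw [eval_mul_of_isHomogeneous (homogeneousComponent_isHomogeneous j q)]

theorem component_inv {v : Fin n → ℤ} {q : MvPolynomial (Fin n) ℂ}
    (h : ∀ (x : Fin n → ℂ) (c : ℂ), eval (fun i => x i + c * v i) q = eval x q) (j : ℕ)
    (x : Fin n → ℂ) (c : ℂ) :
    eval (fun i => x i + c * v i) (homogeneousComponent j q) =
      eval x (homogeneousComponent j q) := by
  rcases Nat.lt_or_ge q.totalDegree j with hj | hj
  · rw [homogeneousComponent_eq_zero _ _ hj, map_zero, map_zero]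
  · let D : Polynomial ℂ := ∑ i ∈ Finset.range (q.totalDegree + 1),
      Polynomial.C (eval (fun i => x i + c * v i) (homogeneousComponent i q) -
        eval x (homogeneousComponent i q)) * Polynomial.X ^ i
    have hD : D = 0 := by
      refine Polynomial.funext fun t => ?_
      rw [Polynomial.eval_zero]
      simp only [D]
      rw [Polynomial.eval_finsetSum]
      have h1 : ∀ i ∈ Finset.range (q.totalDegree + 1),
          (Polynomial.C (eval (fun i => x i + c * v i) (homogeneousComponent i q) -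
            eval x (homogeneousComponent i q)) * Polynomial.X ^ i).eval t =
          t ^ i * eval (fun i => x i + c * v i) (homogeneousComponent i q) -
            t ^ i * eval x (homogeneousComponent i q) := by
        intro i _
        rw [Polynomial.eval_mul, Polynomial.eval_C, Polynomial.eval_pow, Polynomial.eval_X]
        ring
      rw [Finset.sum_congr rfl h1, Finset.sum_sub_distrib, ← eval_smul_eq_sum,
        ← eval_smul_eq_sum]
      have h2 : (fun i => t * (x i + c * v i)) = fun i => t * x i + (t * c) * v i := by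
        funext i; ring
      rw [h2, h, sub_self]
    have h1 : D.coeff j = eval (fun i => x i + c * v i) (homogeneousComponent j q) -
        eval x (homogeneousComponent j q) := by
      simp only [D]
      rw [Polynomial.finsetSum_coeff]
      simp_rw [Polynomial.coeff_C_mul_X_pow]
      rw [Finset.sum_ite_eq (Finset.range (q.totalDegree + 1)) j, if_pos]
      exact Finset.mem_range.mpr (by omega)
    rw [hD, Polynomial.coeff_zero] at h1
    exact (sub_eq_zero.mp h1.symm)

theorem top_ne_zero {q : MvPolynomial (Fin n) ℂ} (hq : q ≠ 0) :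
    homogeneousComponent q.totalDegree q ≠ 0 := by
  intro h
  obtain ⟨m, hm, hdeg⟩ := Finset.exists_mem_eq_sup q.support (support_nonempty.mpr hq)
    (fun m => m.sum fun _ e => e)
  have h1 : m.degree = q.totalDegree := hdeg.symm
  have h2 := coeff_homogeneousComponent (n := q.totalDegree) (φ := q) m
  rw [h, coeff_zero, if_pos h1] at h2
  exact (mem_support_iff.mp hm) h2.symm

theorem tendsto_top (q : MvPolynomial (Fin n) ℂ) (x : Fin n → ℂ) {D : ℕ}
    (hD : q.totalDegree = D) :
    Tendsto (fun N : ℕ => eval (fun i => (N : ℂ) * x i) q / (N : ℂ) ^ D) atTop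
      (𝓝 (eval x (homogeneousComponent D q))) := by
  have hinv : Tendsto (fun N : ℕ => ((N : ℂ)⁻¹, x)) atTop (𝓝 ((0 : ℂ), x)) :=
    (tendsto_inv_atTop_nhds_zero_nat).prodMk_nhds tendsto_const_nhds
  have h0 : Tendsto (fun p : ℂ × (Fin n → ℂ) => rescaled q D p.1 p.2) (𝓝 ((0 : ℂ), x))
      (𝓝 (rescaled q D 0 x)) := (continuous_rescaled q D).tendsto ((0 : ℂ), x)
  have h1 := h0.comp hinv
  rw [rescaled_zero] at h1
  refine h1.congr' ?_
  filter_upwards [eventually_gt_atTop 0] with N hN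
  have hN0 : (N : ℂ) ≠ 0 := by exact_mod_cast hN.ne'
  rw [eval_eq_rescaled q hD hN0, mul_div_cancel_left₀ _ (pow_ne_zero _ hN0)]
  rfl

theorem tendsto_pow_sub {D E : ℕ} (h : D < E) :
    Tendsto (fun N : ℕ => (N : ℂ) ^ D / (N : ℂ) ^ E) atTop (𝓝 0) := by
  have hinv : Tendsto (fun N : ℕ => (N : ℂ)⁻¹) atTop (𝓝 0) :=
    tendsto_inv_atTop_nhds_zero_nat
  have h1 := hinv.pow (E - D)
  rw [zero_pow (by omega)] at h1
  refine h1.congr' ?_
  filter_upwards [eventually_gt_atTop 0] with N hN
  have hN0 : (N : ℂ) ≠ 0 := by exact_mod_cast hN.ne'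
  have h2 : (N : ℂ) ^ E = (N : ℂ) ^ D * (N : ℂ) ^ (E - D) := by
    rw [← pow_add]; congr 1; omega
  rw [h2, inv_pow, div_mul_cancel_left₀ (pow_ne_zero _ hN0)]

theorem tendsto_zero_of_lt (q : MvPolynomial (Fin n) ℂ) {D : ℕ} (hD : q.totalDegree < D)
    (x : Fin n → ℂ) :
    Tendsto (fun N : ℕ => eval (fun i => (N : ℂ) * x i) q / (N : ℂ) ^ D) atTop (𝓝 0) := by
  have h1 := (tendsto_top q x rfl).mul (tendsto_pow_sub hD)
  rw [mul_zero] at h1
  refine h1.congr' ?_
  filter_upwards [eventually_gt_atTop 0] with N hN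
  have hN0 : (N : ℂ) ^ q.totalDegree ≠ 0 := pow_ne_zero _ (by exact_mod_cast hN.ne')
  field_simp

theorem top_eq_zero_of_tendsto (q : MvPolynomial (Fin n) ℂ) {D : ℕ} (hD : D ≤ q.totalDegree)
    (x : Fin n → ℂ)
    (h : Tendsto (fun N : ℕ => eval (fun i => (N : ℂ) * x i) q / (N : ℂ) ^ D) atTop (𝓝 0)) :
    eval x (homogeneousComponent q.totalDegree q) = 0 := by
  refine tendsto_nhds_unique (tendsto_top q x rfl) ?_
  rcases hD.eq_or_lt with h1 | h1
  · rwa [h1] at h
  · have h2 := h.mul (tendsto_pow_sub h1)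
    rw [mul_zero] at h2
    refine h2.congr' ?_
    filter_upwards [eventually_gt_atTop 0] with N hN
    have hN0 : (N : ℂ) ^ D ≠ 0 := pow_ne_zero _ (by exact_mod_cast hN.ne')
    field_simp

/-- The limit of `P` along `N x + T v`. -/
theorem tendsto_limP {P : MvPolynomial (Fin n) ℂ} {d : ℕ} {ρ k : ℕ → ℕ}
    {w : ℕ → MvPolynomial (Fin n) ℂ} {ν v : Fin n → ℤ} (hv : ∑ i, ν i * v i = 1)
    (h : Fact P (lin ν) d 1 ρ k w) (hwd : w d ≠ 0)
    (hI : ∀ j ≤ d, w j ≠ 0 → ρ d ≤ (d - j) + ρ j) {x : Fin n → ℂ}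
    (hx : ∑ i, (ν i : ℂ) * x i = 0) (T : ℂ) :
    Tendsto (fun N : ℕ => eval (fun i => (N : ℂ) * x i + T * v i) P / (N : ℂ) ^ (d - ρ d)) atTop
      (𝓝 ((limP w ρ d x).eval T)) := by
  have hinv : Tendsto (fun N : ℕ => (N : ℂ)⁻¹) atTop (𝓝 0) :=
    tendsto_inv_atTop_nhds_zero_nat
  have hne : ∀ᶠ N : ℕ in atTop, (N : ℂ) ≠ 0 := by
    filter_upwards [eventually_gt_atTop 0] with N hN
    exact_mod_cast hN.ne'
  have hρle : ∀ j, w j ≠ 0 → ρ j ≤ j := by
    intro j hj
    have h1 := h.kρ j hj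
    omega
  have h1 := h.uconv (s := {0}) (ζ := x) (by rw [eval_lin]; exact hx)
    (R := fun N => (N : ℂ)) (r := fun _ => 1) (G := fun N => (N : ℂ) ^ (d - ρ d)) hne
    (Eventually.of_forall fun _ => one_ne_zero) (by simpa only [one_div] using hinv)
    (γ := fun j => if (d - j) + ρ j = ρ d then 1 else 0) ?_
    (V := fun _ _ i => T * v i) (V₀ := fun _ i => T * v i)
    (UConv.of_bounded (C := ‖(fun i => T * (v i : ℂ) : Fin n → ℂ)‖) fun u _ => le_rfl)
  · rw [Metric.tendsto_nhds]
    intro ε hε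
    filter_upwards [h1.2 ε hε] with N hN
    have h2 := hN 0 rfl
    rw [dist_eq_norm]
    have h3 : dir (lin ν) x (fun i => T * v i) = T := by
      rw [dir_lin]
      have h4 : ∀ i, (ν i : ℂ) * (T * v i) = T * ((ν i : ℂ) * v i) := fun i => by ring
      simp_rw [h4]
      rw [← Finset.mul_sum]
      have hv' : ∑ i, (ν i : ℂ) * (v i : ℂ) = 1 := by exact_mod_cast hv
      rw [hv', mul_one]
    rw [eval_limP]
    simpa only [h3, one_mul] using h2
  · intro j hj hwj
    have h1 := hI j hj hwj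
    have h2 := hρle j hwj
    have h3 := hρle d hwd
    by_cases h4 : (d - j) + ρ j = ρ d
    · rw [if_pos h4]
      refine tendsto_const_nhds.congr' ?_
      filter_upwards [hne] with N hN
      have h5 : j - ρ j = d - ρ d := by omega
      rw [h5, one_pow, mul_one, div_self (pow_ne_zero _ hN)]
    · rw [if_neg h4]
      simp only [one_pow, mul_one]
      exact tendsto_pow_sub (by omega)

/-- **Rational normal direction, exceptional value.** -/
theorem rational_beta {P : MvPolynomial (Fin n) ℂ} (hPirr : Irreducible P) {d : ℕ}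
    {ρ k : ℕ → ℕ} {w : ℕ → MvPolynomial (Fin n) ℂ} {ν v : Fin n → ℤ}
    (hv : ∑ i, ν i * v i = 1) (hPlin : ∀ c c' : ℂ, P ≠ C c * (lin ν - C c'))
    (h : Fact P (lin ν) d 1 ρ k w) {J : Ideal (MvPolynomial (Fin n) ℂ)} (hJ : IsFreeCurve J)
    {D : MvPolynomial (Fin n) ℂ} (hD : D ∉ J) (hn : 2 ≤ n) (hwd : ¬ lin ν ∣ w d)
    (hI : ∀ j ≤ d, w j ≠ 0 → ρ d ≤ (d - j) + ρ j) (T₀ : ℂ)
    (hβ : ∀ ζ : Fin n → ℂ, ∑ i, (ν i : ℂ) * ζ i = 0 → (limP w ρ d ζ).eval T₀ = 0) :
    Solv P (openLocus J D) := by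
  classical
  have hν0 : ν ≠ 0 := by
    rintro rfl
    simp at hv
  have hv' : ∑ i, (ν i : ℂ) * (v i : ℂ) = 1 := by exact_mod_cast hv
  have hwd0 : w d ≠ 0 := by
    intro h1
    exact hwd (h1 ▸ dvd_zero _)
  set L := (slice ν v P).natDegree with hL
  set q : ℕ → MvPolynomial (Fin n) ℂ := coef ν v P T₀ with hq
  have hexp : ∀ x : Fin n → ℂ, eval x P = ∑ l ∈ Finset.range (L + 1),
      (∑ i, (ν i : ℂ) * x i - T₀) ^ l * eval x (q l) := fun x => expansion P T₀ x
  have hprmul : ∀ (N : ℕ) (x : Fin n → ℂ),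
      pr ν v (fun i => (N : ℂ) * x i) = fun i => (N : ℂ) * pr ν v x i := by
    intro N x
    funext i
    unfold pr
    have h1 : ∀ j, (ν j : ℂ) * ((N : ℂ) * x j) = (N : ℂ) * ((ν j : ℂ) * x j) := fun j => by ring
    simp_rw [h1]
    rw [← Finset.mul_sum]
    ring
  -- `q 0 ≠ 0`
  have hq0 : q 0 ≠ 0 := by
    intro h0
    have h1 : P = (lin ν - C T₀) * ∑ l ∈ Finset.range L, (lin ν - C T₀) ^ l * q (l + 1) := by
      refine MvPolynomial.funext fun x => ?_
      rw [hexp x, Finset.sum_range_succ', h0]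
      simp only [map_zero, mul_zero, add_zero, map_mul, map_sub, map_sum, map_pow, eval_lin,
        eval_C]
      rw [Finset.mul_sum]
      exact Finset.sum_congr rfl fun l _ => by ring
    rcases hPirr.isUnit_or_isUnit h1 with h2 | h2
    · -- `lin ν - T₀` has a zero
      have h3 : IsUnit (eval (fun i => T₀ * (v i : ℂ)) (lin ν - C T₀)) := h2.map _
      rw [map_sub, eval_lin, eval_C] at h3
      have h4 : ∑ j, (ν j : ℂ) * (T₀ * v j) = T₀ := by
        have h5 : ∀ i, (ν i : ℂ) * (T₀ * v i) = T₀ * ((ν i : ℂ) * v i) := fun i => by ring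
        simp_rw [h5]
        rw [← Finset.mul_sum, hv', mul_one]
      rw [h4, sub_self] at h3
      exact not_isUnit_zero h3
    · obtain ⟨c, hc, hcu⟩ := MvPolynomial.isUnit_iff_eq_C_of_isReduced.mp h2
      apply hPlin c T₀
      rw [h1, hcu]
      ring
  have hlim0 : ∀ x : Fin n → ℂ, Tendsto (fun N : ℕ => eval (fun i => (N : ℂ) * x i) (q 0) /
      (N : ℂ) ^ (d - ρ d)) atTop (𝓝 0) := by
    intro x
    have h1 := tendsto_limP hv h hwd0 hI (dot_pr hv x) T₀
    rw [hβ _ (dot_pr hv x)] at h1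
    refine h1.congr fun N => ?_
    rw [hq, coef_zero, hprmul]
  have hdeg0 : (q 0).totalDegree < d - ρ d := by
    by_contra hcon
    push Not at hcon
    have h1 : homogeneousComponent (q 0).totalDegree (q 0) = 0 := by
      refine MvPolynomial.funext fun x => ?_
      rw [map_zero]
      exact top_eq_zero_of_tendsto _ hcon x (hlim0 x)
    exact top_ne_zero hq0 h1
  -- some `q l` has large degree
  obtain ⟨l, hlL, hl⟩ : ∃ l ≤ L, d - ρ d ≤ (q l).totalDegree ∧ q l ≠ 0 := by
    by_contra hcon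
    push Not at hcon
    have hproj : proj ν v (w d) ≠ 0 := fun h0 => hwd (lin_dvd_of_proj_eq_zero h0)
    obtain ⟨x, hx⟩ : ∃ x, eval x (proj ν v (w d)) ≠ 0 := by
      by_contra h1
      push Not at h1
      exact hproj (MvPolynomial.funext fun x => by rw [h1 x, map_zero])
    rw [eval_proj] at hx
    apply limP_ne_zero (ρ := ρ) hx
    refine Polynomial.funext fun T => ?_
    rw [Polynomial.eval_zero]
    refine tendsto_nhds_unique (tendsto_limP hv h hwd0 hI (dot_pr hv x) T) ?_
    have h1 : ∀ l ∈ Finset.range (L + 1), Tendsto (fun N : ℕ => (T - T₀) ^ l *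
        (eval (fun i => (N : ℂ) * x i) (q l) / (N : ℂ) ^ (d - ρ d))) atTop (𝓝 0) := by
      intro l hl
      rcases Nat.lt_or_ge (q l).totalDegree (d - ρ d) with h2 | h2
      · have h3 := (tendsto_zero_of_lt (q l) h2 x).const_mul ((T - T₀) ^ l)
        rwa [mul_zero] at h3
      · have h3 := hcon l (by have := Finset.mem_range.mp hl; omega) h2
        rw [h3]
        simp
    have h2 := tendsto_finsetSum (Finset.range (L + 1)) h1
    rw [Finset.sum_const_zero] at h2
    refine h2.congr fun N => ?_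
    have h4 := slice_expansion ν v P T₀ (fun i => (N : ℂ) * x i) T
    rw [hprmul] at h4
    rw [h4, Finset.sum_div]
    exact Finset.sum_congr rfl fun l _ => by ring
  -- generic integer direction
  obtain ⟨ξ, hξ, hνξ, htop⟩ := exists_int_generic v ν hv hn
    (((Finset.range (L + 1)).filter fun l => q l ≠ 0).image
      fun l => homogeneousComponent (q l).totalDegree (q l)) (by
      intro p hp
      obtain ⟨l, hl, rfl⟩ := Finset.mem_image.mp hp
      exact top_ne_zero (Finset.mem_filter.mp hl).2) (by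
      intro p hp x c
      obtain ⟨l, hl, rfl⟩ := Finset.mem_image.mp hp
      exact component_inv (fun x c => coef_inv hv P T₀ l x c) _ x c)
  obtain ⟨a, ℓ, hg, hνa, hlam⟩ := hJ.exists_germ_eq ν hν0 (exp T₀) (exp_ne_zero _)
  have hν' : (fun i => (ν i : ℝ)) ≠ 0 := by
    intro h1
    apply hν0
    funext i
    have := congrFun h1 i
    simpa using this
  refine logscale (hg.restrict hJ hD) ν v hνa hv T₀ hlam ?_ P L q hexp ξ hξ hνξ hq0 ?_
    ⟨l, ?_, hlL, hl.2, lt_of_lt_of_le hdeg0 hl.1⟩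
  · intro c hcon
    refine germ_log_nonconst hJ hg (fun μ hμ => hJ.exists_germ_ne μ hμ) (fun i => (ν i : ℝ)) hν'
      (by exact_mod_cast hνa) c (hcon.mono fun t ht => ?_)
    rw [← ht]
    exact Finset.sum_congr rfl fun i _ => by push_cast; rfl
  · intro l hl hql
    exact htop _ (Finset.mem_image.mpr ⟨l, Finset.mem_filter.mpr
      ⟨Finset.mem_range.mpr (by omega), hql⟩, rfl⟩)
  · rcases Nat.eq_zero_or_pos l with h1 | h1
    · rw [h1] at hl
      omega
    · exact h1

end Pool.Agent.Lib.MP_209724_lc
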