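import Mathlib
import Pool.Agent.Lib.MP_209724_lc.Expand
import Pool.Agent.Lib.MP_209724_lc.Hyperbolic

/-!
Hyperbolicity makes the normal directions real.
-/

namespace Pool.Agent.Lib.MP_209724_lc

open Filter Topology Metric Complex MvPolynomial

variable {n : ℕ}

theorem nonHyperbolic_of_dir {p f : MvPolynomial (Fin n) ℂ} (hfp : f ∣ p) (a : Fin n → ℤ)
    (ξ : Fin n → ℝ) (hfξ : eval (fun i => (ξ i : ℂ)) f = 0)
    (hdir : dir f (fun i => (ξ i : ℂ)) (fun i => (a i : ℂ)) ≠ 0)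
    (hline : ∃ s₀ : ℂ, eval (fun i => ξ i + s₀ * a i) p ≠ 0) (v : Fin n → ℝ)
    (hv : (dir f (fun i => (ξ i : ℂ)) (fun i => (v i : ℂ)) /
      dir f (fun i => (ξ i : ℂ)) (fun i => (a i : ℂ))).im ≠ 0) :
    NonHyperbolic p a := by
  set A := dir f (fun i => (ξ i : ℂ)) (fun i => (a i : ℂ)) with hA
  set D := dir f (fun i => (ξ i : ℂ)) (fun i => (v i : ℂ)) with hD
  set u₀ : ℂ := -(D / A) with hu₀
  have hu₀im : u₀.im ≠ 0 := by rw [hu₀, Complex.neg_im]; exact neg_ne_zero.mpr hv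
  obtain ⟨F, hF, hF1, hF2⟩ := exists_expansion f (fun i => (ξ i : ℂ))
  have hinv : Tendsto (fun N : ℕ => (N : ℂ)⁻¹) atTop (𝓝 0) :=
    tendsto_inv_atTop_nhds_zero_nat
  set r : ℝ := |u₀.im| with hr
  have hrpos : 0 < r := abs_pos.mpr hu₀im
  have h1 : UConv (ball u₀ r) (fun _ u i => (v i : ℂ) + u * a i)
      (fun u i => (v i : ℂ) + u * a i) := by
    refine UConv.pi fun i => UConv.of_bounded (C := ‖(v i : ℂ)‖ + (‖u₀‖ + r) * ‖(a i : ℂ)‖)
      fun u hu => ?_
    refine (norm_add_le _ _).trans ?_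
    gcongr
    rw [norm_mul]
    gcongr
    have h2 : ‖u‖ ≤ ‖u - u₀‖ + ‖u₀‖ := by
      have := norm_add_le (u - u₀) u₀
      rwa [sub_add_cancel] at this
    have h3 : ‖u - u₀‖ < r := by rw [← dist_eq_norm]; exact mem_ball.mp hu
    linarith
  have h2 := ((UConv.const (s := ball u₀ r) hinv).prodMk h1).comp hF
  have hB : ∀ u : ℂ, F (0, fun i => (v i : ℂ) + u * a i) = D + u * A := by
    intro u
    rw [hF2, dir_add, dir_smul]
  simp only [hB] at h2
  have hBd : Differentiable ℂ (fun u : ℂ => D + u * A) := by fun_prop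
  have hz : D + u₀ * A = 0 := by
    rw [hu₀]; field_simp; ring
  have h3 := UConv.exists_zero hrpos (B := fun u => D + u * A)
    (G := fun N u => F ((N : ℂ)⁻¹, fun i => (v i : ℂ) + u * a i)) (c := u₀) (r := r)
    (hBd.analyticAt _) hz ?_ ?_ h2
  · -- conclusion
    obtain ⟨s₀, hs₀⟩ := hline
    have h4 : Tendsto (fun N : ℕ => eval (fun i => (ξ i : ℂ) + (N : ℂ)⁻¹ * v i + s₀ * a i) p)
        atTop (𝓝 (eval (fun i => (ξ i : ℂ) + 0 * v i + s₀ * a i) p)) := by
      refine ((MvPolynomial.continuous_eval p).tendsto _).comp ?_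
      rw [tendsto_pi_nhds]
      intro i
      exact (tendsto_const_nhds.add (hinv.mul_const _)).add tendsto_const_nhds
    simp only [zero_mul, add_zero] at h4
    have h5 := h4.eventually_ne hs₀
    obtain ⟨N, ⟨u, hu, hu0⟩, hN5, hN⟩ := (h3.and (h5.and (eventually_gt_atTop 0))).exists
    have hN0 : (N : ℂ) ≠ 0 := by exact_mod_cast hN.ne'
    refine ⟨fun i => ξ i + (N : ℝ)⁻¹ * v i, ⟨(N : ℂ)⁻¹ * u, ?_, ?_⟩, s₀, ?_⟩
    · have h6 : ((N : ℂ)⁻¹ * u).im = (N : ℝ)⁻¹ * u.im := by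
        have : (N : ℂ)⁻¹ = (((N : ℝ)⁻¹ : ℝ) : ℂ) := by push_cast; rfl
        rw [this, Complex.im_ofReal_mul]
      rw [h6]
      refine mul_ne_zero (inv_ne_zero (by exact_mod_cast hN.ne')) ?_
      intro h7
      have h8 : |(u - u₀).im| ≤ ‖u - u₀‖ := Complex.abs_im_le_norm _
      have h9 : ‖u - u₀‖ < r := by rw [← dist_eq_norm]; exact mem_ball.mp hu
      rw [Complex.sub_im, h7, zero_sub, abs_neg] at h8
      exact absurd (lt_of_le_of_lt h8 h9) (lt_irrefl _)
    · obtain ⟨q, rfl⟩ := hfp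
      rw [map_mul]
      have h6 := hF1 (N : ℂ)⁻¹ (fun i => (v i : ℂ) + u * a i)
      rw [hfξ, zero_add, hu0, mul_zero] at h6
      have h7 : (fun i => (((ξ i + (N : ℝ)⁻¹ * v i : ℝ)) : ℂ) + (N : ℂ)⁻¹ * u * a i) =
          fun i => (ξ i : ℂ) + (N : ℂ)⁻¹ * ((v i : ℂ) + u * a i) := by
        funext i
        push_cast
        ring
      rw [h7, h6, zero_mul]
    · intro h6
      apply hN5
      rw [← h6]
      congr 2
      funext i
      push_cast
      ring
  · intro hcon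
    have h4 : ∀ᶠ z in 𝓝 u₀, D + z * A = 0 := hcon.mono fun z hz => not_not.mp hz
    obtain ⟨U, hU, hUo, hzU⟩ := _root_.eventually_nhds_iff.mp h4
    have h5 : U.Infinite := infinite_of_mem_nhds u₀ (hUo.mem_nhds hzU)
    apply h5
    refine (Set.finite_singleton u₀).subset fun z hz' => ?_
    have h6 := hU z hz'
    rw [Set.mem_singleton_iff]
    have h7 : (z - u₀) * A = 0 := by linear_combination h6 - hz
    rcases mul_eq_zero.mp h7 with h8 | h8
    · exact sub_eq_zero.mp h8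
    · exact absurd h8 hdir
  · filter_upwards [eventually_gt_atTop 0] with N hN
    have hN0 : (N : ℂ) ≠ 0 := by exact_mod_cast hN.ne'
    have h4 : (fun u : ℂ => F ((N : ℂ)⁻¹, fun i => (v i : ℂ) + u * a i)) =
        fun u => (N : ℂ) * eval (fun i => (ξ i : ℂ) + (N : ℂ)⁻¹ * ((v i : ℂ) + u * a i)) f := by
      funext u
      rw [hF1, hfξ, zero_add, mul_inv_cancel_left₀ hN0]
    rw [h4]
    refine DifferentiableOn.const_mul (differentiableOn_eval (fun i => ?_) f) _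
    exact (by fun_prop : Differentiable ℂ
      (fun u : ℂ => (ξ i : ℂ) + (N : ℂ)⁻¹ * ((v i : ℂ) + u * a i))).differentiableOn

end Pool.Agent.Lib.MP_209724_lc
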