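import Mathlib
import Pool.Agent.Lib.MP_209724_lc.RationalBeta
import Pool.Agent.Lib.MP_209724_lc.IrrationalCase
import Pool.Agent.Lib.MP_209724_lc.RealDir

/-!
Existence of zeros for all hypersurfaces and all free curves.
-/

namespace Pool.Agent.Lib.MP_209724_lc

open Filter Topology Metric Complex MvPolynomial

variable {n : ℕ}

/-- The derivative in the direction `a`. -/
noncomputable def dpoly (f : MvPolynomial (Fin n) ℂ) (a : Fin n → ℤ) : MvPolynomial (Fin n) ℂ :=
  ∑ j, C ((a j : ℤ) : ℂ) * pderiv j f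

theorem eval_dpoly (f : MvPolynomial (Fin n) ℂ) (a : Fin n → ℤ) (x : Fin n → ℂ) :
    eval x (dpoly f a) = dir f x (fun i => (a i : ℂ)) := by
  unfold dpoly dir
  rw [map_sum]
  refine Finset.sum_congr rfl fun j _ => ?_
  rw [map_mul, eval_C]
  ring

theorem exists_line_root (f : MvPolynomial (Fin n) ℂ) (κ a : Fin n → ℂ)
    (h : dir f κ a ≠ 0) : ∃ σ : ℂ, eval (fun i => κ i + σ * a i) f = 0 := by
  obtain ⟨F, hF, hF1, hF2⟩ := exists_expansion f κ
  by_cases hdeg : (line f κ a).degree = 0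
  · exfalso
    apply h
    rw [← hF2]
    have hc : ∀ s : ℂ, eval (fun i => κ i + s * a i) f = eval κ f := by
      intro s
      have h1 := Polynomial.eq_C_of_degree_eq_zero hdeg
      have h2 : ∀ s : ℂ, eval (fun i => κ i + s * a i) f = (line f κ a).coeff 0 := by
        intro s
        rw [← eval_line, h1]
        simp
      have h3 := h2 0
      simp only [zero_mul, add_zero] at h3
      rw [h2 s, h3]
    have h2 : ∀ s : ℂ, s ≠ 0 → F (s, a) = 0 := by
      intro s hs
      have h3 := hF1 s a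
      rw [hc s] at h3
      have h4 : s * F (s, a) = 0 := by linear_combination -h3
      exact (mul_eq_zero.mp h4).resolve_left hs
    have h3 : Continuous fun s : ℂ => F (s, a) := hF.comp (by fun_prop)
    have h4 : Tendsto (fun s : ℂ => F (s, a)) (𝓝[≠] 0) (𝓝 (F (0, a))) :=
      h3.continuousAt.tendsto.mono_left nhdsWithin_le_nhds
    refine tendsto_nhds_unique h4 ?_
    refine tendsto_const_nhds.congr' ?_
    filter_upwards [self_mem_nhdsWithin] with s hs
    exact (h2 s hs).symm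
  · obtain ⟨σ, hσ⟩ := IsAlgClosed.exists_root (line f κ a) hdeg
    refine ⟨σ, ?_⟩
    rwa [Polynomial.IsRoot.def, eval_line] at hσ

/-- Choice of a generic real zero of `f`. -/
theorem exists_xi (hn : 2 ≤ n) {p f : MvPolynomial (Fin n) ℂ} (hf : Irreducible f) (hfp : f ∣ p)
    (hp0 : p ≠ 0) (a : Fin n → ℤ) (ha : dpoly f a ≠ 0) (hnh : ¬ NonHyperbolic p a)
    (H : Set (MvPolynomial (Fin n) ℂ)) (hH : H.Countable) (hHf : ∀ h ∈ H, ¬ f ∣ h) :
    ∃ ξ : Fin n → ℝ, ξ ≠ 0 ∧ eval (fun i => (ξ i : ℂ)) f = 0 ∧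
      (∀ h ∈ H, eval (fun i => (ξ i : ℂ)) h ≠ 0) ∧
      ∃ s₀ : ℂ, eval (fun i => ξ i + s₀ * a i) p ≠ 0 := by
  have ha0 : a ≠ 0 := by
    rintro rfl
    apply ha
    unfold dpoly
    simp
  obtain ⟨L, hL0, hLinv, hLz⟩ := exists_linear_form a ha0 hn
  have hres : ∀ h : MvPolynomial (Fin n) ℂ, ∃ r : MvPolynomial (Fin n) ℂ, ¬ f ∣ h →
      r ≠ 0 ∧ ∀ (κ : Fin n → ℂ) (σ : ℂ),
      eval (fun i => κ i + σ * a i) f = 0 →
      eval (fun i => κ i + σ * a i) h = 0 → eval κ r = 0 := by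
    intro h
    by_cases hfh : f ∣ h
    · exact ⟨0, fun h1 => absurd hfh h1⟩
    · obtain ⟨r, hr⟩ := exists_resultant f h hf hfh (fun i => (a i : ℂ)) ha
      exact ⟨r, fun _ => hr⟩
  choose r hr using hres
  obtain ⟨κ, hκ⟩ := exists_real_generic (r '' H ∪ {dpoly f a, p, L})
    ((hH.image r).union (by simp)) (by
      rintro q (⟨h, hh, rfl⟩ | hq)
      · exact (hr h (hHf h hh)).1
      · simp only [Set.mem_insert_iff, Set.mem_singleton_iff] at hq
        rcases hq with rfl | rfl | rfl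
        · exact ha
        · exact hp0
        · exact hL0)
  have hκd : eval (fun i => (κ i : ℂ)) (dpoly f a) ≠ 0 := hκ _ (Or.inr (by simp))
  have hκp : eval (fun i => (κ i : ℂ)) p ≠ 0 := hκ _ (Or.inr (by simp))
  have hκL : eval (fun i => (κ i : ℂ)) L ≠ 0 := hκ _ (Or.inr (by simp))
  rw [eval_dpoly] at hκd
  obtain ⟨σ, hσ⟩ := exists_line_root f _ _ hκd
  have hσp : eval (fun i => (κ i : ℂ) + σ * a i) p = 0 := by
    obtain ⟨q, rfl⟩ := hfp
    rw [map_mul, hσ, zero_mul]
  have hσim : σ.im = 0 := by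
    by_contra him
    apply hnh
    refine ⟨κ, ⟨σ, him, hσp⟩, 0, ?_⟩
    simpa using hκp
  have hσre : σ = (σ.re : ℂ) := by
    apply Complex.ext
    · simp
    · simp [hσim]
  have hξ : (fun i => ((κ i + σ.re * a i : ℝ) : ℂ)) = fun i => (κ i : ℂ) + σ * a i := by
    funext i
    push_cast
    rw [← hσre]
  refine ⟨fun i => κ i + σ.re * a i, ?_, ?_, ?_, -σ, ?_⟩
  · intro h0
    apply hκL
    rw [← hLinv _ σ, ← hξ]
    have h1 : (fun i => ((κ i + σ.re * a i : ℝ) : ℂ)) = fun _ => 0 := by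
      funext i
      have := congrFun h0 i
      simp only [Pi.zero_apply] at this
      rw [this, Complex.ofReal_zero]
    rw [h1, hLz]
  · rw [hξ, hσ]
  · intro h hh h0
    rw [hξ] at h0
    exact hκ _ (Or.inl ⟨h, hh, rfl⟩) ((hr h (hHf h hh)).2 _ σ hσ h0)
  · have h1 : (fun i => ((κ i + σ.re * a i : ℝ) : ℂ) + -σ * a i) = fun i => (κ i : ℂ) := by
      funext i
      push_cast
      rw [← hσre]
      ring
    rw [h1]
    exact hκp

/-- The factorisation data. -/
theorem exists_fact {P f : MvPolynomial (Fin n) ℂ} {e : ℕ} (hf : Irreducible f)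
    (hfe : f.IsHomogeneous e) (he : 0 < e) (hP0 : P ≠ 0)
    (hfp : f ∣ homogeneousComponent P.totalDegree P) :
    ∃ (ρ k : ℕ → ℕ) (w : ℕ → MvPolynomial (Fin n) ℂ), Fact P f P.totalDegree e ρ k w ∧
      (∀ j, w j ≠ 0 → ¬ f ∣ w j) ∧ w P.totalDegree ≠ 0 ∧ 0 < ρ P.totalDegree := by
  have h1 : ∀ j, ∃ (ρ k : ℕ) (w : MvPolynomial (Fin n) ℂ),
      homogeneousComponent j P = f ^ ρ * w ∧ (w ≠ 0 → ¬ f ∣ w) ∧ w.IsHomogeneous k ∧
      (w ≠ 0 → k + e * ρ = j) := by
    intro j
    by_cases h0 : homogeneousComponent j P = 0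
    · exact ⟨0, 0, 0, by simp [h0], fun h => absurd rfl h, isHomogeneous_zero _ _ _,
        fun h => absurd rfl h⟩
    · obtain ⟨ρ, k, w, h2, h3, h4, h5⟩ := exists_cofactor f _ hf hfe he
        (homogeneousComponent_isHomogeneous j P) h0
      exact ⟨ρ, k, w, h2, fun _ => h3, h4, fun _ => h5⟩
  choose ρ k w h2 h3 h4 h5 using h1
  have htop := top_ne_zero hP0
  have hwd : w P.totalDegree ≠ 0 := by
    intro h0
    apply htop
    rw [h2, h0, mul_zero]
  refine ⟨ρ, k, w, ⟨rfl, he, hfe, fun j _ => h2 j, h4, h5⟩, h3, hwd, ?_⟩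
  by_contra h0
  have h0' : ρ P.totalDegree = 0 := by omega
  apply h3 _ hwd
  rw [h2, h0', pow_zero, one_mul] at hfp
  exact hfp

theorem not_dvd_dpoly {f : MvPolynomial (Fin n) ℂ} {e : ℕ} (hf : Irreducible f)
    (hfe : f.IsHomogeneous e) (he : 0 < e) (a : Fin n → ℤ) (ha : dpoly f a ≠ 0) :
    ¬ f ∣ dpoly f a := by
  rintro ⟨q, hq⟩
  have h1 : (dpoly f a).IsHomogeneous (e - 1) := by
    unfold dpoly
    refine IsHomogeneous.sum _ _ _ fun i _ => ?_
    exact hfe.pderiv.C_mul _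
  have hq0 : q ≠ 0 := by
    rintro rfl
    exact ha (by rw [hq, mul_zero])
  have h2 := h1.totalDegree ha
  rw [hq, MvPolynomial.totalDegree_mul_of_isDomain hf.ne_zero hq0,
    hfe.totalDegree hf.ne_zero] at h2
  omega

/-- A nonzero rational vector is proportional to a primitive integer vector. -/
theorem exists_primitive (μ : Fin n → ℚ) (hμ : μ ≠ 0) :
    ∃ (ν v : Fin n → ℤ) (q : ℚ), q ≠ 0 ∧ ∑ i, ν i * v i = 1 ∧ ∀ i, μ i = q * ν i := by
  classical
  set D : ℕ := ∏ i, (μ i).den with hD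
  have hD0 : (D : ℚ) ≠ 0 := by
    rw [hD]
    exact_mod_cast Finset.prod_ne_zero_iff.mpr fun i _ => (μ i).den_nz
  have h1 : ∀ i, ∃ m : ℤ, (D : ℚ) * μ i = m := by
    intro i
    obtain ⟨D', hD'⟩ : (μ i).den ∣ D := Finset.dvd_prod_of_mem _ (Finset.mem_univ i)
    refine ⟨D' * (μ i).num, ?_⟩
    have h2 : ((μ i).den : ℚ) * μ i = (μ i).num := Rat.den_mul_eq_num _
    rw [hD']
    push_cast
    rw [← h2]
    ring
  choose m hm using h1
  obtain ⟨g, hg⟩ := (IsPrincipalIdealRing.principal (Ideal.span (Set.range m))).principal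
  have h2 : ∀ i, g ∣ m i := by
    intro i
    have : m i ∈ Ideal.span (Set.range m) := Ideal.subset_span ⟨i, rfl⟩
    rw [hg] at this
    exact Ideal.mem_span_singleton.mp this
  have h3 : g ∈ Ideal.span (Set.range m) := by
    rw [hg]
    exact Ideal.mem_span_singleton_self g
  obtain ⟨v, hv⟩ := Ideal.mem_span_range_iff_exists_fun.mp h3
  choose ν hν using h2
  have hg0 : g ≠ 0 := by
    rintro rfl
    apply hμ
    funext i
    have h4 : m i = 0 := by rw [hν i, zero_mul]
    have h5 := hm i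
    rw [h4, Int.cast_zero] at h5
    exact (mul_eq_zero.mp h5).resolve_left hD0
  refine ⟨ν, v, g / D, div_ne_zero (by exact_mod_cast hg0) hD0, ?_, ?_⟩
  · have h4 : g * ∑ i, ν i * v i = g * 1 := by
      rw [mul_one]
      conv_rhs => rw [← hv]
      rw [Finset.mul_sum]
      refine Finset.sum_congr rfl fun i _ => ?_
      rw [hν i]
      ring
    exact mul_left_cancel₀ hg0 h4
  · intro i
    have h4 := hm i
    rw [hν i] at h4
    push_cast at h4
    field_simp
    linear_combination h4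

theorem lin_isHomogeneous (ν : Fin n → ℤ) : (lin ν).IsHomogeneous 1 := by
  unfold lin
  refine IsHomogeneous.sum _ _ _ fun i _ => ?_
  exact isHomogeneous_C_mul_X _ _

/-- Choice of a factor of the leading form. -/
theorem exists_good_factor (p : MvPolynomial (Fin n) ℂ) {d : ℕ} (hp : p.IsHomogeneous d)
    (hp0 : p ≠ 0) (hd : 0 < d) : ∃ (f : MvPolynomial (Fin n) ℂ) (e : ℕ),
      Irreducible f ∧ f ∣ p ∧ f.IsHomogeneous e ∧ 0 < e ∧
      ((∃ ν v : Fin n → ℤ, ∑ i, ν i * v i = 1 ∧ f = lin ν) ∨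
        ∀ (μ : Fin n → ℚ) (c : ℂ), f ≠ C c * ∑ j, C ((μ j : ℚ) : ℂ) * X j) := by
  obtain ⟨f, e, hf, hfp, hfe, he⟩ := exists_factor p hp hp0 hd
  by_cases h : ∀ (μ : Fin n → ℚ) (c : ℂ), f ≠ C c * ∑ j, C ((μ j : ℚ) : ℂ) * X j
  · exact ⟨f, e, hf, hfp, hfe, he, Or.inr h⟩
  · push Not at h
    obtain ⟨μ, c, hfc⟩ := h
    have hμ : μ ≠ 0 := by
      rintro rfl
      apply hf.ne_zero
      rw [hfc]
      simp
    have hc : c ≠ 0 := by
      rintro rfl
      apply hf.ne_zero
      rw [hfc]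
      simp
    obtain ⟨ν, v, q, hq, hv, hμν⟩ := exists_primitive μ hμ
    have hq' : (q : ℂ) ≠ 0 := by exact_mod_cast hq
    have h1 : f = C (c * q) * lin ν := by
      rw [hfc, C_mul, mul_assoc]
      congr 1
      unfold lin
      rw [Finset.mul_sum]
      refine Finset.sum_congr rfl fun j _ => ?_
      rw [← mul_assoc, ← C_mul, hμν j]
      congr 2
      push_cast
      ring
    have hu : IsUnit (C (c * q) : MvPolynomial (Fin n) ℂ) :=
      (isUnit_iff_ne_zero.mpr (mul_ne_zero hc hq')).map C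
    have hassoc : Associated f (lin ν) := by
      rw [h1]
      exact (associated_unit_mul_left _ _ hu)
    exact ⟨lin ν, 1, hassoc.irreducible hf, hassoc.symm.dvd.trans hfp, lin_isHomogeneous ν, one_pos,
      Or.inl ⟨ν, v, hv, rfl⟩⟩

/-- **Main theorem**, in the complement of the zeros of a polynomial `D`. -/
theorem main' (hn : 2 ≤ n) (P : MvPolynomial (Fin n) ℂ) (hP : Irreducible P)
    (hPlin : ∀ (ν : Fin n → ℤ) (c c' : ℂ), P ≠ C c * (lin ν - C c'))
    (J : Ideal (MvPolynomial (Fin n) ℂ)) (hJ : IsFreeCurve J)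
    (D : MvPolynomial (Fin n) ℂ) (hD : D ∉ J) : Solv P (openLocus J D) := by
  classical
  set d := P.totalDegree with hd
  have hd0 : 0 < d := by
    by_contra h0
    have h1 : P.totalDegree = 0 := by omega
    rw [totalDegree_eq_zero_iff_eq_C] at h1
    have h2 : P.coeff 0 ≠ 0 := by
      intro h3
      rw [h3, C_0] at h1
      exact hP.ne_zero h1
    apply hP.not_isUnit
    rw [h1]
    exact (isUnit_iff_ne_zero.mpr h2).map C
  set p := homogeneousComponent d P with hp
  have hp0 : p ≠ 0 := top_ne_zero hP.ne_zero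
  obtain ⟨f, e, hf, hfp, hfe, he, hrat⟩ := exists_good_factor p
    (homogeneousComponent_isHomogeneous d P) hp0 hd0
  obtain ⟨a, ℓ, hg, ha⟩ := hJ.exists_germ_pderiv f (by
    rw [hfe.totalDegree hf.ne_zero]; omega)
  change dpoly f a ≠ 0 at ha
  by_cases hnh : NonHyperbolic p a
  · exact linear_solv P (hg.restrict hJ hD) hnh
  obtain ⟨ρ, k, w, hF, hwf, hwd, hρd⟩ := exists_fact hf hfe he hP.ne_zero hfp
  rw [← hd] at hF hwd hρd
  have hdp := not_dvd_dpoly hf hfe he a ha
  by_cases hII : ∃ j < d, w j ≠ 0 ∧ (d - j) + ρ j < ρ d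
  · -- sublinear scale
    obtain ⟨ξ, hξ, hfξ, hgen, -⟩ := exists_xi hn hf hfp hp0 a ha hnh
      (insert (dpoly f a) {h | ∃ j ≤ d, w j ≠ 0 ∧ h = w j}) (by
        refine Set.Countable.insert _ ?_
        refine ((Set.finite_Iic d).image w).countable.mono ?_
        rintro _ ⟨j, hj, -, rfl⟩
        exact ⟨j, hj, rfl⟩) (by
        rintro h (rfl | ⟨j, -, hwj, rfl⟩)
        · exact hdp
        · exact hwf j hwj)
    refine sublinear hF (hg.restrict hJ hD) ξ hξ hfξ ?_ ?_ hwd hII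
    · rw [← eval_dpoly]
      exact hgen _ (Or.inl rfl)
    · intro j hj hwj
      exact hgen _ (Or.inr ⟨j, hj, hwj, rfl⟩)
  have hI : ∀ j ≤ d, w j ≠ 0 → ρ d ≤ (d - j) + ρ j := by
    intro j hj hwj
    rcases Nat.lt_or_ge j d with h1 | h1
    · by_contra h2
      push Not at h2
      exact hII ⟨j, h1, hwj, h2⟩
    · have : j = d := by omega
      rw [this]
      omega
  rcases hrat with ⟨ν, v, hv, rfl⟩ | hirr
  · -- rational normal direction
    have he1 : e = 1 := hfe.inj_right (lin_isHomogeneous ν) hf.ne_zero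
    subst he1
    by_cases hα : ∀ T : ℂ, ∃ ζ : Fin n → ℂ, ∑ i, (ν i : ℂ) * ζ i = 0 ∧
        (limP w ρ d ζ).eval T ≠ 0
    · exact rational_alpha hv hF hJ hD hn (hwf d hwd) hρd hI hα
    · push Not at hα
      obtain ⟨T₀, hT₀⟩ := hα
      exact rational_beta hP hv (hPlin ν) hF hJ hD hn (hwf d hwd) hI T₀ hT₀
  · -- irrational normal direction
    have hj : ∀ μ : Fin n → ℚ, ∃ j, ¬ f ∣ pderiv j f - C ((μ j : ℚ) : ℂ) * dpoly f a := by
      intro μ
      by_contra hcon
      push Not at hcon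
      obtain ⟨c, -, hc⟩ := eq_linear_of_euler f hf hfe he (fun i => (a i : ℂ))
        (fun i => ((μ i : ℚ) : ℂ)) ha hcon
      exact hirr μ c hc
    choose j hj using hj
    obtain ⟨ξ, hξ, hfξ, hgen, hline⟩ := exists_xi hn hf hfp hp0 a ha hnh
      (insert (dpoly f a) (insert (w d)
        (Set.range fun μ : Fin n → ℚ => pderiv (j μ) f - C ((μ (j μ) : ℚ) : ℂ) * dpoly f a))) (by
        exact ((Set.countable_range _).insert _).insert _) (by
        rintro h (rfl | rfl | ⟨μ, rfl⟩)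
        · exact hdp
        · exact hwf d hwd
        · exact hj μ)
    have hdir : dir f (fun i => (ξ i : ℂ)) (fun i => (a i : ℂ)) ≠ 0 := by
      rw [← eval_dpoly]
      exact hgen _ (Or.inl rfl)
    set A := dir f (fun i => (ξ i : ℂ)) (fun i => (a i : ℂ)) with hA
    have hsingle : ∀ i, dir f (fun i => (ξ i : ℂ)) (fun j => ((Pi.single i (1 : ℝ) : Fin n → ℝ) j
        : ℂ)) = eval (fun i => (ξ i : ℂ)) (pderiv i f) := by
      intro i
      unfold dir
      rw [Finset.sum_eq_single i]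
      · simp
      · intro b _ hb
        change _ * (((Pi.single i (1 : ℝ) : Fin n → ℝ) b : ℝ) : ℂ) = 0
        rw [Pi.single_eq_of_ne hb]
        simp
      · intro h1
        exact absurd (Finset.mem_univ i) h1
    have hreal : ∀ i, (eval (fun i => (ξ i : ℂ)) (pderiv i f) / A).im = 0 := by
      intro i
      by_contra him
      apply hnh
      refine nonHyperbolic_of_dir hfp a ξ hfξ hdir hline (Pi.single i 1) ?_
      rw [hsingle]
      exact him
    refine irrational_case hF hJ hD a ξ hξ hfξ hdir (hgen _ (Or.inr (Or.inl rfl))) hρd hI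
      (fun i => (eval (fun i => (ξ i : ℂ)) (pderiv i f) / A).re) ?_ ?_
    · intro i
      have h1 : (((eval (fun i => (ξ i : ℂ)) (pderiv i f) / A).re : ℝ) : ℂ) =
          eval (fun i => (ξ i : ℂ)) (pderiv i f) / A := by
        apply Complex.ext
        · simp
        · simp [hreal i]
      rw [h1, div_mul_cancel₀ _ hdir]
    · by_contra hcon
      have hcon' : ∀ i, ∃ q : ℚ, (q : ℝ) = (eval (fun i => (ξ i : ℂ)) (pderiv i f) / A).re :=
        fun i => not_not.mp (not_exists.mp hcon i)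
      choose μ hμ using hcon'
      have h1 := hgen _ (Or.inr (Or.inr ⟨μ, rfl⟩))
      apply h1
      rw [map_sub, map_mul, eval_C, eval_dpoly, ← hA]
      have h2 : ((μ (j μ) : ℚ) : ℂ) = eval (fun i => (ξ i : ℂ)) (pderiv (j μ) f) / A := by
        have h3 : (((μ (j μ) : ℚ) : ℝ) : ℂ) =
            (((eval (fun i => (ξ i : ℂ)) (pderiv (j μ) f) / A).re : ℝ) : ℂ) := by
          rw [hμ]
        rw [Complex.ofReal_ratCast] at h3
        rw [h3]
        apply Complex.ext
        · simp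
        · simp [hreal]
      rw [h2, div_mul_cancel₀ _ hdir, sub_self]

/-- **Main theorem.** -/
theorem main (hn : 2 ≤ n) (P : MvPolynomial (Fin n) ℂ) (hP : Irreducible P)
    (hPlin : ∀ (ν : Fin n → ℤ) (c c' : ℂ), P ≠ C c * (lin ν - C c'))
    (J : Ideal (MvPolynomial (Fin n) ℂ)) (hJ : IsFreeCurve J) : Solv P (torusLocus J) := by
  have h1 := main' hn P hP hPlin J hJ 1
    (fun h => hJ.prime.ne_top ((Ideal.eq_top_iff_one J).mpr h))
  rwa [openLocus_one] at h1

end Pool.Agent.Lib.MP_209724_lc
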