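import Mathlib
import Pool.Agent.Lib.MP_209724_lc.Main

/-!
Free hypersurfaces.
-/

namespace Pool.Agent.Lib.MP_209724_lc

open MvPolynomial

theorem two_le_of_free {n : ℕ} (P : MvPolynomial (Fin n) ℂ) (hP : Irreducible P)
    (hPfree : ∀ m : Fin n → ℤ, m ≠ 0 → ∀ c : ℂ,
      ∃ x : Fin n → ℂ, eval x P = 0 ∧ ∑ i, (m i : ℂ) * x i ≠ c) : 2 ≤ n := by
  by_contra hn
  have hn' : n = 0 ∨ n = 1 := by omega
  rcases hn' with rfl | rfl
  · have h1 : P = C (coeff 0 P) := by
      ext m
      rw [Subsingleton.elim m 0]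
      simp
    apply hP.not_isUnit
    rw [h1]
    refine (isUnit_iff_ne_zero.mpr fun h2 => ?_).map C
    rw [h2, C_0] at h1
    exact hP.ne_zero h1
  · have hone : (fun _ => 1 : Fin 1 → ℤ) ≠ 0 := by
      intro h
      have := congrFun h 0
      simp at this
    obtain ⟨x, hx, -⟩ := hPfree (fun _ => 1) hone 0
    obtain ⟨x', hx', hne⟩ := hPfree (fun _ => 1) hone (x 0)
    have hne' : x' 0 ≠ x 0 := by simpa using hne
    have hdvd : (X 0 - C (x 0) : MvPolynomial (Fin 1) ℂ) ∣ P := by
      rw [← Ideal.mem_span_singleton, ← Ideal.Quotient.eq_zero_iff_mem]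
      let π := Ideal.Quotient.mkₐ ℂ (Ideal.span {(X 0 - C (x 0) : MvPolynomial (Fin 1) ℂ)})
      have h1 : π (X 0) = algebraMap ℂ _ (x 0) := by
        have h2 : π (X 0 - C (x 0)) = 0 := by
          change Ideal.Quotient.mk _ _ = 0
          rw [Ideal.Quotient.eq_zero_iff_mem]
          exact Ideal.mem_span_singleton_self _
        rw [map_sub, sub_eq_zero] at h2
        rw [h2]
        exact π.commutes (x 0)
      have h3 : ∀ q : MvPolynomial (Fin 1) ℂ, π q = algebraMap ℂ _ (eval x q) := by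
        intro q
        induction q using MvPolynomial.induction_on with
        | C c =>
          rw [eval_C]
          exact π.commutes c
        | add p q hp hq => rw [map_add, map_add, map_add, hp, hq]
        | mul_X p i hp =>
          rw [map_mul, map_mul, map_mul, hp, eval_X, Subsingleton.elim i 0, h1]
      have h4 := h3 P
      rw [hx, map_zero] at h4
      exact h4
    obtain ⟨q, hq⟩ := hdvd
    rcases hP.isUnit_or_isUnit hq with h2 | h2
    · have h3 : IsUnit (eval x (X 0 - C (x 0))) := h2.map _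
      rw [map_sub, eval_X, eval_C, sub_self] at h3
      exact not_isUnit_zero h3
    · have h3 : IsUnit (eval x' q) := h2.map _
      rw [hq, map_mul, map_sub, eval_X, eval_C] at hx'
      exact (mul_ne_zero (sub_ne_zero.mpr hne') h3.ne_zero) hx'

theorem ne_lin_of_free {n : ℕ} (P : MvPolynomial (Fin n) ℂ) (hP : Irreducible P)
    (hPfree : ∀ m : Fin n → ℤ, m ≠ 0 → ∀ c : ℂ,
      ∃ x : Fin n → ℂ, eval x P = 0 ∧ ∑ i, (m i : ℂ) * x i ≠ c) :
    ∀ (ν : Fin n → ℤ) (c c' : ℂ), P ≠ C c * (lin ν - C c') := by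
  intro ν c c' h
  have hc : c ≠ 0 := by
    rintro rfl
    rw [C_0, zero_mul] at h
    exact hP.ne_zero h
  by_cases hν : ν = 0
  · subst hν
    have h1 : P = C (c * (0 - c')) := by
      rw [h, C_mul, C_sub, C_0]
      congr 2
      unfold lin
      simp
    apply hP.not_isUnit
    rw [h1]
    refine (isUnit_iff_ne_zero.mpr fun h2 => ?_).map C
    rw [h2, C_0] at h1
    exact hP.ne_zero h1
  · obtain ⟨x, hx, hne⟩ := hPfree ν hν c'
    rw [h, map_mul, eval_C, map_sub, eval_lin, eval_C] at hx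
    rcases mul_eq_zero.mp hx with h1 | h1
    · exact hc h1
    · exact hne (sub_eq_zero.mp h1)

end Pool.Agent.Lib.MP_209724_lc
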