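import Mathlib
import Pool.Agent.Lib.MP_209724_lc.GermExist
import Pool.Agent.Lib.MP_209724_lc.GermFacts

/-!
Germs of a free curve on which a given rational function has a pole, or through a zero of a
polynomial `F(y, λ)` with `λ` a real parameter outside a countable set.
-/

namespace Pool.Agent.Lib.MP_209724_lc

open Filter Topology MvPolynomial

variable {n : ℕ} {J : Ideal (MvPolynomial (Fin n) ℂ)}

/-- A polynomial vanishing at all points of an ideal's zero locus lies in the radical. -/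
theorem mem_radical_of_vanish' {σ : Type} [Finite σ] (I : Ideal (MvPolynomial σ ℂ))
    (g : MvPolynomial σ ℂ)
    (hg : ∀ y : σ → ℂ, (∀ f ∈ I, MvPolynomial.eval y f = 0) → MvPolynomial.eval y g = 0) :
    g ∈ I.radical := by
  rw [← MvPolynomial.vanishingIdeal_zeroLocus_eq_radical (K := ℂ) I,
    MvPolynomial.mem_vanishingIdeal_iff]
  intro y hy
  rw [MvPolynomial.mem_zeroLocus_iff] at hy
  have h1 := hg y (fun f hf => by
    have := hy f hf
    rwa [MvPolynomial.aeval_eq_eval] at this)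
  rw [MvPolynomial.aeval_eq_eval]
  exact h1

/-- The values omitted by a transcendental rational function on an irreducible affine variety
(from which a hypersurface is removed) form a countable set. -/
theorem countable_omit {σ : Type} [Finite σ] {K : Type} [Field K] [Algebra ℂ K]
    (ι : MvPolynomial σ ℂ →ₐ[ℂ] K) (g p q : MvPolynomial σ ℂ) (hg : ι g ≠ 0) (φ : K)
    (hφ : Transcendental ℂ φ) (hpq : ι p = φ * ι q) :
    {lam : ℂ | ¬ ∃ y : σ → ℂ, (∀ f, ι f = 0 → eval y f = 0) ∧ eval y g ≠ 0 ∧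
      eval y p = lam * eval y q}.Countable := by
  classical
  let y' : σ ⊕ Unit → K := Sum.elim (fun i => ι (X i)) (fun _ => (ι g)⁻¹)
  let W : Submodule ℂ K := LinearMap.range (aeval (R := ℂ) y').toLinearMap
  have hWmul : ∀ a ∈ W, ∀ b ∈ W, a * b ∈ W := by
    rintro _ ⟨a, rfl⟩ _ ⟨b, rfl⟩
    exact ⟨a * b, by simp⟩
  have hW1 : ∀ f, ι f ∈ W := by
    intro f
    refine ⟨rename Sum.inl f, ?_⟩
    show aeval y' (rename Sum.inl f) = ι f
    rw [aeval_rename]
    have : (aeval (R := ℂ) (y' ∘ Sum.inl)) = ι := by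
      ext i
      simp [y']
    rw [this]
  have hW2 : ∀ N : ℕ, (ι g ^ N)⁻¹ ∈ W := by
    intro N
    refine ⟨(X (Sum.inr ())) ^ N, ?_⟩
    show aeval y' ((X (Sum.inr ())) ^ N) = _
    rw [map_pow, ← inv_pow]
    simp [y']
  have hrank : Module.rank ℂ W ≤ Cardinal.aleph0 := by
    calc Module.rank ℂ W ≤ Module.rank ℂ (MvPolynomial (σ ⊕ Unit) ℂ) := rank_range_le _
      _ = Cardinal.mk ((σ ⊕ Unit) →₀ ℕ) := MvPolynomial.rank_eq_lift.trans (by simp)
      _ ≤ Cardinal.aleph0 := Cardinal.mk_le_aleph0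
  set Λ : Set ℂ := {lam : ℂ | ¬ ∃ y : σ → ℂ, (∀ f, ι f = 0 → eval y f = 0) ∧ eval y g ≠ 0 ∧
      eval y p = lam * eval y q} with hΛ
  have hmem : ∀ lam ∈ Λ, (φ - algebraMap ℂ K lam)⁻¹ ∈ W := by
    intro lam hlam
    have h1 : g ∈ (RingHom.ker ι ⊔ Ideal.span {p - C lam * q}).radical := by
      apply mem_radical_of_vanish'
      intro y hy
      by_contra hcon
      apply hlam
      refine ⟨y, fun f hf => hy f (Ideal.mem_sup_left ((RingHom.mem_ker).2 hf)), hcon, ?_⟩
      have h2 := hy (p - C lam * q) (Ideal.mem_sup_right (Ideal.subset_span rfl))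
      rw [map_sub, map_mul, eval_C, sub_eq_zero] at h2
      exact h2
    obtain ⟨N, hN⟩ := h1
    rw [Submodule.mem_sup] at hN
    obtain ⟨j, hj, s, hs, hjs⟩ := hN
    obtain ⟨u, rfl⟩ := Ideal.mem_span_singleton'.1 hs
    have hj' : ι j = 0 := (RingHom.mem_ker).1 hj
    have h2 : ι g ^ N = ι u * ι q * (φ - algebraMap ℂ K lam) := by
      rw [← map_pow, ← hjs, map_add, hj', zero_add, map_mul, map_sub, map_mul]
      have h3 : ι (C lam) = algebraMap ℂ K lam := ι.commutes lam
      rw [h3, hpq]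
      ring
    have h5 : ι g ^ N ≠ 0 := pow_ne_zero _ hg
    have h6 : (φ - algebraMap ℂ K lam) ≠ 0 := by
      intro h
      rw [h, mul_zero] at h2
      exact h5 h2
    have h7 : (φ - algebraMap ℂ K lam)⁻¹ = ι u * ι q * (ι g ^ N)⁻¹ := by
      have h8 : ι u * ι q ≠ 0 := by
        intro h
        rw [h, zero_mul] at h2
        exact h5 h2
      rw [h2, mul_inv, mul_inv_cancel_left₀ h8]
    rw [h7]
    exact hWmul _ (hWmul _ (hW1 _) _ (hW1 _)) _ (hW2 N)
  have hli := hφ.linearIndependent_sub_inv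
  have hli2 : LinearIndependent ℂ (fun a : Λ => (φ - algebraMap ℂ K a.1)⁻¹) :=
    hli.comp (fun a : Λ => a.1) Subtype.val_injective
  have hli3 : LinearIndependent ℂ (fun a : Λ => (⟨(φ - algebraMap ℂ K a.1)⁻¹, hmem a.1 a.2⟩ : W)) := by
    apply LinearIndependent.of_comp W.subtype
    exact hli2
  have hcard := hli3.cardinal_le_rank
  have : Cardinal.mk Λ ≤ Cardinal.aleph0 := hcard.trans hrank
  exact Cardinal.le_aleph0_iff_set_countable.1 this

/-- An element of an extension field of `ℂ` which is algebraic over `ℂ` lies in `ℂ`. -/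
theorem mem_range_of_isAlgebraic {K : Type} [Field K] [Algebra ℂ K] (φ : K)
    (h : IsAlgebraic ℂ φ) : ∃ c : ℂ, algebraMap ℂ K c = φ := by
  have hint : IsIntegral ℂ φ := h.isIntegral
  exact minpoly.mem_range_of_degree_eq_one ℂ φ
    (IsAlgClosed.degree_eq_one_of_irreducible ℂ (minpoly.irreducible hint))

theorem not_countable_of_compl_countable {Λ O : Set ℂ} (hΛ : Λ.Countable) (hO : IsOpen O)
    (hOne : O.Nonempty) : ¬ (O \ Λ).Countable := by
  intro h
  have h1 : O.Countable := (h.union hΛ).mono (by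
    intro x hx
    by_cases hx' : x ∈ Λ
    · exact Or.inr hx'
    · exact Or.inl ⟨hx, hx'⟩)
  have h2 := h1.dense_compl ℝ
  obtain ⟨x, hx1, hx2⟩ := h2.inter_open_nonempty O hO hOne
  exact hx2 hx1

theorem IsFreeCurve.exists_germ_ratio (hJ : IsFreeCurve J) (c c' : MvPolynomial (Fin n) ℂ)
    (hc : c ∉ J) (hne : ∀ lam : ℂ, c' - C lam * c ∉ J) :
    ∃ (a : Fin n → ℤ) (ℓ : Fin n → ℂ → ℂ), IsGerm (torusLocus J) a ℓ ∧
      meromorphicOrderAt (fun t => eval (germ a ℓ t) c') 0 <
        meromorphicOrderAt (fun t => eval (germ a ℓ t) c) 0 := by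
  classical
  have hp := hJ.prime
  let Q := MvPolynomial (Fin n) ℂ ⧸ J
  let K := FractionRing Q
  let ι : MvPolynomial (Fin n) ℂ →ₐ[ℂ] K :=
    (IsScalarTower.toAlgHom ℂ Q K).comp (Ideal.Quotient.mkₐ ℂ J)
  have hι : ∀ g, ι g = 0 → g ∈ J := by
    intro g hg
    have h1 : algebraMap Q K (Ideal.Quotient.mk J g) = 0 := hg
    have h2 : Ideal.Quotient.mk J g = 0 :=
      (IsFractionRing.injective Q K) (by rw [h1, map_zero])
    exact Ideal.Quotient.eq_zero_iff_mem.1 h2
  have hι' : ∀ g ∈ J, ι g = 0 := by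
    intro g hg
    show algebraMap Q K (Ideal.Quotient.mk J g) = 0
    rw [Ideal.Quotient.eq_zero_iff_mem.2 hg, map_zero]
  have hX : ∀ i, ι (X i) ≠ 0 := fun i h => X_sub_C_notMem hJ i 0 (by simpa using hι _ h)
  have hc0 : ι c ≠ 0 := fun h => hc (hι _ h)
  set φ : K := ι c' / ι c with hφ
  have hcomm : ∀ z : ℂ, ι (C z) = algebraMap ℂ K z := fun z => ι.commutes z
  have htr : Transcendental ℂ φ := by
    intro halg
    obtain ⟨z, hz⟩ := mem_range_of_isAlgebraic φ halg
    apply hne z
    apply hι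
    rw [map_sub, map_mul, hcomm, hz, hφ, div_mul_cancel₀ _ hc0, sub_self]
  have hcount := countable_omit ι (c * ∏ i, X i) c' c (by
    rw [map_mul, map_prod]
    exact mul_ne_zero hc0 (Finset.prod_ne_zero_iff.2 fun i _ => hX i)) φ htr
    (by rw [hφ, div_mul_cancel₀ _ hc0])
  -- points where the quotient is large
  have hinf : ∀ q : ℕ, {y ∈ torusLocus J | eval y c ≠ 0 ∧ (q : ℝ) < ‖eval y c' / eval y c‖}.Infinite := by
    intro q hfin
    have hO : IsOpen {z : ℂ | (q : ℝ) < ‖z‖} := isOpen_lt continuous_const continuous_norm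
    have hOne : {z : ℂ | (q : ℝ) < ‖z‖}.Nonempty := ⟨((q + 1 : ℕ) : ℂ), by
      simp only [Set.mem_ofPred_eq, Complex.norm_natCast]; push_cast; linarith⟩
    apply not_countable_of_compl_countable hcount hO hOne
    refine (hfin.image fun y : Fin n → ℂ => eval y c' / eval y c).countable.mono ?_
    rintro lam ⟨hlam, hlam'⟩
    simp only [Set.mem_ofPred_eq, not_not] at hlam'
    obtain ⟨y, hy1, hy2, hy3⟩ := hlam'
    rw [map_mul, map_prod] at hy2
    have hyc : eval y c ≠ 0 := left_ne_zero_of_mul hy2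
    have hyX : ∀ i, y i ≠ 0 := by
      intro i
      have h1 := Finset.prod_ne_zero_iff.1 (right_ne_zero_of_mul hy2) i (Finset.mem_univ i)
      rwa [eval_X] at h1
    have hval : eval y c' / eval y c = lam := by rw [hy3, mul_div_cancel_right₀ _ hyc]
    refine ⟨y, ⟨⟨hyX, fun f hf => hy1 f (hι' f hf)⟩, hyc, ?_⟩, hval⟩
    rw [hval]
    exact hlam
  obtain ⟨y, hyinj, hyY⟩ := exists_injective_choice _ hinf
  obtain ⟨a, ℓ, hg, κ, t, hκ, ht, htne, hyt⟩ := exists_germ' hJ y (fun q => (hyY q).1) hyinj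
  refine ⟨a, ℓ, hg, ?_⟩
  by_contra hcon
  rw [not_lt] at hcon
  have hmc := meromorphic_eval a ℓ hg.analytic c
  have hmc' := meromorphic_eval a ℓ hg.analytic c'
  have hord0 : meromorphicOrderAt (fun t => eval (germ a ℓ t) c) 0 ≠ ⊤ := by
    rw [Ne, meromorphicOrderAt_eq_top_iff]
    intro h
    obtain ⟨t, ht1, ht2⟩ := (h.and (eventually_ne_of_notMem hJ hg c hc)).exists
    exact ht2 ht1
  have hord : 0 ≤ meromorphicOrderAt ((fun t => eval (germ a ℓ t) c') / fun t => eval (germ a ℓ t) c) 0 := by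
    rw [meromorphicOrderAt_div hmc' hmc]
    obtain ⟨m, hm⟩ := WithTop.ne_top_iff_exists.1 hord0
    rcases eq_or_ne (meromorphicOrderAt (fun t => eval (germ a ℓ t) c') 0) ⊤ with h | h
    · rw [h, ← hm, sub_eq_add_neg, top_add]
      exact le_top
    · obtain ⟨k, hk⟩ := WithTop.ne_top_iff_exists.1 h
      rw [← hk, ← hm] at hcon ⊢
      have h1 : m ≤ k := by exact_mod_cast hcon
      have h2 : (0 : WithTop ℤ) ≤ ((k - m : ℤ) : WithTop ℤ) := by exact_mod_cast sub_nonneg.2 h1
      exact h2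
  obtain ⟨z, hz⟩ := tendsto_nhds_of_meromorphicOrderAt_nonneg (hmc'.div hmc) hord
  have h1 := (hz.comp ht).norm
  have h2 : Tendsto (fun j => ‖eval (y (κ j)) c' / eval (y (κ j)) c‖) atTop atTop := by
    refine tendsto_atTop_mono (fun j => ?_) (tendsto_natCast_atTop_atTop.comp hκ.tendsto_atTop)
    exact (hyY (κ j)).2.2.le
  apply not_tendsto_atTop_of_tendsto_nhds h1
  refine h2.congr fun j => ?_
  simp only [Function.comp, Pi.div_apply, hyt j]

theorem IsFreeCurve.exists_germ_zero (hJ : IsFreeCurve J)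
    (F : Polynomial (MvPolynomial (Fin n) ℂ)) (i j : ℕ)
    (hij : ∀ α β : ℂ, C α * F.coeff i + C β * F.coeff j ∈ J → α = 0 ∧ β = 0)
    (D : MvPolynomial (Fin n) ℂ) (hD : D ∉ J) (E : Set ℝ) (hE : E.Countable) :
    ∃ lam : ℝ, lam ∉ E ∧ ∃ ℓ : Fin n → ℂ → ℂ, IsGerm (torusLocus J) 0 ℓ ∧
      eval (fun i => Complex.exp (ℓ i 0)) D ≠ 0 ∧
      eval (fun i => Complex.exp (ℓ i 0)) (F.eval (C (lam : ℂ))) = 0 := by
  classical
  have hp := hJ.prime
  let Q := MvPolynomial (Fin n) ℂ ⧸ J
  let K := FractionRing Q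
  let L := AlgebraicClosure K
  let ι₀ : MvPolynomial (Fin n) ℂ →ₐ[ℂ] K :=
    (IsScalarTower.toAlgHom ℂ Q K).comp (Ideal.Quotient.mkₐ ℂ J)
  let ι : MvPolynomial (Fin n) ℂ →ₐ[ℂ] L := (IsScalarTower.toAlgHom ℂ K L).comp ι₀
  have hι : ∀ g, ι g = 0 → g ∈ J := by
    intro g hg
    have h0 : algebraMap K L (ι₀ g) = 0 := hg
    have h1 : ι₀ g = 0 := (algebraMap K L).injective (by rw [h0, map_zero])
    have h1' : algebraMap Q K (Ideal.Quotient.mk J g) = 0 := h1
    have h2 : Ideal.Quotient.mk J g = 0 :=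
      (IsFractionRing.injective Q K) (by rw [h1', map_zero])
    exact Ideal.Quotient.eq_zero_iff_mem.1 h2
  have hι' : ∀ g ∈ J, ι g = 0 := by
    intro g hg
    show algebraMap K L (algebraMap Q K (Ideal.Quotient.mk J g)) = 0
    rw [Ideal.Quotient.eq_zero_iff_mem.2 hg, map_zero, map_zero]
  have hX : ∀ i, ι (X i) ≠ 0 := fun i h => X_sub_C_notMem hJ i 0 (by simpa using hι _ h)
  have hcomm : ∀ z : ℂ, ι (C z) = algebraMap ℂ L z := fun z => ι.commutes z
  have hFi : F.coeff i ∉ J := by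
    intro h
    have := (hij 1 0 (by simpa using h)).1
    exact one_ne_zero this
  -- a root which is transcendental over `ℂ`
  set FL : Polynomial L := F.map ι.toRingHom with hFL
  have hFLcoeff : ∀ k, FL.coeff k = ι (F.coeff k) := fun k => by rw [hFL, Polynomial.coeff_map]; rfl
  have hFL0 : FL ≠ 0 := by
    intro h
    apply hFi
    apply hι
    rw [← hFLcoeff, h, Polynomial.coeff_zero]
  obtain ⟨φ, hφroot, hφ⟩ : ∃ φ ∈ FL.roots, Transcendental ℂ φ := by
    by_contra hcon
    push Not at hcon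
    have hroots : ∀ r ∈ FL.roots, ∃ z : ℂ, algebraMap ℂ L z = r := by
      intro r hr
      exact mem_range_of_isAlgebraic r (not_not.1 (hcon r hr))
    choose! b hb using hroots
    have hsplit : FL = Polynomial.C FL.leadingCoeff * (FL.roots.map fun r => Polynomial.X - Polynomial.C r).prod :=
      (IsAlgClosed.splits FL).eq_prod_roots
    set P : Polynomial ℂ := (FL.roots.map fun r => Polynomial.X - Polynomial.C (b r)).prod with hP
    have hmap : P.map (algebraMap ℂ L) = (FL.roots.map fun r => Polynomial.X - Polynomial.C r).prod := by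
      rw [hP, Polynomial.map_multiset_prod, Multiset.map_map]
      congr 1
      apply Multiset.map_congr rfl
      intro r hr
      simp [hb r hr]
    rw [← hmap] at hsplit
    have hcoe : ∀ k, ι (F.coeff k) = FL.leadingCoeff * algebraMap ℂ L (P.coeff k) := by
      intro k
      rw [← hFLcoeff, ← Polynomial.coeff_map, ← Polynomial.coeff_C_mul, ← hsplit]
    have hrel : C (P.coeff j) * F.coeff i + C (-P.coeff i) * F.coeff j ∈ J := by
      apply hι
      rw [map_add, map_mul, map_mul, hcomm, hcomm, hcoe, hcoe, map_neg]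
      ring
    obtain ⟨h1, h2⟩ := hij _ _ hrel
    apply hFi
    apply hι
    rw [hcoe, neg_eq_zero.1 h2, map_zero, mul_zero]
  -- the extended homomorphism
  let ι' : MvPolynomial (Option (Fin n)) ℂ →ₐ[ℂ] L :=
    aeval (fun o => o.elim φ fun k => ι (X k))
  have hι'some : ∀ g, ι' (rename some g) = ι g := by
    intro g
    show aeval _ (rename some g) = ι g
    rw [aeval_rename]
    have : (aeval (R := ℂ) ((fun o : Option (Fin n) => o.elim φ fun k => ι (X k)) ∘ some)) = ι := by
      ext k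
      simp
    rw [this]
  have hι'X : ι' (X none) = φ := by
    show aeval _ (X none) = φ
    rw [aeval_X]
    rfl
  have hcount := countable_omit ι' (rename some (D * F.coeff i * ∏ k, X k)) (X none) 1 (by
    rw [hι'some, map_mul, map_mul, map_prod]
    refine mul_ne_zero (mul_ne_zero (fun h => hD (hι _ h)) (fun h => hFi (hι _ h))) ?_
    exact Finset.prod_ne_zero_iff.2 fun i _ => hX i) φ hφ (by rw [hι'X, map_one, mul_one])
  -- the polynomial `F` in all variables
  set F' : MvPolynomial (Option (Fin n)) ℂ :=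
    F.eval₂ (rename some : MvPolynomial (Fin n) ℂ →ₐ[ℂ] MvPolynomial (Option (Fin n)) ℂ).toRingHom (X none) with hF'
  have hF'0 : ι' F' = 0 := by
    have h1 : ι'.toRingHom F' = 0 := by
      rw [hF', Polynomial.hom_eval₂]
      have h2 : (ι'.toRingHom).comp (rename some : MvPolynomial (Fin n) ℂ →ₐ[ℂ] MvPolynomial (Option (Fin n)) ℂ).toRingHom = ι.toRingHom := by
        apply RingHom.ext
        intro g
        exact hι'some g
      rw [h2]
      have h3 : ι'.toRingHom (X none) = φ := hι'X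
      rw [h3, ← Polynomial.eval_map]
      exact (Polynomial.mem_roots hFL0).1 hφroot
    exact h1
  have hgood : ∀ lam : ℂ, (∃ z : Option (Fin n) → ℂ, (∀ f, ι' f = 0 → eval z f = 0) ∧
      eval z (rename some (D * F.coeff i * ∏ k, X k)) ≠ 0 ∧ eval z (X none) = lam * eval z 1) →
      ∃ y ∈ torusLocus J, eval y D ≠ 0 ∧ eval y (F.coeff i) ≠ 0 ∧
        (F.map (eval y)).eval lam = 0 := by
    rintro lam ⟨z, hz1, hz2, hz3⟩
    rw [map_one, mul_one, eval_X] at hz3
    refine ⟨z ∘ some, ?_⟩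
    rw [eval_rename, map_mul, map_mul, map_prod] at hz2
    have h1 := left_ne_zero_of_mul hz2
    have h2 := right_ne_zero_of_mul hz2
    refine ⟨⟨fun k => ?_, fun f hf => ?_⟩, left_ne_zero_of_mul h1, right_ne_zero_of_mul h1, ?_⟩
    · have h3 := Finset.prod_ne_zero_iff.1 h2 k (Finset.mem_univ k)
      rwa [eval_X] at h3
    · have h3 := hz1 (rename some f) (by rw [hι'some]; exact hι' f hf)
      rwa [eval_rename] at h3
    · have h3 := hz1 F' hF'0
      rw [hF', Polynomial.hom_eval₂, eval_X, hz3] at h3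
      rw [Polynomial.eval_map, ← h3]
      congr 1
      apply RingHom.ext
      intro g
      show eval (z ∘ some) g = eval z (rename some g)
      rw [eval_rename]
  -- the real parameters for which there is a point
  set Λ : Set ℝ := {lam : ℝ | lam ∉ E ∧ ∃ y ∈ torusLocus J, eval y D ≠ 0 ∧
      eval y (F.coeff i) ≠ 0 ∧ (F.map (eval y)).eval (lam : ℂ) = 0} with hΛ
  have hΛunc : ¬ Λ.Countable := by
    intro h
    have h1 : (Set.univ : Set ℝ).Countable := by
      refine ((h.union hE).union (hcount.preimage Complex.ofReal_injective)).mono ?_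
      intro lam _
      by_cases h2 : lam ∈ E
      · exact Or.inl (Or.inr h2)
      · by_cases h3 : (∃ z : Option (Fin n) → ℂ, (∀ f, ι' f = 0 → eval z f = 0) ∧
            eval z (rename some (D * F.coeff i * ∏ k, X k)) ≠ 0 ∧
            eval z (X none) = (lam : ℂ) * eval z 1)
        · exact Or.inl (Or.inl ⟨h2, hgood _ h3⟩)
        · exact Or.inr h3
    exact Cardinal.not_countable_real h1
  choose! y hy1 hy2 hy3 hy4 using fun (lam : ℝ) (h : lam ∈ Λ) => h.2
  set T : Set (Fin n → ℂ) := y '' Λ with hT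
  have hTJ : T ⊆ torusLocus J := by
    rintro _ ⟨lam, hlam, rfl⟩
    exact hy1 lam hlam
  have hTunc : ¬ T.Countable := by
    intro h
    apply hΛunc
    have h1 : Λ ⊆ ⋃ w ∈ T, {lam : ℝ | F.map (eval w) ≠ 0 ∧ (F.map (eval w)).eval (lam : ℂ) = 0} := by
      intro lam hlam
      simp only [Set.mem_iUnion]
      refine ⟨y lam, ⟨lam, hlam, rfl⟩, ?_, hy4 lam hlam⟩
      intro h2
      apply hy3 lam hlam
      have h3 := congrArg (fun p => Polynomial.coeff p i) h2
      simpa using h3
    refine (h.biUnion fun w _ => ?_).mono h1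
    by_cases h4 : F.map (eval w) = 0
    · simp [h4]
    · have h5 : {z : ℂ | (F.map (eval w)).IsRoot z}.Finite := Polynomial.finite_setOfPred_isRoot h4
      refine (h5.countable.preimage Complex.ofReal_injective).mono ?_
      intro lam hlam
      exact hlam.2
  have hacc : ∃ lam ∈ Λ, AccPt (y lam) (𝓟 T) := by
    by_contra hcon
    push Not at hcon
    have hdisc : DiscreteTopology T := by
      rw [discreteTopology_subtype_iff]
      rintro _ ⟨lam, hlam, rfl⟩
      by_contra hne
      exact hcon lam hlam ⟨hne⟩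
    apply hTunc
    have h1 : Countable T := countable_of_Lindelof_of_discrete
    exact h1
  obtain ⟨lam, hlam, hlamacc⟩ := hacc
  obtain ⟨ℓ, hℓ, hℓ0⟩ := exists_germ_through hJ hTJ (hy1 lam hlam).1 hlamacc
  have hfun : (fun k => Complex.exp (ℓ k 0)) = y lam := funext hℓ0
  refine ⟨lam, hlam.1, ℓ, hℓ, ?_, ?_⟩
  · rw [hfun]
    exact hy2 lam hlam
  · rw [hfun]
    have h1 := hy4 lam hlam
    rw [Polynomial.eval_map] at h1
    rw [← Polynomial.eval₂_id, Polynomial.hom_eval₂]
    have h2 : (eval (y lam)).comp (RingHom.id (MvPolynomial (Fin n) ℂ)) = eval (y lam) := by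
      rw [RingHom.comp_id]
    rw [h2, eval_C]
    exact h1

end Pool.Agent.Lib.MP_209724_lc
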