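import Mathlib
import Pool.Agent.Lib.MP_209724_lc.GermFacts
import Pool.Agent.Lib.MP_209724_lc.Linear
import Pool.Agent.Lib.MP_209724_lc.Sublinear
import Pool.Agent.Lib.MP_209724_lc.Hurwitz

/-!
Zeros at power scale for `P ∈ ℂ[y][x]` along a germ of curve.
-/

namespace Pool.Agent.Lib.MP_209724_lc

open Filter Topology MvPolynomial Metric

variable {n : ℕ}

theorem exists_lattice_point (G : MvPolynomial (Fin n) ℂ) (hG : G ≠ 0) :
    ∃ k : Fin n → ℤ, eval (fun i => 2 * Real.pi * Complex.I * (k i : ℂ)) G ≠ 0 := by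
  have hpi : (2 * Real.pi * Complex.I : ℂ) ≠ 0 := Complex.two_pi_I_ne_zero
  by_contra! hcon
  apply hG
  apply MvPolynomial.funext_set
    (fun _ => Set.range (fun k : ℤ => (2 * Real.pi * Complex.I * (k : ℂ) : ℂ)))
    (fun _ => Set.infinite_range_of_injective (fun a b hab => by
      have := mul_left_cancel₀ hpi hab
      exact_mod_cast this))
  intro y hy
  have : ∀ i, ∃ k : ℤ, (2 * Real.pi * Complex.I * (k : ℂ) : ℂ) = y i :=
    fun i => hy i (Set.mem_univ i)
  choose k hk using this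
  rw [map_zero, ← hcon k]
  congr 2
  funext i
  exact (hk i).symm

/-- a polynomial with two nonzero coefficients has a nonzero root -/
theorem exists_root_ne_zero (p : Polynomial ℂ) {i j : ℕ} (hij : i ≠ j) (hi : p.coeff i ≠ 0)
    (hj : p.coeff j ≠ 0) : ∃ T : ℂ, T ≠ 0 ∧ p.eval T = 0 := by
  have hp : p ≠ 0 := by
    rintro rfl
    simp at hi
  obtain ⟨q, hq, hqd⟩ := p.exists_eq_pow_rootMultiplicity_mul_and_not_dvd hp 0
  rw [map_zero, sub_zero] at hq hqd
  have hq0 : q.coeff 0 ≠ 0 := by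
    intro h
    exact hqd (Polynomial.X_dvd_iff.2 h)
  have hdeg : q.degree ≠ 0 := by
    intro hdeg
    have h1 : q = Polynomial.C (q.coeff 0) := Polynomial.eq_C_of_degree_eq_zero hdeg
    rw [h1] at hq
    have h2 : ∀ l, p.coeff l ≠ 0 → l = p.rootMultiplicity 0 := by
      intro l hl
      rw [hq, mul_comm, Polynomial.coeff_C_mul, Polynomial.coeff_X_pow] at hl
      by_contra hne
      apply hl
      rw [if_neg hne, mul_zero]
    exact hij ((h2 i hi).trans (h2 j hj).symm)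
  obtain ⟨T, hT⟩ := IsAlgClosed.exists_root q hdeg
  refine ⟨T, ?_, ?_⟩
  · rintro rfl
    rw [Polynomial.IsRoot.def, ← Polynomial.coeff_zero_eq_eval_zero] at hT
    exact hq0 hT
  · rw [hq, Polynomial.eval_mul, hT.eq_zero, mul_zero]

/-- composition with a function continuous at `0` -/
theorem UConv.comp_at_zero {s : Set ℂ} {T : ℕ → ℂ → ℂ} {f : ℂ → ℂ} (hf : ContinuousAt f 0)
    (hT : ∀ δ > 0, ∀ᶠ N in atTop, ∀ u ∈ s, ‖T N u‖ < δ) :
    UConv s (fun N u => f (T N u)) (fun _ => f 0) := by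
  refine ⟨⟨‖f 0‖, fun _ _ => le_rfl⟩, fun ε hε => ?_⟩
  obtain ⟨δ, hδ, h1⟩ := Metric.continuousAt_iff.1 hf ε hε
  filter_upwards [hT δ hδ] with N hN u hu
  have h2 := h1 (x := T N u) (by rw [dist_zero_right]; exact hN u hu)
  rwa [dist_eq_norm] at h2

/-- the choice of the exponent -/
theorem exists_theta {ι : Type*} (M : Finset ι) (g : ι → ℕ) (v : ι → ℤ) (d : ℕ)
    (hgd : ∀ m ∈ M, g m ≤ d) {m0 m1 : ι} (hm0 : m0 ∈ M) (hg0 : g m0 = d) (hm1 : m1 ∈ M)
    (h1 : ∀ m ∈ M, g m = d → v m1 < v m) :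
    ∃ θ : ℝ, 0 < θ ∧ ∃ E : ℝ, (∀ m ∈ M, (g m : ℝ) - θ * v m ≤ E) ∧
      ∃ a ∈ M, ∃ b ∈ M, (g a : ℝ) - θ * v a = E ∧ (g b : ℝ) - θ * v b = E ∧ v a ≠ v b := by
  classical
  obtain ⟨a, ha, hamin⟩ := Finset.exists_min_image (M.filter (fun m => g m = d)) v
    ⟨m0, Finset.mem_filter.2 ⟨hm0, hg0⟩⟩
  obtain ⟨haM, hga⟩ := Finset.mem_filter.1 ha
  have hM' : (M.filter (fun m => v m < v a)).Nonempty :=
    ⟨m1, Finset.mem_filter.2 ⟨hm1, h1 a haM hga⟩⟩
  obtain ⟨b, hb, hbmin⟩ := Finset.exists_min_image _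
    (fun m => ((d : ℝ) - g m) / ((v a : ℝ) - v m)) hM'
  obtain ⟨hbM, hvb⟩ := Finset.mem_filter.1 hb
  have hlt : ∀ m ∈ M, v m < v a → g m < d := by
    intro m hm hvm
    refine lt_of_le_of_ne (hgd m hm) fun hgm => ?_
    have := hamin m (Finset.mem_filter.2 ⟨hm, hgm⟩)
    omega
  have hgb : (g b : ℝ) < d := by exact_mod_cast hlt b hbM hvb
  have hvb' : (v b : ℝ) < v a := by exact_mod_cast hvb
  set θ : ℝ := ((d : ℝ) - g b) / ((v a : ℝ) - v b) with hθ
  have hθpos : 0 < θ := div_pos (by linarith) (by linarith)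
  have hθb : θ * ((v a : ℝ) - v b) = d - g b := div_mul_cancel₀ _ (by linarith)
  refine ⟨θ, hθpos, d - θ * v a, ?_, a, haM, b, hbM, ?_, ?_, ?_⟩
  · intro m hm
    rcases lt_or_ge (v m) (v a) with hvm | hvm
    · have h2 := hbmin m (Finset.mem_filter.2 ⟨hm, hvm⟩)
      have hvm' : (v m : ℝ) < v a := by exact_mod_cast hvm
      rw [le_div_iff₀ (by linarith)] at h2
      linarith
    · have hvm' : (v a : ℝ) ≤ v m := by exact_mod_cast hvm
      have hgm : (g m : ℝ) ≤ d := by exact_mod_cast hgd m hm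
      have := mul_le_mul_of_nonneg_left hvm' hθpos.le
      linarith
  · rw [hga]
  · linarith
  · omega

theorem stepA {W : Set (Fin n → ℂ)} {a : Fin n → ℤ} {ℓ : Fin n → ℂ → ℂ} (hg : IsGerm W a ℓ)
    (hn : 0 < n) (P : MvPolynomial (Fin n) (MvPolynomial (Fin n) ℂ)) (d : ℕ)
    (hd : P.totalDegree ≤ d)
    (htop : ∃ m : Fin n →₀ ℕ, m.degree = d ∧
      meromorphicOrderAt (fun t => eval (germ a ℓ t) (P.coeff m)) 0 ≠ ⊤)
    (hA : ∃ m₁ : Fin n →₀ ℕ, ∀ m : Fin n →₀ ℕ, m.degree = d →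
      meromorphicOrderAt (fun t => eval (germ a ℓ t) (P.coeff m₁)) 0 <
        meromorphicOrderAt (fun t => eval (germ a ℓ t) (P.coeff m)) 0) :
    Solv2 P W := by
  classical
  have hmero : ∀ m, MeromorphicAt (fun t => eval (germ a ℓ t) (P.coeff m)) 0 :=
    fun m => meromorphic_eval a ℓ hg.analytic (P.coeff m)
  set o : (Fin n →₀ ℕ) → WithTop ℤ :=
    fun m => meromorphicOrderAt (fun t => eval (germ a ℓ t) (P.coeff m)) 0 with ho
  have hexp0 : ∀ m, ∃ (v : ℤ) (h : ℂ → ℂ), o m ≠ ⊤ → (o m = v ∧ AnalyticAt ℂ h 0 ∧ h 0 ≠ 0 ∧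
      ∀ᶠ t in 𝓝[≠] (0 : ℂ), eval (germ a ℓ t) (P.coeff m) = t ^ v * h t) := by
    intro m
    by_cases hm : o m = ⊤
    · exact ⟨0, 0, fun h => absurd hm h⟩
    · obtain ⟨v, hv⟩ := WithTop.ne_top_iff_exists.1 hm
      obtain ⟨h, h1, h2, h3⟩ := (meromorphicOrderAt_eq_int_iff (hmero m)).1 hv.symm
      refine ⟨v, h, fun _ => ⟨hv.symm, h1, h2, ?_⟩⟩
      filter_upwards [h3] with t ht
      rw [ht, sub_zero, smul_eq_mul]
  choose v h hvh using hexp0
  have hosupp : ∀ m, o m ≠ ⊤ → m ∈ P.support := by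
    intro m hm
    by_contra hcon
    apply hm
    rw [MvPolynomial.notMem_support_iff] at hcon
    simp only [ho, hcon, map_zero]
    exact meromorphicOrderAt_eq_top_iff.2 (Eventually.of_forall fun _ => rfl)
  set M := P.support.filter (fun m => o m ≠ ⊤) with hM
  have hMo : ∀ m, m ∈ M ↔ o m ≠ ⊤ := by
    intro m
    rw [hM, Finset.mem_filter]
    exact ⟨fun h => h.2, fun h => ⟨hosupp m h, h⟩⟩
  obtain ⟨m0, hm0d, hm0⟩ := htop
  obtain ⟨m1, hm1⟩ := hA
  have hm0M : m0 ∈ M := (hMo m0).2 hm0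
  have hm1M : m1 ∈ M := (hMo m1).2 (ne_top_of_lt (hm1 m0 hm0d))
  obtain ⟨θ, hθ, E, hE, ma, hmaM, mb, hmbM, hmaE, hmbE, hvab⟩ := exists_theta M
    (fun m => m.degree) v d
    (fun m hm => by
      have h1 := hosupp m ((hMo m).1 hm)
      refine le_trans ?_ hd
      have h2 := MvPolynomial.le_totalDegree h1
      exact h2)
    hm0M hm0d hm1M (by
      intro m hm hmd
      have h1 := hm1 m hmd
      have h2 := (hvh m ((hMo m).1 hm)).1
      have h3 := (hvh m1 ((hMo m1).1 hm1M)).1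
      change o m1 < o m at h1
      rw [h2, h3] at h1
      exact_mod_cast h1)
  -- the face and the two coefficient polynomials
  set Φ := M.filter (fun m => (m.degree : ℝ) - θ * v m = E) with hΦ
  have hmaΦ : ma ∈ Φ := Finset.mem_filter.2 ⟨hmaM, hmaE⟩
  have hmbΦ : mb ∈ Φ := Finset.mem_filter.2 ⟨hmbM, hmbE⟩
  let Gp : ℤ → MvPolynomial (Fin n) ℂ := fun w =>
    ∑ m ∈ Φ.filter (fun m => v m = w), monomial m (h m 0)
  have hGp : ∀ m ∈ Φ, Gp (v m) ≠ 0 := by
    intro m hm hcon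
    have h1 : (Gp (v m)).coeff m = h m 0 := by
      simp only [Gp, MvPolynomial.coeff_sum, MvPolynomial.coeff_monomial]
      have hmem : m ∈ Φ.filter (fun m' => v m' = v m) := Finset.mem_filter.2 ⟨hm, rfl⟩
      rw [Finset.sum_ite_eq' (Φ.filter (fun m' => v m' = v m)) m (fun m' => h m' 0), if_pos hmem]
    rw [hcon, MvPolynomial.coeff_zero] at h1
    exact (hvh m ((hMo m).1 (Finset.mem_filter.1 hm).1)).2.2.1 h1.symm
  obtain ⟨k, hk⟩ := exists_lattice_point (Gp (v ma) * Gp (v mb) * X ⟨0, hn⟩)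
    (mul_ne_zero (mul_ne_zero (hGp ma hmaΦ) (hGp mb hmbΦ)) (MvPolynomial.X_ne_zero _))
  set ζ : Fin n → ℂ := fun i => 2 * Real.pi * Complex.I * (k i : ℂ) with hζdef
  rw [map_mul, map_mul, mul_ne_zero_iff, mul_ne_zero_iff, eval_X] at hk
  obtain ⟨⟨hka, hkb⟩, hζ0⟩ := hk
  let mon : (Fin n →₀ ℕ) → (Fin n → ℂ) → ℂ := fun m x => ∏ i, x i ^ m i
  have hmonc : ∀ m, Continuous (mon m) := fun m => by
    simp only [mon]
    fun_prop
  have hGpe : ∀ w, eval ζ (Gp w) = ∑ m ∈ Φ.filter (fun m => v m = w), h m 0 * mon m ζ := by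
    intro w
    simp only [Gp, map_sum, MvPolynomial.eval_monomial, mon]
    refine Finset.sum_congr rfl fun m _ => ?_
    rw [Finsupp.prod_fintype _ _ (fun i => pow_zero _)]
  -- the one variable polynomial
  obtain ⟨L, hL⟩ : ∃ L : ℤ, ∀ m ∈ M, L ≤ v m := by
    refine ⟨-∑ m ∈ M, |v m|, fun m hm => ?_⟩
    have h1 := Finset.single_le_sum (f := fun m => |v m|) (fun m _ => abs_nonneg (v m)) hm
    have h2 := neg_abs_le (v m)
    omega
  set p : Polynomial ℂ := ∑ m ∈ Φ, Polynomial.C (h m 0 * mon m ζ) *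
    Polynomial.X ^ (v m - L).toNat with hp
  have hpcoeff : ∀ m ∈ Φ, p.coeff (v m - L).toNat = eval ζ (Gp (v m)) := by
    intro m hm
    rw [hp, Polynomial.finsetSum_coeff, hGpe, Finset.sum_filter (fun m' => v m' = v m)]
    refine Finset.sum_congr rfl fun m' hm' => ?_
    rw [Polynomial.coeff_C_mul_X_pow]
    have h1 := hL m (Finset.mem_filter.1 hm).1
    have h2 := hL m' (Finset.mem_filter.1 hm').1
    by_cases h3 : v m' = v m
    · rw [if_pos h3, if_pos (by rw [h3])]
    · rw [if_neg h3, if_neg (by omega)]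
  obtain ⟨T, hT0, hT⟩ := exists_root_ne_zero p (i := (v ma - L).toNat) (j := (v mb - L).toNat)
    (by
      have h1 := hL ma hmaM
      have h2 := hL mb hmbM
      omega)
    (by rw [hpcoeff ma hmaΦ]; exact hka) (by rw [hpcoeff mb hmbΦ]; exact hkb)
  have hp0 : p ≠ 0 := by
    intro h1
    have h2 := hpcoeff ma hmaΦ
    rw [h1, Polynomial.coeff_zero] at h2
    exact hka h2.symm
  set z₀ := Complex.log T with hz₀
  have hz₀T : Complex.exp z₀ = T := Complex.exp_log hT0
  -- the limit function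
  let γ : (Fin n →₀ ℕ) → ℂ := fun m => if (m.degree : ℝ) - θ * v m = E then 1 else 0
  let B : ℂ → ℂ := fun u => ∑ m ∈ M, γ m * (Complex.exp (v m * (z₀ + u)) * (h m 0 * mon m ζ))
  have hB : ∀ u, B u = Complex.exp (L * (z₀ + u)) * p.eval (Complex.exp (z₀ + u)) := by
    intro u
    simp only [B]
    rw [hp, Polynomial.eval_finsetSum, Finset.mul_sum, hΦ,
      Finset.sum_filter (fun m => (m.degree : ℝ) - θ * v m = E)]
    refine Finset.sum_congr rfl fun m hm => ?_
    simp only [γ]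
    by_cases h1 : (m.degree : ℝ) - θ * v m = E
    · rw [if_pos h1, if_pos h1, Polynomial.eval_mul, Polynomial.eval_C, Polynomial.eval_pow,
        Polynomial.eval_X, ← Complex.exp_nat_mul]
      have h2 := hL m hm
      have h3 : (((v m - L).toNat : ℕ) : ℂ) = (v m : ℂ) - L := by
        have : (((v m - L).toNat : ℕ) : ℤ) = v m - L := Int.toNat_of_nonneg (by omega)
        exact_mod_cast congrArg (fun z : ℤ => (z : ℂ)) this
      rw [h3]
      have h4 : Complex.exp (v m * (z₀ + u)) = Complex.exp (L * (z₀ + u)) *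
          Complex.exp (((v m : ℂ) - L) * (z₀ + u)) := by
        rw [← Complex.exp_add]
        congr 1
        ring
      rw [h4]
      ring
    · rw [if_neg h1, if_neg h1, zero_mul]
  have hBd : Differentiable ℂ B := by
    have : B = fun u => Complex.exp (L * (z₀ + u)) * p.eval (Complex.exp (z₀ + u)) :=
      funext hB
    rw [this]
    fun_prop
  have hB0 : B 0 = 0 := by
    rw [hB, add_zero, hz₀T, hT, mul_zero]
  have hBne : ∃ᶠ u in 𝓝 (0 : ℂ), B u ≠ 0 := by
    intro hcon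
    have h1 : ∀ᶠ u in 𝓝 (0 : ℂ), B u = 0 := hcon.mono fun u hu => not_not.mp hu
    have h2 : B = fun _ => 0 := by
      have h3 : AnalyticOnNhd ℂ B Set.univ := fun z _ => hBd.analyticAt z
      have h4 : AnalyticOnNhd ℂ (fun _ : ℂ => (0 : ℂ)) Set.univ := fun z _ => analyticAt_const
      exact h3.eq_of_eventuallyEq h4 h1
    apply hp0
    apply Polynomial.eq_zero_of_infinite_isRoot
    refine Set.Infinite.mono ?_ (Set.infinite_univ (α := ℂ) |>.sdiff (Set.finite_singleton (0 : ℂ)))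
    intro T' hT'
    have hT'0 : T' ≠ 0 := hT'.2
    have h5 := congrFun h2 (Complex.log T' - z₀)
    rw [hB] at h5
    simp only [add_sub_cancel, Complex.exp_log hT'0] at h5
    rcases mul_eq_zero.1 h5 with h6 | h6
    · exact absurd h6 (Complex.exp_ne_zero _)
    · exact h6
  -- the scales
  let s : ℕ → ℂ → ℂ := fun N u => ((-(θ * Real.log N) : ℝ) : ℂ) + (z₀ + u)
  have hlog : Tendsto (fun N : ℕ => Real.log N) atTop atTop :=
    Real.tendsto_log_atTop.comp tendsto_natCast_atTop_atTop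
  have hsmall : ∀ δ > 0, ∀ᶠ N in atTop, ∀ u ∈ ball (0 : ℂ) 1, ‖Complex.exp (s N u)‖ < δ := by
    intro δ hδ
    have h1 : ∀ᶠ N : ℕ in atTop, ‖z₀‖ + 1 - Real.log δ < θ * Real.log N :=
      (hlog.const_mul_atTop hθ).eventually_gt_atTop _
    filter_upwards [h1] with N hN u hu
    rw [Complex.norm_exp, ← Real.lt_log_iff_exp_lt hδ]
    have h2 : (s N u).re = -(θ * Real.log N) + (z₀ + u).re := by
      simp only [s, Complex.add_re, Complex.ofReal_re]
    have h3 : (z₀ + u).re ≤ ‖z₀‖ + 1 := by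
      refine (Complex.re_le_norm _).trans ((norm_add_le _ _).trans ?_)
      have := (mem_ball_zero_iff.1 hu).le
      linarith
    rw [h2]
    linarith
  obtain ⟨δ, hδ, C, hδC⟩ := hg.exists_bound
  have hloc : ∀ᶠ t in 𝓝 (0 : ℂ), (∀ m ∈ M, AnalyticAt ℂ (h m) t) ∧
      (t ≠ 0 → ∀ m ∈ P.support, eval (germ a ℓ t) (P.coeff m) =
        if m ∈ M then t ^ v m * h m t else 0) := by
    refine Eventually.and ?_ ?_
    · rw [Finset.eventually_all]
      intro m hm
      exact (hvh m ((hMo m).1 hm)).2.1.eventually_analyticAt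
    · have h1 : ∀ᶠ t in 𝓝[≠] (0 : ℂ), ∀ m ∈ P.support, eval (germ a ℓ t) (P.coeff m) =
          if m ∈ M then t ^ v m * h m t else 0 := by
        rw [Finset.eventually_all]
        intro m _
        by_cases hm : m ∈ M
        · simp only [hm, if_true]
          exact (hvh m ((hMo m).1 hm)).2.2.2
        · simp only [hm, if_false]
          have h2 : o m = ⊤ := by
            by_contra h3
            exact hm ((hMo m).2 h3)
          exact meromorphicOrderAt_eq_top_iff.1 h2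
      rw [eventually_nhdsWithin_iff] at h1
      filter_upwards [h1] with t ht ht0
      exact ht ht0
  obtain ⟨δ', hδ', hloc'⟩ := Metric.eventually_nhds_iff.1 hloc
  let V : ℕ → ℂ → Fin n → ℂ := fun N u i =>
    ζ i + (N : ℂ)⁻¹ * (a i * s N u + ℓ i (Complex.exp (s N u)))
  have hV : UConv (ball (0 : ℂ) 1) V (fun _ => ζ) := by
    refine UConv.pi fun i => ?_
    have h1 : UConv (ball (0 : ℂ) 1) (fun (_ : ℕ) (_ : ℂ) => ζ i) (fun _ => ζ i) :=
      UConv.const tendsto_const_nhds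
    have h2 : UConv (ball (0 : ℂ) 1)
        (fun (N : ℕ) (_ : ℂ) => (N : ℂ)⁻¹ * (a i * ((-(θ * Real.log N) : ℝ) : ℂ)))
        (fun _ => 0) := by
      apply UConv.const
      have h3 : Tendsto (fun N : ℕ => Real.log N / (N : ℝ)) atTop (𝓝 0) :=
        (Real.isLittleO_log_id_atTop.tendsto_div_nhds_zero).comp tendsto_natCast_atTop_atTop
      have h4 : Tendsto (fun N : ℕ => ((Real.log N / (N : ℝ) : ℝ) : ℂ)) atTop (𝓝 ((0 : ℝ) : ℂ)) :=
        (Complex.continuous_ofReal.tendsto _).comp h3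
      have h5 := h4.mul_const ((a i : ℂ) * (-θ : ℂ))
      rw [Complex.ofReal_zero, zero_mul] at h5
      refine h5.congr fun N => ?_
      push_cast
      rw [div_eq_mul_inv]
      ring
    have h6 : UConv (ball (0 : ℂ) 1)
        (fun (N : ℕ) (u : ℂ) => (N : ℂ)⁻¹ * (a i * (z₀ + u) + ℓ i (Complex.exp (s N u))))
        (fun _ => 0) := by
      refine UConv.zero_of_mul_bounded tendsto_inv_atTop_nhds_zero_nat
        (C := ‖(a i : ℂ)‖ * (‖z₀‖ + 1) + C) ?_
      filter_upwards [hsmall δ hδ] with N hN u hu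
      refine (norm_add_le _ _).trans (add_le_add ?_ ((hδC _ (mem_ball_zero_iff.2 (hN u hu))).1 i).2)
      rw [norm_mul]
      gcongr
      refine (norm_add_le _ _).trans ?_
      have := (mem_ball_zero_iff.1 hu).le
      linarith
    have h7 := h1.add (h2.add h6)
    simp only [add_zero] at h7
    refine h7.congr (Eventually.of_forall fun N u _ => ?_)
    simp only [V, s]
    ring
  let c : ℕ → (Fin n →₀ ℕ) → ℂ := fun N m =>
    (((N : ℝ) ^ ((m.degree : ℝ) - θ * v m - E) : ℝ) : ℂ)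
  have hc : ∀ m ∈ M, Tendsto (fun N => c N m) atTop (𝓝 (γ m)) := by
    intro m hm
    simp only [c, γ]
    by_cases h1 : (m.degree : ℝ) - θ * v m = E
    · rw [if_pos h1, h1, sub_self]
      simp only [Real.rpow_zero, Complex.ofReal_one]
      exact tendsto_const_nhds
    · rw [if_neg h1]
      have h2 : 0 < E - ((m.degree : ℝ) - θ * v m) :=
        sub_pos.2 (lt_of_le_of_ne (hE m hm) h1)
      have h3 : Tendsto (fun N : ℕ => (((N : ℝ) ^ (-(E - ((m.degree : ℝ) - θ * v m))) : ℝ) : ℂ))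
          atTop (𝓝 ((0 : ℝ) : ℂ)) :=
        (Complex.continuous_ofReal.tendsto _).comp
          ((tendsto_rpow_neg_atTop h2).comp tendsto_natCast_atTop_atTop)
      rw [Complex.ofReal_zero, neg_sub] at h3
      exact h3
  let G : ℕ → ℂ → ℂ := fun N u => ∑ m ∈ M, c N m * (Complex.exp (v m * (z₀ + u)) *
    (h m (Complex.exp (s N u)) * mon m (V N u)))
  have hGB : UConv (ball (0 : ℂ) 1) G B := by
    refine UConv.sum M fun m hm => ?_
    refine (UConv.const (hc m hm)).mul (UConv.mul ?_ (UConv.mul ?_ ?_))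
    · refine UConv.of_bounded (C := Real.exp (|(v m : ℝ)| * (‖z₀‖ + 1))) fun u hu => ?_
      rw [Complex.norm_exp]
      apply Real.exp_le_exp.2
      refine (Complex.re_le_norm _).trans ?_
      rw [norm_mul, Complex.norm_intCast]
      gcongr
      refine (norm_add_le _ _).trans ?_
      have := (mem_ball_zero_iff.1 hu).le
      linarith
    · exact UConv.comp_at_zero (hvh m ((hMo m).1 hm)).2.1.continuousAt hsmall
    · exact hV.comp (hmonc m)
  have hsd : ∀ N, Differentiable ℂ (s N) := fun N => by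
    simp only [s]
    fun_prop
  have hVd : ∀ᶠ N in atTop, ∀ i, DifferentiableOn ℂ (fun u => V N u i) (ball 0 1) := by
    filter_upwards [hsmall δ hδ] with N hN i
    simp only [V]
    refine (differentiableOn_const _).add (DifferentiableOn.const_mul
      (((hsd N).differentiableOn.const_mul _).add ?_) _)
    intro u hu
    have h1 := (((hδC _ (mem_ball_zero_iff.2 (hN u hu))).1 i).1).differentiableAt
    have h2 : DifferentiableAt ℂ (fun u => Complex.exp (s N u)) u := (hsd N u).cexp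
    exact (h1.comp u h2).differentiableWithinAt
  have hGd : ∀ᶠ N in atTop, DifferentiableOn ℂ (G N) (ball 0 1) := by
    filter_upwards [hVd, hsmall δ' hδ'] with N hVN hN
    simp only [G]
    refine DifferentiableOn.fun_sum fun m hm => ?_
    refine (DifferentiableOn.mul ?_ (DifferentiableOn.mul ?_ ?_)).const_mul _
    · exact (by fun_prop : Differentiable ℂ
        (fun u : ℂ => Complex.exp (v m * (z₀ + u)))).differentiableOn
    · intro u hu
      have h1 := ((hloc' (y := Complex.exp (s N u))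
        (by rw [dist_zero_right]; exact hN u hu)).1 m hm).differentiableAt
      have h2 : DifferentiableAt ℂ (fun u => Complex.exp (s N u)) u := (hsd N u).cexp
      exact (h1.comp u h2).differentiableWithinAt
    · simp only [mon]
      exact DifferentiableOn.fun_finsetProd fun i _ => (hVN i).pow _
  have key := UConv.exists_zero one_pos (hBd.analyticAt 0) hB0 hBne hGd hGB
  -- conclusion
  intro M₀
  have hζpos : 0 < ‖ζ ⟨0, hn⟩‖ := norm_pos_iff.2 hζ0
  have hbig : ∀ᶠ N : ℕ in atTop, 2 * |M₀| / ‖ζ ⟨0, hn⟩‖ < (N : ℝ) :=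
    tendsto_natCast_atTop_atTop.eventually_gt_atTop _
  obtain ⟨N, ⟨u, hu, hGu⟩, hNpos, hNbig, hN1, hN2, hN3⟩ := (key.and ((eventually_gt_atTop 0).and
    (hbig.and ((hsmall δ hδ).and ((hsmall δ' hδ').and
      (hV.2 (‖ζ ⟨0, hn⟩‖ / 2) (by positivity))))))).exists
  have hNR : (0 : ℝ) < N := by exact_mod_cast hNpos
  have hNC : (N : ℂ) ≠ 0 := by exact_mod_cast hNpos.ne'
  set t := Complex.exp (s N u) with ht
  have ht0 : t ≠ 0 := Complex.exp_ne_zero _
  have hx : curve a ℓ (fun i => (N : ℤ) * k i) (s N u) = fun i => (N : ℂ) * V N u i := by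
    funext i
    have h1 : ∀ x w : ℂ, (N : ℂ) * (x + (N : ℂ)⁻¹ * w) = N * x + w := by
      intro x w
      field_simp
    simp only [curve, V]
    rw [h1]
    simp only [hζdef]
    push_cast
    ring
  have hgermeq : (fun i => Complex.exp (curve a ℓ (fun i => (N : ℤ) * k i) (s N u) i)) =
      germ a ℓ t := by
    have := curve_mem (W := {germ a ℓ t}) (a := a) (ℓ := ℓ) (s := s N u) rfl
      (fun i => (N : ℤ) * k i)
    exact this
  refine ⟨curve a ℓ (fun i => (N : ℤ) * k i) (s N u), ?_, ?_, ?_⟩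
  · rw [hx]
    have h1 : ‖(N : ℂ) * V N u ⟨0, hn⟩‖ ≤ ‖(fun i => (N : ℂ) * V N u i)‖ :=
      norm_le_pi_norm (fun i => (N : ℂ) * V N u i) ⟨0, hn⟩
    refine lt_of_lt_of_le ?_ h1
    rw [norm_mul, Complex.norm_natCast]
    have h2 := hN3 u hu
    have h3 : ‖V N u ⟨0, hn⟩ - ζ ⟨0, hn⟩‖ ≤ ‖V N u - ζ‖ := norm_le_pi_norm (V N u - ζ) ⟨0, hn⟩
    have h4 : ‖ζ ⟨0, hn⟩‖ / 2 < ‖V N u ⟨0, hn⟩‖ := by
      have h5 : ‖ζ ⟨0, hn⟩‖ ≤ ‖V N u ⟨0, hn⟩‖ + ‖V N u ⟨0, hn⟩ - ζ ⟨0, hn⟩‖ := by
        have := norm_sub_le (V N u ⟨0, hn⟩) (V N u ⟨0, hn⟩ - ζ ⟨0, hn⟩)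
        rwa [sub_sub_cancel] at this
      linarith
    rw [div_lt_iff₀ hζpos] at hNbig
    have h6 := le_abs_self M₀
    nlinarith
  · rw [hgermeq, MvPolynomial.eval_map, MvPolynomial.eval₂_eq', hx]
    have h1 : ∀ m ∈ P.support, eval (germ a ℓ t) (P.coeff m) * ∏ i, ((N : ℂ) * V N u i) ^ m i =
        if m ∈ M then (((N : ℝ) ^ E : ℝ) : ℂ) * (c N m * (Complex.exp (v m * (z₀ + u)) *
          (h m t * mon m (V N u)))) else 0 := by
      intro m hm
      have h2 := (hloc' (y := t) (by rw [dist_zero_right]; exact hN2 u hu)).2 ht0 m hm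
      rw [h2]
      by_cases hmM : m ∈ M
      · rw [if_pos hmM, if_pos hmM]
        have h3 : ∏ i, ((N : ℂ) * V N u i) ^ m i = (N : ℂ) ^ m.degree * mon m (V N u) := by
          simp only [mon]
          simp_rw [mul_pow]
          rw [Finset.prod_mul_distrib, Finset.prod_pow_eq_pow_sum, Finsupp.degree_eq_sum]
        have h4 : t ^ v m = (((N : ℝ) ^ (-(θ * v m)) : ℝ) : ℂ) *
            Complex.exp (v m * (z₀ + u)) := by
          rw [ht, ← Complex.exp_int_mul, Real.rpow_def_of_pos hNR, Complex.ofReal_exp,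
            ← Complex.exp_add]
          congr 1
          simp only [s]
          push_cast
          ring
        have h5 : ((N : ℂ) ^ m.degree) * (((N : ℝ) ^ (-(θ * v m)) : ℝ) : ℂ) =
            (((N : ℝ) ^ E : ℝ) : ℂ) * c N m := by
          simp only [c]
          have h6 : (N : ℝ) ^ m.degree * (N : ℝ) ^ (-(θ * v m)) =
              (N : ℝ) ^ E * (N : ℝ) ^ ((m.degree : ℝ) - θ * v m - E) := by
            rw [← Real.rpow_natCast, ← Real.rpow_add hNR, ← Real.rpow_add hNR]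
            congr 1
            ring
          exact_mod_cast congrArg (fun r : ℝ => (r : ℂ)) h6
        rw [h3, h4]
        calc (((N : ℝ) ^ (-(θ * v m)) : ℝ) : ℂ) * Complex.exp (v m * (z₀ + u)) * h m t *
              ((N : ℂ) ^ m.degree * mon m (V N u)) =
              ((N : ℂ) ^ m.degree * (((N : ℝ) ^ (-(θ * v m)) : ℝ) : ℂ)) *
                (Complex.exp (v m * (z₀ + u)) * (h m t * mon m (V N u))) := by ring
          _ = _ := by rw [h5]; ring
      · rw [if_neg hmM, if_neg hmM, zero_mul]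
    rw [Finset.sum_congr rfl h1, ← Finset.sum_filter]
    have h2 : P.support.filter (fun m => m ∈ M) = M := by
      ext m
      rw [Finset.mem_filter]
      exact ⟨fun h => h.2, fun h => ⟨hosupp m ((hMo m).1 h), h⟩⟩
    rw [h2, ← Finset.mul_sum]
    change _ * G N u = 0
    rw [hGu, mul_zero]
  · rw [hgermeq]
    exact (hδC _ (mem_ball_zero_iff.2 (hN1 u hu))).2 ht0

end Pool.Agent.Lib.MP_209724_lc
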