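import Mathlib
import Pool.Agent.Lib.MP_209724_lc.Bounded

/-!
Polynomials `P(x, y)`, and zeros near an interior germ.
-/

namespace Pool.Agent.Lib.MP_209724_lc

open Filter Topology Metric Complex MvPolynomial

variable {n : ℕ}

/-- The value `P(x, y)` of a polynomial in `x` with coefficients in `ℂ[y]`. -/
noncomputable def eval2 (P : MvPolynomial (Fin n) (MvPolynomial (Fin n) ℂ))
    (x y : Fin n → ℂ) : ℂ :=
  eval x (MvPolynomial.map (eval y) P)

theorem eval2_C (c : MvPolynomial (Fin n) ℂ) (x y : Fin n → ℂ) : eval2 (C c) x y = eval y c := by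
  simp [eval2]

theorem eval2_X (i : Fin n) (x y : Fin n → ℂ) :
    eval2 (X i : MvPolynomial (Fin n) (MvPolynomial (Fin n) ℂ)) x y = x i := by
  simp [eval2]

theorem eval2_add (P Q : MvPolynomial (Fin n) (MvPolynomial (Fin n) ℂ)) (x y : Fin n → ℂ) :
    eval2 (P + Q) x y = eval2 P x y + eval2 Q x y := by
  simp [eval2]

theorem eval2_mul (P Q : MvPolynomial (Fin n) (MvPolynomial (Fin n) ℂ)) (x y : Fin n → ℂ) :
    eval2 (P * Q) x y = eval2 P x y * eval2 Q x y := by
  simp [eval2]

theorem eval2_sum {ι : Type*} (s : Finset ι)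
    (P : ι → MvPolynomial (Fin n) (MvPolynomial (Fin n) ℂ)) (x y : Fin n → ℂ) :
    eval2 (∑ j ∈ s, P j) x y = ∑ j ∈ s, eval2 (P j) x y := by
  simp [eval2, map_sum]

theorem continuous_eval2 (P : MvPolynomial (Fin n) (MvPolynomial (Fin n) ℂ)) :
    Continuous (fun p : (Fin n → ℂ) × (Fin n → ℂ) => eval2 P p.1 p.2) := by
  induction P using MvPolynomial.induction_on with
  | C c =>
    simp only [eval2_C]
    exact (MvPolynomial.continuous_eval c).comp continuous_snd
  | add p q hp hq =>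
    simp only [eval2_add]
    exact hp.add hq
  | mul_X p i hp =>
    simp only [eval2_mul, eval2_X]
    exact hp.mul ((continuous_apply i).comp continuous_fst)

theorem differentiableOn_eval2 (P : MvPolynomial (Fin n) (MvPolynomial (Fin n) ℂ))
    {v w : ℂ → Fin n → ℂ} {s : Set ℂ} (hv : ∀ i, DifferentiableOn ℂ (fun u => v u i) s)
    (hw : ∀ i, DifferentiableOn ℂ (fun u => w u i) s) :
    DifferentiableOn ℂ (fun u => eval2 P (v u) (w u)) s := by
  induction P using MvPolynomial.induction_on with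
  | C c =>
    simp only [eval2_C]
    exact differentiableOn_eval hw c
  | add p q hp hq =>
    simp only [eval2_add]
    exact hp.add hq
  | mul_X p i hp =>
    simp only [eval2_mul, eval2_X]
    exact hp.mul (hv i)

theorem eval2_smul {P : MvPolynomial (Fin n) (MvPolynomial (Fin n) ℂ)} {j : ℕ}
    (hP : P.IsHomogeneous j) (N : ℂ) (v y : Fin n → ℂ) :
    eval2 P (fun i => N * v i) y = N ^ j * eval2 P v y := by
  unfold eval2
  exact eval_mul_of_isHomogeneous (hP.map _) N v

/-- The rescaled polynomial `h ^ d P(v / h, y)`. -/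
noncomputable def rescaled2 (P : MvPolynomial (Fin n) (MvPolynomial (Fin n) ℂ)) (d : ℕ) (h : ℂ)
    (v y : Fin n → ℂ) : ℂ :=
  ∑ j ∈ Finset.range (d + 1), h ^ (d - j) * eval2 (homogeneousComponent j P) v y

theorem continuous_rescaled2 (P : MvPolynomial (Fin n) (MvPolynomial (Fin n) ℂ)) (d : ℕ) :
    Continuous (fun p : ℂ × (Fin n → ℂ) × (Fin n → ℂ) => rescaled2 P d p.1 p.2.1 p.2.2) := by
  unfold rescaled2
  refine continuous_finsetSum _ fun j _ => ?_
  exact (continuous_fst.pow _).mul ((continuous_eval2 _).comp continuous_snd)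

theorem rescaled2_zero (P : MvPolynomial (Fin n) (MvPolynomial (Fin n) ℂ)) (d : ℕ)
    (v y : Fin n → ℂ) : rescaled2 P d 0 v y = eval2 (homogeneousComponent d P) v y := by
  unfold rescaled2
  rw [Finset.sum_range_succ, Finset.sum_eq_zero]
  · simp
  · intro j hj
    rw [zero_pow (by have := Finset.mem_range.mp hj; omega), zero_mul]

theorem sum_homogeneousComponent_le (P : MvPolynomial (Fin n) (MvPolynomial (Fin n) ℂ)) {d : ℕ}
    (hd : P.totalDegree ≤ d) : ∑ j ∈ Finset.range (d + 1), homogeneousComponent j P = P := by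
  conv_rhs => rw [← MvPolynomial.sum_homogeneousComponent P]
  symm
  apply Finset.sum_subset
  · intro j hj
    rw [Finset.mem_range] at hj ⊢
    omega
  · intro j _ hj
    rw [Finset.mem_range] at hj
    exact homogeneousComponent_eq_zero _ _ (by omega)

theorem eval2_eq_rescaled2 (P : MvPolynomial (Fin n) (MvPolynomial (Fin n) ℂ)) {d : ℕ}
    (hd : P.totalDegree ≤ d) {N : ℂ} (hN : N ≠ 0) (v y : Fin n → ℂ) :
    eval2 P (fun i => N * v i) y = N ^ d * rescaled2 P d N⁻¹ v y := by
  conv_lhs => rw [← sum_homogeneousComponent_le P hd]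
  rw [eval2_sum]
  unfold rescaled2
  rw [Finset.mul_sum]
  refine Finset.sum_congr rfl fun j hj => ?_
  rw [eval2_smul (MvPolynomial.homogeneousComponent_isHomogeneous j P)]
  have h2 : j ≤ d := by have := Finset.mem_range.mp hj; omega
  have h3 : N ^ d = N ^ j * N ^ (d - j) := by rw [← pow_add]; congr 1; omega
  rw [h3, inv_pow]
  have h4 : N ^ (d - j) ≠ 0 := pow_ne_zero _ hN
  field_simp

/-- **Step B.** Zeros near an interior germ, at a point of which the leading form has a real
isotropic direction. -/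
theorem stepB {W : Set (Fin n → ℂ)} {ℓ : Fin n → ℂ → ℂ} (hg : IsGerm W 0 ℓ)
    (h0W : (fun i => exp (ℓ i 0)) ∈ W)
    (P : MvPolynomial (Fin n) (MvPolynomial (Fin n) ℂ)) (d : ℕ) (hd : P.totalDegree ≤ d)
    (ξ : Fin n → ℝ) (hξ : ξ ≠ 0)
    (h0 : eval2 (homogeneousComponent d P) (fun i => I * ξ i) (fun i => exp (ℓ i 0)) = 0)
    (hne : ∃ᶠ t in 𝓝 (0 : ℂ),
      eval2 (homogeneousComponent d P) (fun i => I * ξ i) (fun i => exp (ℓ i t)) ≠ 0) :
    Solv2 P W := by
  obtain ⟨R, kN, hR, hk⟩ := exists_approx ξ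
  obtain ⟨δ, hδ, C, hδC⟩ := hg.exists_bound
  have hRc : Tendsto (fun N => ((R N : ℂ))⁻¹) atTop (𝓝 0) := by
    have h1 : Tendsto (fun N => (((R N)⁻¹ : ℝ) : ℂ)) atTop (𝓝 ((0 : ℝ) : ℂ)) :=
      (Complex.continuous_ofReal.tendsto _).comp (tendsto_inv_atTop_zero.comp hR)
    simpa using h1
  have hRpos : ∀ᶠ N in atTop, (R N : ℂ) ≠ 0 := by
    filter_upwards [hR.eventually_gt_atTop 0] with N hN
    exact_mod_cast hN.ne'
  have hC0 : 0 ≤ C ∨ n = 0 := by
    rcases Nat.eq_zero_or_pos n with h | h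
    · exact Or.inr h
    · exact Or.inl ((norm_nonneg _).trans ((hδC 0 (mem_ball_self hδ)).1 ⟨0, h⟩).2)
  -- errors
  let E : ℕ → Fin n → ℂ := fun N i => (2 * Real.pi * I * kN N i : ℂ) - R N * (I * ξ i)
  have hE : ∀ i, Tendsto (fun N => E N i) atTop (𝓝 0) := by
    intro i
    have h3 : Tendsto (fun N => ((2 * Real.pi * (kN N i : ℝ) - R N * ξ i : ℝ) : ℂ) * I) atTop
        (𝓝 (((0 : ℝ) : ℂ) * I)) :=
      ((Complex.continuous_ofReal.tendsto _).comp (hk i)).mul_const _
    rw [Complex.ofReal_zero, zero_mul] at h3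
    refine h3.congr fun N => ?_
    simp only [E]
    push_cast
    ring
  let v : ℕ → ℂ → Fin n → ℂ := fun N t i => I * ξ i + (R N : ℂ)⁻¹ * (ℓ i t + E N i)
  have hv : UConv (ball (0 : ℂ) δ) v (fun _ i => I * ξ i) := by
    refine UConv.pi fun i => ?_
    have h1 : UConv (ball (0 : ℂ) δ) (fun _ _ => I * (ξ i : ℂ)) (fun _ => I * (ξ i : ℂ)) :=
      UConv.const tendsto_const_nhds
    have h2 : UConv (ball (0 : ℂ) δ) (fun N t => (R N : ℂ)⁻¹ * (ℓ i t + E N i)) (fun _ => 0) := by
      refine UConv.zero_of_mul_bounded hRc (C := C + 1) ?_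
      have h3 : ∀ᶠ N in atTop, ‖E N i‖ < 1 := by
        have := (hE i).norm
        rw [norm_zero] at this
        exact this.eventually_lt_const one_pos
      filter_upwards [h3] with N hN t ht
      refine (norm_add_le _ _).trans (add_le_add ((hδC t ht).1 i).2 hN.le)
    have h3 := h1.add h2
    simp only [add_zero] at h3
    exact h3
  have hy : UConv (ball (0 : ℂ) δ) (fun (_ : ℕ) t i => exp (ℓ i t)) (fun t i => exp (ℓ i t)) := by
    refine UConv.pi fun i => ?_
    refine UConv.of_bounded (C := Real.exp C) fun t ht => ?_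
    rw [Complex.norm_exp]
    exact Real.exp_le_exp.mpr ((Complex.re_le_norm _).trans ((hδC t ht).1 i).2)
  let G : ℕ → ℂ → ℂ := fun N t => rescaled2 P d (R N : ℂ)⁻¹ (v N t) (fun i => exp (ℓ i t))
  let B : ℂ → ℂ := fun t =>
    eval2 (homogeneousComponent d P) (fun i => I * ξ i) (fun i => exp (ℓ i t))
  have hGB : UConv (ball (0 : ℂ) δ) G B := by
    have h1 := ((UConv.const (s := ball (0 : ℂ) δ) hRc).prodMk (hv.prodMk hy)).comp
      (continuous_rescaled2 P d)
    simp only [rescaled2_zero] at h1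
    exact h1
  have hℓd : ∀ i, DifferentiableOn ℂ (ℓ i) (ball 0 δ) := fun i t ht =>
    (((hδC t ht).1 i).1).differentiableAt.differentiableWithinAt
  have hyd : ∀ i, DifferentiableOn ℂ (fun t => exp (ℓ i t)) (ball 0 δ) := fun i => (hℓd i).cexp
  have hBd : DifferentiableOn ℂ B (ball 0 δ) :=
    differentiableOn_eval2 _ (fun i => differentiableOn_const _) hyd
  have hGd : ∀ N, DifferentiableOn ℂ (G N) (ball 0 δ) := by
    intro N
    simp only [G, rescaled2]
    refine DifferentiableOn.fun_sum fun j _ => (differentiableOn_const _).mul ?_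
    refine differentiableOn_eval2 _ (fun i => ?_) hyd
    exact (differentiableOn_const _).add
      ((differentiableOn_const _).mul ((hℓd i).add (differentiableOn_const _)))
  have key := UConv.exists_zero hδ (hBd.analyticAt (ball_mem_nhds 0 hδ)) h0 hne
    (Eventually.of_forall hGd) hGB
  intro M
  -- the norm of `x`
  have hbig : ∀ᶠ N in atTop, ∀ t ∈ ball (0 : ℂ) δ, M < ‖fun i => (R N : ℂ) * v N t i‖ := by
    obtain ⟨i₀, hi₀⟩ : ∃ i, ξ i ≠ 0 := by
      by_contra hcon
      push Not at hcon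
      exact hξ (funext hcon)
    have h1 : Tendsto (fun N => R N * |ξ i₀| - (C + 1)) atTop atTop :=
      tendsto_atTop_add_const_right _ _ (hR.atTop_mul_const (abs_pos.mpr hi₀))
    have h3 : ∀ᶠ N in atTop, ‖E N i₀‖ < 1 := by
      have := (hE i₀).norm
      rw [norm_zero] at this
      exact this.eventually_lt_const one_pos
    filter_upwards [h1.eventually_gt_atTop M, h3, hRpos, hR.eventually_gt_atTop 0]
      with N h4 h5 h6 h7 t ht
    refine lt_of_lt_of_le h4 (le_trans ?_ (norm_le_pi_norm _ i₀))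
    have h8 : (R N : ℂ) * v N t i₀ = R N * (I * ξ i₀) + (ℓ i₀ t + E N i₀) := by
      simp only [v]
      field_simp
    rw [h8]
    have h9 := norm_sub_le_norm_add ((R N : ℂ) * (I * ξ i₀)) (ℓ i₀ t + E N i₀)
    have h10 : ‖(R N : ℂ) * (I * ξ i₀)‖ = R N * |ξ i₀| := by
      rw [norm_mul, norm_mul, Complex.norm_I, one_mul, Complex.norm_real, Complex.norm_real,
        Real.norm_eq_abs, Real.norm_eq_abs, abs_of_pos h7]
    have h11 : ‖ℓ i₀ t + E N i₀‖ ≤ C + 1 :=
      (norm_add_le _ _).trans (add_le_add ((hδC t ht).1 i₀).2 h5.le)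
    linarith
  obtain ⟨N, ⟨t, ht, ht0⟩, hN, hN0⟩ := (key.and (hbig.and hRpos)).exists
  have hx : ∀ i, (R N : ℂ) * v N t i = ℓ i t + (kN N i : ℂ) * (2 * Real.pi * I) := by
    intro i
    simp only [v, E]
    field_simp
    ring
  have hexp : (fun i => exp ((R N : ℂ) * v N t i)) = fun i => exp (ℓ i t) := by
    funext i
    rw [hx i, Complex.exp_add, Complex.exp_int_mul_two_pi_mul_I, mul_one]
  refine ⟨fun i => (R N : ℂ) * v N t i, hN t ht, ?_, ?_⟩
  · change eval2 P (fun i => (R N : ℂ) * v N t i) (fun i => exp ((R N : ℂ) * v N t i)) = 0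
    rw [hexp, eval2_eq_rescaled2 P hd hN0]
    change (R N : ℂ) ^ d * G N t = 0
    rw [ht0, mul_zero]
  · rw [hexp]
    by_cases htz : t = 0
    · rw [htz]
      exact h0W
    · have := (hδC t ht).2 htz
      have h1 : germ 0 ℓ t = fun i => exp (ℓ i t) := by
        funext i
        simp [germ]
      rwa [h1] at this

end Pool.Agent.Lib.MP_209724_lc
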