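import Mathlib
import Pool.Agent.Lib.MP_209724_lc.FreeHyp
import Pool.Agent.Lib.MP_209724_lc.StepA
import Pool.Agent.Lib.MP_209724_lc.StepB
import Pool.Agent.Lib.MP_209724_lc.GermExist2

/-!
Hypersurfaces over a free curve.
-/

namespace Pool.Agent.Lib.MP_209724_lc

open Filter Topology Complex MvPolynomial

variable {n : ℕ}

theorem eval2_eq_sum (P : MvPolynomial (Fin n) (MvPolynomial (Fin n) ℂ)) (x y : Fin n → ℂ) :
    eval2 P x y = ∑ m ∈ P.support, eval y (P.coeff m) * ∏ i, x i ^ m i := by
  conv_lhs => rw [P.as_sum]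
  rw [eval2_sum]
  refine Finset.sum_congr rfl fun m _ => ?_
  unfold eval2
  rw [map_monomial, eval_monomial, Finsupp.prod_fintype _ _ (fun i => pow_zero _)]

/-- The exponents of Kronecker's substitution. -/
def kron (d : ℕ) (m : Fin n →₀ ℕ) : ℕ := ∑ i, m i * (d + 1) ^ (i : ℕ)

theorem kron_inj {d : ℕ} {m m' : Fin n →₀ ℕ} (h : ∀ i, m i ≤ d) (h' : ∀ i, m' i ≤ d)
    (he : kron d m = kron d m') : m = m' := by
  let f : Fin n → Fin (d + 1) := fun i => ⟨m i, Nat.lt_succ_of_le (h i)⟩
  let f' : Fin n → Fin (d + 1) := fun i => ⟨m' i, Nat.lt_succ_of_le (h' i)⟩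
  have h1 : f = f' := by
    apply (finFunctionFinEquiv (m := d + 1) (n := n)).injective
    apply Fin.ext
    rw [finFunctionFinEquiv_apply_val, finFunctionFinEquiv_apply_val]
    exact he
  ext i
  have h2 := congrFun h1 i
  exact congrArg Fin.val h2

theorem le_of_degree {d : ℕ} {m : Fin n →₀ ℕ} (h : m.degree = d) (i : Fin n) : m i ≤ d := by
  rw [← h]
  exact Finsupp.le_degree i m

/-- The leading form restricted to Kronecker's curve. -/
noncomputable def kronPoly (P : MvPolynomial (Fin n) (MvPolynomial (Fin n) ℂ)) (d : ℕ) :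
    Polynomial (MvPolynomial (Fin n) ℂ) :=
  ∑ m ∈ P.support.filter (fun m => m.degree = d), Polynomial.monomial (kron d m) (P.coeff m)

theorem kronPoly_coeff (P : MvPolynomial (Fin n) (MvPolynomial (Fin n) ℂ)) {d : ℕ}
    {m : Fin n →₀ ℕ} (hm : m.degree = d) : (kronPoly P d).coeff (kron d m) = P.coeff m := by
  classical
  unfold kronPoly
  rw [Polynomial.finsetSum_coeff, Finset.sum_eq_single m]
  · rw [Polynomial.coeff_monomial, if_pos rfl]
  · intro m' hm' hne
    rw [Polynomial.coeff_monomial, if_neg]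
    intro h
    exact hne (kron_inj (le_of_degree (Finset.mem_filter.mp hm').2) (le_of_degree hm) h)
  · intro h
    rw [Finset.mem_filter, not_and_or, mem_support_iff, not_not] at h
    rcases h with h | h
    · rw [h, Polynomial.coeff_monomial, if_pos rfl]
    · exact absurd hm h

theorem eval_kronPoly (P : MvPolynomial (Fin n) (MvPolynomial (Fin n) ℂ)) (d : ℕ) (lam : ℂ)
    (y : Fin n → ℂ) : eval y ((kronPoly P d).eval (C lam)) =
      eval2 (homogeneousComponent d P) (fun i => lam ^ ((d + 1) ^ (i : ℕ))) y := by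
  classical
  rw [homogeneousComponent_apply, eval2_sum]
  unfold kronPoly
  rw [Polynomial.eval_finsetSum, map_sum]
  refine Finset.sum_congr rfl fun m _ => ?_
  unfold eval2
  rw [map_monomial, eval_monomial, Finsupp.prod_fintype _ _ (fun i => pow_zero _),
    Polynomial.eval_monomial, map_mul, map_pow, eval_C]
  congr 1
  unfold kron
  rw [← Finset.prod_pow_eq_pow_sum]
  refine Finset.prod_congr rfl fun i _ => ?_
  rw [← pow_mul, mul_comm]

theorem finite_mem {J : Ideal (MvPolynomial (Fin n) ℂ)} (hJ : J.IsPrime)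
    (F : Polynomial (MvPolynomial (Fin n) ℂ)) {k : ℕ} (hk : F.coeff k ∉ J) :
    {lam : ℝ | F.eval (C (lam : ℂ)) ∈ J}.Finite := by
  classical
  let F' := F.map (Ideal.Quotient.mk J)
  have hF' : F' ≠ 0 := by
    intro h
    apply hk
    rw [← Ideal.Quotient.eq_zero_iff_mem, ← Polynomial.coeff_map]
    change F'.coeff k = 0
    rw [h, Polynomial.coeff_zero]
  have hfin : {z | F'.IsRoot z}.Finite := Polynomial.finite_setOfPred_isRoot hF'
  have hinj : Function.Injective
      (fun lam : ℝ => (Ideal.Quotient.mk J (C (lam : ℂ)) : MvPolynomial (Fin n) ℂ ⧸ J)) := by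
    intro a b hab
    have h1 : (C ((a : ℂ) - b) : MvPolynomial (Fin n) ℂ) ∈ J := by
      rw [C_sub, ← Ideal.Quotient.eq_zero_iff_mem, map_sub]
      exact sub_eq_zero.mpr hab
    by_contra hne
    apply hJ.ne_top
    apply Ideal.eq_top_of_isUnit_mem _ h1
    refine (isUnit_iff_ne_zero.mpr ?_).map C
    rw [sub_ne_zero]
    exact_mod_cast hne
  refine (hfin.preimage hinj.injOn).subset ?_
  intro lam hlam
  change F'.eval (Ideal.Quotient.mk J (C (lam : ℂ))) = 0
  simp only [F']
  rw [Polynomial.eval_map_apply, Ideal.Quotient.eq_zero_iff_mem]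
  exact hlam

/-- **Hypersurfaces over a free curve.** -/
theorem solv2_main {J : Ideal (MvPolynomial (Fin n) ℂ)} (hJ : IsFreeCurve J)
    {D : MvPolynomial (Fin n) ℂ} (hD : D ∉ J)
    (P : MvPolynomial (Fin n) (MvPolynomial (Fin n) ℂ)) (hP0 : P ≠ 0)
    (hPc : ∀ m, P.coeff m ≠ 0 → P.coeff m ∉ J)
    (hirr : ∀ (P₀ : MvPolynomial (Fin n) ℂ) (c : MvPolynomial (Fin n) ℂ), c ∉ J →
        (∀ m, P.coeff m - C (P₀.coeff m) * c ∈ J) → Irreducible P₀)
    (hfree : ∀ (P₀ : MvPolynomial (Fin n) ℂ) (c : MvPolynomial (Fin n) ℂ), c ∉ J →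
        (∀ m, P.coeff m - C (P₀.coeff m) * c ∈ J) → ∀ m : Fin n → ℤ, m ≠ 0 → ∀ c : ℂ,
          ∃ x : Fin n → ℂ, eval x P₀ = 0 ∧ ∑ i, (m i : ℂ) * x i ≠ c) :
    Solv2 P (openLocus J D) := by
  classical
  set d := P.totalDegree with hd
  obtain ⟨m₀, hm₀, hm₀0⟩ : ∃ m₀ : Fin n →₀ ℕ, m₀.degree = d ∧ P.coeff m₀ ≠ 0 := by
    obtain ⟨m, hm, hmd⟩ := Finset.exists_mem_eq_sup P.support (support_nonempty.mpr hP0)
      (fun m => m.sum fun _ e => e)
    refine ⟨m, ?_, mem_support_iff.mp hm⟩
    rw [hd, totalDegree, hmd]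
    rfl
  set c₀ := P.coeff m₀ with hc₀
  have hc₀J : c₀ ∉ J := hPc m₀ hm₀0
  have hprime := hJ.prime
  by_cases hi : ∃ m₁ m₂ : Fin n →₀ ℕ, m₁.degree = d ∧ m₂.degree = d ∧
      ∀ α β : ℂ, C α * P.coeff m₁ + C β * P.coeff m₂ ∈ J → α = 0 ∧ β = 0
  · -- Step B
    obtain ⟨m₁, m₂, hm₁, hm₂, hind⟩ := hi
    have hc₁ : (kronPoly P d).coeff (kron d m₁) ∉ J := by
      rw [kronPoly_coeff P hm₁]
      intro h
      have := hind 1 0 (by simpa using h)
      exact one_ne_zero this.1
    obtain ⟨lam, hlam, ℓ, hg, hD0, hz⟩ := hJ.exists_germ_zero (kronPoly P d) (kron d m₁)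
      (kron d m₂) (by rw [kronPoly_coeff P hm₁, kronPoly_coeff P hm₂]; exact hind) D hD
      (insert 0 {lam : ℝ | (kronPoly P d).eval (C (lam : ℂ)) ∈ J})
      ((finite_mem hprime _ hc₁).countable.insert _)
    rw [Set.mem_insert_iff, not_or] at hlam
    have hlam0 : lam ≠ 0 := hlam.1
    have hlamJ : (kronPoly P d).eval (C (lam : ℂ)) ∉ J := hlam.2
    have hev : ∀ y : Fin n → ℂ, eval2 (homogeneousComponent d P)
        (fun i => I * ((lam ^ ((d + 1) ^ (i : ℕ)) : ℝ) : ℂ)) y =
        I ^ d * eval y ((kronPoly P d).eval (C (lam : ℂ))) := by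
      intro y
      rw [eval2_smul (homogeneousComponent_isHomogeneous d P), eval_kronPoly]
      push_cast
      rfl
    refine stepB (hg.restrict hJ hD) ⟨hg.mem_zero, hD0⟩ P d le_rfl
      (fun i => lam ^ ((d + 1) ^ (i : ℕ))) ?_ ?_ ?_
    · intro h
      rcases Nat.eq_zero_or_pos n with h0 | h0
      · subst h0
        have h1 : m₁ = m₂ := Subsingleton.elim _ _
        have h2 := hind 1 (-1) (by rw [h1]; simp)
        exact one_ne_zero h2.1
      · have h1 := congrFun h ⟨0, h0⟩
        exact pow_ne_zero _ hlam0 h1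
    · rw [hev, hz, mul_zero]
    · have h1 := eventually_ne_of_notMem hJ hg _ hlamJ
      have h2 : ∃ᶠ t in 𝓝[≠] (0 : ℂ), eval (germ 0 ℓ t)
          ((kronPoly P d).eval (C (lam : ℂ))) ≠ 0 := h1.frequently
      refine (h2.filter_mono nhdsWithin_le_nhds).mono fun t ht => ?_
      rw [hev]
      refine mul_ne_zero (pow_ne_zero _ I_ne_zero) ?_
      have h3 : germ 0 ℓ t = fun i => exp (ℓ i t) := by
        funext i
        simp [germ]
      rwa [h3] at ht
  · -- the leading coefficients are proportional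
    have hprop : ∀ m : Fin n →₀ ℕ, m.degree = d → ∃ lam : ℂ, P.coeff m - C lam * c₀ ∈ J := by
      intro m hm
      push Not at hi
      obtain ⟨α, β, hmem, hne⟩ := hi m₀ m hm₀ hm
      have hβ : β ≠ 0 := by
        rintro rfl
        have hα : α ≠ 0 := fun h0 => hne h0 rfl
        apply hc₀J
        have h1 : (C α⁻¹ : MvPolynomial (Fin n) ℂ) * (C α * c₀) ∈ J := by
          apply J.mul_mem_left
          simpa using hmem
        rwa [← mul_assoc, ← C_mul, inv_mul_cancel₀ hα, C_1, one_mul] at h1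
      refine ⟨-(β⁻¹ * α), ?_⟩
      have h1 := J.mul_mem_left (C β⁻¹) hmem
      have h2 : (C β⁻¹ : MvPolynomial (Fin n) ℂ) * (C α * P.coeff m₀ + C β * P.coeff m) =
          P.coeff m - C (-(β⁻¹ * α)) * c₀ := by
        have h3 : (C β⁻¹ : MvPolynomial (Fin n) ℂ) * C β = 1 := by
          rw [← C_mul, inv_mul_cancel₀ hβ, C_1]
        rw [C_neg, C_mul]
        linear_combination (P.coeff m) * h3
      rwa [h2] at h1
    by_cases hall : ∀ m : Fin n →₀ ℕ, ∃ lam : ℂ, P.coeff m - C lam * c₀ ∈ J
    · -- the product case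
      choose lam hlam using hall
      set P₀ : MvPolynomial (Fin n) ℂ := ∑ m ∈ P.support, monomial m (lam m) with hP₀
      have hcoeff : ∀ m, P₀.coeff m = if m ∈ P.support then lam m else 0 := by
        intro m
        rw [hP₀, coeff_sum]
        simp only [coeff_monomial]
        rw [Finset.sum_ite_eq' P.support m]
      have hmem : ∀ m, P.coeff m - C (P₀.coeff m) * c₀ ∈ J := by
        intro m
        rw [hcoeff]
        by_cases hm : m ∈ P.support
        · rw [if_pos hm]
          exact hlam m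
        · rw [if_neg hm, notMem_support_iff.mp hm]
          simp
      have hirr₀ := hirr P₀ c₀ hc₀J hmem
      have hfree₀ := hfree P₀ c₀ hc₀J hmem
      have hn : 2 ≤ n := two_le_of_free P₀ hirr₀ hfree₀
      intro M
      obtain ⟨x, h1, h2, h3⟩ := main' hn P₀ hirr₀ (ne_lin_of_free P₀ hirr₀ hfree₀) J hJ D hD M
      refine ⟨x, h1, ?_, h3⟩
      change eval2 P x (fun i => Complex.exp (x i)) = 0
      rw [eval2_eq_sum]
      have h4 : ∀ m ∈ P.support, eval (fun i => Complex.exp (x i)) (P.coeff m) *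
          ∏ i, x i ^ m i = eval (fun i => Complex.exp (x i)) c₀ *
            (P₀.coeff m * ∏ i, x i ^ m i) := by
        intro m _
        have h5 := h3.1.2 _ (hmem m)
        rw [map_sub, map_mul, eval_C, sub_eq_zero] at h5
        rw [h5]
        ring
      rw [Finset.sum_congr rfl h4, ← Finset.mul_sum]
      have h5 : ∑ m ∈ P.support, P₀.coeff m * ∏ i, x i ^ m i = eval x P₀ := by
        rw [eval_eq']
        symm
        apply Finset.sum_subset
        · intro m hm
          by_contra h6
          rw [mem_support_iff, hcoeff, if_neg h6] at hm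
          exact hm rfl
        · intro m _ hm
          rw [notMem_support_iff.mp hm, zero_mul]
      rw [h5, h2, mul_zero]
    · -- Step A
      push Not at hall
      obtain ⟨m₁, hm₁⟩ := hall
      have hn : 0 < n := by
        rcases Nat.eq_zero_or_pos n with h0 | h0
        · subst h0
          exfalso
          have h1 : m₁ = m₀ := Subsingleton.elim _ _
          apply hm₁ 1
          rw [h1]
          simp [← hc₀]
        · exact h0
      obtain ⟨a, ℓ, hg, hord⟩ := hJ.exists_germ_ratio c₀ (P.coeff m₁) hc₀J hm₁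
      refine stepA (hg.restrict hJ hD) hn P d le_rfl ⟨m₀, hm₀, ?_⟩ ⟨m₁, fun m hm => ?_⟩
      · intro htop
        rw [meromorphicOrderAt_eq_top_iff] at htop
        have h1 := (eventually_ne_of_notMem hJ hg c₀ hc₀J).and htop
        obtain ⟨t, ht1, ht2⟩ := h1.exists
        exact ht1 ht2
      · obtain ⟨lam, hlam⟩ := hprop m hm
        have hcongr : (fun t => eval (germ a ℓ t) (P.coeff m)) =ᶠ[𝓝[≠] 0]
            ((fun _ => lam) * fun t => eval (germ a ℓ t) c₀) := by
          filter_upwards [hg.mem] with t ht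
          have h5 := ht.2 _ hlam
          rw [map_sub, map_mul, eval_C, sub_eq_zero] at h5
          exact h5
        rw [meromorphicOrderAt_congr hcongr]
        by_cases h0 : lam = 0
        · have h1 : meromorphicOrderAt ((fun _ => lam) * fun t => eval (germ a ℓ t) c₀) 0 = ⊤ := by
            rw [meromorphicOrderAt_eq_top_iff]
            exact Eventually.of_forall fun t => by simp [h0]
          rw [h1]
          exact lt_of_lt_of_le hord le_top
        · rw [meromorphicOrderAt_mul (MeromorphicAt.const lam 0)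
            (meromorphic_eval a ℓ hg.analytic c₀)]
          have h1 : meromorphicOrderAt (fun _ : ℂ => lam) 0 = 0 := by
            rw [meromorphicOrderAt_const]
            simp [h0]
          rw [h1, zero_add]
          exact hord

end Pool.Agent.Lib.MP_209724_lc
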