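import Mathlib
import Pool.Agent.Lib.MP_209724_lc.CurveBase
import Pool.Agent.Lib.MP_209724_lc.Elim

/-!
Free subvarieties of `ℂⁿ × (ℂ*)ⁿ` of dimension `n` whose projection to `(ℂ*)ⁿ` is a curve.
-/

namespace Pool.Agent.Lib.MP_209724_lc

open MvPolynomial

variable {n : ℕ}

theorem sumSymm_C (a : MvPolynomial (Fin n) ℂ) :
    (sumAlgEquiv ℂ (Fin n) (Fin n)).symm (C a) = rename Sum.inr a := by
  have h : ((sumAlgEquiv ℂ (Fin n) (Fin n)).symm.toAlgHom.toRingHom.comp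
      (C : MvPolynomial (Fin n) ℂ →+* MvPolynomial (Fin n) (MvPolynomial (Fin n) ℂ))) =
      (rename Sum.inr : MvPolynomial (Fin n) ℂ →ₐ[ℂ] MvPolynomial (Fin n ⊕ Fin n) ℂ).toRingHom := by
    apply MvPolynomial.ringHom_ext
    · intro r
      change (sumAlgEquiv ℂ (Fin n) (Fin n)).symm (C (C r)) = rename Sum.inr (C r)
      rw [sumAlgEquiv_symm_C_C, rename_C]
    · intro i
      change (sumAlgEquiv ℂ (Fin n) (Fin n)).symm (C (X i)) = rename Sum.inr (X i)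
      rw [sumAlgEquiv_symm_C_X, rename_X]
  exact DFunLike.congr_fun h a

theorem sumSymm_map (P₀ : MvPolynomial (Fin n) ℂ) :
    (sumAlgEquiv ℂ (Fin n) (Fin n)).symm (MvPolynomial.map C P₀) = rename Sum.inl P₀ := by
  have h : ((sumAlgEquiv ℂ (Fin n) (Fin n)).symm.toAlgHom.toRingHom.comp
      (MvPolynomial.map (C : ℂ →+* MvPolynomial (Fin n) ℂ))) =
      (rename Sum.inl : MvPolynomial (Fin n) ℂ →ₐ[ℂ] MvPolynomial (Fin n ⊕ Fin n) ℂ).toRingHom := by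
    apply MvPolynomial.ringHom_ext
    · intro r
      change (sumAlgEquiv ℂ (Fin n) (Fin n)).symm (MvPolynomial.map C (C r)) =
        rename Sum.inl (C r)
      rw [map_C, sumAlgEquiv_symm_C_C, rename_C]
    · intro i
      change (sumAlgEquiv ℂ (Fin n) (Fin n)).symm (MvPolynomial.map C (X i)) =
        rename Sum.inl (X i)
      rw [map_X, sumAlgEquiv_symm_X, rename_X]
  exact DFunLike.congr_fun h P₀

theorem sumSymm_mem {Q : Ideal (MvPolynomial (Fin n ⊕ Fin n) ℂ)}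
    (R : MvPolynomial (Fin n) (MvPolynomial (Fin n) ℂ))
    (h : ∀ m, rename Sum.inr (R.coeff m) ∈ Q) : (sumAlgEquiv ℂ (Fin n) (Fin n)).symm R ∈ Q := by
  rw [R.as_sum, map_sum]
  refine Ideal.sum_mem _ fun m _ => ?_
  rw [← mul_one (R.coeff m), ← C_mul_monomial, map_mul, sumSymm_C]
  exact Q.mul_mem_right _ (h m)

/-- **Exponential-algebraic closedness over curves.** -/
theorem curve_final (Q : Ideal (MvPolynomial (Fin n ⊕ Fin n) ℂ)) (hQ : Q.IsPrime)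
    (hdim : Algebra.trdeg ℂ (MvPolynomial (Fin n ⊕ Fin n) ℂ ⧸ Q) = n)
    (hcurve : Algebra.trdeg ℂ (MvPolynomial (Fin n) ℂ ⧸ Q.comap
      (rename Sum.inr : MvPolynomial (Fin n) ℂ →ₐ[ℂ] MvPolynomial (Fin n ⊕ Fin n) ℂ)) = 1)
    (hadd : ∀ m : Fin n → ℤ, m ≠ 0 → ∀ c : ℂ, ∃ x y : Fin n → ℂ, (∀ i, y i ≠ 0) ∧
      (∀ q ∈ Q, eval (Sum.elim x y) q = 0) ∧ ∑ i, (m i : ℂ) * x i ≠ c)
    (hmul : ∀ m : Fin n → ℤ, m ≠ 0 → ∀ c : ℂ, ∃ x y : Fin n → ℂ, (∀ i, y i ≠ 0) ∧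
      (∀ q ∈ Q, eval (Sum.elim x y) q = 0) ∧ ∏ i, y i ^ m i ≠ c)
    (D : MvPolynomial (Fin n) ℂ) (hD : rename Sum.inr D ∉ Q) (M : ℝ) :
    ∃ x : Fin n → ℂ, M < ‖x‖ ∧
      (∀ q ∈ Q, eval (Sum.elim x fun i => Complex.exp (x i)) q = 0) ∧
      eval (fun i => Complex.exp (x i)) D ≠ 0 := by
  classical
  set J : Ideal (MvPolynomial (Fin n) ℂ) := Q.comap
    (rename Sum.inr : MvPolynomial (Fin n) ℂ →ₐ[ℂ] MvPolynomial (Fin n ⊕ Fin n) ℂ) with hJdef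
  have hJ : IsFreeCurve J := by
    refine ⟨Ideal.IsPrime.comap _, hcurve, fun m hm c => ?_⟩
    obtain ⟨x, y, h1, h2, h3⟩ := hmul m hm c
    refine ⟨y, ⟨h1, fun f hf => ?_⟩, h3⟩
    have h4 := h2 _ (Ideal.mem_comap.mp hf)
    rw [eval_rename] at h4
    simpa using h4
  have hDJ : D ∉ J := hD
  obtain ⟨P, D', hD'J, hP0, hPc, hPQ, hsol, hirr⟩ := exists_hypersurface Q hQ hdim J rfl hcurve
  have hDD : D * D' ∉ J := fun h => (hJ.prime.mem_or_mem h).elim hDJ hD'J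
  have hkey : Solv2 P (openLocus J (D * D')) := by
    refine solv2_main hJ hDD P hP0 hPc hirr ?_
    intro P₀ c hc hcoeff m hm c'
    have h1 : (sumAlgEquiv ℂ (Fin n) (Fin n)).symm (P - MvPolynomial.map C P₀ * C c) ∈ Q := by
      apply sumSymm_mem
      intro k
      rw [coeff_sub, mul_comm, coeff_C_mul, coeff_map, mul_comm]
      exact hcoeff k
    rw [map_sub, map_mul, sumSymm_map, sumSymm_C] at h1
    have h2 : rename Sum.inl P₀ * rename Sum.inr c ∈ Q := by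
      have := Q.sub_mem hPQ h1
      rwa [sub_sub_cancel] at this
    have h3 : (rename Sum.inl P₀ : MvPolynomial (Fin n ⊕ Fin n) ℂ) ∈ Q :=
      (hQ.mem_or_mem h2).resolve_right hc
    obtain ⟨x, y, -, h4, h5⟩ := hadd m hm c'
    refine ⟨x, ?_, h5⟩
    have h6 := h4 _ h3
    rw [eval_rename] at h6
    simpa using h6
  obtain ⟨x, h1, h2, h3⟩ := hkey M
  have h4 := h3.2
  rw [map_mul] at h4
  refine ⟨x, h1, fun q hq => ?_, left_ne_zero_of_mul h4⟩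
  exact hsol q hq x _ h3.1.2 (right_ne_zero_of_mul h4) h2

end Pool.Agent.Lib.MP_209724_lc
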