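import Mathlib
import Pool.Agent.Lib.MP_209724_lc.CurveFinal

/-!
# Exponential-algebraic closedness for all free varieties whose projection to the torus is a curve

Let `V ⊆ ℂⁿ × (ℂ*)ⁿ` be an irreducible variety of dimension `n` whose projection to `(ℂ*)ⁿ` is a
curve, and which is contained in no `{∑ m i * x i = c}` and in no `{∏ y i ^ m i = c}` with
`m ∈ ℤⁿ` nonzero. Then `V` contains points `(x, exp x)` with `x` of arbitrarily large norm.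
-/

namespace Pool.Agent.Lib.MP_209724_lc.CurveProjection

open MvPolynomial

/-- Let `Q` be a prime ideal of `ℂ[x₁, …, xₙ, y₁, …, yₙ]` such that `ℂ[x, y] ⧸ Q` has transcendence
degree `n` and `ℂ[y] ⧸ (Q ∩ ℂ[y])` has transcendence degree `1`. Suppose that the set `V` of the
zeros `(x, y)` of `Q` with all `y i ≠ 0` is contained in no `{∑ m i * x i = c}` and in no
`{∏ y i ^ m i = c}` with `m ∈ ℤⁿ` nonzero. Let `D ∈ ℂ[y]`, `D ∉ Q`. Then there are `x ∈ ℂⁿ` of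
arbitrarily large norm such that `(x, exp x)` is a zero of `Q` and `D(exp x) ≠ 0`. -/
theorem result {n : ℕ} (Q : Ideal (MvPolynomial (Fin n ⊕ Fin n) ℂ)) (hQ : Q.IsPrime)
    (hdim : Algebra.trdeg ℂ (MvPolynomial (Fin n ⊕ Fin n) ℂ ⧸ Q) = n)
    (hcurve : Algebra.trdeg ℂ (MvPolynomial (Fin n) ℂ ⧸ Q.comap
      (rename Sum.inr : MvPolynomial (Fin n) ℂ →ₐ[ℂ] MvPolynomial (Fin n ⊕ Fin n) ℂ)) = 1)
    (hadd : ∀ m : Fin n → ℤ, m ≠ 0 → ∀ c : ℂ, ∃ x y : Fin n → ℂ, (∀ i, y i ≠ 0) ∧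
      (∀ q ∈ Q, eval (Sum.elim x y) q = 0) ∧ ∑ i, (m i : ℂ) * x i ≠ c)
    (hmul : ∀ m : Fin n → ℤ, m ≠ 0 → ∀ c : ℂ, ∃ x y : Fin n → ℂ, (∀ i, y i ≠ 0) ∧
      (∀ q ∈ Q, eval (Sum.elim x y) q = 0) ∧ ∏ i, y i ^ m i ≠ c)
    (D : MvPolynomial (Fin n) ℂ) (hD : rename Sum.inr D ∉ Q) (M : ℝ) :
    ∃ x : Fin n → ℂ, M < ‖x‖ ∧
      (∀ q ∈ Q, eval (Sum.elim x fun i => Complex.exp (x i)) q = 0) ∧
      eval (fun i => Complex.exp (x i)) D ≠ 0 :=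
  Pool.Agent.Lib.MP_209724_lc.curve_final Q hQ hdim hcurve hadd hmul D hD M

end Pool.Agent.Lib.MP_209724_lc.CurveProjection
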